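import Pool.Agent.Downey.Stmts

/-!
# BA: the phases
-/

set_option autoImplicit false

namespace Pool.Agent.Downey

private theorem ba_lex {a b : ℕ × ℕ} (h : ¬ lexlt a b) (hne : a ≠ b) : lexlt b a := by
  obtain ⟨a1, a2⟩ := a
  obtain ⟨b1, b2⟩ := b
  simp only [lexlt, Prod.mk.injEq, ne_eq] at *
  omega

private theorem ba_kk (g : ℕ → ℕ × ℕ) (m : ℕ) :
    kk g m ≤ m ∧ ∀ m', kk g m ≤ m' → m' < m → ¬ lexlt (g m') (g m) := by
  have hmem : m ∈ {s | ∀ m', s ≤ m' → m' < m → ¬ lexlt (g m') (g m)} :=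
    fun m' h1 h2 => by omega
  exact ⟨Nat.sInf_le hmem, Nat.sInf_mem (⟨m, hmem⟩ : Set.Nonempty _)⟩

private theorem ba_gt {g : ℕ → ℕ × ℕ} {m m1 : ℕ} (h : lexlt (g m1) (g m)) (hm : m1 < m) :
    m1 < kk g m := by
  by_contra h1
  exact (ba_kk g m).2 m1 (not_lt.1 h1) hm h

private theorem ba_min (g : ℕ → ℕ × ℕ) (m0 : ℕ) :
    ∃ m, m0 ≤ m ∧ ∀ m', m0 ≤ m' → ¬ lexlt (g m') (g m) := by
  have hwf : WellFounded (Prod.Lex (fun a b : ℕ => a < b) (fun a b : ℕ => a < b)) :=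
    WellFounded.prod_lex wellFounded_lt wellFounded_lt
  obtain ⟨v, ⟨m, hm, rfl⟩, hv⟩ := hwf.has_min {v | ∃ m, m0 ≤ m ∧ g m = v} ⟨g m0, m0, le_rfl, rfl⟩
  refine ⟨m, hm, fun m' hm' h => hv (g m') ⟨m', hm', rfl⟩ ?_⟩
  rw [Prod.lex_def]
  exact h

theorem ba_main : StmtBA := by
  intro g
  refine ⟨ba_kk g, ?_, ?_⟩
  · rintro v ⟨⟨n0, hn0⟩, hv⟩
    refine ⟨?_, ?_⟩
    · intro b
      obtain ⟨m1, hm1, hg⟩ := hv b
      refine ⟨max (m1 + 1) n0, fun m hm hne => ?_⟩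
      have h1 := ba_lex (hn0 m (by omega)) hne
      rw [← hg] at h1
      have h2 := ba_gt h1 (by omega)
      omega
    · obtain ⟨s, hs⟩ : ∃ s, s = sInf {s | ∀ m, s ≤ m → ¬ lexlt (g m) v} := ⟨_, rfl⟩
      have hs1 : ∀ m, s ≤ m → ¬ lexlt (g m) v := by
        rw [hs]
        exact Nat.sInf_mem (⟨n0, hn0⟩ : Set.Nonempty {s | ∀ m, s ≤ m → ¬ lexlt (g m) v})
      refine ⟨s, hs1, ?_⟩
      intro m hm hg
      refine le_antisymm ?_ ?_
      · apply Nat.sInf_le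
        intro m' h1 _
        rw [hg]
        exact hs1 m' h1
      · have h2 := ba_kk g m
        rw [hs]
        apply Nat.sInf_le
        intro m' h3
        rw [← hg]
        by_cases h4 : m' < m
        · exact h2.2 m' h3 h4
        · rw [hg]
          exact hs1 m' (by omega)
  · intro hno m0
    obtain ⟨m1, h1, h2⟩ := ba_min g m0
    have h3 : ∃ m, ∀ m', m ≤ m' → g m' ≠ g m1 := by
      by_contra h4
      push Not at h4
      exact hno (g m1) ⟨⟨m0, h2⟩, h4⟩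
    classical
    obtain ⟨n, hn⟩ : ∃ n, n = Nat.find h3 := ⟨_, rfl⟩
    have hn1 : ∀ m', n ≤ m' → g m' ≠ g m1 := by rw [hn]; exact Nat.find_spec h3
    have hn2 : m1 < n := by
      by_contra h4
      exact hn1 m1 (by omega) rfl
    have hn3 : g (n - 1) = g m1 := by
      by_contra h4
      have h5 := Nat.find_min h3 (by omega : n - 1 < Nat.find h3)
      apply h5
      intro m' hm'
      by_cases h6 : m' = n - 1
      · rw [h6]; exact h4
      · exact hn1 m' (by omega)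
    refine ⟨n, by omega, ?_⟩
    intro m' hm'
    have h4 := ba_lex (h2 m' (by omega)) (hn1 m' hm')
    rw [← hn3] at h4
    have h5 := ba_gt h4 (by omega)
    omega

end Pool.Agent.Downey
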