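import Pool.Agent.Downey.Stmts

/-!
# C0: total functions with lightface `Σ₁` graph are computable
-/

set_option autoImplicit false

namespace Pool.Agent.Downey

open Encodable
open Pool.Agent.NonLow (Qd Sg Dl Z Pr dec seg)

theorem c0_main : StmtC0 := by
  intro α β _ _ f h
  obtain ⟨θ, hθ, h⟩ := h
  have hseg : Computable (fun s : ℕ => seg Z s) := by
    have : Primrec (fun s : ℕ => (List.range s).map fun _ => 0) :=
      Primrec.list_map Primrec.list_range (Primrec.const 0).to₂
    exact this.to_comp
  let g : α → ℕ → Option β := fun x n =>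
    (decode (α := β) n.unpair.1).bind fun y =>
      bif θ (x, y) (seg Z n.unpair.2) then some y else none
  have hg : Computable₂ g := by
    refine Computable.option_bind (f := fun p : α × ℕ => decode (α := β) p.2.unpair.1)
      (g := fun (p : α × ℕ) (y : β) =>
        bif θ (p.1, y) (seg Z p.2.unpair.2) then some y else none) ?_ ?_
    · exact Computable.decode.comp (Computable.fst.comp (Computable.unpair.comp Computable.snd))
    · refine Computable.cond (c := fun q : (α × ℕ) × β => θ (q.1.1, q.2) (seg Z q.1.2.unpair.2))
        (f := fun q : (α × ℕ) × β => some q.2) (g := fun _ => none) ?_ ?_ (Computable.const none)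
      · exact hθ.comp ((Computable.fst.comp Computable.fst).pair Computable.snd)
          (hseg.comp (Computable.snd.comp (Computable.unpair.comp
            (Computable.snd.comp Computable.fst))))
      · exact Computable.option_some.comp Computable.snd
  have hmem : ∀ (x : α) (n : ℕ) (y : β), y ∈ g x n → f x = y := by
    intro x n y hy
    simp only [g, Option.mem_def, Option.bind_eq_some_iff] at hy
    obtain ⟨z, _, hz⟩ := hy
    cases hb : θ (x, z) (seg Z n.unpair.2) with
    | false =>
      rw [hb] at hz
      simp at hz
    | true =>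
      rw [hb] at hz
      simp only [cond_true, Option.some.injEq] at hz
      subst hz
      exact (h (x, z)).2 ⟨_, hb⟩
  have hex : ∀ x : α, ∃ n y, y ∈ g x n := by
    intro x
    obtain ⟨s, hs⟩ := (h (x, f x)).1 rfl
    refine ⟨Nat.pair (encode (f x)) s, f x, ?_⟩
    simp only [g, Nat.unpair_pair, encodek, Option.bind_some, hs, cond_true, Option.mem_def]
  have hp : Partrec (fun x : α => Nat.rfindOpt (g x)) := Partrec.rfindOpt hg
  refine hp.of_eq fun x => ?_
  have hd : (Nat.rfindOpt (g x)).Dom := Nat.rfindOpt_dom.2 (hex x)
  obtain ⟨y, hy⟩ := Part.dom_iff_mem.1 hd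
  obtain ⟨n, hn⟩ := Nat.rfindOpt_spec hy
  have he : f x = y := hmem x n y hn
  rw [Part.eq_some_iff.2 hy]
  show Part.some y = Part.some (f x)
  rw [he]

end Pool.Agent.Downey
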