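import Pool.Agent.Downey.Stmts

/-!
# C1: primitive recursion in the `Sg X 0` calculus
-/

set_option autoImplicit false

namespace Pool.Agent.Downey

open Pool.Agent.NonLow (Sg Dl Z Pr dec)

theorem c1_iff {α β : Type} (f : α → ℕ → β) (h : (α × ℕ) × β → β)
    (hf : ∀ x n, f x (n + 1) = h ((x, n), f x n)) (d : β) (x : α) (n : ℕ) (b : β) :
    f x n = b ↔ ∃ w : List β, f x 0 = w.getD 0 d ∧
      (∀ i, i < n → h ((x, i), w.getD i d) = w.getD (i + 1) d) ∧ w.getD n d = b := by
  constructor
  · rintro rfl
    have hw : ∀ i, i ≤ n → ((List.range (n + 1)).map (f x)).getD i d = f x i := by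
      intro i hi
      rw [List.getD_eq_getElem?_getD, List.getElem?_map, List.getElem?_range (by omega)]
      rfl
    refine ⟨(List.range (n + 1)).map (f x), ?_, ?_, ?_⟩
    · rw [hw 0 (Nat.zero_le _)]
    · intro i hi
      rw [hw i hi.le, hw (i + 1) hi, hf]
    · rw [hw n le_rfl]
  · rintro ⟨w, h0, hs, hn⟩
    have : ∀ i, i ≤ n → f x i = w.getD i d := by
      intro i
      induction i with
      | zero => intro _; exact h0
      | succ i ih =>
        intro hi
        rw [hf, ih (by omega), hs i (by omega)]
    rw [this n le_rfl, hn]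

theorem c1_main : StmtC1 := by
  intro X α β _ _ f h hf0 hh hrec
  by_cases hb : Nonempty β
  · obtain ⟨d⟩ := hb
    refine (Sg.ex (P := fun (q : (α × ℕ) × β) (w : List β) => f q.1.1 0 = w.getD 0 d ∧
      (∀ i, i < q.1.2 → h ((q.1.1, i), w.getD i d) = w.getD (i + 1) d) ∧ w.getD q.1.2 d = q.2)
      ?_).of_iff fun q => c1_iff f h hrec d q.1.1 q.1.2 q.2
    have hget : ∀ {γ : Type} [Primcodable γ] {w : γ → List β} {i : γ → ℕ}, Computable w →
        Computable i → Computable (fun x => (w x).getD (i x) d) := by
      intro γ _ w i hw hi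
      exact (Primrec.list_getD d).to_comp.comp hw hi
    refine Sg.and ?_ (Sg.and ?_ ?_)
    · exact hf0.comp (f := fun p : ((α × ℕ) × β) × List β => (p.1.1.1, p.2.getD 0 d))
        ((Computable.fst.comp (Computable.fst.comp Computable.fst)).pair
          (hget Computable.snd (Computable.const 0)))
    · refine Sg.ball (P := fun (p : ((α × ℕ) × β) × List β) (i : ℕ) =>
        h ((p.1.1.1, i), p.2.getD i d) = p.2.getD (i + 1) d) ?_
        (f := fun p : ((α × ℕ) × β) × List β => p.1.1.2)
        (Computable.snd.comp (Computable.fst.comp Computable.fst))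
      exact hh.comp (f := fun r : (((α × ℕ) × β) × List β) × ℕ =>
        (((r.1.1.1.1, r.2), r.1.2.getD r.2 d), r.1.2.getD (r.2 + 1) d))
        ((((Computable.fst.comp (Computable.fst.comp
          (Computable.fst.comp Computable.fst))).pair Computable.snd).pair
            (hget (Computable.snd.comp Computable.fst) Computable.snd)).pair
          (hget (Computable.snd.comp Computable.fst)
            (Computable.succ.comp Computable.snd)))
    · classical
      exact (Dl.eq (f := fun p : ((α × ℕ) × β) × List β => p.2.getD p.1.1.2 d)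
        (g := fun p : ((α × ℕ) × β) × List β => p.1.2)
        (hget Computable.snd (Computable.snd.comp (Computable.fst.comp Computable.fst)))
        (Computable.snd.comp Computable.fst)).1
  · refine Sg.of_bool (f := fun _ => false) (Computable.const false) fun q => ?_
    exact absurd ⟨q.2⟩ hb

end Pool.Agent.Downey
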