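import Pool.Agent.Downey.HC

/-!
# C2: counting and least elements
-/

set_option autoImplicit false

namespace Pool.Agent.Downey

open Pool.Agent.NonLow

theorem c2_sInf {P : ℕ → Prop} (h : ∃ n, P n) (m : ℕ) :
    sInf {n | P n} = m ↔ P m ∧ ∀ j, j < m → ¬ P j := by
  constructor
  · rintro rfl
    exact ⟨Nat.sInf_mem (s := {n | P n}) h, fun j hj => Nat.notMem_of_lt_sInf hj⟩
  · rintro ⟨h1, h2⟩
    refine le_antisymm (Nat.sInf_le h1) ?_
    by_contra h3
    exact h2 _ (not_le.1 h3) (Nat.sInf_mem (s := {n | P n}) h)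

open Classical in
theorem c2_card (h1 : StmtC1) (X : ℕ → ℕ) {α : Type} [Primcodable α] (P : α × ℕ → Prop)
    (hP : Dl X 0 P) :
    Sg X 0 (fun q : (α × ℕ) × ℕ => ((Finset.range q.1.2).filter fun j => P (q.1.1, j)).card = q.2) := by
  refine h1 X α ℕ (fun x n => ((Finset.range n).filter fun j => P (x, j)).card)
    (fun z => if P z.1 then z.2 + 1 else z.2) ?_ ?_ ?_
  · exact hc_of_comp (X := X) (f := fun _ : α => 0) (Computable.const 0)
  · exact hc_ite (X := X) (P := fun z : (α × ℕ) × ℕ => P z.1)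
      (hP.comp (f := fun z : (α × ℕ) × ℕ => z.1) Computable.fst) (hc_succ hc_v) hc_v
  · intro x n
    show ((Finset.range (n + 1)).filter fun j => P (x, j)).card =
      if P (x, n) then ((Finset.range n).filter fun j => P (x, j)).card + 1
      else ((Finset.range n).filter fun j => P (x, j)).card
    rw [Finset.range_add_one, Finset.filter_insert]
    by_cases h : P (x, n)
    · rw [if_pos h, if_pos h, Finset.card_insert_of_notMem]
      simp
    · rw [if_neg h, if_neg h]

/-- C2 -/
theorem c2_main (h1 : StmtC1) : StmtC2 := by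
  intro X α _ P hP
  refine ⟨c2_card h1 X P hP, ?_, fun hne => ?_⟩
  · exact Dl.ball (P := fun (q : α × ℕ) (j : ℕ) => P (q.1, j))
      (hP.comp (f := fun r : (α × ℕ) × ℕ => (r.1.1, r.2))
        ((Computable.fst.comp Computable.fst).pair Computable.snd)) Computable.snd
  · have hB : Dl X 0 (fun q : α × ℕ => ∀ j, j < q.2 → ¬ P (q.1, j)) :=
      Dl.ball (P := fun (q : α × ℕ) (j : ℕ) => ¬ P (q.1, j))
        ((hP.comp (f := fun r : (α × ℕ) × ℕ => (r.1.1, r.2))
          ((Computable.fst.comp Computable.fst).pair Computable.snd)).not) Computable.snd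
    exact (hP.1.and hB.1).of_iff fun q => c2_sInf (P := fun n => P (q.1, n)) (hne q.1) q.2

end Pool.Agent.Downey
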