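import Pool.Agent.Downey.Stmts
import Pool.Agent.NonLow.Comp

/-!
# Downey's question, module CC: complexity of chains
-/

set_option autoImplicit false

namespace Pool.Agent.Downey

open Pool.Agent.NonLow

theorem cc_fun {p : ℕ → Pt} (d : ℕ) : ∀ x : Node, Ch p d x ↔ ∃ f : ℕ → Node, f 0 = x ∧
    (∀ i < d + 1, Ok p (f i)) ∧ ∀ i < d, St p (f i) (f (i + 1)) := by
  induction d with
  | zero =>
    intro x
    constructor
    · intro h
      refine ⟨fun _ => x, rfl, fun i _ => h, fun i hi => absurd hi (Nat.not_lt_zero _)⟩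
    · rintro ⟨f, h0, h1, -⟩
      rw [← h0]
      exact h1 0 (by omega)
  | succ d ih =>
    intro x
    constructor
    · rintro ⟨h1, y, h2, h3⟩
      obtain ⟨f, hf0, hf1, hf2⟩ := (ih y).mp h3
      refine ⟨fun i => Nat.casesOn i x f, rfl, ?_, ?_⟩
      · intro i hi
        cases i with
        | zero => exact h1
        | succ i => exact hf1 i (by omega)
      · intro i hi
        cases i with
        | zero =>
          show St p x (f 0)
          rw [hf0]
          exact h2
        | succ i => exact hf2 i (by omega)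
    · rintro ⟨f, hf0, hf1, hf2⟩
      refine ⟨?_, f 1, ?_, (ih (f 1)).mpr ⟨fun i => f (i + 1), rfl, ?_, ?_⟩⟩
      · rw [← hf0]
        exact hf1 0 (by omega)
      · have h1 := hf2 0 (by omega)
        rwa [hf0] at h1
      · intro i hi
        exact hf1 (i + 1) (by omega)
      · intro i hi
        exact hf2 (i + 1) (by omega)

/-- a default node -/
def cc0 : Node := ((0, 0), 0)

theorem cc_list {p : ℕ → Pt} (d : ℕ) (x : Node) : Ch p d x ↔ ∃ y : List Node, y.getD 0 cc0 = x ∧
    (∀ i, i < d + 1 → Ok p (y.getD i cc0)) ∧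
      ∀ i, i < d → St p (y.getD i cc0) (y.getD (i + 1) cc0) := by
  rw [cc_fun]
  constructor
  · rintro ⟨f, hf0, hf1, hf2⟩
    have h1 : ∀ i < d + 1, ((List.range (d + 1)).map f).getD i cc0 = f i := by
      intro i hi
      rw [List.getD_eq_getElem?_getD, List.getElem?_map, List.getElem?_range hi]
      rfl
    refine ⟨(List.range (d + 1)).map f, ?_, ?_, ?_⟩
    · rw [h1 0 (by omega), hf0]
    · intro i hi
      rw [h1 i hi]
      exact hf1 i hi
    · intro i hi
      rw [h1 i (by omega), h1 (i + 1) (by omega)]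
      exact hf2 i hi
  · rintro ⟨y, h0, h1, h2⟩
    exact ⟨fun i => y.getD i cc0, h0, fun i hi => h1 i hi, fun i hi => h2 i hi⟩

/-- an insertion below the levels -/
def ccbad (o : Pt) (u : ℕ × ℕ) : Bool := o.casesOn false fun q => decide (q.2 < sel q.1 u)

theorem cc_sel : Primrec₂ (fun (c : Bool) (u : ℕ × ℕ) => sel c u) := by
  unfold sel
  exact Primrec.cond Primrec.fst (Primrec.snd.comp Primrec.snd) (Primrec.fst.comp Primrec.snd)

theorem cc_bad : Primrec₂ ccbad := by
  unfold ccbad
  refine Primrec.option_casesOn (o := fun z : Pt × (ℕ × ℕ) => z.1) (f := fun _ => false)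
    (g := fun (z : Pt × (ℕ × ℕ)) (q : Bool × ℕ) => decide (q.2 < sel q.1 z.2))
    Primrec.fst (Primrec.const false) ?_
  exact Primrec.nat_lt.decide.comp (Primrec.snd.comp Primrec.snd)
    (cc_sel.comp (Primrec.fst.comp Primrec.snd) (Primrec.snd.comp Primrec.fst))

theorem cc_not_ok (p : ℕ → Pt) (x : Node) :
    ¬ Ok p x ↔ ∃ t, x.2 ≤ t ∧ ccbad (p t) x.1 = true := by
  constructor
  · intro h
    unfold Ok Ge at h
    push Not at h
    obtain ⟨c, t, ht, k, hk, hlt⟩ := h
    refine ⟨t, ht, ?_⟩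
    rw [hk]
    show decide (k < sel c x.1) = true
    rw [decide_eq_true_iff]
    exact hlt
  · rintro ⟨t, ht, hbad⟩ hok
    cases hpt : p t with
    | none =>
      rw [hpt] at hbad
      exact absurd hbad (by simp [ccbad])
    | some q =>
      rw [hpt] at hbad
      have h1 : decide (q.2 < sel q.1 x.1) = true := hbad
      rw [decide_eq_true_iff] at h1
      have h2 := hok q.1 t ht q.2 hpt
      omega

theorem cc_ok (D : Data) (hD : D.ok) :
    Sg Z 1 (fun q : (ℕ × ℕ) × Node => Ok (D.p q.1.1 q.1.2) q.2) := by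
  refine Sg.upc ?_
  refine (Sg.ex (P := fun (q : (ℕ × ℕ) × Node) (t : ℕ) =>
    q.2.2 ≤ t ∧ ccbad (D.p q.1.1 q.1.2 t) q.2.1 = true) ?_).of_iff
      fun q => cc_not_ok (D.p q.1.1 q.1.2) q.2
  refine (Dl.le (Computable.snd.comp (Computable.snd.comp Computable.fst))
    Computable.snd).sg.and ?_
  refine Sg.of_bool (f := fun q : ((ℕ × ℕ) × Node) × ℕ =>
    ccbad (D.p q.1.1.1 q.1.1.2 q.2) q.1.2.1) ?_ (fun _ => Iff.rfl)
  refine cc_bad.to_comp.comp ?_ (Computable.fst.comp (Computable.snd.comp Computable.fst))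
  exact hD.2.comp (f := fun q : ℕ × ℕ × ℕ => D.p q.1 q.2.1 q.2.2)
    (g := fun q : ((ℕ × ℕ) × Node) × ℕ => (q.1.1.1, q.1.1.2, q.2))
    ((Computable.fst.comp (Computable.fst.comp Computable.fst)).pair
      ((Computable.snd.comp (Computable.fst.comp Computable.fst)).pair Computable.snd))

/-- graph of the counting function -/
theorem cc_cnt (h2 : StmtC2) (D : Data) (hD : D.ok) (c : Bool) :
    Sg Z 0 (fun q : ((ℕ × ℕ) × Node × Node) × ℕ =>
      cnt (D.p q.1.1.1 q.1.1.2) c (sel c q.1.2.1.1) q.1.2.1.2 q.1.2.2.2 = q.2) := by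
  classical
  have hP : Dl Z 0 (fun z : ((ℕ × ℕ) × Node × Node) × ℕ =>
      z.1.2.1.2 ≤ z.2 ∧ D.p z.1.1.1 z.1.1.2 z.2 = some (c, sel c z.1.2.1.1)) := by
    refine (Dl.le (Computable.snd.comp (Computable.fst.comp (Computable.snd.comp
      Computable.fst))) Computable.snd).and ?_
    refine Dl.eq ?_ ?_
    · exact hD.2.comp (f := fun q : ℕ × ℕ × ℕ => D.p q.1 q.2.1 q.2.2)
        (g := fun z : ((ℕ × ℕ) × Node × Node) × ℕ => (z.1.1.1, z.1.1.2, z.2))
        ((Computable.fst.comp (Computable.fst.comp Computable.fst)).pair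
          ((Computable.snd.comp (Computable.fst.comp Computable.fst)).pair Computable.snd))
    · refine Computable.option_some.comp ((Computable.const c).pair ?_)
      exact cc_sel.to_comp.comp (Computable.const c)
        (Computable.fst.comp (Computable.fst.comp (Computable.snd.comp Computable.fst)))
  have h3 := (h2 Z ((ℕ × ℕ) × Node × Node) _ hP).1
  have h4 := h3.comp (f := fun q : ((ℕ × ℕ) × Node × Node) × ℕ => ((q.1, q.1.2.2.2), q.2))
    ((Computable.fst.pair (Computable.snd.comp (Computable.snd.comp (Computable.snd.comp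
      Computable.fst)))).pair Computable.snd)
  refine h4.of_iff fun q => ?_
  have h5 : cnt (D.p q.1.1.1 q.1.1.2) c (sel c q.1.2.1.1) q.1.2.1.2 q.1.2.2.2 =
      ((Finset.range q.1.2.2.2).filter fun j => q.1.2.1.2 ≤ j ∧
        D.p q.1.1.1 q.1.1.2 j = some (c, sel c q.1.2.1.1)).card := by
    unfold cnt
    congr 1
    ext t
    simp only [Finset.mem_filter, Finset.mem_Ico, Finset.mem_range]
    tauto
  rw [h5]
  refine Eq.congr_left ?_
  congr 1
  ext t
  simp only [Finset.mem_filter]

theorem cc_st (h2 : StmtC2) (D : Data) (hD : D.ok) (c : Bool) :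
    Sg Z 0 (fun q : (ℕ × ℕ) × Node × Node => sel c q.2.1.1 < sel c q.2.2.1 ∧
      sel c q.2.2.1 < sel c q.2.1.1 + cnt (D.p q.1.1 q.1.2) c (sel c q.2.1.1) q.2.1.2 q.2.2.2) := by
  have hx : Computable (fun q : (ℕ × ℕ) × Node × Node => sel c q.2.1.1) :=
    cc_sel.to_comp.comp (Computable.const c)
      (Computable.fst.comp (Computable.fst.comp Computable.snd))
  have hy : Computable (fun q : (ℕ × ℕ) × Node × Node => sel c q.2.2.1) :=
    cc_sel.to_comp.comp (Computable.const c)
      (Computable.fst.comp (Computable.snd.comp Computable.snd))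
  refine (Dl.lt hx hy).sg.and ?_
  refine (Sg.ex (P := fun (q : (ℕ × ℕ) × Node × Node) (n : ℕ) =>
    cnt (D.p q.1.1 q.1.2) c (sel c q.2.1.1) q.2.1.2 q.2.2.2 = n ∧
      sel c q.2.2.1 < sel c q.2.1.1 + n) ?_).of_iff ?_
  · refine (cc_cnt h2 D hD c).and ?_
    exact (Dl.lt (hy.comp Computable.fst)
      (Primrec.nat_add.to_comp.comp (hx.comp Computable.fst) Computable.snd)).sg
  · intro q
    constructor
    · intro h
      exact ⟨_, rfl, h⟩
    · rintro ⟨n, hn, h⟩
      rwa [hn]

theorem cc_step (h2 : StmtC2) (D : Data) (hD : D.ok) :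
    Sg Z 0 (fun q : (ℕ × ℕ) × Node × Node => St (D.p q.1.1 q.1.2) q.2.1 q.2.2) := by
  refine ((Dl.lt (Computable.snd.comp (Computable.fst.comp Computable.snd))
    (Computable.snd.comp (Computable.snd.comp Computable.snd))).sg.and
    ((cc_st h2 D hD false).and (cc_st h2 D hD true))).of_iff fun q => ?_
  unfold St
  rw [Bool.forall_bool]

theorem cc_main (h2 : StmtC2) : StmtCC := by
  intro D hD
  refine (Sg.ex (P := fun (q : (ℕ × ℕ) × Node × ℕ) (y : List Node) =>
    y.getD 0 cc0 = q.2.1 ∧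
    (∀ i, i < q.2.2 + 1 → Ok (D.p q.1.1 q.1.2) (y.getD i cc0)) ∧
      ∀ i, i < q.2.2 → St (D.p q.1.1 q.1.2) (y.getD i cc0) (y.getD (i + 1) cc0)) ?_).of_iff
    fun q => cc_list q.2.2 q.2.1
  have hget : Computable₂ (fun (y : List Node) (i : ℕ) => y.getD i cc0) :=
    (Primrec.list_getD cc0).to_comp
  refine Sg.and ?_ (Sg.and ?_ ?_)
  · exact (Dl.eq (hget.comp Computable.snd (Computable.const 0))
      (Computable.fst.comp (Computable.snd.comp Computable.fst))).sg
  · refine Sg.ball (P := fun (z : ((ℕ × ℕ) × Node × ℕ) × List Node) (i : ℕ) =>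
      Ok (D.p z.1.1.1 z.1.1.2) (z.2.getD i cc0)) ?_
      (Computable.succ.comp (Computable.snd.comp (Computable.snd.comp Computable.fst)))
    exact (cc_ok D hD).comp (f := fun z : (((ℕ × ℕ) × Node × ℕ) × List Node) × ℕ =>
      (z.1.1.1, z.1.2.getD z.2 cc0))
      ((Computable.fst.comp (Computable.fst.comp Computable.fst)).pair
        (hget.comp (Computable.snd.comp Computable.fst) Computable.snd))
  · refine Sg.ball (P := fun (z : ((ℕ × ℕ) × Node × ℕ) × List Node) (i : ℕ) =>
      St (D.p z.1.1.1 z.1.1.2) (z.2.getD i cc0) (z.2.getD (i + 1) cc0)) ?_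
      (Computable.snd.comp (Computable.snd.comp Computable.fst))
    exact ((cc_step h2 D hD).up).comp (f := fun z : (((ℕ × ℕ) × Node × ℕ) × List Node) × ℕ =>
      (z.1.1.1, z.1.2.getD z.2 cc0, z.1.2.getD (z.2 + 1) cc0))
      ((Computable.fst.comp (Computable.fst.comp Computable.fst)).pair
        ((hget.comp (Computable.snd.comp Computable.fst) Computable.snd).pair
          (hget.comp (Computable.snd.comp Computable.fst)
            (Computable.succ.comp Computable.snd))))

end Pool.Agent.Downey
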