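import Pool.Agent.Downey.Stmts

/-!
# The dichotomy (module DI): Miller–Martin for oracles all of whose `Σ₁` sets are `Δ₂`
-/

set_option autoImplicit false

namespace Pool.Agent.Downey

open Pool.Agent.NonLow (Qd Sg Dl Z Pr dec S1 seg)

/-- finitely many limits are reached simultaneously -/
theorem di_bound (R : ℕ → ℕ → Prop) (h : ∀ k, ∃ s0, ∀ s, s0 ≤ s → R k s) (n : ℕ) :
    ∃ s0, ∀ k, k < n → ∀ s, s0 ≤ s → R k s := by
  induction n with
  | zero => exact ⟨0, fun k hk => absurd hk (Nat.not_lt_zero _)⟩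
  | succ n ih =>
    obtain ⟨s0, h0⟩ := ih
    obtain ⟨s1, h1⟩ := h n
    refine ⟨max s0 s1, fun k hk s hs => ?_⟩
    rcases Nat.lt_succ_iff_lt_or_eq.mp hk with h' | h'
    · exact h0 k h' s ((le_max_left _ _).trans hs)
    · subst h'
      exact h1 s ((le_max_right _ _).trans hs)

/-- the limit lemma for functions with `Σ₂` graph -/
theorem di_limit (h2 : StmtC2) (h0 : StmtC0) (X : ℕ → ℕ)
    (h : Sg Z 1 (fun q : ℕ × ℕ => X q.1 = q.2)) :
    ∃ x : ℕ × ℕ → ℕ, Computable x ∧ ∀ k, ∃ s0, ∀ s, s0 ≤ s → x (k, s) = X k := by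
  obtain ⟨Q, hQ, hX⟩ := h
  obtain ⟨θ, hθ, h3, hm⟩ := S1.mono_form hQ
  set P : (ℕ × ℕ) × ℕ → Prop := fun q =>
    q.2 = q.1.2 ∨ ¬ θ ((q.1.1, q.2.unpair.1), q.2.unpair.2) (seg Z q.1.2) = true with hP
  have dP : Dl Z 0 P := by
    refine (Dl.eq Computable.snd (Computable.snd.comp Computable.fst)).or ?_
    have hc : Computable (fun q : (ℕ × ℕ) × ℕ =>
        (((q.1.1, q.2.unpair.1), q.2.unpair.2), q.1.2)) :=
      (((Computable.fst.comp Computable.fst).pair
        (Computable.fst.comp (Computable.unpair.comp Computable.snd))).pair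
        (Computable.snd.comp (Computable.unpair.comp Computable.snd))).pair
        (Computable.snd.comp Computable.fst)
    exact ((Dl.seg Z hθ).comp hc).not
  have hex : ∀ q : ℕ × ℕ, ∃ n, P (q, n) := fun q => ⟨q.2, Or.inl rfl⟩
  have hN := (h2 Z (ℕ × ℕ) P dP).2.2 hex
  have hNc : Computable (fun q : ℕ × ℕ => sInf {n | P (q, n)}) := h0 _ _ _ hN
  refine ⟨fun q => (sInf {n | P (q, n)}).unpair.1,
    Computable.fst.comp (Computable.unpair.comp hNc), fun k => ?_⟩
  -- the least index which is never refuted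
  have hex2 : ∃ p : ℕ, ∀ s, ¬ θ ((k, p.unpair.1), p.unpair.2) (seg Z s) = true := by
    obtain ⟨a, ha⟩ := (hX (k, X k)).1 rfl
    refine ⟨Nat.pair (X k) a, fun s hs => ?_⟩
    rw [Nat.unpair_pair] at hs
    exact (h3 _).2 ⟨s, hs⟩ ha
  classical
  obtain ⟨p0, hp0, hmin⟩ : ∃ p0 : ℕ, (∀ s, ¬ θ ((k, p0.unpair.1), p0.unpair.2) (seg Z s) = true) ∧
      ∀ p, p < p0 → ∃ s, θ ((k, p.unpair.1), p.unpair.2) (seg Z s) = true := by
    refine ⟨Nat.find hex2, Nat.find_spec hex2, fun p hp => ?_⟩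
    have := Nat.find_min hex2 hp
    push Not at this
    exact this
  obtain ⟨s0, hs0⟩ := di_bound
    (fun p s => p < p0 → θ ((k, p.unpair.1), p.unpair.2) (seg Z s) = true)
    (fun p => by
      by_cases hp : p < p0
      · obtain ⟨s, hs⟩ := hmin p hp
        exact ⟨s, fun s' hs' _ => hm _ _ _ hs' hs⟩
      · exact ⟨0, fun _ _ h => absurd h hp⟩) p0
  have hv : X k = p0.unpair.1 := by
    refine (hX (k, p0.unpair.1)).2 ⟨p0.unpair.2, ?_⟩
    by_contra hc
    obtain ⟨s, hs⟩ := (h3 ((k, p0.unpair.1), p0.unpair.2)).1 hc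
    exact hp0 s hs
  refine ⟨max s0 p0, fun s hs => ?_⟩
  have e : sInf {n | P ((k, s), n)} = p0 := by
    apply le_antisymm
    · exact Nat.sInf_le (show P ((k, s), p0) from Or.inr (hp0 s))
    · have hmem : P ((k, s), sInf {n | P ((k, s), n)}) := Nat.sInf_mem (hex (k, s))
      by_contra hc
      rw [not_le] at hc
      rcases hmem with h4 | h4
      · have : p0 ≤ s := (le_max_right _ _).trans hs
        simp only at h4
        omega
      · exact h4 (hs0 _ hc s ((le_max_left _ _).trans hs) hc)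
  show (sInf {n | P ((k, s), n)}).unpair.1 = X k
  rw [e, hv]

/-- DI: the dichotomy -/
theorem di_main (h1 : StmtC1) (h2 : StmtC2) (h0 : StmtC0) : StmtDI := by
  have _ := h1
  intro X hX
  by_cases hA : ∃ A : ℕ → Prop, Sg X 0 A ∧ ¬ Dl Z 1 A
  · exact Or.inl hA
  right
  push Not at hA
  have hg : Dl Z 1 (fun n : ℕ => X n.unpair.1 = n.unpair.2) :=
    hA _ ((Dl.oracle X).comp (f := fun n : ℕ => n.unpair) Computable.unpair).1
  have hg2 : Sg Z 1 (fun q : ℕ × ℕ => X q.1 = q.2) :=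
    (hg.1.comp (f := fun q : ℕ × ℕ => Nat.pair q.1 q.2) Primrec₂.natPair.to_comp).of_iff
      (by simp)
  obtain ⟨x, hx, hlim⟩ := di_limit h2 h0 X hg2
  set P : ℕ × ℕ → Prop := fun q => q.1 ≤ q.2 ∧ ∀ k, k < q.1 + 1 → x (k, q.2) = X k with hP
  have dP : Dl X 0 P := by
    refine (Dl.le Computable.fst Computable.snd).and
      (Dl.ball (P := fun (q : ℕ × ℕ) (k : ℕ) => x (k, q.2) = X k) ?_
        (f := fun q : ℕ × ℕ => q.1 + 1) (Computable.succ.comp Computable.fst))
    have hc : Computable (fun p : (ℕ × ℕ) × ℕ => (p.2, x (p.2, p.1.2))) :=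
      Computable.snd.pair
        (hx.comp (Computable.snd.pair (Computable.snd.comp Computable.fst)))
    exact ((Dl.oracle X).comp hc).of_iff fun p => eq_comm
  have hex : ∀ m : ℕ, ∃ n, P (m, n) := by
    intro m
    obtain ⟨s0, hs0⟩ := di_bound (fun k s => x (k, s) = X k) hlim (m + 1)
    exact ⟨max m s0, le_max_left _ _, fun k hk => hs0 k hk _ (le_max_right _ _)⟩
  have hC := (h2 X ℕ P dP).2.2 hex
  set C : ℕ → ℕ := fun m => sInf {n | P (m, n)} with hCdef
  have hCm : ∀ m, P (m, C m) := fun m => Nat.sInf_mem (hex m)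
  have hCmono : ∀ m, C m ≤ C (m + 1) := by
    intro m
    refine Nat.sInf_le (show P (m, C (m + 1)) from ?_)
    obtain ⟨h3, h4⟩ := hCm (m + 1)
    exact ⟨by simp only at h3 ⊢; omega, fun k hk => h4 k (by simp only at hk ⊢; omega)⟩
  refine ⟨fun m => C m + m, ⟨strictMono_nat_of_lt_succ fun m => ?_, ?_⟩, ?_⟩
  · have := hCmono m
    show C m + m < C (m + 1) + (m + 1)
    omega
  · intro h hh n0
    by_contra hc
    push Not at hc
    apply hX
    apply h0 ℕ ℕ X
    have key : ∀ q : ℕ × ℕ, X q.1 = q.2 ↔ ∃ m, (q.1 ≤ m ∧ n0 ≤ m) ∧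
        ∀ s, s < h m → (m ≤ s → x (q.1, s) = q.2) := by
      rintro ⟨k, v⟩
      constructor
      · intro hk
        obtain ⟨s0, hs0⟩ := hlim k
        refine ⟨max (max k n0) s0, ⟨?_, ?_⟩, fun s _ hs => ?_⟩
        · exact (le_max_left _ _).trans (le_max_left _ _)
        · exact (le_max_right _ _).trans (le_max_left _ _)
        · exact (hs0 s ((le_max_right _ _).trans hs)).trans hk
      · rintro ⟨m, ⟨hm1, hm2⟩, hm3⟩
        obtain ⟨h3, h4⟩ := hCm m
        have h5 : C m + m < h m := hc m hm2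
        have h6 := hm3 (C m) (by omega) h3
        rw [← h4 k (Nat.lt_succ_of_le hm1)]
        exact h6
    refine Sg.of_iff ?_ key
    refine Sg.exN (P := fun (q : ℕ × ℕ) (m : ℕ) => (q.1 ≤ m ∧ n0 ≤ m) ∧
        ∀ s, s < h m → (m ≤ s → x (q.1, s) = q.2)) ?_
    have a1 : Dl Z 0 (fun p : (ℕ × ℕ) × ℕ => p.1.1 ≤ p.2 ∧ n0 ≤ p.2) :=
      (Dl.le (Computable.fst.comp Computable.fst) Computable.snd).and
        (Dl.le (Computable.const n0) Computable.snd)
    have a2 : Dl Z 0 (fun p : ((ℕ × ℕ) × ℕ) × ℕ => p.1.2 ≤ p.2 → x (p.1.1.1, p.2) = p.1.1.2) := by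
      refine (Dl.le (Computable.snd.comp Computable.fst) Computable.snd).imp (Dl.eq ?_ ?_)
      · exact hx.comp ((Computable.fst.comp (Computable.fst.comp Computable.fst)).pair
          Computable.snd)
      · exact Computable.snd.comp (Computable.fst.comp Computable.fst)
    have a3 : Dl Z 0 (fun p : (ℕ × ℕ) × ℕ => ∀ s, s < h p.2 → (p.2 ≤ s → x (p.1.1, s) = p.1.2)) :=
      Dl.ball (P := fun (p : (ℕ × ℕ) × ℕ) (s : ℕ) => p.2 ≤ s → x (p.1.1, s) = p.1.2) a2
        (f := fun p : (ℕ × ℕ) × ℕ => h p.2) (hh.comp Computable.snd)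
    exact (a1.and a3).1
  · refine Sg.fsub (P := fun (q : ℕ × ℕ) (c : ℕ) => c + q.1 = q.2) (f := fun q : ℕ × ℕ => C q.1)
      ?_ ?_
    · exact hC.comp (f := fun p : (ℕ × ℕ) × ℕ => (p.1.1, p.2))
        ((Computable.fst.comp Computable.fst).pair Computable.snd)
    · exact (Dl.eq (Primrec.nat_add.to_comp.comp Computable.snd
        (Computable.fst.comp Computable.fst)) (Computable.snd.comp Computable.fst)).1

end Pool.Agent.Downey
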