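import Pool.Agent.Downey.Stmts

/-!
Module `DL`: idle times are harmless.
-/

set_option autoImplicit false

namespace Pool.Agent.Downey

section DL

variable {P q : ℕ → Pt} {cur : ℕ → ℕ}

lemma DL_mono
    (h1 : ∀ s, (cur (s + 1) = cur s + 1 ∧ P s = q (cur s)) ∨ (cur (s + 1) = cur s ∧ P s = none)) :
    Monotone cur := by
  apply monotone_nat_of_le_succ
  intro s
  rcases h1 s with h | h <;> omega

lemma DL_act
    (h1 : ∀ s, (cur (s + 1) = cur s + 1 ∧ P s = q (cur s)) ∨ (cur (s + 1) = cur s ∧ P s = none))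
    {t : ℕ} {x : Bool × ℕ} (ht : P t = some x) : cur (t + 1) = cur t + 1 ∧ q (cur t) = some x := by
  rcases h1 t with h | h
  · exact ⟨h.1, by rw [← h.2]; exact ht⟩
  · rw [h.2] at ht; exact absurd ht (by simp)

lemma DL_exists (h0 : cur 0 = 0)
    (h1 : ∀ s, (cur (s + 1) = cur s + 1 ∧ P s = q (cur s)) ∨ (cur (s + 1) = cur s ∧ P s = none))
    (h2 : ∀ n, ∃ s, n ≤ cur s) (i : ℕ) : ∃ t, cur t = i ∧ cur (t + 1) = i + 1 ∧ P t = q i := by
  classical
  have hex : ∃ s, i + 1 ≤ cur s := h2 (i + 1)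
  let s := Nat.find hex
  have hs : i + 1 ≤ cur s := Nat.find_spec hex
  have hmin : ∀ m, m < s → ¬ i + 1 ≤ cur m := fun m hm => Nat.find_min hex hm
  have hs0 : s ≠ 0 := by
    intro h
    rw [h, h0] at hs
    omega
  obtain ⟨t, ht⟩ := Nat.exists_eq_succ_of_ne_zero hs0
  have hs' : i + 1 ≤ cur (t + 1) := by
    have := hs
    rw [ht] at this
    exact this
  have hlt : ¬ i + 1 ≤ cur t := hmin t (by rw [ht]; exact Nat.lt_succ_self t)
  rcases h1 t with h | h
  · have e : cur t = i := by omega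
    refine ⟨t, e, by omega, ?_⟩
    rw [h.2, e]
  · omega

lemma DL_exists' (h0 : cur 0 = 0)
    (h1 : ∀ s, (cur (s + 1) = cur s + 1 ∧ P s = q (cur s)) ∨ (cur (s + 1) = cur s ∧ P s = none))
    (h2 : ∀ n, ∃ s, n ≤ cur s) {a i : ℕ} (hi : cur a ≤ i) : ∃ t, a ≤ t ∧ P t = q i := by
  obtain ⟨t, ht1, ht2, ht3⟩ := DL_exists h0 h1 h2 i
  refine ⟨t, ?_, ht3⟩
  by_contra hlt
  have : cur (t + 1) ≤ cur a := DL_mono h1 (by omega)
  omega

lemma DL_ge (h0 : cur 0 = 0)
    (h1 : ∀ s, (cur (s + 1) = cur s + 1 ∧ P s = q (cur s)) ∨ (cur (s + 1) = cur s ∧ P s = none))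
    (h2 : ∀ n, ∃ s, n ≤ cur s) {c : Bool} {a v : ℕ} (h : Ge P c a v) : Ge q c (cur a) v := by
  intro i hi k hk
  obtain ⟨t, hat, ht⟩ := DL_exists' h0 h1 h2 hi
  exact h t hat k (by rw [ht]; exact hk)

lemma DL_cnt
    (h1 : ∀ s, (cur (s + 1) = cur s + 1 ∧ P s = q (cur s)) ∨ (cur (s + 1) = cur s ∧ P s = none))
    (c : Bool) (v a b : ℕ) : cnt P c v a b ≤ cnt q c v (cur a) (cur b) := by
  have hm := DL_mono h1
  unfold cnt
  apply Finset.card_le_card_of_injOn cur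
  · intro t ht
    rw [Finset.mem_coe, Finset.mem_filter, Finset.mem_Ico] at ht
    obtain ⟨⟨hat, htb⟩, htP⟩ := ht
    obtain ⟨ha1, ha2⟩ := DL_act h1 htP
    rw [Finset.mem_coe, Finset.mem_filter, Finset.mem_Ico]
    refine ⟨⟨hm hat, ?_⟩, ha2⟩
    have : cur (t + 1) ≤ cur b := hm htb
    omega
  · intro t ht t' ht' he
    rw [Finset.mem_coe, Finset.mem_filter] at ht ht'
    have ha := (DL_act h1 ht.2).1
    have ha' := (DL_act h1 ht'.2).1
    rcases lt_trichotomy t t' with h | h | h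
    · have : cur (t + 1) ≤ cur t' := hm h
      omega
    · exact h
    · have : cur (t' + 1) ≤ cur t := hm h
      omega

lemma DL_ch (h0 : cur 0 = 0)
    (h1 : ∀ s, (cur (s + 1) = cur s + 1 ∧ P s = q (cur s)) ∨ (cur (s + 1) = cur s ∧ P s = none))
    (h2 : ∀ n, ∃ s, n ≤ cur s) : ∀ (d : ℕ) (x : Node), Ch P d x → Ch q d (x.1, cur x.2) := by
  intro d
  induction d with
  | zero =>
    intro x hx c
    exact DL_ge h0 h1 h2 (hx c)
  | succ d ih =>
    rintro x ⟨hok, y, ⟨hxy, hst⟩, hy⟩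
    refine ⟨fun c => DL_ge h0 h1 h2 (hok c), (y.1, cur y.2), ⟨?_, ?_⟩, ih y hy⟩
    · -- strictness of times follows from a positive count
      have h3 := hst true
      have hpos : 0 < cnt P true (sel true x.1) x.2 y.2 := by omega
      unfold cnt at hpos
      obtain ⟨t, ht⟩ := Finset.card_pos.mp hpos
      rw [Finset.mem_filter, Finset.mem_Ico] at ht
      obtain ⟨⟨hat, htb⟩, htP⟩ := ht
      have ha := (DL_act h1 htP).1
      have hm := DL_mono h1
      have e1 : cur x.2 ≤ cur t := hm hat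
      have e2 : cur (t + 1) ≤ cur y.2 := hm htb
      show cur x.2 < cur y.2
      omega
    · intro c
      have h3 := hst c
      have h4 := DL_cnt h1 c (sel c x.1) x.2 y.2
      refine ⟨h3.1, ?_⟩
      show sel c y.1 < sel c x.1 + cnt q c (sel c x.1) (cur x.2) (cur y.2)
      omega

end DL

theorem dl_main : StmtDelay := by
  rintro P q ⟨cur, h0, h1, h2⟩
  refine ⟨?_, ?_⟩
  · rintro c v ⟨⟨a, ha⟩, hinf⟩
    refine ⟨?_, ?_⟩
    · obtain ⟨s, hs⟩ := h2 a
      refine ⟨s, fun t ht k hk => ?_⟩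
      have hm := DL_mono h1
      have : cur s ≤ cur t := hm ht
      exact ha (cur t) (by omega) k (DL_act h1 hk).2
    · intro a
      obtain ⟨i, hi, hq⟩ := hinf (cur a)
      obtain ⟨t, hat, ht⟩ := DL_exists' h0 h1 h2 hi
      exact ⟨t, hat, by rw [ht]; exact hq⟩
  · rintro ⟨x, hx⟩
    exact ⟨(x.1, cur x.2), fun d => DL_ch h0 h1 h2 d x (hx d)⟩

end Pool.Agent.Downey
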