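import Pool.Agent.Downey.Stmts

/-!
# Module DO: computable oracles
-/

set_option autoImplicit false

namespace Pool.Agent.Downey

open Pool.Agent.NonLow (Sg Z seg)

theorem do_seg {X : ℕ → ℕ} (hX : Computable X) : Computable (fun s : ℕ => seg X s) := by
  have h : Computable (fun s : ℕ =>
      (Nat.rec ([] : List ℕ) (fun y IH => IH ++ [X y]) s : List ℕ)) :=
    Computable.nat_rec Computable.id (Computable.const [])
      ((Computable.list_concat.comp (Computable.snd.comp Computable.snd)
        (hX.comp (Computable.fst.comp Computable.snd))).to₂)
  refine h.of_eq fun s => ?_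
  induction s with
  | zero => rfl
  | succ s ih =>
    show (Nat.rec ([] : List ℕ) (fun y IH => IH ++ [X y]) s : List ℕ) ++ [X s] = _
    rw [ih]
    unfold seg
    rw [List.range_succ, List.map_append, List.map_singleton]

theorem do_main : StmtDO := by
  intro X hX α _ P h
  obtain ⟨θ, hθ, hP⟩ := h
  refine ⟨fun x l => θ x (seg X l.length), ?_, fun x => ?_⟩
  · exact hθ.comp Computable.fst ((do_seg hX).comp (Computable.list_length.comp Computable.snd))
  · rw [hP]
    have hl : ∀ s, (seg Z s).length = s := fun s => by simp [seg]
    simp only [hl]

end Pool.Agent.Downey
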