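import Pool.Agent.NonLow.Stmts2

/-!
# A linear order whose degree spectrum is the set of all nonzero degrees: definitions

The paper proof is `Downey_paper.md` (team store).  The arithmetical hierarchy calculus
(`Sg`, `Dl`), presentations (`Pr`), the coloured rationals `Qd` and the interface with Turing
reducibility come from `Pool.Agent.NonLow`.
-/

set_option autoImplicit false

namespace Pool.Agent.Downey

open Pool.Agent.NonLow (Qd Sg Dl Z Pr dec)

/-! ## Contents from level functions -/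

/-- the number of elements at stage `m` -/
def zz (n0 m : ℕ) : ℕ := n0 * 2 ^ m

/-- position at the next stage of the element at position `i`, when the level is `v` -/
def push (v i : ℕ) : ℕ := if i < v then i else 2 * i + 1 - v

/-- position at stage `m + r` of the element which is at position `i` at stage `m` -/
def pos (l : ℕ → ℕ) (m : ℕ) : ℕ → ℕ → ℕ
  | 0, i => i
  | r + 1, i => push (l (m + r)) (pos l m r i)

/-- the rational key of the element at position `i` of stage `m`: at stage `m + 1` a new element is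
put immediately before each old element at a position `≥ l m` -/
def key (l : ℕ → ℕ) : ℕ → ℕ → ℚ
  | 0, i => (i : ℚ)
  | m + 1, i =>
    if i < l m then key l m i
    else if (i - l m) % 2 = 1 then key l m ((i + l m - 1) / 2)
    else (key l m ((i + l m) / 2 - 1) + key l m ((i + l m) / 2)) / 2

/-- the content with level function `l` and `n0` elements at stage `0` -/
abbrev KK (l : ℕ → ℕ) (n0 : ℕ) : Type := {q : ℚ // ∃ m i, i < zz n0 m ∧ key l m i = q}

/-- `liminf l = k` -/
def Fin1 (l : ℕ → ℕ) (k : ℕ) : Prop := (∃ m0, ∀ m, m0 ≤ m → k ≤ l m) ∧ ∀ m0, ∃ m, m0 ≤ m ∧ l m = k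

/-- infinitely often all elements present are frozen for ever -/
def Inf1 (l : ℕ → ℕ) (n0 : ℕ) : Prop := ∀ m0, ∃ m, m0 ≤ m ∧ ∀ m', m ≤ m' → zz n0 m ≤ l m'

/-! ## Components and the orders -/

/-- types of components: label, sizes of the left and the right content (`none`: both `ω`) -/
abbrev Typ : Type := ℕ × Option (ℕ × ℕ)

/-- canonical contents: `ω` and `k + η` -/
def Cn : Option ℕ → Type
  | none => ℕ
  | some k => Lex (Fin k ⊕ Qd)

noncomputable instance : ∀ o, LinearOrder (Cn o)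
  | none => inferInstanceAs (LinearOrder ℕ)
  | some k => inferInstanceAs (LinearOrder (Lex (Fin k ⊕ Qd)))

/-- `1 + A* + η + B_{2e+3} + η + B + 1` -/
abbrev CT (e : ℕ) (A B : Type) : Type :=
  Unit ⊕ₗ (Aᵒᵈ ⊕ₗ (Qd ⊕ₗ (Fin (2 * e + 3) ⊕ₗ (Qd ⊕ₗ (B ⊕ₗ Unit)))))

/-- the sum over `q ∈ η` of the components with number `q.col` -/
abbrev LL (e : ℕ → ℕ) (A B : ℕ → Type) : Type :=
  Σₗ q : Qd, CT (e q.col) (A q.col) (B q.col)

/-- the canonical order with component types `t 0, t 1, …`, each type occurring densely -/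
abbrev Lo (t : ℕ → Typ) : Type :=
  LL (fun i => (t i).1) (fun i => Cn ((t i).2.map Prod.fst)) (fun i => Cn ((t i).2.map Prod.snd))

/-! ## Invariants of linear orders -/

section inv
variable {M : Type} [LinearOrder M]

/-- `x` is a location with label `e`: `x 0 … x (2e+2)` is the label block, `x (2e+3)`, `x (2e+4)`
are the first two elements of the left content, `x (2e+5)`, `x (2e+6)` those of the right one -/
structure Loc (e : ℕ) (x : ℕ → M) : Prop where
  chain : ∀ i < 2 * e + 2, x i ⋖ x (i + 1)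
  ltL : x (2 * e + 3) < x 0
  denseL : ∀ y z, x (2 * e + 3) ≤ y → y < z → z ≤ x 0 → ∃ w, y < w ∧ w < z
  covL : x (2 * e + 4) ⋖ x (2 * e + 3)
  ltR : x (2 * e + 2) < x (2 * e + 5)
  denseR : ∀ y z, x (2 * e + 2) ≤ y → y < z → z ≤ x (2 * e + 5) → ∃ w, y < w ∧ w < z
  covR : x (2 * e + 5) ⋖ x (2 * e + 6)

/-- exactly `k` elements `≥ s` are at finite distance from `s`, and the last one of them is not the
last element -/
def RB (s : M) (k : ℕ) : Prop :=
  ∃ x : ℕ → M, x 0 = s ∧ (∀ i, i + 1 < k → x i ⋖ x (i + 1)) ∧ (∀ z, ¬ x (k - 1) ⋖ z) ∧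
    ∃ z, x (k - 1) < z

/-- the mirror image of `RB` -/
def LB (s : M) (k : ℕ) : Prop := RB (M := Mᵒᵈ) (OrderDual.toDual s) k

/-- `[s, b)` is isomorphic to `ω` for some `b` -/
def RO (s : M) : Prop :=
  ∃ b, s < b ∧ {y : M | s ≤ y ∧ y < b}.Infinite ∧
    ∀ g, s ≤ g → g < b → {y : M | s ≤ y ∧ y < g}.Finite

end inv

/-! ## Insertion sequences and chains

`p t = some (c, k)`: at time `t` an element is inserted at position `k` of the content `c`
(`false`: left, `true`: right). -/

/-- a component of a vector -/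
def sel (c : Bool) (u : ℕ × ℕ) : ℕ := cond c u.2 u.1

/-- the value of an insertion sequence -/
abbrev Pt : Type := Option (Bool × ℕ)

/-- a vector of levels and a time -/
abbrev Node : Type := (ℕ × ℕ) × ℕ

section chains
variable (p : ℕ → Pt)

/-- from time `a` on all insertions into content `c` are at positions `≥ v` -/
def Ge (c : Bool) (a v : ℕ) : Prop := ∀ t, a ≤ t → ∀ k, p t = some (c, k) → v ≤ k

/-- the limit inferior of the positions of insertions into `c` is the finite number `v` -/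
def Lim (c : Bool) (v : ℕ) : Prop := (∃ a, Ge p c a v) ∧ ∀ a, ∃ t, a ≤ t ∧ p t = some (c, v)

/-- the number of insertions at position `v` of `c` at times in `[a, b)` -/
def cnt (c : Bool) (v a b : ℕ) : ℕ := ((Finset.Ico a b).filter fun t => p t = some (c, v)).card

/-- nothing happens below the levels of the node after its time -/
def Ok (x : Node) : Prop := ∀ c, Ge p c x.2 (sel c x.1)

/-- a step of a chain -/
def St (x y : Node) : Prop :=
  x.2 < y.2 ∧ ∀ c, sel c x.1 < sel c y.1 ∧
    sel c y.1 < sel c x.1 + cnt p c (sel c x.1) x.2 y.2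

/-- there is a chain of length `d` starting with `x` -/
def Ch : ℕ → Node → Prop
  | 0, x => Ok p x
  | d + 1, x => Ok p x ∧ ∃ y, St p x y ∧ Ch d y

/-- there are arbitrarily long chains starting with `x` -/
def Ex (x : Node) : Prop := ∀ d, Ch p d x

/-- there are arbitrarily long chains with some starting node -/
def EE : Prop := ∃ x, Ex p x

/-- `v` is the minimum of the positions of insertions into `c` from time `a` on -/
def NA (c : Bool) (a v : ℕ) : Prop := Ge p c a v ∧ ∃ t, a ≤ t ∧ p t = some (c, v)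

end chains

/-! ## The families of types -/

/-- the data from which the families are built -/
structure Data where
  Tr : ℕ × ℕ → Prop
  p : ℕ → ℕ → ℕ → Pt

/-- the complexity of the data -/
def Data.ok (D : Data) : Prop :=
  Sg Z 1 (fun q : ℕ × ℕ => ¬ D.Tr q) ∧ Computable (fun q : ℕ × ℕ × ℕ => D.p q.1 q.2.1 q.2.2)

/-- `l` is the least true location for `e` -/
def fst (D : Data) (e l : ℕ) : Prop := D.Tr (e, l) ∧ ∀ l' < l, ¬ D.Tr (e, l')

/-- admissible finite sizes -/
def good (u : ℕ × ℕ) : Prop := Even u.1 ∧ 2 ≤ u.1 ∧ Even u.2 ∧ 2 ≤ u.2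

/-- the family of types -/
def Fam (D : Data) : Set Typ := {t |
  ((∀ l, ¬ D.Tr (t.1, l)) ∧ t.2 = none) ∨
  ∃ l, fst D t.1 l ∧ ((t.2 = none ∧ EE (D.p t.1 l)) ∨
    ∃ u, t.2 = some u ∧ good u ∧ ¬ ∀ c, Lim (D.p t.1 l) c (sel c u))}

/-! ## Insertion sequences of enumerated orders -/

/-- `P` is the sequence `q` with idle times -/
def Delay (P q : ℕ → Pt) : Prop :=
  ∃ cur : ℕ → ℕ, cur 0 = 0 ∧
    (∀ s, (cur (s + 1) = cur s + 1 ∧ P s = q (cur s)) ∨ (cur (s + 1) = cur s ∧ P s = none)) ∧
    ∀ n, ∃ s, n ≤ cur s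

open Classical in
/-- insertion sequence of the enumeration `φ 0, φ 1, …` of `M` with the end points `sL`, `sR` -/
noncomputable def qp {M : Type} [LinearOrder M] (φ : ℕ ≃ M) (sL sR : M) (i : ℕ) : Pt :=
  if sR < φ i then
    some (true, ((Finset.range i).filter fun j => sR ≤ φ j ∧ φ j < φ i).card)
  else if φ i < sL then
    some (false, ((Finset.range i).filter fun j => φ j ≤ sL ∧ φ i < φ j).card)
  else none

/-! ## Guesses -/

/-- the lexicographic order -/
def lexlt (a b : ℕ × ℕ) : Prop := a.1 < b.1 ∨ (a.1 = b.1 ∧ a.2 < b.2)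

instance (a b : ℕ × ℕ) : Decidable (lexlt a b) := inferInstanceAs (Decidable (_ ∨ _))

/-- `g` is the limit inferior of `γ` -/
def IsLim (γ : ℕ → ℕ × ℕ) (g : ℕ × ℕ) : Prop :=
  (∃ m0, ∀ m, m0 ≤ m → ¬ lexlt (γ m) g) ∧ ∀ m0, ∃ m, m0 ≤ m ∧ γ m = g

/-- the minimum of `γ a, …, γ (a + n)` -/
def wmin (γ : ℕ → ℕ × ℕ) (a : ℕ) : ℕ → ℕ × ℕ
  | 0 => γ a
  | n + 1 => if lexlt (γ (a + n + 1)) (wmin γ a n) then γ (a + n + 1) else wmin γ a n

/-- the minimum of `γ` on the window `[F m, F (m+1))` -/
def win (γ : ℕ → ℕ × ℕ) (F : ℕ → ℕ) (m : ℕ) : ℕ × ℕ := wmin γ (F m) (F (m + 1) - F m - 1)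

/-- the beginning of the current phase of the guess `g m`: no stronger guess in `[kk g m, m)` -/
noncomputable def kk (g : ℕ → ℕ × ℕ) (m : ℕ) : ℕ :=
  sInf {s | ∀ m', s ≤ m' → m' < m → ¬ lexlt (g m') (g m)}

/-- `T` has limit inferior `j` -/
def LimT (T : ℕ → ℕ) (j : ℕ) : Prop := (∃ m0, ∀ m, m0 ≤ m → j ≤ T m) ∧ ∀ m0, ∃ m, m0 ≤ m ∧ T m = j

/-- infinitely often `T` stays above the present step -/
def InfT (T : ℕ → ℕ) : Prop := ∀ m0, ∃ m, m0 ≤ m ∧ ∀ m', m ≤ m' → m ≤ T m'

/-! ## The tops (hyperimmune oracles) -/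

section tops
variable (p : ℕ → Pt) (u : ℕ × ℕ) (F : ℕ → ℕ) (g : ℕ → ℕ × ℕ)

/-- an insertion below the level with number `j` -/
def hit (j t : ℕ) : Prop := ∃ c k, p t = some (c, k) ∧ k < zz (sel c u) j

/-- arrival time of entry `j` as seen at step `m` -/
noncomputable def arr (j m : ℕ) : ℕ :=
  sInf {a | F j ≤ a ∧ ∀ t, a ≤ t → t < F (m + 1) → ¬ hit p u j t}

/-- the count condition for a raise from entry `j` with arrival time `a` to entry `j'` -/
def cc (j a j' : ℕ) : Prop :=
  a ≤ F j' ∧ ∀ c, zz (sel c u) j' < zz (sel c u) j + cnt p c (zz (sel c u) j) a (F j')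

/-- the next entry after `j` as seen at step `m`; `0` if there is none -/
noncomputable def nxt (j m : ℕ) : ℕ :=
  sInf {j' | j < j' ∧ j' ≤ m ∧ g (j' - 1) = g m ∧ cc p u F j (arr p u F j m) j'}

/-- the last entry of the path from `j` -/
noncomputable def topF : ℕ → ℕ → ℕ → ℕ
  | 0, j, _ => j
  | n + 1, j, m => if nxt p u F g j m = 0 then j else topF n (nxt p u F g j m) m

end tops

/-- the level number at step `m` (hyperimmune oracles); `P l` is the insertion sequence at `l` -/
noncomputable def TT (P : ℕ → ℕ → Pt) (u : ℕ × ℕ) (F : ℕ → ℕ) (g : ℕ → ℕ × ℕ) (m : ℕ) : ℕ :=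
  topF (P (g m).1) u F g m (kk g m) m

/-! ## The chase (oracles which are not low) -/

section chase
variable (A : ℕ → Prop) (p : ℕ → Pt)

open Classical in
/-- the `i`-th vector of the chase from `u` -/
noncomputable def kap (u : ℕ × ℕ) (i : ℕ) : ℕ × ℕ :=
  (u.1 + 2 * ((Finset.range i).filter fun j => ¬ A j).card,
    u.2 + 2 * ((Finset.range i).filter fun j => A j).card)

/-- the chase passes the `i`-th vector -/
def Pass (u : ℕ × ℕ) (n0 i : ℕ) : Prop := ∃ a, n0 ≤ a ∧ ∀ c, NA p c a (sel c (kap A u i))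

/-- `n` is less than the component `c` of the final vector of the chase -/
def QW (u : ℕ × ℕ) (n0 : ℕ) (c : Bool) (n : ℕ) : Prop :=
  ∃ i, (∀ i', i' < i → Pass A p u n0 i') ∧ n < sel c (kap A u i)

end chase

/-! ## Realisations -/

/-- the set `S` of types is realised by an `X`-computable family of level functions -/
def Rz (X : ℕ → ℕ) (ι : Type) [Primcodable ι] (S : Set Typ) : Prop :=
  ∃ (e : ι → ℕ) (u : ι → ℕ × ℕ) (l : Bool → ι → ℕ → ℕ) (t : ι → Option (ℕ × ℕ)),
    Computable e ∧ Computable u ∧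
    (∀ c, Sg X 0 (fun q : (ι × ℕ) × ℕ => l c q.1.1 q.1.2 = q.2)) ∧
    (∀ c i m, 1 ≤ l c i m ∧ l c i m ≤ zz (sel c (u i)) m) ∧
    Set.range (fun i => (e i, t i)) = S ∧
    ∀ i, (∀ v, t i = some v → ∀ c, Fin1 (l c i) (sel c v)) ∧
      (t i = none → ∀ c, Inf1 (l c i) (sel c (u i)))

/-- component indices: label, half sizes, start, start of the chain -/
abbrev Idx : Type := (ℕ × Option Node) × (ℕ × ℕ) × ℕ

end Pool.Agent.Downey
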