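import Pool.Agent.Downey.GlueNo

/-!
# Glue: hyperimmune oracles realise the family
-/

set_option autoImplicit false

namespace Pool.Agent.Downey

open Pool.Agent.NonLow (Qd Sg Dl Z Pr dec)

theorem zz_mono (w : ℕ) {i j : ℕ} (h : i ≤ j) : zz w i ≤ zz w j :=
  Nat.mul_le_mul_left _ (Nat.pow_le_pow_right (by norm_num) h)

theorem zz_pos {w : ℕ} (h : 1 ≤ w) (j : ℕ) : 1 ≤ zz w j :=
  Nat.one_le_iff_ne_zero.2 (Nat.mul_ne_zero (by omega) (by positivity))

theorem zz_zero (w : ℕ) : zz w 0 = w := by simp [zz]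

theorem zz_even {w : ℕ} (h : Even w) (j : ℕ) : Even (zz w j) := h.mul_right _

theorem LimT.unique {T : ℕ → ℕ} {i j : ℕ} (h : LimT T i) (h' : LimT T j) : i = j := by
  have key : ∀ a b : ℕ, LimT T a → LimT T b → a ≤ b := by
    rintro a b ⟨⟨m0, h1⟩, _⟩ ⟨_, h2⟩
    obtain ⟨m, hm, hT⟩ := h2 m0
    rw [← hT]; exact h1 m hm
  exact le_antisymm (key _ _ h h') (key _ _ h' h)

theorem InfT.not_lim {T : ℕ → ℕ} (h : InfT T) (j : ℕ) : ¬ LimT T j := by
  rintro ⟨_, h2⟩
  obtain ⟨m, hm, h3⟩ := h (j + 1)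
  obtain ⟨m', hm', h4⟩ := h2 m
  have := h3 m' hm'
  omega

theorem LimT.fin1 {T : ℕ → ℕ} {j : ℕ} (h : LimT T j) (w : ℕ) :
    Fin1 (fun m => zz w (T m)) (zz w j) := by
  obtain ⟨⟨m0, h1⟩, h2⟩ := h
  refine ⟨⟨m0, fun m hm => zz_mono w (h1 m hm)⟩, fun m0 => ?_⟩
  obtain ⟨m, hm, hT⟩ := h2 m0
  exact ⟨m, hm, by simp only [hT]⟩

theorem InfT.inf1 {T : ℕ → ℕ} (h : InfT T) (w : ℕ) : Inf1 (fun m => zz w (T m)) w := by
  intro m0
  obtain ⟨m, hm, h1⟩ := h m0
  exact ⟨m, hm, fun m' hm' => zz_mono w (h1 m' hm')⟩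

section top
variable (p : ℕ → Pt) (u : ℕ × ℕ) (F : ℕ → ℕ) (g : ℕ → ℕ × ℕ)

theorem nxt_spec {j m : ℕ} (h : nxt p u F g j m ≠ 0) :
    j < nxt p u F g j m ∧ nxt p u F g j m ≤ m := by
  have hne : {j' | j < j' ∧ j' ≤ m ∧ g (j' - 1) = g m ∧ cc p u F j (arr p u F j m) j'}.Nonempty := by
    by_contra hc
    rw [Set.not_nonempty_iff_eq_empty] at hc
    apply h
    unfold nxt
    rw [hc, Nat.sInf_empty]
  have := Nat.sInf_mem hne
  exact ⟨this.1, this.2.1⟩

theorem topF_ge (n j m : ℕ) : j ≤ topF p u F g n j m := by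
  induction n generalizing j with
  | zero => exact le_rfl
  | succ n ih =>
    unfold topF
    split_ifs with h
    · exact le_rfl
    · exact (nxt_spec p u F g h).1.le.trans (ih _)

theorem topF_le (n : ℕ) {j m : ℕ} (hj : j ≤ m) : topF p u F g n j m ≤ m := by
  induction n generalizing j with
  | zero => exact hj
  | succ n ih =>
    unfold topF
    split_ifs with h
    · exact hj
    · exact ih (nxt_spec p u F g h).2

end top

theorem TT_ge (P : ℕ → ℕ → Pt) (u : ℕ × ℕ) (F : ℕ → ℕ) (g : ℕ → ℕ × ℕ) (m : ℕ) :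
    kk g m ≤ TT P u F g m := topF_ge _ _ _ _ _ _ _

theorem TT_le (ba : StmtBA) (P : ℕ → ℕ → Pt) (u : ℕ × ℕ) (F : ℕ → ℕ) (g : ℕ → ℕ × ℕ) (m : ℕ) :
    TT P u F g m ≤ m := topF_le _ _ _ _ _ ((ba g).1 m).1

/-- the existence of the final arrival time -/
theorem exists_arrival {p : ℕ → Pt} {u : ℕ × ℕ} (F : ℕ → ℕ) {j : ℕ}
    (h : ∀ c, Lim p c (zz (sel c u) j)) :
    ∃ a, F j ≤ a ∧ (∀ t, a ≤ t → ¬ hit p u j t) ∧ (a = F j ∨ hit p u j (a - 1)) := by
  classical
  obtain ⟨⟨a1, h1⟩, _⟩ := h false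
  obtain ⟨⟨a2, h2⟩, _⟩ := h true
  have hex : ∃ a, F j ≤ a ∧ ∀ t, a ≤ t → ¬ hit p u j t := by
    refine ⟨max (F j) (max a1 a2), le_max_left _ _, fun t ht => ?_⟩
    rintro ⟨c, k, hk, hk2⟩
    have e1 : a1 ≤ t := le_trans (le_trans (le_max_left _ _) (le_max_right _ _)) ht
    have e2 : a2 ≤ t := le_trans (le_trans (le_max_right _ _) (le_max_right _ _)) ht
    cases c
    · exact absurd (h1 t e1 k hk) (by omega)
    · exact absurd (h2 t e2 k hk) (by omega)
  refine ⟨Nat.find hex, (Nat.find_spec hex).1, (Nat.find_spec hex).2, ?_⟩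
  by_cases he : Nat.find hex = F j
  · exact Or.inl he
  · right
    have hlt : F j < Nat.find hex := lt_of_le_of_ne (Nat.find_spec hex).1 (Ne.symm he)
    have hmin := Nat.find_min hex (m := Nat.find hex - 1) (by omega)
    by_contra hc
    apply hmin
    refine ⟨by omega, fun t ht => ?_⟩
    rcases Nat.eq_or_lt_of_le ht with h' | h'
    · rw [← h']; exact hc
    · exact (Nat.find_spec hex).2 t (by omega)

theorem glue_wg {v : ℕ} {e : ℕ} {D : Data} (h : fst D e v) : D.Tr (e, v) := h.1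

/-- the vector of initial sizes of an index -/
def ux (i : Idx) : ℕ × ℕ := (2 * i.2.1.1 + 2, 2 * i.2.1.2 + 2)

theorem ux_comp : Computable ux := by
  have e2 : Computable (fun n : ℕ => 2 * n + 2) :=
    (Primrec.nat_add.comp (Primrec.nat_mul.comp (Primrec.const 2) Primrec.id)
      (Primrec.const 2)).to_comp
  have a1 : Computable (fun i : Idx => i.2.1.1) :=
    Computable.fst.comp (Computable.fst.comp Computable.snd)
  have a2 : Computable (fun i : Idx => i.2.1.2) :=
    Computable.snd.comp (Computable.fst.comp Computable.snd)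
  exact (e2.comp a1).pair (e2.comp a2)

theorem rh_zc (c : Bool) : Computable (fun q : ((Idx × ℕ) × ℕ) × ℕ => zz (sel c (ux q.1.1.1)) q.2) := by
  have a1 : Computable (fun q : ((Idx × ℕ) × ℕ) × ℕ => ux q.1.1.1) :=
    ux_comp.comp (Computable.fst.comp (Computable.fst.comp Computable.fst))
  have hs : Computable (fun q : ((Idx × ℕ) × ℕ) × ℕ => sel c (ux q.1.1.1)) := by
    cases c
    · exact Computable.fst.comp a1
    · exact Computable.snd.comp a1
  have hz0 : Computable₂ (fun w j : ℕ => zz w j) := by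
    have hp2 : Primrec (fun j : ℕ => 2 ^ j) := by
      refine (Primrec.nat_rec₁ 1 (f := fun _ IH => 2 * IH)
        (Primrec.nat_mul.comp (Primrec.const 2) Primrec.snd)).of_eq fun j => ?_
      induction j with
      | zero => rfl
      | succ j ih =>
        simp only [pow_succ] at ih ⊢
        rw [ih]; ring
    have : Primrec₂ (fun w j : ℕ => zz w j) :=
      Primrec.nat_mul.comp Primrec.fst (hp2.comp Primrec.snd)
    exact this.to_comp
  exact hz0.comp hs Computable.snd

theorem rh_cplx (hc : StmtHC) (wc : StmtWC) {D : Data} {γ : ℕ × Option Node → ℕ → ℕ × ℕ}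
    {X f : ℕ → ℕ} (hp : Computable (fun q : ℕ × ℕ × ℕ => D.p q.1 q.2.1 q.2.2))
    (hγ : Computable (fun q : (ℕ × Option Node) × ℕ => γ q.1 q.2)) (hf : Esc f)
    (hfX : Sg X 0 (fun q : ℕ × ℕ => f q.1 = q.2)) (c : Bool) :
    Sg X 0 (fun q : (Idx × ℕ) × ℕ => zz (sel c (ux q.1.1)) (TT (D.p q.1.1.1.1) (ux q.1.1)
      (fun m => f (q.1.1.2.2 + m)) (win (γ q.1.1.1) (fun m => f (q.1.1.2.2 + m))) q.1.2) = q.2) := by
  have hFm : ∀ i : Idx, StrictMono (fun m => f (i.2.2 + m)) := fun i a b hab => hf.1 (by omega)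
  have b1 : Computable (fun q : (Idx × ℕ) × ℕ => q.1.1.2.2 + q.1.2) := by
    have c1 : Computable (fun q : (Idx × ℕ) × ℕ => q.1.1.2.2) :=
      Computable.snd.comp (Computable.snd.comp (Computable.fst.comp Computable.fst))
    have c2 : Computable (fun q : (Idx × ℕ) × ℕ => q.1.2) := Computable.snd.comp Computable.fst
    exact Primrec.nat_add.to_comp.comp c1 c2
  have hFX : Sg X 0 (fun q : (Idx × ℕ) × ℕ => f (q.1.1.2.2 + q.1.2) = q.2) :=
    NonLow.Sg.comp (f := fun q : (Idx × ℕ) × ℕ => (q.1.1.2.2 + q.1.2, q.2)) hfX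
      (b1.pair Computable.snd)
  have hγ' : Computable (fun q : Idx × ℕ => γ q.1.1 q.2) := by
    have c1 : Computable (fun q : Idx × ℕ => (q.1.1, q.2)) :=
      (Computable.fst.comp Computable.fst).pair Computable.snd
    have c2 := hγ.comp c1
    exact c2
  have hp' : Computable (fun q : Idx × ℕ × ℕ => D.p q.1.1.1 q.2.1 q.2.2) := by
    have c1 : Computable (fun q : Idx × ℕ × ℕ => q.1.1.1) :=
      Computable.fst.comp (Computable.fst.comp Computable.fst)
    have c2 : Computable (fun q : Idx × ℕ × ℕ => (q.1.1.1, q.2.1, q.2.2)) :=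
      c1.pair ((Computable.fst.comp Computable.snd).pair (Computable.snd.comp Computable.snd))
    have c3 := hp.comp c2
    exact c3
  have w0 := wc X Idx (fun i => γ i.1) (fun i m => f (i.2.2 + m))
  have w2 := w0 hγ'
  have w3 := w2 hFm
  have w4 := w3 hFX
  have w1 := w4.1
  have v0 := hc X Idx (fun i => D.p i.1.1) ux (fun i m => f (i.2.2 + m))
    (fun i => win (γ i.1) (fun m => f (i.2.2 + m)))
  have v1 := v0 hp'
  have v2 := v1 ux_comp
  have v3 := v2 hFm
  have v4 := v3 hFX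
  have hTX := v4 w1
  refine NonLow.Sg.fsub (P := fun (q : (Idx × ℕ) × ℕ) (y : ℕ) => zz (sel c (ux q.1.1)) y = q.2)
    (f := fun q : (Idx × ℕ) × ℕ => TT (D.p q.1.1.1.1) (ux q.1.1)
      (fun m => f (q.1.1.2.2 + m)) (win (γ q.1.1.1) (fun m => f (q.1.1.2.2 + m))) q.1.2) ?_ ?_
  · exact NonLow.Sg.comp (f := fun q : ((Idx × ℕ) × ℕ) × ℕ => (q.1.1, q.2)) hTX
      ((Computable.fst.comp Computable.fst).pair Computable.snd)
  · exact (NonLow.Dl.eq (rh_zc c) (Computable.snd.comp Computable.fst)).1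

theorem rh_of (og : StmtOG) (wi : StmtWI) (ba : StmtBA) (h1 : StmtH1) (h2 : StmtH2) (h3 : StmtH3)
    (hc : StmtHC) (wc : StmtWC) : StmtRH := by
  classical
  intro D hD X f hf hfX
  obtain ⟨γ, hγ, hog⟩ := og D hD
  set uu : Idx → ℕ × ℕ := ux with huu
  set FF : Idx → ℕ → ℕ := fun i m => f (i.2.2 + m) with hFF
  have hFm : ∀ i, StrictMono (FF i) := fun i a b hab => hf.1 (by omega)
  set gg : Idx → ℕ → ℕ × ℕ := fun i => win (γ i.1) (FF i) with hgg
  set T : Idx → ℕ → ℕ := fun i m => TT (D.p i.1.1) (uu i) (FF i) (gg i) m with hT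
  set tt : Idx → Option (ℕ × ℕ) := fun i =>
    if h : ∃ j, LimT (T i) j then some (zz (uu i).1 h.choose, zz (uu i).2 h.choose) else none with htt
  -- facts about types
  have tt_some : ∀ i j, LimT (T i) j → tt i = some (zz (uu i).1 j, zz (uu i).2 j) := by
    intro i j hj
    have hex : ∃ j, LimT (T i) j := ⟨j, hj⟩
    have e1 : hex.choose = j := hex.choose_spec.unique hj
    show dite _ _ _ = _
    rw [dif_pos hex, e1]
  have tt_none : ∀ i, InfT (T i) → tt i = none := by
    intro i hi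
    show dite _ _ _ = _
    rw [dif_neg]
    rintro ⟨j, hj⟩
    exact hi.not_lim j hj
  -- dichotomy
  have nolim : ∀ i, (∀ v, ¬ IsLim (γ i.1) v) → InfT (T i) := by
    intro i hi
    have hi' : ∀ v, ¬ IsLim (gg i) v := fun v hv => hi v (((wi (γ i.1) (FF i) (hFm i)).2 v).1 hv)
    intro m0
    obtain ⟨m, hm, h4⟩ := (ba (gg i)).2.2 hi' m0
    exact ⟨m, hm, fun m' hm' => (h4 m' hm').trans (TT_ge _ _ _ _ _)⟩
  have lim : ∀ i v, IsLim (γ i.1) v →
      (∃ j, LimT (T i) j ∧ ¬ ∀ c, Lim (D.p i.1.1 v.1) c (zz (sel c (uu i)) j)) ∨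
      (InfT (T i) ∧ EE (D.p i.1.1 v.1)) := by
    intro i v hv
    have hv' : IsLim (gg i) v := ((wi (γ i.1) (FF i) (hFm i)).2 v).2 hv
    rcases h1 (D.p i.1.1) (uu i) (FF i) (gg i) v (hFm i) (by simp [huu, ux]) (by simp [huu, ux]) hv' with
      ⟨j, hj, h4⟩ | h4
    · left
      refine ⟨j, hj, fun hl => ?_⟩
      obtain ⟨a, ha1, ha2, ha3⟩ := exists_arrival (FF i) hl
      obtain ⟨j', hj', h5, h6⟩ := h2 (D.p i.1.1 v.1) (γ i.1) f i.2.2 (uu i) v j a
        (hD.2.comp ((Computable.const i.1.1).pair ((Computable.const v.1).pair Computable.id)))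
        (hγ.comp ((Computable.const i.1).pair Computable.id)) hf (by simp [huu, ux]) (by simp [huu, ux])
        hv hl
      exact h4 a ha1 ha2 ha3 j' hj' h5 h6
    · exact Or.inr h4
  have cases' : ∀ i, (∃ j, LimT (T i) j) ∨ InfT (T i) := by
    intro i
    by_cases hv : ∃ v, IsLim (γ i.1) v
    · obtain ⟨v, hv⟩ := hv
      rcases lim i v hv with ⟨j, hj, _⟩ | ⟨h4, _⟩
      · exact Or.inl ⟨j, hj⟩
      · exact Or.inr h4
    · exact Or.inr (nolim i fun v hv' => hv ⟨v, hv'⟩)
  refine ⟨fun i => i.1.1, uu, fun c i m => zz (sel c (uu i)) (T i m), tt, ?_, ?_, ?_, ?_, ?_, ?_⟩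
  · exact Computable.fst.comp Computable.fst
  · exact ux_comp
  · intro c
    exact rh_cplx hc wc hD.2 hγ hf hfX c
  · intro c i m
    have hpos : 1 ≤ sel c (uu i) := by cases c <;> simp [sel, huu, ux]
    exact ⟨zz_pos hpos _, zz_mono _ (TT_le ba _ _ _ _ _)⟩
  · apply Set.Subset.antisymm
    · rintro _ ⟨i, rfl⟩
      by_cases htr : ∀ l, ¬ D.Tr (i.1.1, l)
      · left
        refine ⟨htr, tt_none i (nolim i fun v hv => ?_)⟩
        exact htr _ ((hog i.1.1 i.1.2).1 v hv).1
      · right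
        push Not at htr
        obtain ⟨l0, hl0⟩ := htr
        obtain ⟨l, hl⟩ := glue_exists_fst hl0
        refine ⟨l, hl, ?_⟩
        rcases cases' i with ⟨j, hj⟩ | hi
        · right
          refine ⟨_, tt_some i j hj, ?_, ?_⟩
          · have h5 : ∀ n : ℕ, Even (zz (2 * n + 2) j) ∧ 2 ≤ zz (2 * n + 2) j := by
              intro n
              refine ⟨zz_even ⟨n + 1, by ring⟩ _, ?_⟩
              have := zz_mono (2 * n + 2) (Nat.zero_le j)
              rw [zz_zero] at this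
              omega
            exact ⟨(h5 _).1, (h5 _).2, (h5 _).1, (h5 _).2⟩
          · have hv : ∃ v, IsLim (γ i.1) v := by
              by_contra hc'
              exact (nolim i fun v hv => hc' ⟨v, hv⟩).not_lim j hj
            obtain ⟨v, hv⟩ := hv
            have hvl : v.1 = l := glue_fst_unique ((hog i.1.1 i.1.2).1 v hv) hl
            rcases lim i v hv with ⟨j', hj', h6⟩ | ⟨h6, _⟩
            · have := hj'.unique hj
              subst this
              rw [hvl] at h6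
              intro h7
              apply h6
              intro c
              have := h7 c
              cases c <;> exact this
            · exact absurd hj (h6.not_lim j)
        · left
          refine ⟨tt_none i hi, ?_⟩
          by_cases hv : ∃ v, IsLim (γ i.1) v
          · obtain ⟨v, hv⟩ := hv
            have hvl : v.1 = l := glue_fst_unique ((hog i.1.1 i.1.2).1 v hv) hl
            rcases lim i v hv with ⟨j, hj, _⟩ | ⟨_, h6⟩
            · exact absurd hj (hi.not_lim j)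
            · rw [← hvl]; exact h6
          · by_contra hc'
            apply hv
            obtain ⟨d, hd, _⟩ := (hog i.1.1 i.1.2).2.2 l hl (by
              rintro ⟨x, _, hx⟩
              exact hc' ⟨x, hx⟩)
            exact ⟨_, hd⟩
    · rintro ⟨e, o⟩ hτ
      rcases hτ with ⟨htr, ho⟩ | ⟨l, hl, ⟨ho, x, hx⟩ | ⟨u, ho, hu, hL⟩⟩
      · refine ⟨((e, none), (0, 0), 0), ?_⟩
        have : tt ((e, none), (0, 0), 0) = none :=
          tt_none _ (nolim _ fun v hv => htr _ ((hog e none).1 v hv).1)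
        show (e, tt ((e, none), (0, 0), 0)) = (e, o)
        rw [this]
        exact Prod.ext rfl ho.symm
      · refine ⟨((e, some x), (0, 0), 0), ?_⟩
        have : tt ((e, some x), (0, 0), 0) = none :=
          tt_none _ (nolim _ ((hog e (some x)).2.1 l hl ⟨x, rfl, hx⟩))
        show (e, tt ((e, some x), (0, 0), 0)) = (e, o)
        rw [this]
        exact Prod.ext rfl ho.symm
      · obtain ⟨⟨a, ha⟩, ha2, ⟨b, hb⟩, hb2⟩ := hu
        have hu' : u = (2 * (a - 1) + 2, 2 * (b - 1) + 2) := Prod.ext (by simp; omega) (by simp; omega)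
        obtain ⟨d, hd, hd0⟩ := (hog e none).2.2 l hl (by rintro ⟨x, hx, _⟩; cases hx)
        have hd0 := hd0 rfl
        subst hd0
        obtain ⟨a0, ha0⟩ := h3 (D.p e) u (l, 0) (γ (e, none)) hd hL
        refine ⟨((e, none), (a - 1, b - 1), a0), ?_⟩
        have hlim : LimT (T ((e, none), (a - 1, b - 1), a0)) 0 := by
          have := ha0 (FF ((e, none), (a - 1, b - 1), a0)) (hFm _) (hf.1.le_apply)
          rw [hu'] at this
          exact this
        have := tt_some _ 0 hlim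
        show (e, tt ((e, none), (a - 1, b - 1), a0)) = (e, o)
        rw [this, zz_zero, zz_zero]
        refine Prod.ext rfl ?_
        have ho' : o = some u := ho
        rw [ho', hu']
        rfl
  · intro i
    constructor
    · intro v hv c
      rcases cases' i with ⟨j, hj⟩ | hi
      · rw [tt_some i j hj] at hv
        cases hv
        have := hj.fin1 (sel c (uu i))
        cases c <;> exact this
      · rw [tt_none i hi] at hv; cases hv
    · intro hn c
      rcases cases' i with ⟨j, hj⟩ | hi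
      · rw [tt_some i j hj] at hn; cases hn
      · exact hi.inf1 _

end Pool.Agent.Downey
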