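import Pool.Agent.Downey.Stmts

/-!
# H1: the true path
-/

set_option autoImplicit false

namespace Pool.Agent.Downey

section h1

variable {p : ℕ → Pt} {u : ℕ × ℕ} {F : ℕ → ℕ} {g : ℕ → ℕ × ℕ} {v : ℕ × ℕ}

private theorem h1_lex {a b : ℕ × ℕ} (h : ¬ lexlt a b) (hne : a ≠ b) : lexlt b a := by
  obtain ⟨a1, a2⟩ := a
  obtain ⟨b1, b2⟩ := b
  simp only [lexlt, Prod.mk.injEq, ne_eq] at *
  omega

/-- `a` is the final arrival time of `j` -/
private def h1fin (p : ℕ → Pt) (u : ℕ × ℕ) (F : ℕ → ℕ) (j a : ℕ) : Prop :=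
  F j ≤ a ∧ (∀ t, a ≤ t → ¬ hit p u j t) ∧ ∀ b, F j ≤ b → (∀ t, b ≤ t → ¬ hit p u j t) → a ≤ b

private theorem h1fin_exists {j b : ℕ} (h1 : F j ≤ b) (h2 : ∀ t, b ≤ t → ¬ hit p u j t) :
    ∃ a, h1fin p u F j a := by
  classical
  have h : ∃ b, F j ≤ b ∧ ∀ t, b ≤ t → ¬ hit p u j t := ⟨b, h1, h2⟩
  exact ⟨Nat.find h, (Nat.find_spec h).1, (Nat.find_spec h).2,
    fun b hb1 hb2 => Nat.find_min' h ⟨hb1, hb2⟩⟩

private theorem h1_arr {j a m : ℕ} (h : h1fin p u F j a) (hm : a ≤ F (m + 1)) :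
    arr p u F j m = a := by
  obtain ⟨h1, h2, h3⟩ := h
  have hmem : a ∈ {a | F j ≤ a ∧ ∀ t, a ≤ t → t < F (m + 1) → ¬ hit p u j t} :=
    ⟨h1, fun t ht _ => h2 t ht⟩
  have h4 : arr p u F j m ≤ a := Nat.sInf_le hmem
  have h5 := Nat.sInf_mem (⟨a, hmem⟩ : Set.Nonempty _)
  refine le_antisymm h4 (h3 _ h5.1 ?_)
  intro t ht
  by_cases h6 : t < F (m + 1)
  · exact h5.2 t ht h6
  · exact h2 t (by omega)

/-- the next entry of the true path -/
private def h1step (p : ℕ → Pt) (u : ℕ × ℕ) (F : ℕ → ℕ) (g : ℕ → ℕ × ℕ) (v : ℕ × ℕ)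
    (j j' : ℕ) : Prop :=
  ∃ a, h1fin p u F j a ∧ j < j' ∧ g (j' - 1) = v ∧ cc p u F j a j' ∧
    ∀ j'', j < j'' → g (j'' - 1) = v → cc p u F j a j'' → j' ≤ j''

private theorem h1_nxt (hF : StrictMono F) {j j' m : ℕ} (h : h1step p u F g v j j')
    (hg : g m = v) (hm : j' ≤ m) : nxt p u F g j m = j' := by
  obtain ⟨a, h1, h2, h3, h4, h5⟩ := h
  have h6 : a ≤ F (m + 1) := h4.1.trans (hF.monotone (by omega))
  have h7 := h1_arr h1 h6
  unfold nxt
  rw [h7, hg]
  have hmem : j' ∈ {j' | j < j' ∧ j' ≤ m ∧ g (j' - 1) = v ∧ cc p u F j a j'} := ⟨h2, hm, h3, h4⟩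
  refine le_antisymm (Nat.sInf_le hmem) ?_
  have h8 := Nat.sInf_mem (⟨j', hmem⟩ : Set.Nonempty _)
  exact h5 _ h8.1 h8.2.2.1 h8.2.2.2

private theorem h1_nxt_gt (j m : ℕ) (h : nxt p u F g j m ≠ 0) : j < nxt p u F g j m := by
  unfold nxt at h ⊢
  have h1 := Nat.sInf_mem (Nat.nonempty_of_sInf_eq_succ
    (Nat.succ_pred_eq_of_ne_zero h).symm : Set.Nonempty _)
  exact h1.1

private theorem h1_top_ge (n : ℕ) : ∀ j m, j ≤ topF p u F g n j m := by
  induction n with
  | zero => intro j m; exact le_rfl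
  | succ n ih =>
    intro j m
    unfold topF
    split_ifs with h
    · exact le_rfl
    · exact (h1_nxt_gt j m h).le.trans (ih _ m)

private theorem h1_top_stop (n : ℕ) {j m : ℕ} (h : nxt p u F g j m = 0) :
    topF p u F g n j m = j := by
  cases n with
  | zero => rfl
  | succ n =>
    unfold topF
    rw [if_pos h]

/-- the true path -/
private inductive H1R (p : ℕ → Pt) (u : ℕ × ℕ) (F : ℕ → ℕ) (g : ℕ → ℕ × ℕ) (v : ℕ × ℕ)
    (s : ℕ) : ℕ → ℕ → Prop
  | base : H1R p u F g v s 0 s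
  | step {i j j' : ℕ} : H1R p u F g v s i j → h1step p u F g v j j' → H1R p u F g v s (i + 1) j'

private theorem h1_reach (hF : StrictMono F) {s i j : ℕ} (h : H1R p u F g v s i j) :
    i ≤ j ∧ s ≤ j ∧ (i ≠ 0 → g (j - 1) = v) ∧
      ∀ m, g m = v → j ≤ m → topF p u F g m s m = topF p u F g (m - i) j m := by
  induction h with
  | base => exact ⟨Nat.zero_le _, le_rfl, fun h => absurd rfl h, fun m _ _ => rfl⟩
  | @step i j j' h1 h2 ih =>
    obtain ⟨a1, a2, a3, a4⟩ := ih
    have h3 : j < j' := by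
      obtain ⟨_, _, h4, _⟩ := h2
      exact h4
    refine ⟨by omega, by omega, fun _ => ?_, ?_⟩
    · obtain ⟨_, _, _, h4, _⟩ := h2
      exact h4
    · intro m hm hjm
      rw [a4 m hm (by omega)]
      have h5 : m - i = (m - (i + 1)) + 1 := by omega
      have h6 := h1_nxt hF h2 hm hjm
      rw [h5]
      conv_lhs => unfold topF
      rw [h6, if_neg (by omega)]

private theorem h1_mk {j a j' : ℕ} (h1 : h1fin p u F j a) (h2 : j < j') (h3 : g (j' - 1) = v)
    (h4 : cc p u F j a j') : ∃ j'', h1step p u F g v j j'' := by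
  classical
  have h : ∃ n, j < n ∧ g (n - 1) = v ∧ cc p u F j a n := ⟨j', h2, h3, h4⟩
  obtain ⟨k1, k2, k3⟩ := Nat.find_spec h
  exact ⟨Nat.find h, a, h1, k1, k2, k3, fun n n1 n2 n3 => Nat.find_min' h ⟨n1, n2, n3⟩⟩

private theorem h1_fin_unique {j a b : ℕ} (h1 : h1fin p u F j a) (h2 : h1fin p u F j b) :
    a = b :=
  le_antisymm (h1.2.2 b h2.1 h2.2.1) (h2.2.2 a h1.1 h1.2.1)

private theorem h1_zz {n : ℕ} (hn : 1 ≤ n) {j j' : ℕ} (h : j < j') : zz n j < zz n j' := by
  unfold zz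
  exact Nat.mul_lt_mul_of_pos_left (Nat.pow_lt_pow_right (by norm_num) h) hn

private theorem h1_sel (c : Bool) (j : ℕ) : sel c (zz u.1 j, zz u.2 j) = zz (sel c u) j := by
  cases c <;> rfl

private theorem h1_ok {j a : ℕ} (h : h1fin p u F j a) : Ok p ((zz u.1 j, zz u.2 j), a) := by
  intro c t ht k hk
  rw [h1_sel]
  by_contra h1
  exact h.2.1 t ht ⟨c, k, hk, not_le.1 h1⟩

private theorem h1_cnt_mono {c : Bool} {w a b b' : ℕ} (h : b ≤ b') :
    cnt p c w a b ≤ cnt p c w a b' := by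
  unfold cnt
  exact Finset.card_le_card (Finset.filter_subset_filter _ (Finset.Ico_subset_Ico_right h))

private theorem h1_cnt_zero {c : Bool} {w a b : ℕ} (h : b ≤ a) : cnt p c w a b = 0 := by
  unfold cnt
  rw [Finset.Ico_eq_empty_of_le h]
  rfl

private theorem h1_chain (hu1 : 1 ≤ u.1) (hu2 : 1 ≤ u.2) {s : ℕ}
    (hinf : ∀ i j, H1R p u F g v s i j → ∃ j', h1step p u F g v j j') (d : ℕ) :
    ∀ i j a, H1R p u F g v s i j → h1fin p u F j a → Ch p d ((zz u.1 j, zz u.2 j), a) := by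
  induction d with
  | zero => intro i j a _ h; exact h1_ok h
  | succ d ih =>
    intro i j a hr h
    refine ⟨h1_ok h, ?_⟩
    obtain ⟨j', hs⟩ := hinf i j hr
    have hr' := H1R.step hr hs
    obtain ⟨j'', hs'⟩ := hinf _ _ hr'
    obtain ⟨b, hb, _⟩ := hs'
    obtain ⟨a', ha', hlt, _, hcc, _⟩ := hs
    rw [h1_fin_unique ha' h] at hcc
    have hu : ∀ c, 1 ≤ sel c u := by intro c; cases c <;> assumption
    refine ⟨((zz u.1 j', zz u.2 j'), b), ⟨?_, ?_⟩, ih _ _ _ hr' hb⟩
    · have h1 := hcc.2 true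
      have h2 := h1_zz (hu true) hlt
      have h3 : ¬ F j' ≤ a := by
        intro h3
        rw [h1_cnt_zero h3] at h1
        omega
      have h4 := hb.1
      show a < b
      omega
    · intro c
      rw [h1_sel, h1_sel]
      refine ⟨h1_zz (hu c) hlt, (hcc.2 c).trans_le ?_⟩
      exact Nat.add_le_add_left (h1_cnt_mono hb.1) _

end h1

theorem h1_main (hb : StmtBA) : StmtH1 := by
  intro P u F g v hF hu1 hu2 hv
  obtain ⟨ba1, ba2, _⟩ := hb g
  obtain ⟨hk, s, hs1, hs2⟩ := ba2 v hv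
  have hTT : ∀ m, s ≤ m → g m = v → TT P u F g m = topF (P v.1) u F g m s m := by
    intro m hm hg
    unfold TT
    rw [hg, hs2 m hm hg]
  by_cases hinf : ∀ i j, H1R (P v.1) u F g v s i j → ∃ j', h1step (P v.1) u F g v j j'
  · right
    have hex : ∀ i, ∃ j, H1R (P v.1) u F g v s i j := by
      intro i
      induction i with
      | zero => exact ⟨s, H1R.base⟩
      | succ i ih =>
        obtain ⟨j, hj⟩ := ih
        obtain ⟨j', hj'⟩ := hinf i j hj
        exact ⟨j', H1R.step hj hj'⟩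
    refine ⟨?_, ?_⟩
    · intro m0
      obtain ⟨j, hj⟩ := hex (m0 + 1)
      obtain ⟨r1, r2, r3, r4⟩ := h1_reach hF hj
      refine ⟨j, by omega, ?_⟩
      intro m hm
      by_cases hg : g m = v
      · rw [hTT m (by omega) hg, r4 m hg hm]
        exact h1_top_ge _ _ _
      · have h1 : j ≤ kk g m := by
          by_contra h2
          have h3 := (ba1 m).2 (j - 1) (by omega) (by omega)
          rw [r3 (by omega)] at h3
          exact h3 (h1_lex (hs1 m (by omega)) hg)
        exact h1.trans (h1_top_ge _ _ _)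
    · obtain ⟨j', a, ha, _⟩ := hinf 0 s H1R.base
      exact ⟨_, fun d => h1_chain hu1 hu2 hinf d 0 s a H1R.base ha⟩
  · left
    push Not at hinf
    obtain ⟨i, j, hr, hno⟩ := hinf
    obtain ⟨r1, r2, _, r4⟩ := h1_reach hF hr
    refine ⟨j, ⟨?_, ?_⟩, ?_⟩
    · obtain ⟨m0, hm0⟩ := hk j
      refine ⟨max m0 j, ?_⟩
      intro m hm
      by_cases hg : g m = v
      · rw [hTT m (by omega) hg, r4 m hg (by omega)]
        exact h1_top_ge _ _ _
      · exact (hm0 m (by omega) hg).trans (h1_top_ge _ _ _)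
    · intro m0
      by_cases hfin : ∃ a, h1fin (P v.1) u F j a
      · obtain ⟨a, ha⟩ := hfin
        obtain ⟨m, hm, hg⟩ := hv.2 (max m0 (max j a))
        refine ⟨m, by omega, ?_⟩
        rw [hTT m (by omega) hg, r4 m hg (by omega)]
        apply h1_top_stop
        by_contra h1
        have h2 : m + 1 ≤ F (m + 1) := hF.le_apply
        have h3 := h1_arr ha (m := m) (by omega)
        unfold nxt at h1
        rw [h3, hg] at h1
        have h4 := Nat.sInf_mem (Nat.nonempty_of_sInf_eq_succ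
          (Nat.succ_pred_eq_of_ne_zero h1).symm : Set.Nonempty _)
        obtain ⟨j'', hj''⟩ := h1_mk ha h4.1 h4.2.2.1 h4.2.2.2
        exact hno _ hj''
      · obtain ⟨M, hM⟩ : ∃ M, M = max m0 j := ⟨_, rfl⟩
        obtain ⟨t, ht1, ht2⟩ : ∃ t, F M ≤ t ∧ hit (P v.1) u j t := by
          by_contra h1
          push Not at h1
          exact hfin (h1fin_exists (hF.monotone (by omega : j ≤ M)) h1)
        classical
        have hw : ∃ n, t < F (n + 1) := ⟨t, by have := hF.le_apply (x := t + 1); omega⟩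
        obtain ⟨n, hn⟩ : ∃ n, n = Nat.find hw := ⟨_, rfl⟩
        have hn1 : t < F (n + 1) := by rw [hn]; exact Nat.find_spec hw
        have hnM : M ≤ n := by
          by_contra h1
          have h2 := hF.monotone (by omega : n + 1 ≤ M)
          omega
        have hn2 : F n ≤ t := by
          rcases Nat.eq_or_lt_of_le hnM with h1 | h1
          · rw [← h1]; exact ht1
          · have h2 : ¬ t < F (n - 1 + 1) := by
              have h3 : n - 1 < Nat.find hw := by omega
              exact Nat.find_min hw h3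
            rw [Nat.sub_add_cancel (by omega)] at h2
            omega
        have hvv := hv.2 n
        obtain ⟨m, hm⟩ : ∃ m, m = Nat.find hvv := ⟨_, rfl⟩
        have hm1 : n ≤ m ∧ g m = v := by rw [hm]; exact Nat.find_spec hvv
        refine ⟨m, by omega, ?_⟩
        rw [hTT m (by omega) hm1.2, r4 m hm1.2 (by omega)]
        apply h1_top_stop
        by_contra h1
        unfold nxt at h1
        have h4 := Nat.sInf_mem (Nat.nonempty_of_sInf_eq_succ
          (Nat.succ_pred_eq_of_ne_zero h1).symm : Set.Nonempty _)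
        obtain ⟨q, k1, k2, k3, k4⟩ : ∃ q, j < q ∧ q ≤ m ∧ g (q - 1) = g m ∧
          cc (P v.1) u F j (arr (P v.1) u F j m) q := ⟨_, h4⟩
        rw [hm1.2] at k3
        have k5 := k4.1
        have hmem : (max (F j) (F (m + 1))) ∈
            {a | F j ≤ a ∧ ∀ t, a ≤ t → t < F (m + 1) → ¬ hit (P v.1) u j t} :=
          ⟨le_max_left _ _, fun t h5 h6 => by omega⟩
        have h7 := Nat.sInf_mem (⟨_, hmem⟩ : Set.Nonempty _)
        have h8 : t < F (m + 1) := hn1.trans_le (hF.monotone (by omega))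
        have h9 : ¬ arr (P v.1) u F j m ≤ t := fun h10 => h7.2 t h10 h8 ht2
        have h10 : q ≤ n := by
          by_contra h11
          have h12 := Nat.find_min' hvv ⟨(by omega : n ≤ q - 1), k3⟩
          omega
        have h11 := hF.monotone h10
        omega
    · intro a ha1 ha2 ha3 j' hj1 hj2 hcc
      have hfin : h1fin (P v.1) u F j a := by
        refine ⟨ha1, ha2, ?_⟩
        intro b hb1 hb2
        rcases ha3 with h1 | h1
        · omega
        · by_contra h2
          exact hb2 (a - 1) (by omega) h1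
      obtain ⟨j'', hj''⟩ := h1_mk hfin hj1 hj2 hcc
      exact hno _ hj''

end Pool.Agent.Downey
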