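import Pool.Agent.Downey.Stmts

/-!
# H2: the escape argument
-/

set_option autoImplicit false

namespace Pool.Agent.Downey

theorem h2_lexlt_tri (x y : ℕ × ℕ) (h1 : ¬ lexlt x y) (h2 : ¬ lexlt y x) : x = y := by
  unfold lexlt at h1 h2
  push Not at h1 h2
  obtain ⟨h1a, h1b⟩ := h1
  obtain ⟨h2a, h2b⟩ := h2
  have e : x.1 = y.1 := le_antisymm h2a h1a
  exact Prod.ext e (le_antisymm (h2b e.symm) (h1b e))

theorem h2_cnt_succ (p : ℕ → Pt) (c : Bool) (v a t : ℕ) :
    cnt p c v a (t + 1) = cnt p c v a t + (if a ≤ t ∧ p t = some (c, v) then 1 else 0) := by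
  unfold cnt
  by_cases hat : a ≤ t
  · rw [← Finset.insert_Ico_right_eq_Ico_add_one hat, Finset.filter_insert]
    by_cases hp : p t = some (c, v)
    · rw [if_pos hp, if_pos ⟨hat, hp⟩, Finset.card_insert_of_notMem (by simp)]
    · rw [if_neg hp, if_neg (fun h => hp h.2), add_zero]
  · rw [if_neg (fun h => hat h.1), Finset.Ico_eq_empty (by omega), Finset.Ico_eq_empty (by omega)]
    simp

theorem h2_cnt_mono (p : ℕ → Pt) (c : Bool) (v a : ℕ) : Monotone (cnt p c v a) := by
  refine monotone_nat_of_le_succ fun t => ?_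
  rw [h2_cnt_succ]; omega

theorem h2_cnt_le (p : ℕ → Pt) (c : Bool) (v a t : ℕ) : cnt p c v a t ≤ t := by
  unfold cnt
  refine (Finset.card_filter_le _ _).trans ?_
  rw [Nat.card_Ico]; omega

theorem h2_cnt_zero (p : ℕ → Pt) (c : Bool) (v a : ℕ) : cnt p c v a 0 = 0 := by
  unfold cnt; simp

/-- the counts tend to infinity -/
theorem h2_cnt_unb (p : ℕ → Pt) (c : Bool) (v a : ℕ)
    (h : ∀ a, ∃ t, a ≤ t ∧ p t = some (c, v)) : ∀ n, ∃ t0, ∀ t, t0 ≤ t → n ≤ cnt p c v a t := by
  intro n
  induction n with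
  | zero => exact ⟨0, fun _ _ => Nat.zero_le _⟩
  | succ n ih =>
    obtain ⟨t0, ht0⟩ := ih
    obtain ⟨t, ht, hp⟩ := h (max t0 a)
    refine ⟨t + 1, fun s hs => ?_⟩
    have h1 := h2_cnt_mono p c v a hs
    rw [h2_cnt_succ, if_pos ⟨(le_max_right _ _).trans ht, hp⟩] at h1
    have h2 := ht0 t ((le_max_left _ _).trans ht)
    omega

theorem h2_cnt_comp (p : ℕ → Pt) (hp : Computable p) (c : Bool) (v a : ℕ) :
    Computable (cnt p c v a) := by
  have hpred : Computable (fun t : ℕ => decide (a ≤ t ∧ p t = some (c, v))) := by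
    have h1 : Computable (fun t : ℕ => decide (a ≤ t)) :=
      (Primrec.nat_le.decide.to_comp.comp (Computable.const a) Computable.id)
    have h2 : Computable (fun t : ℕ => decide (p t = some (c, v))) :=
      (Primrec.eq.decide.to_comp.comp hp (Computable.const (some (c, v))))
    have h3 : Computable (fun t : ℕ => decide (a ≤ t) && decide (p t = some (c, v))) :=
      Primrec.and.to_comp.comp h1 h2
    refine h3.of_eq fun t => ?_
    simp [Bool.decide_and]
  have hstep : Computable₂ (fun (_ : ℕ) (q : ℕ × ℕ) =>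
      q.2 + cond (decide (a ≤ q.1 ∧ p q.1 = some (c, v))) 1 0) := by
    refine Primrec.nat_add.to_comp.comp (Computable.snd.comp Computable.snd) ?_
    exact Computable.cond (hpred.comp (Computable.fst.comp Computable.snd))
      (Computable.const 1) (Computable.const 0)
  have := Computable.nat_rec (f := fun t : ℕ => t) (g := fun _ : ℕ => 0)
    (h := fun (_ : ℕ) (q : ℕ × ℕ) => q.2 + cond (decide (a ≤ q.1 ∧ p q.1 = some (c, v))) 1 0)
    Computable.id (Computable.const 0) hstep
  refine this.of_eq fun t => ?_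
  change Nat.rec (motive := fun _ => ℕ) 0
    (fun y IH => IH + cond (decide (a ≤ y ∧ p y = some (c, v))) 1 0) t = _
  induction t with
  | zero => exact (h2_cnt_zero p c v a).symm
  | succ t ih =>
    rw [h2_cnt_succ, ← ih]
    by_cases h : a ≤ t ∧ p t = some (c, v) <;> simp [h]

/-- a total search is computable -/
theorem h2_find_comp (Q : ℕ → ℕ → Bool) (hQ : Computable₂ Q) (hex : ∀ n, ∃ t, Q n t = true) :
    Computable (fun n => Nat.find (hex n)) := by
  have h1 : Partrec (fun n : ℕ => Nat.rfind (fun t => (Part.some (Q n t) : Part Bool))) :=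
    Partrec.rfind (p := fun n t => (Part.some (Q n t) : Part Bool)) hQ
  refine (h1.of_eq fun n => ?_ : Partrec (fun n => (Part.some (Nat.find (hex n)))))
  rw [Part.eq_some_iff]
  rw [Nat.mem_rfind]
  refine ⟨?_, ?_⟩
  · have := Nat.find_spec (hex n)
    simp [this]
  · intro m hm
    have := Nat.find_min (hex n) hm
    simpa using this

theorem h2_zz_le {u m n : ℕ} (h : m ≤ n) : zz u m ≤ zz u n :=
  Nat.mul_le_mul_left _ (Nat.pow_le_pow_right (by norm_num) h)

theorem h2_le_zz {u n : ℕ} (hu : 1 ≤ u) : n ≤ zz u n :=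
  (Nat.lt_two_pow_self).le.trans (Nat.le_mul_of_pos_left _ hu)

theorem h2_main (hw : StmtWI) : StmtH2 := by
  intro p γ f n0 u v j a hp hγ hf hu1 hu2 hv hlim
  obtain ⟨hfm, hesc⟩ := hf
  obtain ⟨⟨m0, hm0⟩, hvis⟩ := hv
  set F : ℕ → ℕ := fun m => f (n0 + m) with hF
  have hFm : StrictMono F := fun x y hxy => hfm (by omega)
  -- the test of the search
  let Q : ℕ → ℕ → Bool := fun n t =>
    (decide (a ≤ t) && decide (γ t = v)) &&
      (decide (n ≤ cnt p false (zz (sel false u) j) a t) &&
        decide (n ≤ cnt p true (zz (sel true u) j) a t))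
  have hQ : Computable₂ Q := by
    have hsnd : Computable (fun q : ℕ × ℕ => q.2) := Computable.snd
    have hfst : Computable (fun q : ℕ × ℕ => q.1) := Computable.fst
    have h1 : Computable (fun q : ℕ × ℕ => decide (a ≤ q.2)) :=
      Primrec.nat_le.decide.to_comp.comp (Computable.const a) hsnd
    have h2 : Computable (fun q : ℕ × ℕ => decide (γ q.2 = v)) :=
      Primrec.eq.decide.to_comp.comp (hγ.comp hsnd) (Computable.const v)
    have h3 : ∀ c, Computable (fun q : ℕ × ℕ => decide (q.1 ≤ cnt p c (zz (sel c u) j) a q.2)) :=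
      fun c => Primrec.nat_le.decide.to_comp.comp hfst ((h2_cnt_comp p hp c _ a).comp hsnd)
    exact Primrec.and.to_comp.comp (Primrec.and.to_comp.comp h1 h2)
      (Primrec.and.to_comp.comp (h3 false) (h3 true))
  have hQ' : ∀ n t, Q n t = true ↔ a ≤ t ∧ γ t = v ∧
      ∀ c, n ≤ cnt p c (zz (sel c u) j) a t := by
    intro n t
    simp only [Q, Bool.and_eq_true, decide_eq_true_eq, Bool.forall_bool]
    tauto
  have hex : ∀ n, ∃ t, Q n t = true := by
    intro n
    obtain ⟨t0, ht0⟩ := h2_cnt_unb p false (zz (sel false u) j) a (hlim false).2 n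
    obtain ⟨t1, ht1⟩ := h2_cnt_unb p true (zz (sel true u) j) a (hlim true).2 n
    obtain ⟨t, ht, hg⟩ := hvis (max (max t0 t1) a)
    refine ⟨t, (hQ' n t).2 ⟨(le_max_right _ _).trans ht, hg, ?_⟩⟩
    intro c
    cases c
    · exact ht0 t (((le_max_left _ _).trans (le_max_left _ _)).trans ht)
    · exact ht1 t (((le_max_right _ _).trans (le_max_left _ _)).trans ht)
  have hG := h2_find_comp Q hQ hex
  have hB : Computable (fun n : ℕ => zz u.1 n + zz u.2 n + 1) := by
    have hpow : Primrec (fun n : ℕ => 2 ^ n) := by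
      have : Primrec (fun n : ℕ => Nat.rec (motive := fun _ => ℕ) 1 (fun _ r => r * 2) n) := by
        refine Primrec.nat_rec₁ 1 ?_
        exact Primrec.nat_mul.comp Primrec.snd (Primrec.const 2)
      refine this.of_eq fun n => ?_
      induction n with
      | zero => rfl
      | succ n ih => show _ * 2 = _; rw [ih, pow_succ]
    have hz : ∀ w : ℕ, Primrec (fun n : ℕ => zz w n) := fun w =>
      Primrec.nat_mul.comp (Primrec.const w) hpow
    exact (Primrec.nat_add.comp (Primrec.nat_add.comp (hz u.1) (hz u.2))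
      (Primrec.const 1)).to_comp
  have hh : Computable (fun n : ℕ => Nat.find (hex (zz u.1 n + zz u.2 n + 1)) + 1) :=
    (Primrec.succ.to_comp).comp (hG.comp hB)
  obtain ⟨n, hn, hle⟩ := hesc _ hh (n0 + 1 + F (max j m0))
  obtain ⟨m, rfl⟩ : ∃ m, n = n0 + (m + 1) := ⟨n - n0 - 1, by omega⟩
  set B : ℕ := zz u.1 (n0 + (m + 1)) + zz u.2 (n0 + (m + 1)) + 1 with hBdef
  set t0 : ℕ := Nat.find (hex B) with ht0
  obtain ⟨hat, hgt, hct⟩ := (hQ' B t0).1 (Nat.find_spec (hex B))
  have ht0F : t0 < F (m + 1) := by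
    have : t0 + 1 ≤ F (m + 1) := hle
    omega
  have hBn : n0 + (m + 1) ≤ B := by
    have := h2_le_zz (n := n0 + (m + 1)) hu1
    omega
  have ht0M : F (max j m0) ≤ t0 := by
    have h1 := hct false
    have h2 := h2_cnt_le p false (zz (sel false u) j) a t0
    omega
  -- the window
  obtain ⟨m', hm'⟩ : ∃ m', F m' ≤ t0 ∧ t0 < F (m' + 1) := by
    have hex' : ∃ k, t0 < F (k + 1) := ⟨m, ht0F⟩
    refine ⟨Nat.find hex', ?_, Nat.find_spec hex'⟩
    rcases Nat.eq_zero_or_pos (Nat.find hex') with h0 | h0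
    · rw [h0]
      exact (hFm.monotone (Nat.zero_le _)).trans ht0M
    · by_contra hc
      push Not at hc
      have := Nat.find_min hex' (m := Nat.find hex' - 1) (by omega)
      apply this
      have e : Nat.find hex' - 1 + 1 = Nat.find hex' := by omega
      rw [e]; exact hc
  have hm'm : m' ≤ m := by
    by_contra hc
    push Not at hc
    have : F (m + 1) ≤ F m' := hFm.monotone (by omega)
    omega
  have hMm' : max j m0 ≤ m' := by
    by_contra hc
    push Not at hc
    have : F (m' + 1) ≤ F (max j m0) := hFm.monotone (by omega)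
    omega
  refine ⟨m' + 1, ?_, ?_, ?_⟩
  · have := le_max_left j m0; omega
  · show win γ F (m' + 1 - 1) = v
    rw [Nat.add_sub_cancel]
    obtain ⟨⟨t, ht1, ht2, ht3⟩, hmin⟩ := (hw γ F hFm).1 m'
    refine h2_lexlt_tri _ _ ?_ ?_
    · rw [← ht3]
      refine hm0 t ?_
      have h1 : m' ≤ F m' := hFm.id_le m'
      have h2 := le_max_right j m0
      omega
    · have := hmin t0 hm'.1 hm'.2
      rwa [hgt] at this
  · refine ⟨?_, ?_⟩
    · show a ≤ F (m' + 1)
      omega
    · intro c
      show zz (sel c u) (m' + 1) < zz (sel c u) j + cnt p c (zz (sel c u) j) a (F (m' + 1))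
      have h1 : cnt p c (zz (sel c u) j) a t0 ≤ cnt p c (zz (sel c u) j) a (F (m' + 1)) :=
        h2_cnt_mono p c _ a hm'.2.le
      have h2 := hct c
      have h3 : zz (sel c u) (m' + 1) ≤ zz (sel c u) (n0 + (m + 1)) := h2_zz_le (by omega)
      have h4 : zz (sel c u) (n0 + (m + 1)) < B := by
        cases c
        · show zz u.1 _ < _; omega
        · show zz u.2 _ < _; omega
      omega

end Pool.Agent.Downey
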