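import Pool.Agent.Downey.Stmts

/-!
# The start value is realised
-/

set_option autoImplicit false

namespace Pool.Agent.Downey

theorem h3_top (p : ℕ → Pt) (u : ℕ × ℕ) (F : ℕ → ℕ) (g : ℕ → ℕ × ℕ) (m n : ℕ)
    (h : nxt p u F g 0 m = 0) : topF p u F g n 0 m = 0 := by
  cases n with
  | zero => rfl
  | succ n => simp [topF, h]

theorem h3_main (hw : StmtWI) (_hb : StmtBA) : StmtH3 := by
  intro P u v γ hlim hnot
  have hlim' := hlim
  obtain ⟨⟨m0, hm0⟩, hinf⟩ := hlim
  -- reduction to the visits of `v`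
  have key : ∀ (a0 : ℕ), m0 ≤ a0 → (∀ F : ℕ → ℕ, StrictMono F → a0 ≤ F 0 →
      ∀ m1, ∃ m, m1 ≤ m ∧ win γ F m = v ∧ nxt (P v.1) u F (win γ F) 0 m = 0) →
      ∃ a0, ∀ F : ℕ → ℕ, StrictMono F → a0 ≤ F 0 → LimT (TT P u F (win γ F)) 0 := by
    intro a0 ha0 H
    refine ⟨a0, fun F hF hF0 => ⟨⟨0, fun m _ => Nat.zero_le _⟩, fun m1 => ?_⟩⟩
    obtain ⟨m, hm, hv, hn⟩ := H F hF hF0 m1
    refine ⟨m, hm, ?_⟩
    have hkk : kk (win γ F) m = 0 := by
      unfold kk
      apply Nat.sInf_eq_zero.2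
      left
      intro m' _ _
      rw [hv]
      obtain ⟨t, ht1, ht2, ht3⟩ := ((hw γ F hF).1 m').1
      rw [← ht3]
      apply hm0
      have := hF.monotone (Nat.zero_le m')
      omega
    unfold TT
    rw [hkk, hv]
    exact h3_top _ _ _ _ _ _ hn
  by_cases hA : ∀ a, ∃ t, a ≤ t ∧ hit (P v.1) u 0 t
  · -- infinitely many hits
    apply key m0 le_rfl
    intro F hF hF0 m1
    obtain ⟨t, ht, hhit⟩ := hA (F (m1 + 1))
    have hvis : ∀ m0, ∃ m, m0 ≤ m ∧ win γ F m = v := (((hw γ F hF).2 v).2 hlim').2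
    have hex : ∃ m, win γ F m = v ∧ t < F (m + 1) := by
      obtain ⟨m, hm, hmv⟩ := hvis t
      refine ⟨m, hmv, ?_⟩
      have := hF.id_le (m + 1)
      simp only [id] at this
      omega
    classical
    obtain ⟨hmv, hmt⟩ := Nat.find_spec hex
    have hmin : ∀ m', m' < Nat.find hex → win γ F m' = v → F (m' + 1) ≤ t := by
      intro m' hm' hv'
      by_contra hcon
      exact Nat.find_min hex hm' ⟨hv', not_le.1 hcon⟩
    set m := Nat.find hex with hmdef
    have hm1 : m1 ≤ m := by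
      by_contra hcon
      have h1 : F (m + 1) ≤ F (m1 + 1) := hF.monotone (by omega)
      omega
    refine ⟨m, hm1, hmv, ?_⟩
    have hne : {a | F 0 ≤ a ∧ ∀ t, a ≤ t → t < F (m + 1) → ¬ hit (P v.1) u 0 t}.Nonempty :=
      ⟨F (m + 1), hF.monotone (Nat.zero_le _), fun t h1 h2 => absurd h2 (not_lt.2 h1)⟩
    have harr : t < arr (P v.1) u F 0 m := by
      have hmem := Nat.sInf_mem hne
      by_contra hcon
      exact hmem.2 t (not_lt.1 hcon) hmt hhit
    unfold nxt
    apply Nat.sInf_eq_zero.2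
    right
    rw [Set.eq_empty_iff_forall_notMem]
    rintro j' ⟨h1, h2, h3, h4, _⟩
    have h5 := hmin (j' - 1) (by omega) (by rw [h3, hmv])
    have h6 : j' - 1 + 1 = j' := by omega
    rw [h6] at h5
    omega
  · -- finitely many hits
    push Not at hA
    obtain ⟨a2, ha2⟩ := hA
    have hGe : ∀ c, Ge (P v.1) c a2 (sel c u) := by
      intro c t ht k hk
      by_contra hcon
      refine ha2 t ht ⟨c, k, hk, ?_⟩
      simpa [zz] using not_le.1 hcon
    push Not at hnot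
    obtain ⟨c, hc⟩ := hnot
    have hno : ∃ a1, ∀ t, a1 ≤ t → (P v.1) t ≠ some (c, sel c u) := by
      by_contra hcon
      push Not at hcon
      exact hc ⟨⟨a2, hGe c⟩, hcon⟩
    obtain ⟨a1, ha1⟩ := hno
    apply key (max m0 a1) (le_max_left _ _)
    intro F hF hF0 m1
    obtain ⟨m, hm, hmv⟩ := (((hw γ F hF).2 v).2 hlim').2 m1
    refine ⟨m, hm, hmv, ?_⟩
    have hne : {a | F 0 ≤ a ∧ ∀ t, a ≤ t → t < F (m + 1) → ¬ hit (P v.1) u 0 t}.Nonempty :=
      ⟨F (m + 1), hF.monotone (Nat.zero_le _), fun t h1 h2 => absurd h2 (not_lt.2 h1)⟩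
    have harr : F 0 ≤ arr (P v.1) u F 0 m := (Nat.sInf_mem hne).1
    have harr1 : a1 ≤ arr (P v.1) u F 0 m := le_trans (le_trans (le_max_right _ _) hF0) harr
    unfold nxt
    apply Nat.sInf_eq_zero.2
    right
    rw [Set.eq_empty_iff_forall_notMem]
    rintro j' ⟨_, _, _, _, h5⟩
    have h6 := h5 c
    have h7 : cnt (P v.1) c (zz (sel c u) 0) (arr (P v.1) u F 0 m) (F j') = 0 := by
      unfold cnt
      rw [Finset.card_eq_zero, Finset.filter_eq_empty_iff]
      intro t ht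
      have h8 := (Finset.mem_Ico.1 ht).1
      have h9 := ha1 t (le_trans harr1 h8)
      simpa [zz] using h9
    rw [h7] at h6
    have h10 : zz (sel c u) 0 ≤ zz (sel c u) j' := by
      unfold zz
      exact Nat.mul_le_mul_left _ (Nat.pow_le_pow_right (by norm_num) (Nat.zero_le _))
    omega

end Pool.Agent.Downey
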