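import Pool.Agent.Downey.Stmts

/-!
# HC: complexity of the tops
-/

set_option autoImplicit false

namespace Pool.Agent.Downey

open Pool.Agent.NonLow

/-! ### `X`-computable functions -/

/-- the graph of `f` is `Σ₁(X)` -/
def HcF (X : ℕ → ℕ) {α β : Type} [Primcodable α] [Primcodable β] (f : α → β) : Prop :=
  Sg X 0 (fun q : α × β => f q.1 = q.2)

section lib
variable {X : ℕ → ℕ} {α β γ δ : Type} [Primcodable α] [Primcodable β] [Primcodable γ]
  [Primcodable δ]

theorem hc_of_comp {f : α → β} (hf : Computable f) : HcF X f :=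
  ((Dl.eq (X := X) (n := 0) (Computable.encode.comp (hf.comp Computable.fst))
    (Computable.encode.comp Computable.snd)).1).of_iff fun _ => Encodable.encode_inj.symm

theorem hc_comp {f : β → γ} {g : α → β} (hf : HcF X f) (hg : HcF X g) :
    HcF X (fun x => f (g x)) := by
  have h1 : Sg X 0 (fun p : (α × γ) × β => g p.1.1 = p.2) :=
    Sg.comp hg (f := fun p : (α × γ) × β => (p.1.1, p.2))
      ((Computable.fst.comp Computable.fst).pair Computable.snd)
  have h2 : Sg X 0 (fun p : (α × γ) × β => f p.2 = p.1.2) :=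
    Sg.comp hf (f := fun p : (α × γ) × β => (p.2, p.1.2))
      (Computable.snd.pair (Computable.snd.comp Computable.fst))
  exact Sg.fsub (P := fun (p : α × γ) (y : β) => f y = p.2) (f := fun p : α × γ => g p.1) h1 h2

theorem hc_pair {f : α → β} {g : α → γ} (hf : HcF X f) (hg : HcF X g) :
    HcF X (fun x => (f x, g x)) := by
  have h1 : Sg X 0 (fun p : α × (β × γ) => f p.1 = p.2.1) :=
    Sg.comp hf (f := fun p : α × (β × γ) => (p.1, p.2.1))
      (Computable.fst.pair (Computable.fst.comp Computable.snd))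
  have h2 : Sg X 0 (fun p : α × (β × γ) => g p.1 = p.2.2) :=
    Sg.comp hg (f := fun p : α × (β × γ) => (p.1, p.2.2))
      (Computable.fst.pair (Computable.snd.comp Computable.snd))
  exact (h1.and h2).of_iff fun p => by rw [Prod.ext_iff]

theorem hc_dl {P : β → Prop} {g : α → β} (h : Dl X 0 P) (hg : HcF X g) :
    Dl X 0 (fun x => P (g x)) :=
  Dl.fsub (P := fun (_ : α) (y : β) => P y) hg (h.comp (f := fun p : α × β => p.2) Computable.snd)

theorem hc_ite {P : α → Prop} [DecidablePred P] (h : Dl X 0 P) {f g : α → β} (hf : HcF X f)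
    (hg : HcF X g) : HcF X (fun x => if P x then f x else g x) := by
  have h1 : Sg X 0 (fun q : α × β => P q.1) :=
    h.1.comp (f := fun q : α × β => q.1) Computable.fst
  have h2 : Sg X 0 (fun q : α × β => ¬ P q.1) :=
    h.2.comp (P := fun x => ¬ P x) (f := fun q : α × β => q.1) Computable.fst
  refine ((h1.and hf).or (h2.and hg)).of_iff fun q => ?_
  by_cases hq : P q.1
  · simp [hq]
  · simp [hq]

theorem hc_eq [DecidableEq β] {f g : α → β} (hf : HcF X f) (hg : HcF X g) :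
    Dl X 0 (fun x => f x = g x) :=
  hc_dl (P := fun p : β × β => p.1 = p.2) (Dl.eq Computable.fst Computable.snd) (hc_pair hf hg)

theorem hc_lt {f g : α → ℕ} (hf : HcF X f) (hg : HcF X g) : Dl X 0 (fun x => f x < g x) :=
  hc_dl (P := fun p : ℕ × ℕ => p.1 < p.2) (Dl.lt Computable.fst Computable.snd) (hc_pair hf hg)

theorem hc_le {f g : α → ℕ} (hf : HcF X f) (hg : HcF X g) : Dl X 0 (fun x => f x ≤ g x) :=
  hc_dl (P := fun p : ℕ × ℕ => p.1 ≤ p.2) (Dl.le Computable.fst Computable.snd) (hc_pair hf hg)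

theorem hc_ball {P : α → ℕ → Prop} (h : Dl X 0 (fun p : α × ℕ => P p.1 p.2)) {f : α → ℕ}
    (hf : HcF X f) : Dl X 0 (fun x => ∀ m, m < f x → P x m) := by
  refine Dl.fsub (P := fun (x : α) (b : ℕ) => ∀ m, m < b → P x m) hf ?_
  refine Dl.ball (P := fun (q : α × ℕ) (m : ℕ) => P q.1 m) ?_ Computable.snd
  exact h.comp (f := fun r : (α × ℕ) × ℕ => (r.1.1, r.2))
    ((Computable.fst.comp Computable.fst).pair Computable.snd)

theorem hc_add {f g : α → ℕ} (hf : HcF X f) (hg : HcF X g) : HcF X (fun x => f x + g x) :=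
  hc_comp (f := fun p : ℕ × ℕ => p.1 + p.2) (hc_of_comp (Primrec.nat_add.to_comp))
    (hc_pair hf hg)

theorem hc_sInf (h2 : StmtC2) {P : α → ℕ → Prop} (h : Dl X 0 (fun p : α × ℕ => P p.1 p.2))
    (hne : ∀ x, ∃ n, P x n) : HcF X (fun x => sInf {n | P x n}) :=
  (h2 X α (fun p => P p.1 p.2) h).2.2 hne

theorem hc_sInf_aux (P : ℕ → Prop) (b : ℕ) (hb : ∀ n, P n → n < b) :
    sInf {n | P n ∨ ∀ m, m < b → ¬ P m} = sInf {n | P n} := by
  by_cases h : ∃ n, P n
  · obtain ⟨n0, hn0⟩ := h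
    congr 1
    ext n
    constructor
    · rintro (h1 | h1)
      · exact h1
      · exact absurd hn0 (h1 n0 (hb n0 hn0))
    · exact fun h1 => Or.inl h1
  · have e1 : {n | P n} = (∅ : Set ℕ) := by
      ext n
      simp only [Set.mem_ofPred_eq, Set.mem_empty_iff_false, iff_false]
      exact fun hn => h ⟨n, hn⟩
    have e2 : {n | P n ∨ ∀ m, m < b → ¬ P m} = (Set.univ : Set ℕ) := by
      ext n
      simp only [Set.mem_ofPred_eq, Set.mem_univ, iff_true]
      exact Or.inr fun m _ hm => h ⟨m, hm⟩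
    rw [e1, e2, Nat.sInf_empty]
    exact Nat.sInf_eq_zero.2 (Or.inl (Set.mem_univ _))

theorem hc_bsInf (h2 : StmtC2) {P : α → ℕ → Prop} (h : Dl X 0 (fun p : α × ℕ => P p.1 p.2))
    {b : α → ℕ} (hb : HcF X b) (hP : ∀ x n, P x n → n < b x) :
    HcF X (fun x => sInf {n | P x n}) := by
  have hB : Dl X 0 (fun p : α × ℕ => ∀ m, m < b p.1 → ¬ P p.1 m) := by
    refine (hc_ball (P := fun (x : α) (m : ℕ) => ¬ P x m) h.not hb).comp
      (f := fun p : α × ℕ => p.1) Computable.fst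
  have hC := hc_sInf h2 (P := fun (x : α) (n : ℕ) => P x n ∨ ∀ m, m < b x → ¬ P x m) (h.or hB) ?_
  · have e : (fun x => sInf {n | P x n ∨ ∀ m, m < b x → ¬ P x m}) = fun x => sInf {n | P x n} :=
      funext fun x => hc_sInf_aux (P x) (b x) (hP x)
    rw [e] at hC
    exact hC
  · intro x
    by_cases h : ∃ n, P x n
    · obtain ⟨n, hn⟩ := h
      exact ⟨n, Or.inl hn⟩
    · exact ⟨0, Or.inr fun m _ hm => h ⟨m, hm⟩⟩

open Classical in
theorem hc_card (h2 : StmtC2) {P : α → ℕ → Prop} (h : Dl X 0 (fun p : α × ℕ => P p.1 p.2))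
    {b : α → ℕ} (hb : HcF X b) :
    HcF X (fun x => ((Finset.range (b x)).filter fun j => P x j).card) := by
  have h3 := (h2 X α (fun p => P p.1 p.2) h).1
  exact hc_comp (f := fun q : α × ℕ => ((Finset.range q.2).filter fun j => P q.1 j).card)
    (g := fun x => (x, b x)) h3 (hc_pair (hc_of_comp Computable.id) hb)

end lib

/-! ### Elementary functions -/

theorem hc_pow : Primrec (fun p : ℕ × ℕ => p.1 ^ p.2) :=
  Primrec₂.unpaired'.1 Nat.Primrec.pow

theorem hc_zz : Computable (fun p : ℕ × ℕ => zz p.1 p.2) := by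
  have h : Primrec (fun p : ℕ × ℕ => p.1 * 2 ^ p.2) :=
    Primrec.nat_mul.comp Primrec.fst (hc_pow.comp ((Primrec.const 2).pair Primrec.snd))
  exact h.to_comp

theorem hc_sel : Computable (fun p : Bool × (ℕ × ℕ) => sel p.1 p.2) := by
  have h : Primrec (fun p : Bool × (ℕ × ℕ) => cond p.1 p.2.2 p.2.1) :=
    Primrec.cond Primrec.fst (Primrec.snd.comp Primrec.snd) (Primrec.fst.comp Primrec.snd)
  exact h.to_comp

section main
variable {X : ℕ → ℕ} {ι : Type} [Primcodable ι] {P : ι → ℕ → ℕ → Pt}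
  {u : ι → ℕ × ℕ} {F : ι → ℕ → ℕ} {g : ι → ℕ → ℕ × ℕ}
variable {α : Type} [Primcodable α]

theorem hc_ex {β : Type} [Primcodable β] {Q : α → β → Prop} {o : α → Option β}
    (ho : HcF X o) (hQ : Dl X 0 (fun p : α × β => Q p.1 p.2)) :
    Dl X 0 (fun x => ∃ b, o x = some b ∧ Q x b) := by
  have h1 : Sg X 0 (fun p : α × β => o p.1 = some p.2) :=
    Sg.comp ho (f := fun p : α × β => (p.1, some p.2))
      (Computable.fst.pair (Computable.option_some.comp Computable.snd))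
  have h2 : Sg X 0 (fun x => o x = none) :=
    Sg.comp ho (f := fun x : α => (x, none)) (Computable.id.pair (Computable.const none))
  refine ⟨Sg.ex (P := fun (x : α) (b : β) => o x = some b ∧ Q x b) (h1.and hQ.1), ?_⟩
  refine (h2.or (Sg.ex (P := fun (x : α) (b : β) => o x = some b ∧ ¬ Q x b)
    (h1.and hQ.2))).of_iff fun x => ?_
  constructor
  · intro h
    cases hx : o x with
    | none => exact Or.inl rfl
    | some b => exact Or.inr ⟨b, rfl, fun hb => h ⟨b, hx, hb⟩⟩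
  · rintro (h | ⟨b, h3, h4⟩) ⟨b', h5, h6⟩
    · rw [h] at h5
      exact absurd h5 (by simp)
    · rw [h3] at h5
      obtain rfl := Option.some.inj h5
      exact h4 h6

/-- `hit` is decidable -/
theorem hc_hit (hP : Computable (fun q : ι × ℕ × ℕ => P q.1 q.2.1 q.2.2)) (hu : Computable u)
    {i : α → ι} {l j t : α → ℕ} (hi : HcF X i) (hl : HcF X l) (hj : HcF X j) (ht : HcF X t) :
    Dl X 0 (fun x => hit (P (i x) (l x)) (u (i x)) (j x) (t x)) := by
  have ho : HcF X (fun x => P (i x) (l x) (t x)) :=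
    hc_comp (f := fun q : ι × ℕ × ℕ => P q.1 q.2.1 q.2.2) (g := fun x => (i x, l x, t x))
      (hc_of_comp hP) (hc_pair hi (hc_pair hl ht))
  have hv : HcF X (fun p : α × (Bool × ℕ) => zz (sel p.2.1 (u (i p.1))) (j p.1)) := by
    refine hc_comp (f := fun p : ℕ × ℕ => zz p.1 p.2) (hc_of_comp hc_zz) (hc_pair ?_ ?_)
    · refine hc_comp (f := fun p : Bool × (ℕ × ℕ) => sel p.1 p.2) (hc_of_comp hc_sel)
        (hc_pair (hc_of_comp (Computable.fst.comp Computable.snd)) ?_)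
      exact hc_comp (f := u) (hc_of_comp hu)
        (hc_comp (f := i) (g := fun p : α × (Bool × ℕ) => p.1) hi (hc_of_comp Computable.fst))
    · exact hc_comp (f := j) (g := fun p : α × (Bool × ℕ) => p.1) hj (hc_of_comp Computable.fst)
  have h := hc_ex (Q := fun (x : α) (b : Bool × ℕ) => b.2 < zz (sel b.1 (u (i x))) (j x)) ho
    (hc_lt (hc_of_comp (Computable.snd.comp Computable.snd)) hv)
  refine h.of_iff fun x => ?_
  constructor
  · rintro ⟨c, k, h1, h2⟩
    exact ⟨(c, k), h1, h2⟩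
  · rintro ⟨⟨c, k⟩, h1, h2⟩
    exact ⟨c, k, h1, h2⟩

theorem hc_F (hF : Sg X 0 (fun q : (ι × ℕ) × ℕ => F q.1.1 q.1.2 = q.2)) {i : α → ι} {m : α → ℕ}
    (hi : HcF X i) (hm : HcF X m) : HcF X (fun x => F (i x) (m x)) :=
  hc_comp (f := fun q : ι × ℕ => F q.1 q.2) (g := fun x => (i x, m x)) hF (hc_pair hi hm)

theorem hc_g (hg : Sg X 0 (fun q : (ι × ℕ) × (ℕ × ℕ) => g q.1.1 q.1.2 = q.2)) {i : α → ι}
    {m : α → ℕ} (hi : HcF X i) (hm : HcF X m) : HcF X (fun x => g (i x) (m x)) :=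
  hc_comp (f := fun q : ι × ℕ => g q.1 q.2) (g := fun x => (i x, m x)) hg (hc_pair hi hm)

theorem hc_fst {β γ : Type} [Primcodable β] [Primcodable γ] {f : α → β × γ} (hf : HcF X f) :
    HcF X (fun x => (f x).1) :=
  hc_comp (f := fun p : β × γ => p.1) (hc_of_comp Computable.fst) hf

theorem hc_snd {β γ : Type} [Primcodable β] [Primcodable γ] {f : α → β × γ} (hf : HcF X f) :
    HcF X (fun x => (f x).2) :=
  hc_comp (f := fun p : β × γ => p.2) (hc_of_comp Computable.snd) hf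

/-- weakening -/
theorem hc_w {β γ : Type} [Primcodable β] [Primcodable γ] {f : α → β} (hf : HcF X f) :
    HcF X (fun p : α × γ => f p.1) :=
  hc_comp (f := f) (g := fun p : α × γ => p.1) hf (hc_of_comp Computable.fst)

theorem hc_v {γ : Type} [Primcodable γ] : HcF X (fun p : α × γ => p.2) :=
  hc_of_comp Computable.snd

theorem hc_succ {f : α → ℕ} (hf : HcF X f) : HcF X (fun x => f x + 1) :=
  hc_comp (f := Nat.succ) (hc_of_comp Computable.succ) hf

/-- `arr` is `X`-computable -/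
theorem hc_arr (h2 : StmtC2) (hP : Computable (fun q : ι × ℕ × ℕ => P q.1 q.2.1 q.2.2))
    (hu : Computable u) (hF : Sg X 0 (fun q : (ι × ℕ) × ℕ => F q.1.1 q.1.2 = q.2))
    {i : α → ι} {l j m : α → ℕ} (hi : HcF X i) (hl : HcF X l) (hj : HcF X j) (hm : HcF X m) :
    HcF X (fun x => arr (P (i x) (l x)) (u (i x)) (F (i x)) (j x) (m x)) := by
  have hA : Dl X 0 (fun p : α × ℕ => F (i p.1) (j p.1) ≤ p.2 ∧
      ∀ t, t < F (i p.1) (m p.1 + 1) → p.2 ≤ t →
        ¬ hit (P (i p.1) (l p.1)) (u (i p.1)) (j p.1) t) := by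
    refine Dl.and (hc_le (hc_F hF (hc_w hi) (hc_w hj)) hc_v) ?_
    refine hc_ball (P := fun (p : α × ℕ) (t : ℕ) => p.2 ≤ t →
        ¬ hit (P (i p.1) (l p.1)) (u (i p.1)) (j p.1) t) ?_
        (hc_F hF (hc_w hi) (hc_succ (hc_w hm)))
    refine Dl.imp (hc_le (hc_w hc_v) hc_v) (Dl.not ?_)
    exact hc_hit hP hu (i := fun p : (α × ℕ) × ℕ => i p.1.1) (l := fun p : (α × ℕ) × ℕ => l p.1.1)
      (j := fun p : (α × ℕ) × ℕ => j p.1.1) (t := fun p : (α × ℕ) × ℕ => p.2)
      (hc_w (hc_w hi)) (hc_w (hc_w hl)) (hc_w (hc_w hj)) hc_v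
  have hB := hc_sInf h2 (P := fun (x : α) (a : ℕ) => F (i x) (j x) ≤ a ∧
      ∀ t, t < F (i x) (m x + 1) → a ≤ t →
        ¬ hit (P (i x) (l x)) (u (i x)) (j x) t) hA
    (fun x => ⟨max (F (i x) (j x)) (F (i x) (m x + 1)), le_max_left _ _, fun t ht h3 =>
      absurd (lt_of_lt_of_le ht (le_trans (le_max_right _ _) h3)) (lt_irrefl _)⟩)
  have e : (fun x => sInf {a | F (i x) (j x) ≤ a ∧
      ∀ t, t < F (i x) (m x + 1) → a ≤ t → ¬ hit (P (i x) (l x)) (u (i x)) (j x) t}) =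
      fun x => arr (P (i x) (l x)) (u (i x)) (F (i x)) (j x) (m x) := by
    funext x
    unfold arr
    congr 1
    ext a
    constructor
    · rintro ⟨h1, h3⟩
      exact ⟨h1, fun t ht1 ht2 => h3 t ht2 ht1⟩
    · rintro ⟨h1, h3⟩
      exact ⟨h1, fun t ht1 ht2 => h3 t ht2 ht1⟩
  rw [e] at hB
  exact hB

/-- `cnt` is `X`-computable -/
theorem hc_cnt (h2 : StmtC2) (hP : Computable (fun q : ι × ℕ × ℕ => P q.1 q.2.1 q.2.2))
    {i : α → ι} {l v a b : α → ℕ} (c : Bool) (hi : HcF X i) (hl : HcF X l) (hv : HcF X v)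
    (ha : HcF X a) (hb : HcF X b) :
    HcF X (fun x => cnt (P (i x) (l x)) c (v x) (a x) (b x)) := by
  classical
  have hA : Dl X 0 (fun p : α × ℕ => a p.1 ≤ p.2 ∧
      P (i p.1) (l p.1) p.2 = some (c, v p.1)) := by
    refine Dl.and (hc_le (hc_w ha) hc_v) (hc_eq ?_ ?_)
    · exact hc_comp (f := fun q : ι × ℕ × ℕ => P q.1 q.2.1 q.2.2)
        (g := fun p : α × ℕ => (i p.1, l p.1, p.2))
        (hc_of_comp hP) (hc_pair (hc_w hi) (hc_pair (hc_w hl) hc_v))
    · exact hc_comp (f := fun n : ℕ => some (c, n))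
        (hc_of_comp (Computable.option_some.comp ((Computable.const c).pair Computable.id)))
        (hc_w hv)
  have hB := hc_card h2 (P := fun (x : α) (t : ℕ) => a x ≤ t ∧
      P (i x) (l x) t = some (c, v x)) hA hb
  refine Sg.of_iff hB fun q => ?_
  rw [← eq_iff_iff]
  congr 1
  show ((Finset.Ico (a q.1) (b q.1)).filter _).card = _
  congr 1
  ext t
  simp only [Finset.mem_filter, Finset.mem_range, Finset.mem_Ico]
  tauto

/-- `cc` is decidable in `X` -/
theorem hc_cc (h2 : StmtC2) (hP : Computable (fun q : ι × ℕ × ℕ => P q.1 q.2.1 q.2.2))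
    (hu : Computable u) (hF : Sg X 0 (fun q : (ι × ℕ) × ℕ => F q.1.1 q.1.2 = q.2))
    {i : α → ι} {l j a j' : α → ℕ} (hi : HcF X i) (hl : HcF X l) (hj : HcF X j)
    (ha : HcF X a) (hj' : HcF X j') :
    Dl X 0 (fun x => cc (P (i x) (l x)) (u (i x)) (F (i x)) (j x) (a x) (j' x)) := by
  have hz : ∀ (c : Bool) {w : α → ℕ}, HcF X w → HcF X (fun x => zz (sel c (u (i x))) (w x)) := by
    intro c w hw
    refine hc_comp (f := fun p : ℕ × ℕ => zz p.1 p.2) (hc_of_comp hc_zz) (hc_pair ?_ hw)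
    exact hc_comp (f := fun p : Bool × (ℕ × ℕ) => sel p.1 p.2) (hc_of_comp hc_sel)
        (hc_pair (hc_of_comp (Computable.const c)) (hc_comp (f := u) (hc_of_comp hu) hi))
  have hc : ∀ c : Bool, Dl X 0 (fun x => zz (sel c (u (i x))) (j' x) <
      zz (sel c (u (i x))) (j x) +
        cnt (P (i x) (l x)) c (zz (sel c (u (i x))) (j x)) (a x) (F (i x) (j' x))) := by
    intro c
    exact hc_lt (hz c hj') (hc_add (hz c hj) (hc_cnt h2 hP c hi hl (hz c hj) ha (hc_F hF hi hj')))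
  refine ((hc_le ha (hc_F hF hi hj')).and ((hc false).and (hc true))).of_iff fun x => ?_
  constructor
  · rintro ⟨h3, h4⟩
    exact ⟨h3, h4 false, h4 true⟩
  · rintro ⟨h3, h4, h5⟩
    exact ⟨h3, fun c => by cases c <;> assumption⟩

/-- `nxt` is `X`-computable -/
theorem hc_nxt (h2 : StmtC2) (hP : Computable (fun q : ι × ℕ × ℕ => P q.1 q.2.1 q.2.2))
    (hu : Computable u) (hF : Sg X 0 (fun q : (ι × ℕ) × ℕ => F q.1.1 q.1.2 = q.2))
    (hg : Sg X 0 (fun q : (ι × ℕ) × (ℕ × ℕ) => g q.1.1 q.1.2 = q.2))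
    {i : α → ι} {l j m : α → ℕ} (hi : HcF X i) (hl : HcF X l) (hj : HcF X j) (hm : HcF X m) :
    HcF X (fun x => nxt (P (i x) (l x)) (u (i x)) (F (i x)) (g (i x)) (j x) (m x)) := by
  have hpred : HcF X (fun p : α × ℕ => p.2 - 1) :=
    hc_of_comp (Computable.pred.comp Computable.snd)
  have ha : HcF X (fun p : α × ℕ =>
      arr (P (i p.1) (l p.1)) (u (i p.1)) (F (i p.1)) (j p.1) (m p.1)) :=
    hc_w (f := fun x => arr (P (i x) (l x)) (u (i x)) (F (i x)) (j x) (m x))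
      (hc_arr h2 hP hu hF hi hl hj hm)
  have hA : Dl X 0 (fun p : α × ℕ => j p.1 < p.2 ∧ p.2 ≤ m p.1 ∧
      g (i p.1) (p.2 - 1) = g (i p.1) (m p.1) ∧
      cc (P (i p.1) (l p.1)) (u (i p.1)) (F (i p.1)) (j p.1)
        (arr (P (i p.1) (l p.1)) (u (i p.1)) (F (i p.1)) (j p.1) (m p.1)) p.2) := by
    refine Dl.and (hc_lt (hc_w hj) hc_v) (Dl.and (hc_le hc_v (hc_w hm)) (Dl.and ?_ ?_))
    · exact hc_eq (hc_g hg (hc_w hi) hpred) (hc_g hg (hc_w hi) (hc_w hm))
    · exact hc_cc h2 hP hu hF (hc_w hi) (hc_w hl) (hc_w hj) ha hc_v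
  exact hc_bsInf h2 (P := fun (x : α) (n : ℕ) => j x < n ∧ n ≤ m x ∧
      g (i x) (n - 1) = g (i x) (m x) ∧
      cc (P (i x) (l x)) (u (i x)) (F (i x)) (j x)
        (arr (P (i x) (l x)) (u (i x)) (F (i x)) (j x) (m x)) n) hA (hc_succ hm)
    (fun x n hn => Nat.lt_succ_of_le hn.2.1)

/-- one step of the path -/
noncomputable def hcStep (p : ℕ → Pt) (u : ℕ × ℕ) (F : ℕ → ℕ) (g : ℕ → ℕ × ℕ) (m j : ℕ) : ℕ :=
  if nxt p u F g j m = 0 then j else nxt p u F g j m

theorem hc_topF (p : ℕ → Pt) (u : ℕ × ℕ) (F : ℕ → ℕ) (g : ℕ → ℕ × ℕ) (m : ℕ) :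
    ∀ n j, topF p u F g n j m = (hcStep p u F g m)^[n] j := by
  intro n
  induction n with
  | zero => intro j; rfl
  | succ n ih =>
    intro j
    rw [Function.iterate_succ_apply]
    show (if nxt p u F g j m = 0 then j else topF p u F g n (nxt p u F g j m) m) = _
    by_cases h : nxt p u F g j m = 0
    · have e : hcStep p u F g m j = j := by unfold hcStep; rw [if_pos h]
      rw [if_pos h, e]
      exact (Function.iterate_fixed e n).symm
    · have e : hcStep p u F g m j = nxt p u F g j m := by unfold hcStep; rw [if_neg h]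
      rw [if_neg h, e, ih]

/-- `kk` is `X`-computable -/
theorem hc_kk (h2 : StmtC2) (hg : Sg X 0 (fun q : (ι × ℕ) × (ℕ × ℕ) => g q.1.1 q.1.2 = q.2))
    {i : α → ι} {m : α → ℕ} (hi : HcF X i) (hm : HcF X m) :
    HcF X (fun x => kk (g (i x)) (m x)) := by
  have hlex : ∀ {β : Type} [Primcodable β] {v w : β → ℕ × ℕ}, HcF X v → HcF X w →
      Dl X 0 (fun x => lexlt (v x) (w x)) := by
    intro β _ v w hv hw
    exact (hc_lt (hc_fst hv) (hc_fst hw)).or
      ((hc_eq (hc_fst hv) (hc_fst hw)).and (hc_lt (hc_snd hv) (hc_snd hw)))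
  have hA : Dl X 0 (fun p : α × ℕ => ∀ m', m' < m p.1 → p.2 ≤ m' →
      ¬ lexlt (g (i p.1) m') (g (i p.1) (m p.1))) := by
    refine hc_ball (P := fun (p : α × ℕ) (m' : ℕ) => p.2 ≤ m' →
      ¬ lexlt (g (i p.1) m') (g (i p.1) (m p.1))) ?_ (hc_w hm)
    refine Dl.imp (hc_le (hc_w hc_v) hc_v) (Dl.not ?_)
    exact hlex (hc_g hg (i := fun p : (α × ℕ) × ℕ => i p.1.1) (hc_w (hc_w hi)) hc_v)
      (hc_g hg (i := fun p : (α × ℕ) × ℕ => i p.1.1) (m := fun p : (α × ℕ) × ℕ => m p.1.1)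
        (hc_w (hc_w hi)) (hc_w (hc_w hm)))
  have hB := hc_sInf h2 (P := fun (x : α) (s : ℕ) => ∀ m', m' < m x → s ≤ m' →
      ¬ lexlt (g (i x) m') (g (i x) (m x))) hA
    (fun x => ⟨m x, fun m' h3 h4 => absurd (lt_of_lt_of_le h3 h4) (lt_irrefl _)⟩)
  have e : (fun x => sInf {s | ∀ m', m' < m x → s ≤ m' →
      ¬ lexlt (g (i x) m') (g (i x) (m x))}) = fun x => kk (g (i x)) (m x) := by
    funext x
    unfold kk
    congr 1
    ext s
    constructor
    · intro h m' h3 h4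
      exact h m' h4 h3
    · intro h m' h3 h4
      exact h m' h4 h3
  rw [e] at hB
  exact hB

end main

/-- HC -/
theorem hc_main (h1 : StmtC1) (h2 : StmtC2) : StmtHC := by
  intro X ι _ P u F g hP hu _ hF hg
  -- the path with parameters: `x = (i, l, m, j)`
  have hi : HcF X (fun x : ι × ℕ × ℕ × ℕ => x.1) := hc_of_comp Computable.fst
  have hl : HcF X (fun x : ι × ℕ × ℕ × ℕ => x.2.1) :=
    hc_of_comp (Computable.fst.comp Computable.snd)
  have hm : HcF X (fun x : ι × ℕ × ℕ × ℕ => x.2.2.1) :=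
    hc_of_comp (Computable.fst.comp (Computable.snd.comp Computable.snd))
  have hj : HcF X (fun x : ι × ℕ × ℕ × ℕ => x.2.2.2) :=
    hc_of_comp (Computable.snd.comp (Computable.snd.comp Computable.snd))
  have hstep : HcF X (fun x : ι × ℕ × ℕ × ℕ =>
      hcStep (P x.1 x.2.1) (u x.1) (F x.1) (g x.1) x.2.2.1 x.2.2.2) := by
    have hn := hc_nxt (P := P) (u := u) (F := F) (g := g) h2 hP hu hF hg hi hl hj hm
    have hn0 : Dl X 0 (fun x : ι × ℕ × ℕ × ℕ =>
        nxt (P x.1 x.2.1) (u x.1) (F x.1) (g x.1) x.2.2.2 x.2.2.1 = 0) :=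
      hc_eq hn (hc_of_comp (Computable.const 0))
    exact hc_ite hn0 hj hn
  -- the iteration
  have hit : HcF X (fun y : (ι × ℕ × ℕ × ℕ) × ℕ =>
      (hcStep (P y.1.1 y.1.2.1) (u y.1.1) (F y.1.1) (g y.1.1) y.1.2.2.1)^[y.2] y.1.2.2.2) := by
    refine h1 X (ι × ℕ × ℕ × ℕ) ℕ
      (fun x n => (hcStep (P x.1 x.2.1) (u x.1) (F x.1) (g x.1) x.2.2.1)^[n] x.2.2.2)
      (fun z => hcStep (P z.1.1.1 z.1.1.2.1) (u z.1.1.1) (F z.1.1.1) (g z.1.1.1)
        z.1.1.2.2.1 z.2) hj ?_ ?_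
    · refine hc_comp (f := fun x : ι × ℕ × ℕ × ℕ =>
        hcStep (P x.1 x.2.1) (u x.1) (F x.1) (g x.1) x.2.2.1 x.2.2.2)
        (g := fun z : ((ι × ℕ × ℕ × ℕ) × ℕ) × ℕ =>
          (z.1.1.1, z.1.1.2.1, z.1.1.2.2.1, z.2)) hstep (hc_of_comp ?_)
      have c0 : Computable (fun z : ((ι × ℕ × ℕ × ℕ) × ℕ) × ℕ => z.1.1) :=
        Computable.fst.comp Computable.fst
      exact (Computable.fst.comp c0).pair
        ((Computable.fst.comp (Computable.snd.comp c0)).pair
          ((Computable.fst.comp (Computable.snd.comp (Computable.snd.comp c0))).pair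
            Computable.snd))
    · intro x n
      exact Function.iterate_succ_apply' _ _ _
  -- the context `x = (i, m)`
  have hi' : HcF X (fun x : ι × ℕ => x.1) := hc_of_comp Computable.fst
  have hm' : HcF X (fun x : ι × ℕ => x.2) := hc_of_comp Computable.snd
  have hl' : HcF X (fun x : ι × ℕ => (g x.1 x.2).1) := hc_fst (hc_g (g := g) hg hi' hm')
  have hk' : HcF X (fun x : ι × ℕ => kk (g x.1) x.2) := hc_kk (g := g) h2 hg hi' hm'
  have hfin := hc_comp (f := fun y : (ι × ℕ × ℕ × ℕ) × ℕ =>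
      (hcStep (P y.1.1 y.1.2.1) (u y.1.1) (F y.1.1) (g y.1.1) y.1.2.2.1)^[y.2] y.1.2.2.2)
      (g := fun x : ι × ℕ => ((x.1, (g x.1 x.2).1, x.2, kk (g x.1) x.2), x.2)) hit
      (hc_pair (hc_pair hi' (hc_pair hl' (hc_pair hm' hk'))) hm')
  have e : (fun x : ι × ℕ => (hcStep (P x.1 (g x.1 x.2).1) (u x.1) (F x.1) (g x.1) x.2)^[x.2]
      (kk (g x.1) x.2)) = fun x : ι × ℕ => TT (P x.1) (u x.1) (F x.1) (g x.1) x.2 := by
    funext x
    exact (hc_topF _ _ _ _ _ _ _).symm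
  rw [e] at hfin
  exact hfin

end Pool.Agent.Downey
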