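import Pool.Agent.Downey.Stmts

/-!
# K0: basic properties of the keys
-/

set_option autoImplicit false

namespace Pool.Agent.Downey

theorem k0_push_strictMono (v : ℕ) : StrictMono (push v) := by
  intro i j h
  unfold push
  split_ifs <;> omega

theorem k0_push_lt (v i : ℕ) : push v i < 2 * (i + 1) := by
  unfold push
  split_ifs <;> omega

theorem k0_key_push (l : ℕ → ℕ) (m i : ℕ) : key l (m + 1) (push (l m) i) = key l m i := by
  unfold push
  split_ifs with h
  · rw [key, if_pos h]
  · rw [key, if_neg (by omega), if_pos (by omega)]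
    congr 1
    omega

theorem k0_key_strictMono (l : ℕ → ℕ) (hl : ∀ m, 1 ≤ l m) (m : ℕ) : StrictMono (key l m) := by
  induction m with
  | zero =>
    intro i j h
    show (i : ℚ) < (j : ℚ)
    exact_mod_cast h
  | succ m ih =>
    apply strictMono_nat_of_lt_succ
    intro i
    have h1 := hl m
    rcases lt_trichotomy (i + 1) (l m) with h | h | h
    · rw [key, key, if_pos (by omega), if_pos h]
      exact ih (Nat.lt_succ_self i)
    · rw [key, key, if_pos (by omega), if_neg (by omega), if_neg (by omega)]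
      have e1 : (i + 1 + l m) / 2 - 1 = i := by omega
      have e2 : (i + 1 + l m) / 2 = i + 1 := by omega
      rw [e1, e2]
      have := ih (Nat.lt_succ_self i)
      have h3 : key l m i < key l m (i + 1) := this
      linarith
    · rcases Nat.even_or_odd (i - l m) with h2 | h2
      · have h3 : (i - l m) % 2 = 0 := Nat.even_iff.mp h2
        rw [key, key, if_neg (by omega), if_neg (by omega), if_neg (by omega), if_pos (by omega)]
        have e1 : (i + 1 + l m - 1) / 2 = (i + l m) / 2 := by omega
        rw [e1]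
        have h4 : key l m ((i + l m) / 2 - 1) < key l m ((i + l m) / 2) := ih (by omega)
        linarith
      · have h3 : (i - l m) % 2 = 1 := Nat.odd_iff.mp h2
        rw [key, key, if_neg (by omega), if_pos h3, if_neg (by omega), if_neg (by omega)]
        have e1 : (i + 1 + l m) / 2 - 1 = (i + l m - 1) / 2 := by omega
        rw [e1]
        have h4 : key l m ((i + l m - 1) / 2) < key l m ((i + 1 + l m) / 2) := ih (by omega)
        linarith

theorem k0_key_pos (l : ℕ → ℕ) (m r i : ℕ) : key l (m + r) (pos l m r i) = key l m i := by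
  induction r with
  | zero => rfl
  | succ r ih =>
    show key l (m + r + 1) (push (l (m + r)) (pos l m r i)) = _
    rw [k0_key_push, ih]

theorem k0_pos_lt (l : ℕ → ℕ) (m r i : ℕ) : pos l m r i < 2 ^ r * (i + 1) := by
  induction r with
  | zero =>
    show i < 2 ^ 0 * (i + 1)
    omega
  | succ r ih =>
    show push (l (m + r)) (pos l m r i) < _
    refine (k0_push_lt _ _).trans_le ?_
    have h1 : pos l m r i + 1 ≤ 2 ^ r * (i + 1) := ih
    calc 2 * (pos l m r i + 1) ≤ 2 * (2 ^ r * (i + 1)) := Nat.mul_le_mul_left _ h1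
      _ = 2 ^ (r + 1) * (i + 1) := by rw [pow_succ]; ring

theorem k0_pos_strictMono (l : ℕ → ℕ) (m r : ℕ) : StrictMono (pos l m r) := by
  induction r with
  | zero => intro i j h; exact h
  | succ r ih => intro i j h; exact k0_push_strictMono _ (ih h)

theorem k0_main : StmtK0 := fun l hl =>
  ⟨k0_key_strictMono l hl, k0_key_push l, k0_key_pos l, k0_pos_lt l, k0_pos_strictMono l⟩

theorem k0_zz_add (n0 m r : ℕ) : zz n0 (m + r) = 2 ^ r * zz n0 m := by
  unfold zz; rw [pow_add]; ring

theorem k0_zz_mono (n0 : ℕ) {m m' : ℕ} (h : m ≤ m') : zz n0 m ≤ zz n0 m' :=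
  Nat.mul_le_mul_left _ (Nat.pow_le_pow_right (by norm_num) h)

theorem k0_pos_lt_zz (l : ℕ → ℕ) {n0 m r i : ℕ} (h : i < zz n0 m) :
    pos l m r i < zz n0 (m + r) := by
  rw [k0_zz_add]
  exact (k0_pos_lt l m r i).trans_le (Nat.mul_le_mul_left _ h)

/-- an element present at stage `m` is present at all later stages -/
theorem k0_later (l : ℕ → ℕ) {n0 m m' i : ℕ} (hm : m ≤ m') (hi : i < zz n0 m) :
    ∃ i', i' < zz n0 m' ∧ key l m' i' = key l m i := by
  obtain ⟨r, rfl⟩ := Nat.exists_eq_add_of_le hm
  exact ⟨pos l m r i, k0_pos_lt_zz l hi, k0_key_pos l m r i⟩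

/-- an element below the level does not move -/
theorem k0_frozen (l : ℕ → ℕ) {m m' i : ℕ} (hm : m ≤ m') (h : ∀ k, m ≤ k → i < l k) :
    key l m' i = key l m i := by
  induction m', hm using Nat.le_induction with
  | base => rfl
  | succ k hk ih => rw [key, if_pos (h k hk), ih]

theorem k0_lt_zz {n0 m : ℕ} (h : 1 ≤ n0) : m < zz n0 m := by
  unfold zz
  calc m < 2 ^ m := Nat.lt_two_pow_self
    _ = 1 * 2 ^ m := (one_mul _).symm
    _ ≤ n0 * 2 ^ m := Nat.mul_le_mul_right _ h

theorem k0_one_le {l : ℕ → ℕ} {n0 : ℕ} (h : ∀ m, 1 ≤ l m ∧ l m ≤ zz n0 m) : 1 ≤ n0 := by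
  have := h 0
  have h2 : zz n0 0 = n0 := by simp [zz]
  omega

end Pool.Agent.Downey
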