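import Pool.Agent.Downey.K0
import Pool.Agent.NonLow.QdFacts

/-!
# K1: finite limit inferior
-/

set_option autoImplicit false

namespace Pool.Agent.Downey

open Pool.Agent.NonLow (Qd qd_main)

/-- the element at position `i` of stage `m` -/
def k1_mk (l : ℕ → ℕ) (n0 m i : ℕ) (h : i < zz n0 m) : KK l n0 := ⟨key l m i, m, i, h, rfl⟩

theorem k1_main : StmtK1 := by
  intro l n0 k hl hfin
  classical
  obtain ⟨⟨m0, hm0⟩, hinf⟩ := hfin
  have hl1 : ∀ m, 1 ≤ l m := fun m => (hl m).1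
  have hmono := k0_key_strictMono l hl1
  have hn0 := k0_one_le hl
  have hk1 : 1 ≤ k := by
    obtain ⟨m, _, h⟩ := hinf 0
    rw [← h]
    exact hl1 m
  have hkz : ∀ m, m0 ≤ m → k ≤ zz n0 m := fun m hm => (hm0 m hm).trans (hl m).2
  have hfroz : ∀ m i, m0 ≤ m → i < k → key l m i = key l m0 i := by
    intro m i hm hi
    exact k0_frozen l hm (fun k' hk' => lt_of_lt_of_le hi (hm0 k' hk'))
  -- representation at late stages
  have hrep : ∀ (x : KK l n0) (m1 : ℕ), ∃ m, m1 ≤ m ∧ ∀ m', m ≤ m' →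
      ∃ i, i < zz n0 m' ∧ key l m' i = x.1 := by
    rintro ⟨q, m, i, hi, rfl⟩ m1
    refine ⟨m + m1, by omega, fun m' hm' => ?_⟩
    exact k0_later l (show m ≤ m' by omega) hi
  have hk0 : k - 1 < zz n0 m0 := by have := hkz m0 le_rfl; omega
  set x0 : KK l n0 := k1_mk l n0 m0 (k - 1) hk0 with hx0
  have hx0m : ∀ m, m0 ≤ m → key l m (k - 1) = x0.1 := by
    intro m hm
    rw [hfroz m (k - 1) hm (by omega)]
    rfl
  have e1 : Nonempty (Fin k ≃o Set.Iic x0) := by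
    let f : Fin k → Set.Iic x0 := fun i =>
      ⟨k1_mk l n0 m0 i.val (lt_of_lt_of_le i.isLt (hkz m0 le_rfl)), by
        show key l m0 i.val ≤ key l m0 (k - 1)
        exact (hmono m0).monotone (by omega)⟩
    have hf : StrictMono f := by
      intro i j hij
      show key l m0 i.val < key l m0 j.val
      exact hmono m0 hij
    have hs : Function.Surjective f := by
      rintro ⟨x, hx⟩
      obtain ⟨m, hm, h⟩ := hrep x m0
      obtain ⟨i, hi, hix⟩ := h m le_rfl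
      have h1 : key l m i ≤ key l m (k - 1) := by
        rw [hix, hx0m m hm]
        exact hx
      have h2 : i ≤ k - 1 := (hmono m).le_iff_le.mp h1
      refine ⟨⟨i, by omega⟩, ?_⟩
      apply Subtype.ext
      apply Subtype.ext
      show key l m0 i = x.1
      rw [← hix, hfroz m i hm (by omega)]
    exact ⟨StrictMono.orderIsoOfSurjective f hf hs⟩
  -- stages with level `k`
  have hstage : ∀ m1, ∃ m, m1 ≤ m ∧ m0 ≤ m ∧ l m = k := by
    intro m1
    obtain ⟨m, hm, h⟩ := hinf (m1 + m0)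
    exact ⟨m, by omega, by omega, h⟩
  have hnew : ∀ m j, l m = k → k ≤ j → key l (m + 1) (2 * j - k) =
      (key l m (j - 1) + key l m j) / 2 := by
    intro m j hm hj
    rw [key, hm, if_neg (by omega), if_neg (by omega)]
    have e1 : (2 * j - k + k) / 2 - 1 = j - 1 := by omega
    have e2 : (2 * j - k + k) / 2 = j := by omega
    rw [e1, e2]
  have hz2 : ∀ m, zz n0 (m + 1) = 2 * zz n0 m := by
    intro m
    rw [k0_zz_add n0 m 1]
    ring
  have hdense : ∀ x y : KK l n0, x0 ≤ x → x < y → ∃ w, x < w ∧ w < y := by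
    intro x y hx hxy
    obtain ⟨mx, _, hx1⟩ := hrep x 0
    obtain ⟨my, _, hy1⟩ := hrep y 0
    obtain ⟨m, hm1, hm2, hm3⟩ := hstage (mx + my)
    obtain ⟨i, hi, hix⟩ := hx1 m (by omega)
    obtain ⟨j, hj, hjy⟩ := hy1 m (by omega)
    have h1 : k - 1 ≤ i := by
      apply (hmono m).le_iff_le.mp
      rw [hx0m m hm2, hix]
      exact hx
    have h2 : i < j := by
      apply (hmono m).lt_iff_lt.mp
      rw [hix, hjy]
      exact hxy
    have h3 := hnew m j hm3 (by omega)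
    have h4 : key l m i ≤ key l m (j - 1) := (hmono m).monotone (by omega)
    have h5 : key l m (j - 1) < key l m j := hmono m (by omega)
    refine ⟨k1_mk l n0 (m + 1) (2 * j - k) (by rw [hz2]; omega), ?_, ?_⟩
    · show x.1 < key l (m + 1) (2 * j - k)
      rw [h3, ← hix]
      linarith
    · show key l (m + 1) (2 * j - k) < y.1
      rw [h3, ← hjy]
      linarith
  have hnomax : ∀ x : KK l n0, ∃ w, x < w := by
    intro x
    obtain ⟨mx, _, hx1⟩ := hrep x 0
    obtain ⟨m, hm1, hm2, hm3⟩ := hstage mx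
    obtain ⟨i, hi, hix⟩ := hx1 m (by omega)
    have hkm := hkz m hm2
    have h3 := hnew m (zz n0 m) hm3 hkm
    have h4 : key l m i ≤ key l m (zz n0 m - 1) := (hmono m).monotone (by omega)
    have h5 : key l m (zz n0 m - 1) < key l m (zz n0 m) := hmono m (by omega)
    refine ⟨k1_mk l n0 (m + 1) (2 * zz n0 m - k) (by rw [hz2]; omega), ?_⟩
    show x.1 < key l (m + 1) (2 * zz n0 m - k)
    rw [h3, ← hix]
    linarith
  have i0 : Countable (Set.Ioi x0) := inferInstance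
  have i1 : DenselyOrdered (Set.Ioi x0) := ⟨by
    rintro ⟨x, hx⟩ ⟨y, hy⟩ hxy
    obtain ⟨w, hw1, hw2⟩ := hdense x y (le_of_lt hx) hxy
    exact ⟨⟨w, lt_trans hx hw1⟩, hw1, hw2⟩⟩
  have i2 : NoMinOrder (Set.Ioi x0) := ⟨by
    rintro ⟨x, hx⟩
    obtain ⟨w, hw1, hw2⟩ := hdense x0 x le_rfl hx
    exact ⟨⟨w, hw1⟩, hw2⟩⟩
  have i3 : NoMaxOrder (Set.Ioi x0) := ⟨by
    rintro ⟨x, hx⟩
    obtain ⟨w, hw⟩ := hnomax x
    exact ⟨⟨w, lt_trans hx hw⟩, hw⟩⟩
  have i4 : Nonempty (Set.Ioi x0) := by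
    obtain ⟨w, hw⟩ := hnomax x0
    exact ⟨⟨w, hw⟩⟩
  have j1 : DenselyOrdered Qd := ⟨fun a b hab => by
    obtain ⟨c, _, h⟩ := qd_main.1 0 a b hab
    exact ⟨c, h⟩⟩
  have j2 : NoMinOrder Qd := ⟨fun a => by
    obtain ⟨c, _, h⟩ := qd_main.2.2 0 a
    exact ⟨c, h⟩⟩
  have j3 : NoMaxOrder Qd := ⟨fun a => by
    obtain ⟨c, _, h⟩ := qd_main.2.1 0 a
    exact ⟨c, h⟩⟩
  obtain ⟨e1⟩ := e1
  obtain ⟨e2⟩ := Order.iso_of_countable_dense (Set.Ioi x0) Qd
  exact ⟨(OrderIso.sumLexIicIoi x0).symm.trans (e1.symm.sumLexCongr e2)⟩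

end Pool.Agent.Downey
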