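import Pool.Agent.Downey.K0

/-!
# K2: infinitely many freezing stages
-/

set_option autoImplicit false

namespace Pool.Agent.Downey

theorem k2_main : StmtK2 := by
  intro l n0 hl hinf
  classical
  have hl1 : ∀ m, 1 ≤ l m := fun m => (hl m).1
  have hmono := k0_key_strictMono l hl1
  have hn0 := k0_one_le hl
  choose g hg1 hg2 using hinf
  have hfroz : ∀ a i m', i < zz n0 (g a) → g a ≤ m' → key l m' i = key l (g a) i := by
    intro a i m' hi hm'
    exact k0_frozen l hm' (fun k hk => lt_of_lt_of_le hi (hg2 a k hk))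
  have hlt : ∀ a i, i ≤ a → i < zz n0 (g a) := fun a i hi =>
    lt_of_le_of_lt hi (lt_of_lt_of_le (k0_lt_zz hn0) (k0_zz_mono n0 (hg1 a)))
  have hP : ∀ a i, i < zz n0 (g a) → key l (g i) i = key l (g a) i := by
    intro a i hi
    rcases le_total (g a) (g i) with h1 | h1
    · exact hfroz a i (g i) hi h1
    · exact (hfroz i i (g a) (hlt i i le_rfl) h1).symm
  let f : ℕ → KK l n0 := fun i => ⟨key l (g i) i, g i, i, hlt i i le_rfl, rfl⟩
  have hf : StrictMono f := by
    intro i j hij
    show key l (g i) i < key l (g j) j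
    rw [hP j i (hlt j i hij.le)]
    exact hmono (g j) hij
  have hs : Function.Surjective f := by
    rintro ⟨q, m, i, hi, rfl⟩
    obtain ⟨i', hi', he⟩ := k0_later l (hg1 m) hi
    refine ⟨i', ?_⟩
    apply Subtype.ext
    show key l (g i') i' = key l m i
    rw [hP m i' hi', he]
  exact ⟨(StrictMono.orderIsoOfSurjective f hf hs).symm⟩

end Pool.Agent.Downey
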