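import Pool.Agent.Downey.K0
import Pool.Agent.NonLow.PrLemmas

/-!
# K3: the contents are uniformly computable
-/

set_option autoImplicit false

namespace Pool.Agent.Downey

open Pool.Agent.NonLow

/-- the position `j` of stage `m` is occupied by an element which is new at this stage -/
def K3New (l : ℕ → ℕ) (n0 m j : ℕ) : Prop :=
  j < zz n0 m ∧ (m = 0 ∨ ∀ j', j' < zz n0 (m - 1) → ¬ push (l (m - 1)) j' = j)

theorem k3_exists (l : ℕ → ℕ) (n0 : ℕ) (x : KK l n0) :
    ∃ m j, K3New l n0 m j ∧ key l m j = x.1 := by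
  classical
  have hex : ∃ m, ∃ j, j < zz n0 m ∧ key l m j = x.1 := x.2
  obtain ⟨j, hj, hjx⟩ := Nat.find_spec hex
  refine ⟨Nat.find hex, j, ⟨hj, ?_⟩, hjx⟩
  by_cases h0 : Nat.find hex = 0
  · exact Or.inl h0
  · right
    intro j' hj' he
    have h1 : Nat.find hex - 1 < Nat.find hex := by omega
    apply Nat.find_min hex h1
    refine ⟨j', hj', ?_⟩
    rw [← k0_key_push l (Nat.find hex - 1) j', he]
    have h2 : Nat.find hex - 1 + 1 = Nat.find hex := by omega
    rw [h2, hjx]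

theorem k3_unique (l : ℕ → ℕ) (hl : ∀ m, 1 ≤ l m) (n0 : ℕ) {m j m' j' : ℕ}
    (h : K3New l n0 m j) (h' : K3New l n0 m' j') (he : key l m j = key l m' j') :
    m = m' ∧ j = j' := by
  have key1 : ∀ m j m' j', K3New l n0 m j → K3New l n0 m' j' → key l m j = key l m' j' →
      ¬ m < m' := by
    intro m j m' j' h h' he hlt
    obtain ⟨r, rfl⟩ := Nat.exists_eq_add_of_lt hlt
    rcases h'.2 with h0 | h1
    · omega
    · have e1 : m + r + 1 - 1 = m + r := by omega
      rw [e1] at h1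
      apply h1 (pos l m r j) (k0_pos_lt_zz l h.1)
      apply (k0_key_strictMono l hl (m + r + 1)).injective
      rw [← he]
      exact k0_key_pos l m (r + 1) j
  have h1 : m = m' := by
    have a1 := key1 m j m' j' h h' he
    have a2 := key1 m' j' m j h' h he.symm
    omega
  subst h1
  exact ⟨rfl, (k0_key_strictMono l hl m).injective he⟩

theorem k3_two_pow {α : Type} [Primcodable α] {f : α → ℕ} (hf : Computable f) :
    Computable (fun x => 2 ^ f x) := qdf_primrec_two_pow.to_comp.comp hf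

theorem k3_zz {α : Type} [Primcodable α] {f g : α → ℕ} (hf : Computable f) (hg : Computable g) :
    Computable (fun x => zz (f x) (g x)) :=
  (Primrec.nat_mul.to_comp.comp hf (k3_two_pow hg))

theorem k3_push : Computable (fun p : ℕ × ℕ => push p.1 p.2) := by
  have h : Primrec (fun p : ℕ × ℕ => if p.2 < p.1 then p.2 else 2 * p.2 + 1 - p.1) :=
    Primrec.ite (Primrec.nat_lt.comp Primrec.snd Primrec.fst) Primrec.snd
      (Primrec.nat_sub.comp (Primrec.succ.comp (Primrec.nat_mul.comp (Primrec.const 2) Primrec.snd))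
        Primrec.fst)
  exact h.to_comp

theorem k3_main (hC1 : StmtC1) : StmtK3 := by
  intro X ι _ l n0 hl hls hn0
  classical
  -- the graph of `push` at level `l`
  have hpush : Sg X 0 (fun q : ((ι × ℕ) × ℕ) × ℕ => push (l q.1.1.1 q.1.1.2) q.1.2 = q.2) := by
    have h1 : Sg X 0 (fun p : (((ι × ℕ) × ℕ) × ℕ) × ℕ => l p.1.1.1.1 p.1.1.1.2 = p.2) :=
      hls.comp (f := fun p : (((ι × ℕ) × ℕ) × ℕ) × ℕ => (p.1.1.1, p.2))
        ((Computable.fst.comp (Computable.fst.comp Computable.fst)).pair Computable.snd)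
    have c0 : Computable (fun p : (((ι × ℕ) × ℕ) × ℕ) × ℕ => ((p.2, p.1.1.2) : ℕ × ℕ)) :=
      Computable.snd.pair (Computable.snd.comp (Computable.fst.comp Computable.fst))
    have c1 : Computable (fun p : (((ι × ℕ) × ℕ) × ℕ) × ℕ => push p.2 p.1.1.2) :=
      Computable.comp (f := fun p : ℕ × ℕ => push p.1 p.2)
        (g := fun p : (((ι × ℕ) × ℕ) × ℕ) × ℕ => ((p.2, p.1.1.2) : ℕ × ℕ)) k3_push c0
    have c2 : Computable (fun p : (((ι × ℕ) × ℕ) × ℕ) × ℕ => p.1.2) :=
      Computable.snd.comp Computable.fst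
    have h2 : Sg X 0 (fun p : (((ι × ℕ) × ℕ) × ℕ) × ℕ => push p.2 p.1.1.2 = p.1.2) :=
      (Dl.eq (X := X) (n := 0) c1 c2).1
    exact Sg.fsub (P := fun (q : ((ι × ℕ) × ℕ) × ℕ) (v : ℕ) => push v q.1.2 = q.2)
      (f := fun q : ((ι × ℕ) × ℕ) × ℕ => l q.1.1.1 q.1.1.2) h1 h2
  -- the graph of `pos`
  have hpos : Sg X 0 (fun q : (((ι × ℕ) × ℕ) × ℕ) × ℕ =>
      pos (l q.1.1.1.1) q.1.1.1.2 q.1.2 q.1.1.2 = q.2) := by
    refine hC1 X ((ι × ℕ) × ℕ) ℕ (fun x r => pos (l x.1.1) x.1.2 r x.2)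
      (fun y => push (l y.1.1.1.1 (y.1.1.1.2 + y.1.2)) y.2) ?_ ?_ ?_
    · exact (Dl.eq (f := fun q : ((ι × ℕ) × ℕ) × ℕ => q.1.2) (g := fun q => q.2)
        (Computable.snd.comp Computable.fst) Computable.snd).1
    · refine hpush.comp (f := fun q : ((((ι × ℕ) × ℕ) × ℕ) × ℕ) × ℕ =>
        (((q.1.1.1.1.1, q.1.1.1.1.2 + q.1.1.2), q.1.2), q.2)) ?_
      have c1 : Computable (fun q : ((((ι × ℕ) × ℕ) × ℕ) × ℕ) × ℕ => q.1.1.1.1.1) :=
        Computable.fst.comp (Computable.fst.comp (Computable.fst.comp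
          (Computable.fst.comp Computable.fst)))
      have c2 : Computable (fun q : ((((ι × ℕ) × ℕ) × ℕ) × ℕ) × ℕ => q.1.1.1.1.2) :=
        Computable.snd.comp (Computable.fst.comp (Computable.fst.comp
          (Computable.fst.comp Computable.fst)))
      have c3 : Computable (fun q : ((((ι × ℕ) × ℕ) × ℕ) × ℕ) × ℕ => q.1.1.2) :=
        Computable.snd.comp (Computable.fst.comp Computable.fst)
      exact (((c1.pair (Primrec.nat_add.to_comp.comp c2 c3)).pair
        (Computable.snd.comp Computable.fst)).pair Computable.snd)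
    · intro x n
      rfl
  -- the codes
  let M : ∀ (i : ι) (x : KK (l i) (n0 i)), ℕ := fun i x =>
    Classical.choose (k3_exists (l i) (n0 i) x)
  have hM : ∀ i x, ∃ j, K3New (l i) (n0 i) (M i x) j ∧ key (l i) (M i x) j = x.1 := fun i x =>
    Classical.choose_spec (k3_exists (l i) (n0 i) x)
  choose J hJ1 hJ2 using hM
  have hl1 : ∀ i m, 1 ≤ l i m := fun i m => (hl i m).1
  refine ⟨fun i x => Nat.pair (M i x) (J i x), ?_, ?_,
    fun p => pos (l p.1) (Nat.unpair p.2.1).1 (Nat.unpair p.2.2).1 (Nat.unpair p.2.1).2 <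
      pos (l p.1) (Nat.unpair p.2.2).1 (Nat.unpair p.2.1).1 (Nat.unpair p.2.2).2, ?_, ?_⟩
  · intro i x y h
    have h1 := Nat.pair_eq_pair.mp h
    apply Subtype.ext
    rw [← hJ2 i x, ← hJ2 i y, h1.1, h1.2]
  · -- the range is decidable
    have u1 : Computable (fun p : ι × ℕ => (Nat.unpair p.2).1) :=
      Computable.fst.comp (Primrec.unpair.to_comp.comp Computable.snd)
    have u2 : Computable (fun p : ι × ℕ => (Nat.unpair p.2).2) :=
      Computable.snd.comp (Primrec.unpair.to_comp.comp Computable.snd)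
    have u3 : Computable (fun p : ι × ℕ => (Nat.unpair p.2).1 - 1) :=
      Primrec.nat_sub.to_comp.comp u1 (Computable.const 1)
    have h1 : Dl X 0 (fun p : ι × ℕ => (Nat.unpair p.2).2 < zz (n0 p.1) (Nat.unpair p.2).1) :=
      Dl.lt u2 (k3_zz (hn0.comp Computable.fst) u1)
    have h2 : Dl X 0 (fun p : ι × ℕ => (Nat.unpair p.2).1 = 0) := Dl.eq u1 (Computable.const 0)
    have h3 : Dl X 0 (fun p : ι × ℕ => ∀ j', j' < zz (n0 p.1) ((Nat.unpair p.2).1 - 1) →
        ¬ push (l p.1 ((Nat.unpair p.2).1 - 1)) j' = (Nat.unpair p.2).2) := by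
      refine Dl.ball (P := fun (p : ι × ℕ) (j' : ℕ) =>
        ¬ push (l p.1 ((Nat.unpair p.2).1 - 1)) j' = (Nat.unpair p.2).2) ?_
        (k3_zz (hn0.comp Computable.fst) u3)
      have h4 := Dl.of_graph (f := fun q : (ι × ℕ) × ℕ => push (l q.1.1 q.1.2) q.2) hpush
      refine (h4.comp (f := fun q : (ι × ℕ) × ℕ =>
        (((q.1.1, (Nat.unpair q.1.2).1 - 1), q.2), (Nat.unpair q.1.2).2)) ?_).not
      exact (((Computable.fst.comp Computable.fst).pair (u3.comp Computable.fst)).pair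
        Computable.snd).pair (u2.comp Computable.fst)
    refine (h1.and (h2.or h3)).of_iff fun p => ?_
    constructor
    · rintro ⟨x, hx⟩
      have h4 : M p.1 x = (Nat.unpair p.2).1 := by rw [← hx, Nat.unpair_pair]
      have h5 : J p.1 x = (Nat.unpair p.2).2 := by rw [← hx, Nat.unpair_pair]
      have h6 := hJ1 p.1 x
      rw [h4, h5] at h6
      exact h6
    · intro h
      have h' : K3New (l p.1) (n0 p.1) (Nat.unpair p.2).1 (Nat.unpair p.2).2 := h
      let x : KK (l p.1) (n0 p.1) :=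
        ⟨key (l p.1) (Nat.unpair p.2).1 (Nat.unpair p.2).2, _, _, h'.1, rfl⟩
      refine ⟨x, ?_⟩
      obtain ⟨h7, h8⟩ := k3_unique (l p.1) (hl1 p.1) (n0 p.1) (hJ1 p.1 x) h' (hJ2 p.1 x)
      show Nat.pair (M p.1 x) (J p.1 x) = p.2
      rw [h7, h8, Nat.pair_unpair]
  · -- the order is decidable
    have v1 : Computable (fun p : ι × ℕ × ℕ => (Nat.unpair p.2.1).1) :=
      Computable.fst.comp (Primrec.unpair.to_comp.comp (Computable.fst.comp Computable.snd))
    have v2 : Computable (fun p : ι × ℕ × ℕ => (Nat.unpair p.2.1).2) :=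
      Computable.snd.comp (Primrec.unpair.to_comp.comp (Computable.fst.comp Computable.snd))
    have w1 : Computable (fun p : ι × ℕ × ℕ => (Nat.unpair p.2.2).1) :=
      Computable.fst.comp (Primrec.unpair.to_comp.comp (Computable.snd.comp Computable.snd))
    have w2 : Computable (fun p : ι × ℕ × ℕ => (Nat.unpair p.2.2).2) :=
      Computable.snd.comp (Primrec.unpair.to_comp.comp (Computable.snd.comp Computable.snd))
    have g1 : Sg X 0 (fun q : (ι × ℕ × ℕ) × ℕ =>
        pos (l q.1.1) (Nat.unpair q.1.2.1).1 (Nat.unpair q.1.2.2).1 (Nat.unpair q.1.2.1).2 =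
          q.2) :=
      hpos.comp (f := fun q : (ι × ℕ × ℕ) × ℕ => ((((q.1.1, (Nat.unpair q.1.2.1).1),
        (Nat.unpair q.1.2.1).2), (Nat.unpair q.1.2.2).1), q.2))
        (((((Computable.fst.comp Computable.fst).pair (v1.comp Computable.fst)).pair
          (v2.comp Computable.fst)).pair (w1.comp Computable.fst)).pair Computable.snd)
    have g2 : Sg X 0 (fun q : (ι × ℕ × ℕ) × ℕ =>
        pos (l q.1.1) (Nat.unpair q.1.2.2).1 (Nat.unpair q.1.2.1).1 (Nat.unpair q.1.2.2).2 =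
          q.2) :=
      hpos.comp (f := fun q : (ι × ℕ × ℕ) × ℕ => ((((q.1.1, (Nat.unpair q.1.2.2).1),
        (Nat.unpair q.1.2.2).2), (Nat.unpair q.1.2.1).1), q.2))
        (((((Computable.fst.comp Computable.fst).pair (w1.comp Computable.fst)).pair
          (w2.comp Computable.fst)).pair (v1.comp Computable.fst)).pair Computable.snd)
    refine Dl.fsub (P := fun (p : ι × ℕ × ℕ) (y : ℕ) => y <
      pos (l p.1) (Nat.unpair p.2.2).1 (Nat.unpair p.2.1).1 (Nat.unpair p.2.2).2) g1 ?_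
    have g3 : Sg X 0 (fun q : ((ι × ℕ × ℕ) × ℕ) × ℕ =>
        pos (l q.1.1.1) (Nat.unpair q.1.1.2.2).1 (Nat.unpair q.1.1.2.1).1
          (Nat.unpair q.1.1.2.2).2 = q.2) :=
      g2.comp (f := fun q : ((ι × ℕ × ℕ) × ℕ) × ℕ => (q.1.1, q.2))
        ((Computable.fst.comp Computable.fst).pair Computable.snd)
    exact Dl.fsub (P := fun (q : (ι × ℕ × ℕ) × ℕ) (z : ℕ) => q.2 < z) g3
      (Dl.lt (Computable.snd.comp Computable.fst) Computable.snd)
  · intro i x y
    show pos (l i) (Nat.unpair (Nat.pair (M i x) (J i x))).1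
        (Nat.unpair (Nat.pair (M i y) (J i y))).1 (Nat.unpair (Nat.pair (M i x) (J i x))).2 <
      pos (l i) (Nat.unpair (Nat.pair (M i y) (J i y))).1
        (Nat.unpair (Nat.pair (M i x) (J i x))).1 (Nat.unpair (Nat.pair (M i y) (J i y))).2 ↔ x < y
    rw [Nat.unpair_pair, Nat.unpair_pair]
    have h1 := k0_key_pos (l i) (M i x) (M i y) (J i x)
    have h2 := k0_key_pos (l i) (M i y) (M i x) (J i y)
    rw [add_comm (M i y) (M i x)] at h2
    rw [← (k0_key_strictMono (l i) (hl1 i) (M i x + M i y)).lt_iff_lt, h1, h2, hJ2, hJ2]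
    exact Iff.rfl

end Pool.Agent.Downey
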