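import Pool.Agent.Downey.Stmts

/-!
# A downward closed `Σ₂(X)` set of numbers as a limit inferior (module LI)
-/

set_option autoImplicit false

namespace Pool.Agent.Downey

open Pool.Agent.NonLow (Qd Sg Dl Z Pr dec S1 seg)

/-- the least number `a` with `a = s` or `¬ rf a s` -/
noncomputable def liA (rf : ℕ → ℕ → Prop) (s : ℕ) : ℕ := sInf {a | a = s ∨ ¬ rf a s}

theorem li_mem (rf : ℕ → ℕ → Prop) (s : ℕ) : liA rf s = s ∨ ¬ rf (liA rf s) s :=
  Nat.sInf_mem (s := {a | a = s ∨ ¬ rf a s}) ⟨s, Or.inl rfl⟩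

theorem li_le (rf : ℕ → ℕ → Prop) (s a : ℕ) (h : a = s ∨ ¬ rf a s) : liA rf s ≤ a :=
  Nat.sInf_le (s := {a | a = s ∨ ¬ rf a s}) h

/-- if some `a` is never refuted then `liA` is eventually constant -/
theorem li_const (rf : ℕ → ℕ → Prop) (hm : ∀ a s s', s ≤ s' → rf a s → rf a s')
    (h : ∃ a, ∀ s, ¬ rf a s) : ∃ s0, ∀ s, s0 ≤ s → liA rf (s + 1) = liA rf s := by
  classical
  obtain ⟨a0, ha0, hmin⟩ : ∃ a0 : ℕ, (∀ s, ¬ rf a0 s) ∧ ∀ a, a < a0 → ∃ s, rf a s := by
    refine ⟨Nat.find h, Nat.find_spec h, fun a ha => ?_⟩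
    have := Nat.find_min h ha
    push Not at this
    exact this
  have hb : ∀ n, n ≤ a0 → ∃ s0, ∀ a, a < n → ∀ s, s0 ≤ s → rf a s := by
    intro n
    induction n with
    | zero => exact fun _ => ⟨0, fun a ha => absurd ha (Nat.not_lt_zero _)⟩
    | succ n ih =>
      intro hn
      obtain ⟨s0, h0⟩ := ih (by omega)
      obtain ⟨s1, h1⟩ := hmin n (by omega)
      refine ⟨max s0 s1, fun a ha s hs => ?_⟩
      rcases Nat.lt_succ_iff_lt_or_eq.mp ha with h' | h'
      · exact h0 a h' s ((le_max_left _ _).trans hs)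
      · subst h'
        exact hm _ _ _ ((le_max_right _ _).trans hs) h1
  obtain ⟨s0, h0⟩ := hb a0 le_rfl
  have key : ∀ s, max s0 a0 ≤ s → liA rf s = a0 := by
    intro s hs
    apply le_antisymm (li_le rf s a0 (Or.inr (ha0 s)))
    by_contra hc
    rw [not_le] at hc
    rcases li_mem rf s with h1 | h1
    · have : a0 ≤ s := (le_max_right _ _).trans hs
      omega
    · exact h1 (h0 _ hc s ((le_max_left _ _).trans hs))
  refine ⟨max s0 a0, fun s hs => ?_⟩
  rw [key s hs, key (s + 1) (by omega)]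

/-- if every `a` is refuted then `liA` changes infinitely often -/
theorem li_change (rf : ℕ → ℕ → Prop) (hm : ∀ a s s', s ≤ s' → rf a s → rf a s')
    (h : ∀ a, ∃ s, rf a s) (s0 : ℕ) : ∃ s, s0 ≤ s ∧ liA rf (s + 1) ≠ liA rf s := by
  by_contra hc
  push Not at hc
  have h1 : ∀ r, liA rf (s0 + r) = liA rf s0 := by
    intro r
    induction r with
    | zero => rfl
    | succ r ih =>
      rw [← ih]
      exact hc (s0 + r) (by omega)
  obtain ⟨s1, hs1⟩ := h (liA rf s0)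
  have h2 := h1 (s1 + liA rf s0 + 1)
  rcases li_mem rf (s0 + (s1 + liA rf s0 + 1)) with h3 | h3
  · omega
  · rw [h2] at h3
    exact h3 (hm _ s1 _ (by omega) hs1)

theorem li_main (h1 : StmtC1) (h2 : StmtC2) : StmtLI := by
  have _ := h1
  intro X ι _ Q hQd hQ
  obtain ⟨R, hR, hQR⟩ := hQ
  obtain ⟨θ, hθ, h3, hm⟩ := S1.mono_form hR
  set rf : ι × ℕ → ℕ → ℕ → Prop := fun x a s => θ (x, a) (seg X s) = true with hrf
  have hmono : ∀ x a s s', s ≤ s' → rf x a s → rf x a s' := fun x a s s' hs h => hm _ _ _ hs h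
  have drf : Dl X 0 (fun p : ((ι × ℕ) × ℕ) × ℕ => rf p.1.1 p.2 p.1.2) := by
    have hc : Computable (fun p : ((ι × ℕ) × ℕ) × ℕ => ((p.1.1, p.2), p.1.2)) :=
      ((Computable.fst.comp Computable.fst).pair Computable.snd).pair
        (Computable.snd.comp Computable.fst)
    exact (Dl.seg X hθ).comp hc
  have gA : Sg X 0 (fun p : ((ι × ℕ) × ℕ) × ℕ => liA (rf p.1.1) p.1.2 = p.2) := by
    have dP : Dl X 0 (fun p : ((ι × ℕ) × ℕ) × ℕ => p.2 = p.1.2 ∨ ¬ rf p.1.1 p.2 p.1.2) :=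
      (Dl.eq Computable.snd (Computable.snd.comp Computable.fst)).or drf.not
    exact (h2 X _ _ dP).2.2 fun x => ⟨x.2, Or.inl rfl⟩
  have dch : Dl X 0 (fun p : (ι × ℕ) × ℕ => liA (rf p.1) (p.2 + 1) ≠ liA (rf p.1) p.2) := by
    refine Dl.fsub (P := fun (p : (ι × ℕ) × ℕ) (y : ℕ) => y ≠ liA (rf p.1) p.2)
      (f := fun p : (ι × ℕ) × ℕ => liA (rf p.1) (p.2 + 1)) ?_ ?_
    · have hc : Computable (fun p : ((ι × ℕ) × ℕ) × ℕ => ((p.1.1, p.1.2 + 1), p.2)) :=
        ((Computable.fst.comp Computable.fst).pair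
          (Computable.succ.comp (Computable.snd.comp Computable.fst))).pair Computable.snd
      exact gA.comp hc
    · refine Dl.fsub (P := fun (p : ((ι × ℕ) × ℕ) × ℕ) (z : ℕ) => p.2 ≠ z)
        (f := fun p : ((ι × ℕ) × ℕ) × ℕ => liA (rf p.1.1) p.1.2) ?_ ?_
      · have hc : Computable (fun p : (((ι × ℕ) × ℕ) × ℕ) × ℕ => (p.1.1, p.2)) :=
          (Computable.fst.comp Computable.fst).pair Computable.snd
        exact gA.comp hc
      · exact (Dl.eq (Computable.snd.comp Computable.fst) Computable.snd).not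
  have dP2 : Dl X 0 (fun q : (ι × ℕ) × ℕ => q.2 = q.1.2 ∨
      liA (rf (q.1.1, q.2)) (q.1.2 + 1) ≠ liA (rf (q.1.1, q.2)) q.1.2) := by
    have hc : Computable (fun q : (ι × ℕ) × ℕ => ((q.1.1, q.2), q.1.2)) :=
      ((Computable.fst.comp Computable.fst).pair Computable.snd).pair
        (Computable.snd.comp Computable.fst)
    exact (Dl.eq Computable.snd (Computable.snd.comp Computable.fst)).or (dch.comp hc)
  have gw := (h2 X _ _ dP2).2.2 fun x => ⟨x.2, Or.inl rfl⟩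
  refine ⟨fun i s => sInf {n | n = s ∨ liA (rf (i, n)) (s + 1) ≠ liA (rf (i, n)) s}, gw,
    fun i n => ?_⟩
  have hneg : ∀ n a, ¬ R ((i, n), a) ↔ ∃ s, rf (i, n) a s := fun n a => h3 _
  constructor
  · intro hq
    have hall : ∀ n', n' ≤ n → ∃ s0, ∀ s, s0 ≤ s →
        liA (rf (i, n')) (s + 1) = liA (rf (i, n')) s := by
      intro n' hn'
      apply li_const _ (hmono _)
      obtain ⟨a, ha⟩ := (hQR (i, n')).1 (hQd i n' n hn' hq)
      exact ⟨a, fun s hs => (hneg n' a).2 ⟨s, hs⟩ ha⟩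
    have hb : ∀ k, k ≤ n + 1 → ∃ s0, ∀ n', n' < k → ∀ s, s0 ≤ s →
        liA (rf (i, n')) (s + 1) = liA (rf (i, n')) s := by
      intro k
      induction k with
      | zero => exact fun _ => ⟨0, fun a ha => absurd ha (Nat.not_lt_zero _)⟩
      | succ k ih =>
        intro hk
        obtain ⟨s0, h0⟩ := ih (by omega)
        obtain ⟨s1, h1⟩ := hall k (by omega)
        refine ⟨max s0 s1, fun a ha s hs => ?_⟩
        rcases Nat.lt_succ_iff_lt_or_eq.mp ha with h' | h'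
        · exact h0 a h' s ((le_max_left _ _).trans hs)
        · subst h'
          exact h1 s ((le_max_right _ _).trans hs)
    obtain ⟨s0, h0⟩ := hb (n + 1) le_rfl
    refine ⟨max s0 (n + 1), fun s hs => ?_⟩
    have hmem : sInf {n | n = s ∨ liA (rf (i, n)) (s + 1) ≠ liA (rf (i, n)) s} = s ∨
        liA (rf (i, sInf {n | n = s ∨ liA (rf (i, n)) (s + 1) ≠ liA (rf (i, n)) s})) (s + 1) ≠
        liA (rf (i, sInf {n | n = s ∨ liA (rf (i, n)) (s + 1) ≠ liA (rf (i, n)) s})) s :=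
      Nat.sInf_mem (s := {n | n = s ∨ liA (rf (i, n)) (s + 1) ≠ liA (rf (i, n)) s})
        ⟨s, Or.inl rfl⟩
    by_contra hc
    rw [not_lt] at hc
    change sInf {n | n = s ∨ liA (rf (i, n)) (s + 1) ≠ liA (rf (i, n)) s} ≤ n at hc
    rcases hmem with h4 | h4
    · have : n + 1 ≤ s := (le_max_right _ _).trans hs
      omega
    · exact h4 (h0 _ (by omega) s ((le_max_left _ _).trans hs))
  · rintro ⟨s0, hs0⟩
    by_contra hq
    have hall : ∀ a, ∃ s, rf (i, n) a s := by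
      intro a
      rw [← hneg]
      intro ha
      exact hq ((hQR (i, n)).2 ⟨a, ha⟩)
    obtain ⟨s, hs, hne⟩ := li_change _ (hmono (i, n)) hall s0
    have h4 : sInf {n | n = s ∨ liA (rf (i, n)) (s + 1) ≠ liA (rf (i, n)) s} ≤ n :=
      Nat.sInf_le (Or.inr hne)
    exact absurd (hs0 s hs) (not_lt.2 h4)

end Pool.Agent.Downey
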