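import Pool.Agent.Downey.Stmts
import Pool.Agent.NonLow.PrLemmas
import Pool.Agent.NonLow.Reindex

/-!
# Presentations of sums of components
-/

set_option autoImplicit false

namespace Pool.Agent.Downey

open Pool.Agent.NonLow (Qd Sg Dl Z Pr dec reindex_main)

variable {X : ℕ → ℕ} {ι : Type} [Primcodable ι]

theorem llpr_dual {A : ι → Type} [∀ i, LinearOrder (A i)] (h : Pr X A) :
    Pr X (fun i => (A i)ᵒᵈ) := by
  obtain ⟨c, hc, hd, r, hr, hrl⟩ := h
  refine ⟨fun i a => c i (OrderDual.ofDual a), fun i a b h => hc i h, hd,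
    fun p => r (p.1, p.2.2, p.2.1), ?_, ?_⟩
  · exact hr.comp (f := fun p : ι × ℕ × ℕ => (p.1, p.2.2, p.2.1))
      (Computable.fst.pair ((Computable.snd.comp Computable.snd).pair
        (Computable.fst.comp Computable.snd)))
  · intro i a b
    exact hrl i (OrderDual.ofDual b) (OrderDual.ofDual a)

theorem llpr_CT {e : ι → ℕ} {A B : ι → Type} [∀ i, LinearOrder (A i)] [∀ i, LinearOrder (B i)]
    (he : Computable e) (hA : Pr X A) (hB : Pr X B) : Pr X (fun i => CT (e i) (A i) (B i)) := by
  refine Pr.sum (A := fun _ => Unit) Pr.unit ?_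
  refine Pr.sum (A := fun i => (A i)ᵒᵈ) (llpr_dual hA) ?_
  refine Pr.sum (A := fun _ => Qd) Pr.qd ?_
  refine Pr.sum (A := fun i => Fin (2 * e i + 3)) (Pr.fin ?_) ?_
  · exact (Primrec.nat_add.comp (Primrec.nat_mul.comp (Primrec.const 2) Primrec.id)
      (Primrec.const 3)).to_comp.comp he
  refine Pr.sum (A := fun _ => Qd) Pr.qd ?_
  exact Pr.sum (A := B) hB Pr.unit

instance llpr_infinite (e : ℕ → ℕ) (A B : ℕ → Type) [∀ i, LinearOrder (A i)]
    [∀ i, LinearOrder (B i)] : Infinite (LL e A B) := by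
  have hinj : Function.Injective (fun n : ℕ =>
      (toLex ⟨(show Qd from n), toLex (Sum.inl ())⟩ : LL e A B)) := by
    intro a b h
    have h1 := congrArg (fun x : LL e A B => (ofLex x).1) h
    exact h1
  exact Infinite.of_injective _ hinj

theorem llpr_main : StmtLLPr := by
  intro X e A B _ _ he hA hB
  have h1 : Pr X (fun _ : ℕ => LL e A B) := by
    refine Pr.sigmaQ (A := fun (_ : ℕ) (q : Qd) => CT (e q.col) (A q.col) (B q.col)) ?_
    have h := llpr_CT (X := X) he hA hB
    have hc : Computable (fun p : ℕ × Qd => (p.2.col : ℕ)) := by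
      have h1 : Primrec (fun n : ℕ => (Nat.unpair (Nat.unpair n).2).1) :=
        Primrec.fst.comp (Primrec.unpair.comp (Primrec.snd.comp Primrec.unpair))
      have h2 : Computable (fun q : Qd => Qd.col q) := h1.to_comp
      exact h2.comp Computable.snd
    exact Pr.comp (A := fun i : ℕ => CT (e i) (A i) (B i)) h hc
  exact reindex_main X (LL e A B) h1

end Pool.Agent.Downey
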