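import Pool.Agent.Downey.Stmts
import Pool.Agent.NonLow.QdFacts
import Pool.Agent.NonLow.Shuffle

/-!
# The order depends only on the set of isomorphism types of its components
-/

set_option autoImplicit false

namespace Pool.Agent.Downey

open Pool.Agent.NonLow (Qd Sg Dl Z Pr dec qd_main shuffle_main StmtShuffle)

theorem lliso_CT (e : ℕ) (A B A' B' : Type) [LinearOrder A] [LinearOrder B] [LinearOrder A']
    [LinearOrder B'] (f : A ≃o A') (g : B ≃o B') : Nonempty (CT e A B ≃o CT e A' B') :=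
  ⟨OrderIso.sumLexCongr (OrderIso.refl _) (OrderIso.sumLexCongr f.dual
    (OrderIso.sumLexCongr (OrderIso.refl _) (OrderIso.sumLexCongr (OrderIso.refl _)
      (OrderIso.sumLexCongr (OrderIso.refl _) (OrderIso.sumLexCongr g (OrderIso.refl _))))))⟩

/-- the canonical component of type `τ` -/
abbrev LLisoC (τ : Typ) : Type := CT τ.1 (Cn (τ.2.map Prod.fst)) (Cn (τ.2.map Prod.snd))

theorem lliso_main : StmtLLiso := by
  intro e A B _ _ t he hA hB
  have hs : StmtShuffle := shuffle_main qd_main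
  have key : ∀ i, Nonempty (CT (e i) (A i) (B i) ≃o LLisoC (t i)) := by
    intro i
    obtain ⟨f⟩ := hA i
    obtain ⟨g⟩ := hB i
    rw [he i]
    exact lliso_CT _ _ _ _ _ f g
  exact hs (fun i => CT (e i) (A i) (B i)) (fun i => LLisoC (t i))
    (fun i => ⟨i, key i⟩) (fun i => ⟨i, key i⟩)

theorem lo_main : StmtLo := by
  intro t t' h
  have hs : StmtShuffle := shuffle_main qd_main
  have key : ∀ i j, t i = t' j → Nonempty (LLisoC (t i) ≃o LLisoC (t' j)) := by
    intro i j hij
    rw [hij]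
    exact ⟨OrderIso.refl _⟩
  refine hs (fun i => LLisoC (t i)) (fun i => LLisoC (t' i)) ?_ ?_
  · intro i
    have : t i ∈ Set.range t' := h ▸ ⟨i, rfl⟩
    obtain ⟨j, hj⟩ := this
    exact ⟨j, key i j hj.symm⟩
  · intro j
    have : t' j ∈ Set.range t := h.symm ▸ ⟨j, rfl⟩
    obtain ⟨i, hi⟩ := this
    exact ⟨i, key i j hi⟩

end Pool.Agent.Downey
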