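import Pool.Agent.Downey.Stmts
import Pool.Agent.NonLow.Comp

/-!
# OG: the outer guesses
-/

set_option autoImplicit false

namespace Pool.Agent.Downey

open Pool.Agent.NonLow (Qd Sg Dl Z Pr dec)

theorem og_ch_succ {p : ℕ → Pt} : ∀ {d : ℕ} {x : Node}, Ch p (d + 1) x → Ch p d x := by
  intro d
  induction d with
  | zero => intro x h; exact h.1
  | succ d ih =>
    intro x h
    obtain ⟨h1, y, h2, h3⟩ := h
    exact ⟨h1, y, h2, ih h3⟩

theorem og_ch_anti {p : ℕ → Pt} {d d' : ℕ} {x : Node} (hd : d ≤ d') (h : Ch p d' x) : Ch p d x := by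
  induction d' with
  | zero => obtain rfl : d = 0 := by omega
            exact h
  | succ n ih =>
    rcases Nat.lt_succ_iff_lt_or_eq.mp (Nat.lt_succ_of_le hd) with h1 | h1
    · exact ih (by omega) (og_ch_succ h)
    · rw [h1]; exact h

/-- the number of visits is computable -/
theorem og_count {V : ℕ → ℕ → ℕ} (hV : Computable (fun q : ℕ × ℕ => V q.1 q.2)) :
    Computable (fun q : (ℕ × ℕ) × ℕ => Nat.count (fun j => V q.1.1 j = q.1.2) q.2) := by
  have hstep : Computable₂ (fun (q : (ℕ × ℕ) × ℕ) (r : ℕ × ℕ) =>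
      if V q.1.1 r.1 = q.1.2 then r.2 + 1 else r.2) := by
    have hb : Computable (fun x : ((ℕ × ℕ) × ℕ) × (ℕ × ℕ) =>
        decide (V x.1.1.1 x.2.1 = x.1.1.2)) := by
      have h0 : Computable (fun x : ((ℕ × ℕ) × ℕ) × (ℕ × ℕ) => (x.1.1.1, x.2.1)) :=
        (Computable.fst.comp (Computable.fst.comp Computable.fst)).pair
          (Computable.fst.comp Computable.snd)
      have h1 : Computable (fun x : ((ℕ × ℕ) × ℕ) × (ℕ × ℕ) => V x.1.1.1 x.2.1) :=
        Computable.comp (f := fun q : ℕ × ℕ => V q.1 q.2)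
          (g := fun x : ((ℕ × ℕ) × ℕ) × (ℕ × ℕ) => (x.1.1.1, x.2.1)) hV h0
      have h3 : Computable (fun x : ((ℕ × ℕ) × ℕ) × (ℕ × ℕ) => x.1.1.2) :=
        Computable.snd.comp (Computable.fst.comp Computable.fst)
      have h4 : Computable₂ (fun a b : ℕ => decide (a = b)) := Primrec.eq.decide.to_comp
      exact Computable₂.comp (f := fun a b : ℕ => decide (a = b)) h4 h1 h3
    have h2 := Computable.cond hb (Computable.succ.comp (Computable.snd.comp Computable.snd))
      (Computable.snd.comp (Computable.snd (α := (ℕ × ℕ) × ℕ) (β := ℕ × ℕ)))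
    refine h2.of_eq ?_
    intro x
    by_cases h : V x.1.1.1 x.2.1 = x.1.1.2
    · simp [h]
    · simp [h]
  have h := Computable.nat_rec (f := fun q : (ℕ × ℕ) × ℕ => q.2) (g := fun _ => 0)
    (h := fun (q : (ℕ × ℕ) × ℕ) (r : ℕ × ℕ) => if V q.1.1 r.1 = q.1.2 then r.2 + 1 else r.2)
    Computable.snd (Computable.const 0) hstep
  refine h.of_eq ?_
  rintro ⟨⟨e, v⟩, n⟩
  simp only
  induction n with
  | zero => simp
  | succ n ih =>
    rw [Nat.count_succ, ← ih]
    by_cases h : V e n = v
    · simp [h]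
    · simp [h]

theorem og_main (h0 : StmtC0) (h1 : StmtC1) (h2 : StmtC2) (hl : StmtLI) (hc : StmtCC) :
    StmtOG := by
  intro D hD
  -- the first guess
  obtain ⟨V, hVs, hV⟩ := hl Z ℕ (fun e n => ∀ l, l < n + 1 → ¬ D.Tr (e, l))
    (fun e n n' hn h l hl' => h l (by omega))
    (Sg.ball (P := fun (q : ℕ × ℕ) (l : ℕ) => ¬ D.Tr (q.1, l))
      (hD.1.comp (f := fun x : (ℕ × ℕ) × ℕ => (x.1.1, x.2))
        ((Computable.fst.comp Computable.fst).pair Computable.snd))
      (Computable.succ.comp Computable.snd))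
  have hVc : Computable (fun q : ℕ × ℕ => V q.1 q.2) :=
    h0 (ℕ × ℕ) ℕ (fun q => V q.1 q.2) hVs
  -- the second guess
  have hQ : Sg Z 1 (fun q : ((ℕ × ℕ) × Option Node) × ℕ =>
      ∃ x, q.1.2 = some x ∧ Ch (D.p q.1.1.1 q.1.1.2) (q.2 + 1) x) := by
    refine Sg.ex (P := fun (q : ((ℕ × ℕ) × Option Node) × ℕ) (x : Node) =>
      q.1.2 = some x ∧ Ch (D.p q.1.1.1 q.1.1.2) (q.2 + 1) x) ?_
    refine Sg.and ?_ ?_
    · exact (Dl.eq (f := fun y : (((ℕ × ℕ) × Option Node) × ℕ) × Node => y.1.1.2)
        (g := fun y => some y.2)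
        (Computable.snd.comp (Computable.fst.comp Computable.fst))
        (Computable.option_some.comp Computable.snd)).1
    · refine (hc D hD).comp (f := fun y : (((ℕ × ℕ) × Option Node) × ℕ) × Node =>
        ((y.1.1.1.1, y.1.1.1.2), y.2, y.1.2 + 1)) ?_
      refine Computable.pair ?_ (Computable.pair Computable.snd ?_)
      · exact Computable.pair
          (Computable.fst.comp (Computable.fst.comp (Computable.fst.comp Computable.fst)))
          (Computable.snd.comp (Computable.fst.comp (Computable.fst.comp Computable.fst)))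
      · exact Computable.succ.comp (Computable.snd.comp Computable.fst)
  obtain ⟨w, hws, hw⟩ := hl Z ((ℕ × ℕ) × Option Node)
    (fun i n => ∃ x, i.2 = some x ∧ Ch (D.p i.1.1 i.1.2) (n + 1) x)
    (fun i n n' hn h => by
      obtain ⟨x, hx, h⟩ := h
      exact ⟨x, hx, og_ch_anti (by omega) h⟩) hQ
  have hwc : Computable (fun q : ((ℕ × ℕ) × Option Node) × ℕ => w q.1 q.2) :=
    h0 (((ℕ × ℕ) × Option Node) × ℕ) ℕ (fun q => w q.1 q.2) hws
  let γ : ℕ × Option Node → ℕ → ℕ × ℕ := fun i t =>
    (V i.1 t, w ((i.1, V i.1 t), i.2) (Nat.count (fun j => V i.1 j = V i.1 t) t))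
  refine ⟨γ, ?_, ?_⟩
  · have e0 : Computable (fun q : (ℕ × Option Node) × ℕ => (q.1.1, q.2)) :=
      (Computable.fst.comp Computable.fst).pair Computable.snd
    have e1 : Computable (fun q : (ℕ × Option Node) × ℕ => V q.1.1 q.2) :=
      Computable.comp (f := fun q : ℕ × ℕ => V q.1 q.2)
        (g := fun q : (ℕ × Option Node) × ℕ => (q.1.1, q.2)) hVc e0
    have e2 : Computable (fun q : (ℕ × Option Node) × ℕ => q.1.1) :=
      Computable.fst.comp Computable.fst
    have e3 : Computable (fun q : (ℕ × Option Node) × ℕ => q.1.2) :=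
      Computable.snd.comp Computable.fst
    have e4 : Computable (fun q : (ℕ × Option Node) × ℕ => ((q.1.1, V q.1.1 q.2), q.2)) :=
      (e2.pair e1).pair Computable.snd
    have e5 : Computable (fun q : (ℕ × Option Node) × ℕ =>
        Nat.count (fun j => V q.1.1 j = V q.1.1 q.2) q.2) :=
      Computable.comp (f := fun q : (ℕ × ℕ) × ℕ => Nat.count (fun j => V q.1.1 j = q.1.2) q.2)
        (g := fun q : (ℕ × Option Node) × ℕ => ((q.1.1, V q.1.1 q.2), q.2)) (og_count hVc) e4
    have e6 : Computable (fun q : (ℕ × Option Node) × ℕ => (((q.1.1, V q.1.1 q.2), q.1.2),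
        Nat.count (fun j => V q.1.1 j = V q.1.1 q.2) q.2)) :=
      ((e2.pair e1).pair e3).pair e5
    have e7 : Computable (fun q : (ℕ × Option Node) × ℕ => w ((q.1.1, V q.1.1 q.2), q.1.2)
        (Nat.count (fun j => V q.1.1 j = V q.1.1 q.2) q.2)) :=
      Computable.comp (f := fun q : ((ℕ × ℕ) × Option Node) × ℕ => w q.1 q.2)
        (g := fun q : (ℕ × Option Node) × ℕ => (((q.1.1, V q.1.1 q.2), q.1.2),
          Nat.count (fun j => V q.1.1 j = V q.1.1 q.2) q.2)) hwc e6
    exact e1.pair e7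
  intro e st
  have hγ1 : ∀ m, (γ (e, st) m).1 = V e m := fun m => rfl
  have hγ2 : ∀ m l, V e m = l → (γ (e, st) m).2 =
      w ((e, l), st) (Nat.count (fun j => V e j = l) m) := by
    intro m l hm
    subst hm
    rfl
  -- (a)
  have ha : ∀ g, IsLim (γ (e, st)) g → fst D e g.1 := by
    rintro g ⟨⟨m0, hm0⟩, hinf⟩
    have hge : ∀ m, m0 ≤ m → g.1 ≤ V e m := by
      intro m hm
      by_contra hlt
      push Not at hlt
      exact hm0 m hm (Or.inl hlt)
    constructor
    · by_contra hT
      have h3 : ∀ l, l < g.1 → ¬ D.Tr (e, l) := by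
        intro l hlt
        exact (hV e l).2 ⟨m0, fun s hs => lt_of_lt_of_le hlt (hge s hs)⟩ l (by omega)
      obtain ⟨s0, hs0⟩ := (hV e g.1).1 (by
        intro l hl'
        rcases Nat.lt_succ_iff_lt_or_eq.mp hl' with h | h
        · exact h3 l h
        · rw [h]; exact hT)
      obtain ⟨m, hm, hg⟩ := hinf s0
      have h4 := hs0 m hm
      have h5 : V e m = g.1 := by rw [← hγ1 m, hg]
      omega
    · intro l' hl'
      exact (hV e l').2 ⟨m0, fun s hs => lt_of_lt_of_le hl' (hge s hs)⟩ l' (by omega)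
  -- facts on a true first location
  have hfst : ∀ l, fst D e l → (∃ m0, ∀ m, m0 ≤ m → l ≤ V e m) ∧
      {m | V e m = l}.Infinite := by
    intro l hfl
    have h3 : ∃ m0, ∀ m, m0 ≤ m → l ≤ V e m := by
      rcases Nat.eq_zero_or_pos l with h | h
      · exact ⟨0, fun m _ => by omega⟩
      · obtain ⟨s0, hs0⟩ := (hV e (l - 1)).1 (fun l' hl' => hfl.2 l' (by omega))
        exact ⟨s0, fun m hm => by have := hs0 m hm; omega⟩
    refine ⟨h3, ?_⟩
    obtain ⟨m0, hm0⟩ := h3
    rw [Set.infinite_iff_exists_gt]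
    intro a
    by_contra hcon
    push Not at hcon
    apply (hV e l).2 ⟨max m0 (a + 1), ?_⟩ l (by omega) hfl.1
    intro s hs
    have h4 := hm0 s (le_trans (le_max_left _ _) hs)
    have h5 : a + 1 ≤ s := le_trans (le_max_right _ _) hs
    rcases eq_or_lt_of_le h4 with h | h
    · have := hcon s h.symm
      omega
    · exact h
  refine ⟨ha, ?_, ?_⟩
  · rintro l hfl ⟨x, hx, hE⟩ g hg
    have hg1 : g.1 = l := by
      have h3 := ha g hg
      rcases lt_trichotomy g.1 l with h | h | h
      · exact absurd h3.1 (hfl.2 _ h)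
      · exact h
      · exact absurd hfl.1 (h3.2 _ h)
    obtain ⟨s0, hs0⟩ := (hw ((e, l), st) g.2).1 ⟨x, hx, hE _⟩
    have hinf := (hfst l hfl).2
    have hinf' : ({j | V e j = l} : Set ℕ).Infinite := hinf
    obtain ⟨m, hm, hgm⟩ := hg.2 (Nat.nth (fun j => V e j = l) s0)
    have h3 : V e m = l := by rw [← hγ1 m, hgm, hg1]
    have h4 : s0 ≤ Nat.count (fun j => V e j = l) m := by
      calc s0 = Nat.count (fun j => V e j = l) (Nat.nth (fun j => V e j = l) s0) :=
            (Nat.count_nth_of_infinite hinf' s0).symm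
        _ ≤ _ := Nat.count_monotone _ hm
    have h5 := hs0 _ h4
    have h6 := hγ2 m l h3
    rw [hgm] at h6
    omega
  · intro l hfl hnE
    have hex : ∃ n, ¬ ∃ x, st = some x ∧ Ch (D.p e l) (n + 1) x := by
      by_contra hcon
      push Not at hcon
      apply hnE
      obtain ⟨x, hx, _⟩ := hcon 0
      refine ⟨x, hx, ?_⟩
      intro d
      obtain ⟨x', hx', h⟩ := hcon d
      have : x' = x := by
        have h7 : some x' = some x := by rw [← hx', hx]
        exact Option.some.inj h7
      rw [this] at h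
      exact og_ch_succ h
    classical
    set d := Nat.find hex with hd
    have hd1 : ¬ ∃ x, st = some x ∧ Ch (D.p e l) (d + 1) x := Nat.find_spec hex
    have hd2 : ∀ n, n < d → ∃ x, st = some x ∧ Ch (D.p e l) (n + 1) x := by
      intro n hn
      have := Nat.find_min hex hn
      push Not at this
      exact this
    obtain ⟨⟨m0, hm0⟩, hinf⟩ := hfst l hfl
    have hinf' : ({j | V e j = l} : Set ℕ).Infinite := hinf
    -- eventually `d ≤ w`
    obtain ⟨s0, hs0⟩ : ∃ s0, ∀ s, s0 ≤ s → d ≤ w ((e, l), st) s := by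
      rcases Nat.eq_zero_or_pos d with h | h
      · exact ⟨0, fun s _ => by omega⟩
      · obtain ⟨s0, hs0⟩ := (hw ((e, l), st) (d - 1)).1 (hd2 (d - 1) (by omega))
        exact ⟨s0, fun s hs => by have := hs0 s hs; omega⟩
    refine ⟨d, ⟨⟨max m0 (Nat.nth (fun j => V e j = l) s0), ?_⟩, ?_⟩, ?_⟩
    · intro m hm hlt
      have h3 := hm0 m (le_trans (le_max_left _ _) hm)
      rcases hlt with h | ⟨h, h'⟩
      · rw [hγ1 m] at h
        simp only at h
        omega
      · rw [hγ1 m] at h
        simp only at h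
        rw [hγ2 m l h] at h'
        have h4 : s0 ≤ Nat.count (fun j => V e j = l) m := by
          calc s0 = Nat.count (fun j => V e j = l) (Nat.nth (fun j => V e j = l) s0) :=
                (Nat.count_nth_of_infinite hinf' s0).symm
            _ ≤ _ := Nat.count_monotone _ (le_trans (le_max_right _ _) hm)
        have h5 := hs0 _ h4
        simp only at h'
        omega
    · intro m1
      -- a large visit number with value `d`
      have hn : ¬ ∃ s0, ∀ s, s0 ≤ s → d < w ((e, l), st) s := fun h => hd1 ((hw _ _).2 h)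
      push Not at hn
      obtain ⟨r, hr, hrd⟩ := hn (max s0 m1)
      have h3 := hs0 r (le_trans (le_max_left _ _) hr)
      have h4 : w ((e, l), st) r = d := le_antisymm hrd h3
      have h5 : V e (Nat.nth (fun j => V e j = l) r) = l := Nat.nth_mem_of_infinite hinf' r
      have h6 : Nat.count (fun j => V e j = l) (Nat.nth (fun j => V e j = l) r) = r :=
        Nat.count_nth_of_infinite hinf' r
      refine ⟨Nat.nth (fun j => V e j = l) r, ?_, ?_⟩
      · have h7 := Nat.count_le (p := fun j => V e j = l) (n := Nat.nth (fun j => V e j = l) r)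
        rw [h6] at h7
        exact le_trans (le_trans (le_max_right _ _) hr) h7
      · refine Prod.ext ?_ ?_
        · rw [hγ1]; exact h5
        · rw [hγ2 _ l h5, h6]; exact h4
    · intro hst
      rw [hd, Nat.find_eq_zero]
      rintro ⟨x, hx, _⟩
      rw [hst] at hx
      exact absurd hx (by simp)

end Pool.Agent.Downey
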