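import Pool.Agent.Downey.LLiso
import Pool.Agent.Downey.LLPr

/-!
# Presentations from realisations
-/

set_option autoImplicit false

namespace Pool.Agent.Downey

open Pool.Agent.NonLow (Qd Sg Dl Z Pr dec)

theorem pres_content (k1 : StmtK1) (k2 : StmtK2) (l : ℕ → ℕ) (n0 : ℕ)
    (hb : ∀ m, 1 ≤ l m ∧ l m ≤ zz n0 m) (o : Option ℕ) (h1 : ∀ k, o = some k → Fin1 l k)
    (h2 : o = none → Inf1 l n0) : Nonempty (KK l n0 ≃o Cn o) := by
  cases o with
  | none => exact k2 l n0 hb (h2 rfl)
  | some k => exact k1 l n0 k hb (h1 k rfl)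

theorem pres_main (k1 : StmtK1) (k2 : StmtK2) (k3 : StmtK3) : StmtPres := by
  rintro X ι _ _ S ⟨e, u, l, t, he, hu, hl, hb, hS, ht⟩
  set d : ℕ → ι := fun n => (Encodable.decode (α := ι) n).getD default with hd
  have hdc : Computable d := Computable.option_getD Computable.decode (Computable.const _)
  have hds : ∀ i, d (Encodable.encode i) = i := by
    intro i
    simp [hd]
  have hsel : ∀ c, Computable (fun i => sel c (u i)) := by
    intro c
    cases c with
    | false => exact Computable.fst.comp hu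
    | true => exact Computable.snd.comp hu
  have hpr : ∀ c, Pr X (fun i : ℕ => KK (l c (d i)) (sel c (u (d i)))) := fun c =>
    Pool.Agent.NonLow.Pr.comp (A := fun i : ι => KK (l c i) (sel c (u i)))
      (k3 X ι (l c) (fun i => sel c (u i)) (hb c) (hl c) (hsel c)) hdc
  obtain ⟨lt, hlt, φ, hφ⟩ := llpr_main X (fun i => e (d i))
    (fun i => KK (l false (d i)) (sel false (u (d i))))
    (fun i => KK (l true (d i)) (sel true (u (d i)))) (he.comp hdc) (hpr false) (hpr true)
  obtain ⟨ψ⟩ := lliso_main (fun i => e (d i))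
    (fun i => KK (l false (d i)) (sel false (u (d i))))
    (fun i => KK (l true (d i)) (sel true (u (d i)))) (fun i => (e (d i), t (d i)))
    (fun i => rfl)
    (fun i => pres_content k1 k2 _ _ (hb false (d i)) _
      (fun k hk => by
        obtain ⟨v, hv, rfl⟩ := Option.map_eq_some_iff.1 hk
        exact (ht (d i)).1 v hv false)
      (fun hk => (ht (d i)).2 (Option.map_eq_none_iff.1 hk) false))
    (fun i => pres_content k1 k2 _ _ (hb true (d i)) _
      (fun k hk => by
        obtain ⟨v, hv, rfl⟩ := Option.map_eq_some_iff.1 hk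
        exact (ht (d i)).1 v hv true)
      (fun hk => (ht (d i)).2 (Option.map_eq_none_iff.1 hk) true))
  refine ⟨fun i => (e (d i), t (d i)), ?_, lt, hlt, φ.trans ψ.toEquiv, fun a b => ?_⟩
  · rw [← hS]
    ext y
    constructor
    · rintro ⟨i, rfl⟩
      exact ⟨d i, rfl⟩
    · rintro ⟨i, rfl⟩
      refine ⟨Encodable.encode i, ?_⟩
      show (e (d (Encodable.encode i)), t (d (Encodable.encode i))) = (e i, t i)
      rw [hds]
  · rw [hφ]
    exact (ψ.lt_iff_lt).symm

end Pool.Agent.Downey
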