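import Pool.Agent.Downey.Stmts
import Pool.Agent.NonLow.Cplx

/-!
# QL: complexity of locations in a computable copy
-/

set_option autoImplicit false

namespace Pool.Agent.Downey

open Pool.Agent.NonLow (Qd Sg Dl Z Pr dec cpx_dec cpx_lt cpx_cov cpx_pand cpx_chain cpx_decAt
  cpx_add)

theorem ql_loc_iff {M : Type} [LinearOrder M] (e : ℕ) (x : ℕ → M) :
    Loc e x ↔ ((∀ i, i < 2 * e + 2 → x (0 + i) ⋖ x (0 + 1 + i)) ∧ x (2 * e + 3) < x 0 ∧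
      (∀ y z, x (2 * e + 3) ≤ y → y < z → z ≤ x 0 → ∃ w, y < w ∧ w < z) ∧
      x (2 * e + 4) ⋖ x (2 * e + 3) ∧ x (2 * e + 2) < x (2 * e + 5) ∧
      (∀ y z, x (2 * e + 2) ≤ y → y < z → z ≤ x (2 * e + 5) → ∃ w, y < w ∧ w < z) ∧
      x (2 * e + 5) ⋖ x (2 * e + 6)) := by
  constructor
  · intro h
    refine ⟨fun i hi => ?_, h.ltL, h.denseL, h.covL, h.ltR, h.denseR, h.covR⟩
    have := h.chain i hi
    rw [Nat.zero_add, Nat.zero_add, Nat.add_comm 1 i]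
    exact this
  · rintro ⟨h1, h2, h3, h4, h5, h6, h7⟩
    refine ⟨fun i hi => ?_, h2, h3, h4, h5, h6, h7⟩
    have := h1 i hi
    rw [Nat.zero_add, Nat.zero_add, Nat.add_comm 1 i] at this
    exact this

theorem ql_dense {M : Type} [LinearOrder M] {φ : ℕ ≃ M} {lt : ℕ × ℕ → Prop}
    {α : Type} [Primcodable α] (hlt : ∀ a b, lt (a, b) ↔ φ a < φ b) (h1 : Dl Z 1 lt)
    (h2 : Dl Z 1 (fun p : ℕ × ℕ => ∃ z, lt (p.1, z) ∧ lt (z, p.2))) {f g : α → ℕ}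
    (hf : Computable f) (hg : Computable g) :
    Sg Z 1 (fun x => ¬ ∀ y z, φ (f x) ≤ y → y < z → z ≤ φ (g x) → ∃ w, y < w ∧ w < z) := by
  have hA : Sg Z 1 (fun p : α × (ℕ × ℕ) => ¬ φ p.2.1 < φ (f p.1) ∧ φ p.2.1 ⋖ φ p.2.2 ∧
      ¬ φ (g p.1) < φ p.2.2) :=
    (cpx_lt hlt h1 (Computable.fst.comp Computable.snd) (hf.comp Computable.fst)).2.and
      ((cpx_cov hlt h1 h2 (Computable.fst.comp Computable.snd)
        (Computable.snd.comp Computable.snd)).1.and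
      (cpx_lt hlt h1 (hg.comp Computable.fst) (Computable.snd.comp Computable.snd)).2)
  refine (Sg.ex (P := fun (x : α) (q : ℕ × ℕ) => ¬ φ q.1 < φ (f x) ∧ φ q.1 ⋖ φ q.2 ∧
      ¬ φ (g x) < φ q.2) hA).of_iff fun x => ?_
  constructor
  · intro h
    push Not at h
    obtain ⟨y, z, h3, h4, h5, h6⟩ := h
    obtain ⟨a, rfl⟩ := φ.surjective y
    obtain ⟨b, rfl⟩ := φ.surjective z
    exact ⟨(a, b), not_lt.2 h3, ⟨h4, fun w hw1 hw2 => absurd hw2 (not_lt.2 (h6 w hw1))⟩,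
      not_lt.2 h5⟩
  · rintro ⟨⟨a, b⟩, h3, h4, h5⟩ h
    obtain ⟨w, hw1, hw2⟩ := h (φ a) (φ b) (not_lt.1 h3) h4.1 (not_lt.1 h5)
    exact h4.2 hw1 hw2

theorem ql_main : StmtQL := by
  intro M _ φ lt hlt h0
  have h1 : Dl Z 1 lt := h0.up
  have h2 : Dl Z 1 (fun p : ℕ × ℕ => ∃ z, lt (p.1, z) ∧ lt (z, p.2)) := by
    refine Sg.dl (Sg.exN (P := fun (p : ℕ × ℕ) (z : ℕ) => lt (p.1, z) ∧ lt (z, p.2)) ?_)
    refine Sg.and ?_ ?_
    · exact (h0.1.comp (f := fun q : (ℕ × ℕ) × ℕ => (q.1.1, q.2))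
        ((Computable.fst.comp Computable.fst).pair Computable.snd))
    · exact (h0.1.comp (f := fun q : (ℕ × ℕ) × ℕ => (q.2, q.1.2))
        (Computable.snd.pair (Computable.snd.comp Computable.fst)))
  have he : Computable (fun p : ℕ × ℕ => 2 * p.1) :=
    (Primrec.nat_mul.comp (Primrec.const 2) Primrec.fst).to_comp
  have hl : Computable (fun p : ℕ × ℕ => p.2) := Computable.snd
  have d (c : ℕ) : Computable (fun p : ℕ × ℕ => dec p.2 (2 * p.1 + c)) := cpx_decAt hl he c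
  have d0 : Computable (fun p : ℕ × ℕ => dec p.2 0) :=
    cpx_dec.comp (f := fun p : ℕ × ℕ => dec p.1 p.2)
      (g := fun p : ℕ × ℕ => (p.2, 0)) (hl.pair (Computable.const 0))
  have H := cpx_pand (cpx_chain hlt h1 h2 hl (Computable.const 0) (cpx_add he 2)).2
    (cpx_pand (cpx_lt hlt h1 (d 3) d0).2
    (cpx_pand (ql_dense hlt h1 h2 (d 3) d0)
    (cpx_pand (cpx_cov hlt h1 h2 (d 4) (d 3)).2
    (cpx_pand (cpx_lt hlt h1 (d 2) (d 5)).2
    (cpx_pand (ql_dense hlt h1 h2 (d 2) (d 5))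
    (cpx_cov hlt h1 h2 (d 5) (d 6)).2)))))
  exact H.of_iff fun p => not_congr (ql_loc_iff _ _)

end Pool.Agent.Downey
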