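import Pool.Agent.Downey.GlueRH
import Pool.Agent.Downey.HC

/-!
# Realisation for oracles which are not low
-/

set_option autoImplicit false

namespace Pool.Agent.Downey

open Pool.Agent.NonLow (Qd Sg Dl Z Pr dec)

open Classical in
/-- the number of earlier visits of the present guess in the present phase -/
noncomputable def rnR (g : ℕ → ℕ × ℕ) (m : ℕ) : ℕ :=
  ((Finset.range m).filter fun m' => kk g m ≤ m' ∧ g m' = g m).card

/-- the level -/
noncomputable def rnL (w : ((ℕ × ℕ) × (ℕ × ℕ) × ℕ × Bool) → ℕ → ℕ) (e : ℕ) (u : ℕ × ℕ) (n0 : ℕ)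
    (g : ℕ → ℕ × ℕ) (c : Bool) (m : ℕ) : ℕ :=
  min (zz (sel c u) m) (max (zz (sel c u) (kk g m))
    (w ((e, (g m).1), (zz u.1 (kk g m), zz u.2 (kk g m)), n0, c) (rnR g m)))

theorem rn_count {g : ℕ → ℕ × ℕ} {v : ℕ × ℕ} (s : ℕ) (hinf : ∀ m0, ∃ m, m0 ≤ m ∧ g m = v)
    (hs : ∀ m, s ≤ m → g m = v → kk g m = s) :
    (∀ n, ∃ m, s ≤ m ∧ g m = v ∧ rnR g m = n) ∧
    (∀ n, ∃ m0, ∀ m, m0 ≤ m → g m = v → n ≤ rnR g m) := by
  classical
  set C : ℕ → ℕ := fun m => ((Finset.range m).filter fun m' => s ≤ m' ∧ g m' = v).card with hC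
  have hR : ∀ m, s ≤ m → g m = v → rnR g m = C m := by
    intro m hm hv
    unfold rnR
    rw [hs m hm hv, hv]
  have hmono : Monotone C := by
    intro a b hab
    exact Finset.card_le_card (Finset.filter_subset_filter _ (Finset.range_mono hab))
  have hstep : ∀ m, C (m + 1) = if s ≤ m ∧ g m = v then C m + 1 else C m := by
    intro m
    simp only [hC]
    rw [Finset.range_add_one, Finset.filter_insert]
    split_ifs with h
    · rw [Finset.card_insert_of_notMem (by simp)]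
    · rfl
  have hunb : ∀ n, ∃ m, n ≤ C m := by
    intro n
    induction n with
    | zero => exact ⟨0, Nat.zero_le _⟩
    | succ n ih =>
      obtain ⟨m, hm⟩ := ih
      obtain ⟨m', hm', hv⟩ := hinf (max s m)
      refine ⟨m' + 1, ?_⟩
      rw [hstep, if_pos ⟨le_trans (le_max_left _ _) hm', hv⟩]
      have := hmono (le_trans (le_max_right s m) hm')
      omega
  constructor
  · intro n
    have hex : ∃ m, n + 1 ≤ C m := hunb (n + 1)
    have h1 := Nat.find_spec hex
    have h0 : Nat.find hex ≠ 0 := by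
      intro h0
      rw [h0] at h1
      simp [hC] at h1
    obtain ⟨M, hM⟩ := Nat.exists_eq_succ_of_ne_zero h0
    have h2 := Nat.find_min hex (m := M) (by omega)
    rw [hM, Nat.succ_eq_add_one, hstep] at h1
    split_ifs at h1 with h3
    · refine ⟨M, h3.1, h3.2, ?_⟩
      rw [hR M h3.1 h3.2]
      omega
    · exact absurd h1 h2
  · intro n
    obtain ⟨m0, hm0⟩ := hunb n
    refine ⟨max s m0, fun m hm hv => ?_⟩
    rw [hR m (le_trans (le_max_left _ _) hm) hv]
    exact hm0.trans (hmono (le_trans (le_max_right _ _) hm))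

theorem zz_ge {w : ℕ} (h : 1 ≤ w) (j : ℕ) : j ≤ zz w j := by
  unfold zz
  calc j ≤ 2 ^ j := Nat.lt_two_pow_self.le
    _ = 1 * 2 ^ j := (one_mul _).symm
    _ ≤ w * 2 ^ j := Nat.mul_le_mul_right _ h

/-- the finite case -/
theorem rn_fin {w : ((ℕ × ℕ) × (ℕ × ℕ) × ℕ × Bool) → ℕ → ℕ} {e : ℕ} {u : ℕ × ℕ} {n0 : ℕ}
    {g : ℕ → ℕ × ℕ} {c : Bool} {v : ℕ × ℕ} {s k : ℕ} (hu : 1 ≤ sel c u)
    (hlim : IsLim g v)
    (h1 : ∀ b, ∃ m0, ∀ m, m0 ≤ m → g m ≠ v → b ≤ kk g m)
    (hs : ∀ m, s ≤ m → g m = v → kk g m = s)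
    (hk : zz (sel c u) s ≤ k)
    (hw : ∀ n, n < k ↔ ∃ s0, ∀ r, s0 ≤ r →
      n < w ((e, v.1), (zz u.1 s, zz u.2 s), n0, c) r) :
    Fin1 (rnL w e u n0 g c) k := by
  obtain ⟨c1, c2⟩ := rn_count s hlim.2 hs
  have hk1 : 1 ≤ k := (zz_pos hu s).trans hk
  -- eventually `k ≤ w`
  obtain ⟨s0, hs0⟩ := (hw (k - 1)).1 (by omega)
  obtain ⟨m1, hm1⟩ := c2 s0
  obtain ⟨m2, hm2⟩ := h1 k
  constructor
  · refine ⟨max (max m1 m2) (max s k), fun m hm => ?_⟩
    have e1 : m1 ≤ m := le_trans (le_trans (le_max_left _ _) (le_max_left _ _)) hm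
    have e2 : m2 ≤ m := le_trans (le_trans (le_max_right _ _) (le_max_left _ _)) hm
    have e3 : s ≤ m := le_trans (le_trans (le_max_left _ _) (le_max_right _ _)) hm
    have e4 : k ≤ m := le_trans (le_trans (le_max_right _ _) (le_max_right _ _)) hm
    unfold rnL
    refine le_min (e4.trans (zz_ge hu m)) ?_
    by_cases hv : g m = v
    · refine le_max_of_le_right ?_
      rw [hs m e3 hv, hv]
      have := hs0 _ (hm1 m e1 hv)
      omega
    · exact le_max_of_le_left ((hm2 m e2 hv).trans (zz_ge hu _))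
  · intro m0
    -- a large `r` with `w r = k`
    have hnk : ¬ ∃ s0, ∀ r, s0 ≤ r → k < w ((e, v.1), (zz u.1 s, zz u.2 s), n0, c) r :=
      fun h => absurd ((hw k).2 h) (lt_irrefl _)
    push Not at hnk
    obtain ⟨r, hr1, hr2⟩ := hnk (max s0 (max m0 k))
    obtain ⟨m, hm1', hv, hmr⟩ := c1 r
    have hrm : r ≤ m := by
      rw [← hmr]
      unfold rnR
      exact (Finset.card_filter_le _ _).trans (by simp)
    have e1 : s0 ≤ r := le_trans (le_max_left _ _) hr1
    have e2 : m0 ≤ r := le_trans (le_trans (le_max_left _ _) (le_max_right _ _)) hr1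
    have e3 : k ≤ r := le_trans (le_trans (le_max_right _ _) (le_max_right _ _)) hr1
    refine ⟨m, e2.trans hrm, ?_⟩
    have h5 := hs0 r e1
    have h6 : w ((e, v.1), (zz u.1 s, zz u.2 s), n0, c) r = k := by omega
    unfold rnL
    rw [hs m hm1' hv, hv, hmr, h6, max_eq_right hk, min_eq_right]
    exact (e3.trans hrm).trans (zz_ge hu m)

/-- the infinite case -/
theorem rn_inf {w : ((ℕ × ℕ) × (ℕ × ℕ) × ℕ × Bool) → ℕ → ℕ} {e : ℕ} {u : ℕ × ℕ} {n0 : ℕ}
    {g : ℕ → ℕ × ℕ} (c : Bool) (h : InfT (kk g)) :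
    Inf1 (rnL w e u n0 g c) (sel c u) := by
  intro m0
  obtain ⟨m, hm, h1⟩ := h m0
  refine ⟨m, hm, fun m' hm' => ?_⟩
  unfold rnL
  exact le_min (zz_mono _ hm') (le_max_of_le_left (zz_mono _ (h1 m' hm')))

theorem Fin1.unique {l : ℕ → ℕ} {a b : ℕ} (h : Fin1 l a) (h' : Fin1 l b) : a = b := by
  have key : ∀ a b : ℕ, Fin1 l a → Fin1 l b → a ≤ b := by
    rintro a b ⟨⟨m0, h1⟩, _⟩ ⟨_, h2⟩
    obtain ⟨m, hm, hT⟩ := h2 m0
    rw [← hT]; exact h1 m hm
  exact le_antisymm (key _ _ h h') (key _ _ h' h)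

theorem Inf1.not_fin {l : ℕ → ℕ} {n0 : ℕ} (hn : 1 ≤ n0) (h : Inf1 l n0) (k : ℕ) : ¬ Fin1 l k := by
  rintro ⟨_, h2⟩
  obtain ⟨m, hm, h3⟩ := h (k + 1)
  obtain ⟨m', hm', h4⟩ := h2 m
  have := h3 m' hm'
  have := zz_ge hn m
  omega

/-- complexity of the levels -/
theorem rn_cplx (c1 : StmtC1) (c2 : StmtC2) (wc : StmtWC) {γ : ℕ × Option Node → ℕ → ℕ × ℕ}
    {X : ℕ → ℕ} {w : ((ℕ × ℕ) × (ℕ × ℕ) × ℕ × Bool) → ℕ → ℕ}
    (hγ : Computable (fun q : (ℕ × Option Node) × ℕ => γ q.1 q.2))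
    (hw : Sg X 0 (fun q : (((ℕ × ℕ) × (ℕ × ℕ) × ℕ × Bool) × ℕ) × ℕ => w q.1.1 q.1.2 = q.2))
    (c : Bool) :
    Sg X 0 (fun q : (Idx × ℕ) × ℕ => rnL w q.1.1.1.1 (ux q.1.1) q.1.1.2.2
      (win (γ q.1.1.1) (fun m => q.1.1.2.2 + m)) c q.1.2 = q.2) := by
  have hFm : ∀ i : Idx, StrictMono (fun m => i.2.2 + m) := fun i a b hab => by
    show i.2.2 + a < i.2.2 + b
    omega
  have b1 : Computable (fun q : (Idx × ℕ) => q.1.2.2 + q.2) := by
    have c1 : Computable (fun q : (Idx × ℕ) => q.1.2.2) :=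
      Computable.snd.comp (Computable.snd.comp Computable.fst)
    exact Primrec.nat_add.to_comp.comp c1 Computable.snd
  have hFX : HcF X (fun q : Idx × ℕ => q.1.2.2 + q.2) := hc_of_comp b1
  have hγ' : Computable (fun q : Idx × ℕ => γ q.1.1 q.2) := by
    have c1 : Computable (fun q : Idx × ℕ => (q.1.1, q.2)) :=
      (Computable.fst.comp Computable.fst).pair Computable.snd
    have c2 := hγ.comp c1
    exact c2
  have w0 := wc X Idx (fun i => γ i.1) (fun i m => i.2.2 + m)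
  have w2 := w0 hγ'
  have w3 := w2 hFm
  have w4 := w3 hFX
  have hg : HcF X (fun q : Idx × ℕ => win (γ q.1.1) (fun m => q.1.2.2 + m) q.2) := w4.1
  have hkk : HcF X (fun q : Idx × ℕ => kk (win (γ q.1.1) (fun m => q.1.2.2 + m)) q.2) := w4.2
  have hux : HcF X (fun q : Idx × ℕ => ux q.1) := hc_of_comp (ux_comp.comp Computable.fst)
  have hsel : HcF X (fun q : Idx × ℕ => sel c (ux q.1)) :=
    hc_comp (f := fun p : Bool × (ℕ × ℕ) => sel p.1 p.2) (g := fun q : Idx × ℕ => (c, ux q.1))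
      (hc_of_comp hc_sel) (hc_pair (hc_of_comp (Computable.const c)) hux)
  have hzz : ∀ {a b : Idx × ℕ → ℕ}, HcF X a → HcF X b → HcF X (fun q => zz (a q) (b q)) := by
    intro a b ha hb
    exact hc_comp (f := fun p : ℕ × ℕ => zz p.1 p.2) (g := fun q => (a q, b q))
      (hc_of_comp hc_zz) (hc_pair ha hb)
  have hsnd : HcF X (fun q : Idx × ℕ => q.2) := hc_of_comp Computable.snd
  have hn0 : HcF X (fun q : Idx × ℕ => q.1.2.2) :=
    hc_of_comp (Computable.snd.comp (Computable.snd.comp Computable.fst))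
  have he : HcF X (fun q : Idx × ℕ => q.1.1.1) :=
    hc_of_comp (Computable.fst.comp (Computable.fst.comp Computable.fst))
  -- the number of visits
  have hR : HcF X (fun q : Idx × ℕ => rnR (win (γ q.1.1) (fun m => q.1.2.2 + m)) q.2) := by
    have hA : Dl X 0 (fun p : (Idx × ℕ) × ℕ =>
        kk (win (γ p.1.1.1) (fun m => p.1.1.2.2 + m)) p.1.2 ≤ p.2 ∧
        win (γ p.1.1.1) (fun m => p.1.1.2.2 + m) p.2 =
          win (γ p.1.1.1) (fun m => p.1.1.2.2 + m) p.1.2) := by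
      have k1 : HcF X (fun p : (Idx × ℕ) × ℕ =>
          kk (win (γ p.1.1.1) (fun m => p.1.1.2.2 + m)) p.1.2) :=
        hc_comp (g := fun p : (Idx × ℕ) × ℕ => p.1) hkk (hc_of_comp Computable.fst)
      have k2 : HcF X (fun p : (Idx × ℕ) × ℕ =>
          win (γ p.1.1.1) (fun m => p.1.1.2.2 + m) p.1.2) :=
        hc_comp (g := fun p : (Idx × ℕ) × ℕ => p.1) hg (hc_of_comp Computable.fst)
      have k3 : HcF X (fun p : (Idx × ℕ) × ℕ =>
          win (γ p.1.1.1) (fun m => p.1.1.2.2 + m) p.2) :=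
        hc_comp (g := fun p : (Idx × ℕ) × ℕ => (p.1.1, p.2)) hg
          (hc_of_comp ((Computable.fst.comp Computable.fst).pair Computable.snd))
      exact (hc_le k1 (hc_of_comp Computable.snd)).and (hc_eq k3 k2)
    have := hc_card c2 (P := fun (q : Idx × ℕ) (m' : ℕ) =>
        kk (win (γ q.1.1) (fun m => q.1.2.2 + m)) q.2 ≤ m' ∧
        win (γ q.1.1) (fun m => q.1.2.2 + m) m' = win (γ q.1.1) (fun m => q.1.2.2 + m) q.2)
        hA hsnd
    refine NonLow.Sg.of_iff this fun q => ?_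
    show rnR (win (γ q.1.1.1) (fun m => q.1.1.2.2 + m)) q.1.2 = q.2 ↔ _
    unfold rnR
    beta_reduce
    rw [iff_eq_eq]
    refine congrArg (fun z : ℕ => (z = q.2)) (congrArg Finset.card ?_)
    ext j
    simp only [Finset.mem_filter]
  have hwF : HcF X (fun q : ((ℕ × ℕ) × (ℕ × ℕ) × ℕ × Bool) × ℕ => w q.1 q.2) := hw
  have harg : HcF X (fun q : Idx × ℕ => (((q.1.1.1, (win (γ q.1.1) (fun m => q.1.2.2 + m) q.2).1),
      (zz (ux q.1).1 (kk (win (γ q.1.1) (fun m => q.1.2.2 + m)) q.2),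
        zz (ux q.1).2 (kk (win (γ q.1.1) (fun m => q.1.2.2 + m)) q.2)), q.1.2.2, c),
      rnR (win (γ q.1.1) (fun m => q.1.2.2 + m)) q.2)) := by
    refine hc_pair (hc_pair (hc_pair he (hc_fst hg)) (hc_pair (hc_pair ?_ ?_)
      (hc_pair hn0 (hc_of_comp (Computable.const c))))) hR
    · exact hzz (hc_fst hux) hkk
    · exact hzz (hc_snd hux) hkk
  have hval := hc_comp hwF harg
  have hmax : Computable (fun p : ℕ × ℕ => max p.1 p.2) := Primrec.nat_max.to_comp
  have hmin : Computable (fun p : ℕ × ℕ => min p.1 p.2) := Primrec.nat_min.to_comp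
  have r1 := hc_comp (hc_of_comp (X := X) hmax) (hc_pair (hzz hsel hkk) hval)
  have r2 := hc_comp (hc_of_comp (X := X) hmin) (hc_pair (hzz hsel hsnd) r1)
  exact r2

theorem rnb_of (c1 : StmtC1) (c2 : StmtC2) (li : StmtLI) (og : StmtOG) (wi : StmtWI) (ba : StmtBA)
    (wc : StmtWC) (w1 : StmtW1) (w2 : StmtW2) (w3 : StmtW3) (w4 : StmtW4) : StmtRN := by
  classical
  intro D hD X A hA hA2
  obtain ⟨γ, hγ, hog⟩ := og D hD
  obtain ⟨w, hw, hw'⟩ := li X ((ℕ × ℕ) × (ℕ × ℕ) × ℕ × Bool)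
    (fun q n => QW A (D.p q.1.1 q.1.2) q.2.1 q.2.2.1 q.2.2.2 n)
    (by
      rintro q n n' hn ⟨i, h1, h2⟩
      exact ⟨i, h1, lt_of_le_of_lt hn h2⟩)
    (w4 D hD X A hA)
  set gg : Idx → ℕ → ℕ × ℕ := fun i => win (γ i.1) (fun m => i.2.2 + m) with hgg
  have hFm : ∀ i : Idx, StrictMono (fun m => i.2.2 + m) := fun i a b hab => by
    show i.2.2 + a < i.2.2 + b
    omega
  set L : Bool → Idx → ℕ → ℕ := fun c i m => rnL w i.1.1 (ux i) i.2.2 (gg i) c m with hL
  set tt : Idx → Option (ℕ × ℕ) := fun i =>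
    if h : ∃ v : ℕ × ℕ, ∀ c, Fin1 (L c i) (sel c v) then some h.choose else none with htt
  have upos : ∀ (i : Idx) c, 1 ≤ sel c (ux i) := by
    intro i c; cases c <;> simp [sel, ux]
  have tt_some : ∀ i v, (∀ c, Fin1 (L c i) (sel c v)) → tt i = some v := by
    intro i v hv
    have hex : ∃ v : ℕ × ℕ, ∀ c, Fin1 (L c i) (sel c v) := ⟨v, hv⟩
    have e1 : hex.choose = v :=
      Prod.ext ((hex.choose_spec false).unique (hv false)) ((hex.choose_spec true).unique (hv true))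
    show dite _ _ _ = _
    rw [dif_pos hex, e1]
  have tt_none : ∀ i, (∀ c, Inf1 (L c i) (sel c (ux i))) → tt i = none := by
    intro i hi
    show dite _ _ _ = _
    rw [dif_neg]
    rintro ⟨v, hv⟩
    exact (hi false).not_fin (upos i false) _ (hv false)
  have nolim : ∀ i, (∀ v, ¬ IsLim (γ i.1) v) → ∀ c, Inf1 (L c i) (sel c (ux i)) := by
    intro i hi c
    have hi' : ∀ v, ¬ IsLim (gg i) v := fun v hv => hi v (((wi (γ i.1) _ (hFm i)).2 v).1 hv)
    exact rn_inf c ((ba (gg i)).2.2 hi')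
  -- the case of a limit
  have lim : ∀ i v, IsLim (γ i.1) v → ∃ s j, (∀ m, s ≤ m → gg i m = v → kk (gg i) m = s) ∧
      (∀ m, s ≤ m → ¬ lexlt (gg i m) v) ∧
      (∀ c n, QW A (D.p i.1.1 v.1) (zz (ux i).1 s, zz (ux i).2 s) i.2.2 c n ↔
        n < sel c (kap A (zz (ux i).1 s, zz (ux i).2 s) j)) ∧
      (¬ ∀ c, Lim (D.p i.1.1 v.1) c (sel c (kap A (zz (ux i).1 s, zz (ux i).2 s) j))) ∧
      ∀ c, Fin1 (L c i) (sel c (kap A (zz (ux i).1 s, zz (ux i).2 s) j)) := by
    intro i v hv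
    have hv' : IsLim (gg i) v := ((wi (γ i.1) _ (hFm i)).2 v).2 hv
    obtain ⟨h1, s, hs1, hs2⟩ := (ba (gg i)).2.1 v hv'
    obtain ⟨j, hj1, hj2⟩ := w2 A (D.p i.1.1 v.1) (zz (ux i).1 s, zz (ux i).2 s) i.2.2
      (w1 A hA2 (D.p i.1.1 v.1)
        (hD.2.comp ((Computable.const i.1.1).pair ((Computable.const v.1).pair Computable.id))) _ _)
    refine ⟨s, j, hs2, hs1, hj1, hj2, fun c => ?_⟩
    refine rn_fin (upos i c) hv' h1 hs2 ?_ ?_
    · cases c
      · exact Nat.le_add_right _ _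
      · exact Nat.le_add_right _ _
    · intro n
      rw [← hj1]
      exact hw' ((i.1.1, v.1), (zz (ux i).1 s, zz (ux i).2 s), i.2.2, c) n
  have cases' : ∀ i, (∃ v, ∀ c, Fin1 (L c i) (sel c v)) ∨ ∀ c, Inf1 (L c i) (sel c (ux i)) := by
    intro i
    by_cases hv : ∃ v, IsLim (γ i.1) v
    · obtain ⟨v, hv⟩ := hv
      obtain ⟨s, j, _, _, _, _, h5⟩ := lim i v hv
      exact Or.inl ⟨_, h5⟩
    · exact Or.inr (nolim i fun v hv' => hv ⟨v, hv'⟩)
  have hL1 : ∀ c i m, 1 ≤ L c i m ∧ L c i m ≤ zz (sel c (ux i)) m := by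
    intro c i m
    refine ⟨?_, min_le_left _ _⟩
    exact le_min (zz_pos (upos i c) _) (le_max_of_le_left (zz_pos (upos i c) _))
  refine ⟨fun i => i.1.1, ux, L, tt, Computable.fst.comp Computable.fst, ux_comp,
    fun c => rn_cplx c1 c2 wc hγ hw c, hL1, ?_, ?_⟩
  · apply Set.Subset.antisymm
    · rintro _ ⟨i, rfl⟩
      by_cases htr : ∀ l, ¬ D.Tr (i.1.1, l)
      · left
        refine ⟨htr, tt_none i (nolim i fun v hv => ?_)⟩
        exact htr _ ((hog i.1.1 i.1.2).1 v hv).1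
      · right
        push Not at htr
        obtain ⟨l0, hl0⟩ := htr
        obtain ⟨l, hl⟩ := glue_exists_fst hl0
        refine ⟨l, hl, ?_⟩
        by_cases hv : ∃ v, IsLim (γ i.1) v
        · obtain ⟨v, hv⟩ := hv
          have hvl : v.1 = l := glue_fst_unique ((hog i.1.1 i.1.2).1 v hv) hl
          obtain ⟨s, j, _, _, _, h4, h5⟩ := lim i v hv
          right
          refine ⟨_, tt_some i _ h5, ?_, ?_⟩
          · have h6 : ∀ n a : ℕ, Even (zz (2 * n + 2) s + 2 * a) ∧ 2 ≤ zz (2 * n + 2) s + 2 * a := by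
              intro n a
              refine ⟨(zz_even ⟨n + 1, by ring⟩ _).add ⟨a, by ring⟩, ?_⟩
              have := zz_mono (2 * n + 2) (Nat.zero_le s)
              rw [zz_zero] at this
              omega
            exact ⟨(h6 _ _).1, (h6 _ _).2, (h6 _ _).1, (h6 _ _).2⟩
          · rw [← hvl]; exact h4
        · left
          refine ⟨tt_none i (nolim i fun v hv' => hv ⟨v, hv'⟩), ?_⟩
          by_contra hc'
          apply hv
          obtain ⟨d, hd, _⟩ := (hog i.1.1 i.1.2).2.2 l hl (by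
            rintro ⟨x, _, hx⟩
            exact hc' ⟨x, hx⟩)
          exact ⟨_, hd⟩
    · rintro ⟨e, o⟩ hτ
      rcases hτ with ⟨htr, ho⟩ | ⟨l, hl, ⟨ho, x, hx⟩ | ⟨u, ho, hu, hLi⟩⟩
      · refine ⟨((e, none), (0, 0), 0), ?_⟩
        have : tt ((e, none), (0, 0), 0) = none :=
          tt_none _ (nolim _ fun v hv => htr _ ((hog e none).1 v hv).1)
        show (e, tt ((e, none), (0, 0), 0)) = (e, o)
        rw [this]
        exact Prod.ext rfl ho.symm
      · refine ⟨((e, some x), (0, 0), 0), ?_⟩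
        have : tt ((e, some x), (0, 0), 0) = none :=
          tt_none _ (nolim _ ((hog e (some x)).2.1 l hl ⟨x, rfl, hx⟩))
        show (e, tt ((e, some x), (0, 0), 0)) = (e, o)
        rw [this]
        exact Prod.ext rfl ho.symm
      · obtain ⟨⟨a, ha⟩, ha2, ⟨b, hb⟩, hb2⟩ := hu
        have hu' : u = (2 * (a - 1) + 2, 2 * (b - 1) + 2) := Prod.ext (by simp; omega) (by simp; omega)
        obtain ⟨d, hd, hd0⟩ := (hog e none).2.2 l hl (by rintro ⟨x, hx, _⟩; cases hx)
        have hd0 := hd0 rfl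
        subst hd0
        obtain ⟨a0, ha0⟩ := w3 A (D.p e l) u hLi
        obtain ⟨⟨m0, hm0⟩, _⟩ := id hd
        set i : Idx := ((e, none), (a - 1, b - 1), max a0 m0) with hi
        have hux : ux i = u := by rw [hu']; rfl
        obtain ⟨s, j, h1, h2, h3, h4, h5⟩ := lim i (l, 0) hd
        -- the phase starts at `0`
        have hge : ∀ m, ¬ lexlt (gg i m) (l, 0) := by
          intro m
          obtain ⟨⟨t, ht1, _, ht3⟩, _⟩ := (wi (γ i.1) (fun m => i.2.2 + m) (hFm i)).1 m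
          have : gg i m = γ i.1 t := ht3.symm
          rw [this]
          apply hm0
          have : max a0 m0 + m ≤ t := ht1
          have := le_max_right a0 m0
          omega
        have hs0 : s = 0 := by
          obtain ⟨m, hm, hv⟩ := ((((wi (γ i.1) _ (hFm i)).2 (l, 0)).2 hd).2 s)
          rw [← h1 m hm hv]
          unfold kk
          apply Nat.eq_zero_of_le_zero
          apply Nat.sInf_le
          intro m' _ _
          have hv' : gg i m = (l, 0) := hv
          rw [hv']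
          exact hge m'
        subst hs0
        have hb0 : (zz (ux i).1 0, zz (ux i).2 0) = u := by
          rw [zz_zero, zz_zero, hux]
        rw [hb0] at h3 h5
        have hnp : ¬ Pass A (D.p e l) u (max a0 m0) 0 := ha0 _ (le_max_left _ _)
        have hk0 : kap A u 0 = u := by simp [kap]
        have hval : ∀ c, sel c (kap A u j) = sel c u := by
          intro c
          have h6 : ∀ n, n < sel c (kap A u j) ↔ n < sel c u := by
            intro n
            rw [← h3 c n]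
            constructor
            · rintro ⟨i', hi1, hi2⟩
              rcases Nat.eq_zero_or_pos i' with h7 | h7
              · subst h7; rw [hk0] at hi2; exact hi2
              · exact absurd (hi1 0 h7) hnp
            · intro h7
              exact ⟨0, fun i' hi' => absurd hi' (Nat.not_lt_zero _), by rw [hk0]; exact h7⟩
          have a1 := h6 (sel c u)
          have a2 := h6 (sel c (kap A u j))
          omega
        refine ⟨i, ?_⟩
        have : tt i = some u := tt_some i u fun c => by rw [← hval c]; exact h5 c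
        show (e, tt i) = (e, o)
        rw [this]
        exact Prod.ext rfl ho.symm
  · intro i
    constructor
    · intro v hv c
      rcases cases' i with ⟨v', hv'⟩ | hi
      · rw [tt_some i v' hv'] at hv
        cases hv
        exact hv' c
      · rw [tt_none i hi] at hv; cases hv
    · intro hn c
      rcases cases' i with ⟨v', hv'⟩ | hi
      · rw [tt_some i v' hv'] at hn; cases hn
      · exact hi c

end Pool.Agent.Downey
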