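import Pool.Agent.Downey.Stmts

/-!
# Module S1: limit inferior of the insertion positions
-/

set_option autoImplicit false

namespace Pool.Agent.Downey

section s1
variable {M : Type} [LinearOrder M]

theorem s1_lt (k : ℕ) (x : ℕ → M) (hx : ∀ i, i + 1 < k → x i ⋖ x (i + 1)) :
    ∀ j, j < k → ∀ i, i < j → x i < x j := by
  intro j
  induction j with
  | zero => intro _ i hi; omega
  | succ j ih =>
    intro hj i hi
    rcases Nat.lt_succ_iff_lt_or_eq.1 hi with h | h
    · exact (ih (by omega) i h).trans (hx j hj).1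
    · subst h; exact (hx i hj).1

theorem s1_inj (k : ℕ) (x : ℕ → M) (hx : ∀ i, i + 1 < k → x i ⋖ x (i + 1)) :
    Set.InjOn x (Finset.range k : Set ℕ) := by
  intro i hi j hj hij
  rw [Finset.mem_coe, Finset.mem_range] at hi hj
  rcases lt_trichotomy i j with h | h | h
  · exact absurd hij (s1_lt k x hx j hj i h).ne
  · exact h
  · exact absurd hij.symm (s1_lt k x hx i hi j h).ne

/-- the elements between `x 0` and `x j` are the `x i` -/
theorem s1_between (k : ℕ) (x : ℕ → M) (hx : ∀ i, i + 1 < k → x i ⋖ x (i + 1)) :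
    ∀ j, j < k → ∀ y, x 0 ≤ y → y ≤ x j → ∃ i, i ≤ j ∧ y = x i := by
  intro j
  induction j with
  | zero => intro _ y h1 h2; exact ⟨0, le_rfl, le_antisymm h2 h1⟩
  | succ j ih =>
    intro hj y h1 h2
    rcases le_or_gt y (x j) with h | h
    · obtain ⟨i, hi, e⟩ := ih (by omega) y h1 h
      exact ⟨i, by omega, e⟩
    · refine ⟨j + 1, le_rfl, ?_⟩
      rcases eq_or_lt_of_le h2 with h3 | h3
      · exact h3
      · exact absurd h3 ((hx j hj).2 h)

theorem s1_right (φ : ℕ ≃ M) (s : M) (k : ℕ) (hk : 1 ≤ k) (h : RB s k) :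
    (∃ a, ∀ t, a ≤ t → s < φ t →
      k ≤ ((Finset.range t).filter fun j => s ≤ φ j ∧ φ j < φ t).card) ∧
    ∀ a, ∃ t, a ≤ t ∧ s < φ t ∧
      ((Finset.range t).filter fun j => s ≤ φ j ∧ φ j < φ t).card = k := by
  obtain ⟨x, hx0, hx, hcov, z, hz⟩ := h
  -- a bound for the indices of the block
  obtain ⟨a0, ha0⟩ : ∃ a0, ∀ i, i < k → φ.symm (x i) < a0 := by
    refine ⟨(Finset.range k).sup (fun i => φ.symm (x i)) + 1, fun i hi => ?_⟩
    exact Nat.lt_succ_of_le
      (Finset.le_sup (f := fun i => φ.symm (x i)) (Finset.mem_range.2 hi))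
  have hmono := s1_lt k x hx
  have hcard : ((Finset.range k).image (fun i => φ.symm (x i))).card = k := by
    rw [Finset.card_image_of_injOn, Finset.card_range]
    intro i hi j hj hij
    exact s1_inj k x hx hi hj (φ.symm.injective hij)
  have hle : ∀ i, i < k → x i ≤ x (k - 1) := by
    intro i hi
    rcases eq_or_lt_of_le (show i ≤ k - 1 by omega) with e | e
    · rw [e]
    · exact (hmono (k - 1) (by omega) i e).le
  have hge : ∀ i, i < k → s ≤ x i := by
    intro i hi
    rw [← hx0]
    rcases Nat.eq_zero_or_pos i with e | e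
    · rw [e]
    · exact (hmono i hi 0 e).le
  have hnew : ∀ t, a0 ≤ t → s < φ t → x (k - 1) < φ t := by
    intro t ht hst
    by_contra hcon
    rw [not_lt] at hcon
    obtain ⟨i, hi, e⟩ := s1_between k x hx (k - 1) (by omega) (φ t) (by rw [hx0]; exact hst.le)
      hcon
    have := ha0 i (by omega)
    rw [← e, Equiv.symm_apply_apply] at this
    omega
  have hsub : ∀ t, a0 ≤ t → x (k - 1) < φ t →
      (Finset.range k).image (fun i => φ.symm (x i)) ⊆
        (Finset.range t).filter fun j => s ≤ φ j ∧ φ j < φ t := by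
    intro t ht hxt j hj
    rw [Finset.mem_image] at hj
    obtain ⟨i, hi, e⟩ := hj
    rw [Finset.mem_range] at hi
    rw [Finset.mem_filter, Finset.mem_range, ← e, Equiv.apply_symm_apply]
    exact ⟨(ha0 i hi).trans_le ht, hge i hi, (hle i hi).trans_lt hxt⟩
  refine ⟨⟨a0, fun t ht hst => ?_⟩, fun a => ?_⟩
  · calc k = ((Finset.range k).image (fun i => φ.symm (x i))).card := hcard.symm
      _ ≤ _ := Finset.card_le_card (hsub t ht (hnew t ht hst))
  · -- the least enumerated element above the block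
    let a' := max (max a a0) (φ.symm z + 1)
    have hne : (((Finset.range a').image φ).filter (fun y => x (k - 1) < y)).Nonempty := by
      refine ⟨z, ?_⟩
      rw [Finset.mem_filter, Finset.mem_image]
      refine ⟨⟨φ.symm z, ?_, Equiv.apply_symm_apply _ _⟩, hz⟩
      rw [Finset.mem_range]
      exact lt_of_lt_of_le (Nat.lt_succ_self _) (le_max_right _ _)
    obtain ⟨y, hy, hymin⟩ := Finset.exists_min_image _ id hne
    rw [Finset.mem_filter] at hy
    have hny := hcov y
    have hw : ∃ w, x (k - 1) < w ∧ w < y := by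
      by_contra hcon
      apply hny
      refine ⟨hy.2, fun w h1 h2 => hcon ⟨w, h1, h2⟩⟩
    have hex : ∃ t, x (k - 1) < φ t ∧ φ t < y := by
      obtain ⟨w, h1, h2⟩ := hw
      exact ⟨φ.symm w, by rwa [Equiv.apply_symm_apply], by rwa [Equiv.apply_symm_apply]⟩
    classical
    let t := Nat.find hex
    have ht : x (k - 1) < φ t ∧ φ t < y := Nat.find_spec hex
    have htmin : ∀ j, j < t → ¬ (x (k - 1) < φ j ∧ φ j < y) := fun j hj => Nat.find_min hex hj
    have hta : a' ≤ t := by
      by_contra hcon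
      rw [not_le] at hcon
      have hmem : φ t ∈ ((Finset.range a').image φ).filter (fun y => x (k - 1) < y) := by
        rw [Finset.mem_filter, Finset.mem_image]
        exact ⟨⟨t, Finset.mem_range.2 hcon, rfl⟩, ht.1⟩
      have := hymin (φ t) hmem
      simp only [id] at this
      exact absurd ht.2 (not_lt.2 this)
    have hta0 : a0 ≤ t := ((le_max_right a a0).trans (le_max_left _ _)).trans hta
    have hxs : s ≤ x (k - 1) := hge (k - 1) (by omega)
    refine ⟨t, ((le_max_left a a0).trans (le_max_left _ _)).trans hta, hxs.trans_lt ht.1, ?_⟩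
    have heq : ((Finset.range t).filter fun j => s ≤ φ j ∧ φ j < φ t) =
        (Finset.range k).image (fun i => φ.symm (x i)) := by
      apply Finset.Subset.antisymm
      · intro j hj
        rw [Finset.mem_filter, Finset.mem_range] at hj
        have h1 : φ j ≤ x (k - 1) := by
          by_contra hcon
          rw [not_le] at hcon
          exact htmin j hj.1 ⟨hcon, hj.2.2.trans ht.2⟩
        obtain ⟨i, hi, e⟩ := s1_between k x hx (k - 1) (by omega) (φ j)
          (by rw [hx0]; exact hj.2.1) h1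
        rw [Finset.mem_image]
        exact ⟨i, Finset.mem_range.2 (by omega), by rw [← e, Equiv.symm_apply_apply]⟩
      · exact hsub t hta0 ht.1
    rw [heq, hcard]

theorem s1_qp_true (φ : ℕ ≃ M) (sL sR : M) (i v : ℕ) :
    qp φ sL sR i = some (true, v) ↔ sR < φ i ∧
      ((Finset.range i).filter fun j => sR ≤ φ j ∧ φ j < φ i).card = v := by
  unfold qp
  split_ifs with h1 h2
  · rw [Option.some_inj, Prod.mk.injEq]
    exact ⟨fun h => ⟨h1, h.2⟩, fun h => ⟨rfl, h.2⟩⟩
  · rw [Option.some_inj, Prod.mk.injEq]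
    exact ⟨fun h => absurd h.1 (by decide), fun h => absurd h.1 h1⟩
  · exact ⟨fun h => by simp at h, fun h => absurd h.1 h1⟩

theorem s1_qp_false (φ : ℕ ≃ M) (sL sR : M) (hs : sL < sR) (i v : ℕ) :
    qp φ sL sR i = some (false, v) ↔ φ i < sL ∧
      ((Finset.range i).filter fun j => φ j ≤ sL ∧ φ i < φ j).card = v := by
  unfold qp
  split_ifs with h1 h2
  · rw [Option.some_inj, Prod.mk.injEq]
    exact ⟨fun h => absurd h.1 (by decide), fun h => absurd (h.1.trans hs) (not_lt.2 h1.le)⟩
  · rw [Option.some_inj, Prod.mk.injEq]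
    exact ⟨fun h => ⟨h2, h.2⟩, fun h => ⟨rfl, h.2⟩⟩
  · exact ⟨fun h => by simp at h, fun h => absurd h.1 h2⟩

end s1

theorem s1_main : StmtS1 := by
  intro M _ φ sL sR k hs hk
  constructor
  · intro h
    obtain ⟨⟨a, ha⟩, hb⟩ := s1_right φ sR k hk h
    refine ⟨⟨a, fun t ht v hv => ?_⟩, fun b => ?_⟩
    · obtain ⟨h1, h2⟩ := (s1_qp_true φ sL sR t v).1 hv
      rw [← h2]
      exact ha t ht h1
    · obtain ⟨t, ht, h1, h2⟩ := hb b
      exact ⟨t, ht, (s1_qp_true φ sL sR t k).2 ⟨h1, h2⟩⟩
  · intro h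
    obtain ⟨⟨a, ha⟩, hb⟩ := s1_right (φ.trans OrderDual.toDual) (OrderDual.toDual sL) k hk h
    refine ⟨⟨a, fun t ht v hv => ?_⟩, fun b => ?_⟩
    · obtain ⟨h1, h2⟩ := (s1_qp_false φ sL sR hs t v).1 hv
      rw [← h2]
      exact ha t ht h1
    · obtain ⟨t, ht, h1, h2⟩ := hb b
      exact ⟨t, ht, (s1_qp_false φ sL sR hs t k).2 ⟨h1, h2⟩⟩

end Pool.Agent.Downey
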