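import Pool.Agent.Downey.Stmts

/-!
# Long chains exclude a right content of type `ω`
-/

set_option autoImplicit false

namespace Pool.Agent.Downey

section
variable {M : Type} [LinearOrder M] (φ : ℕ ≃ M) (sL sR : M)

open Classical in
/-- the number of elements of `[sR, g)` enumerated before time `t` -/
noncomputable def s2n (g : M) (t : ℕ) : ℕ :=
  ((Finset.range t).filter fun j => sR ≤ φ j ∧ φ j < g).card

theorem s2_qp1 (i : ℕ) (h : sR < φ i) : qp φ sL sR i = some (true, s2n φ sR (φ i) i) := by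
  unfold qp s2n
  rw [if_pos h]

theorem s2_qp2 (i k : ℕ) (h : qp φ sL sR i = some (true, k)) :
    sR < φ i ∧ k = s2n φ sR (φ i) i := by
  by_cases h1 : sR < φ i
  · rw [s2_qp1 φ sL sR i h1] at h
    refine ⟨h1, ?_⟩
    simp only [Option.some.injEq, Prod.mk.injEq, true_and] at h
    exact h.symm
  · exfalso
    unfold qp at h
    rw [if_neg h1] at h
    split_ifs at h
    simp at h

theorem s2_mono_g {g g' : M} (h : g ≤ g') (t : ℕ) : s2n φ sR g t ≤ s2n φ sR g' t := by
  classical
  unfold s2n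
  apply Finset.card_le_card
  intro j hj
  simp only [Finset.mem_filter] at hj ⊢
  exact ⟨hj.1, hj.2.1, lt_of_lt_of_le hj.2.2 h⟩

theorem s2_mono_t (g : M) {t t' : ℕ} (h : t ≤ t') : s2n φ sR g t ≤ s2n φ sR g t' := by
  classical
  unfold s2n
  apply Finset.card_le_card
  intro j hj
  simp only [Finset.mem_filter, Finset.mem_range] at hj ⊢
  exact ⟨lt_of_lt_of_le hj.1 h, hj.2⟩

theorem s2_succ {g g' : M} (h : g < g') (hs : sR ≤ g) (t : ℕ) (ht : φ.symm g < t) :
    s2n φ sR g t + 1 ≤ s2n φ sR g' t := by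
  classical
  unfold s2n
  have hni : φ.symm g ∉ (Finset.range t).filter fun j => sR ≤ φ j ∧ φ j < g := by
    simp
  rw [← Finset.card_insert_of_notMem hni]
  apply Finset.card_le_card
  intro j hj
  rw [Finset.mem_insert] at hj
  rcases hj with rfl | hj
  · simp only [Finset.mem_filter, Finset.mem_range, Equiv.apply_symm_apply]
    exact ⟨ht, hs, h⟩
  · simp only [Finset.mem_filter] at hj ⊢
    exact ⟨hj.1, hj.2.1, lt_trans hj.2.2 h⟩

theorem s2_left {g : M} {a t κ : ℕ} (hg : φ.symm g < a) (hs : sR ≤ g) (hat : a ≤ t)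
    (hκ : κ ≤ s2n φ sR g a) (hp : qp φ sL sR t = some (true, κ)) : sR < φ t ∧ φ t < g := by
  obtain ⟨h1, h2⟩ := s2_qp2 φ sL sR t κ hp
  refine ⟨h1, ?_⟩
  by_contra hcon
  rcases (not_lt.1 hcon).eq_or_lt with h3 | h3
  · rw [h3, Equiv.symm_apply_apply] at hg
    omega
  · have h4 := s2_succ φ sR h3 hs t (lt_of_lt_of_le hg hat)
    have h5 := s2_mono_t φ sR g hat
    omega

theorem s2_cnt {g : M} {a b κ : ℕ} (hg : φ.symm g < a) (hs : sR ≤ g) (hab : a ≤ b)
    (hκ : κ ≤ s2n φ sR g a) :
    s2n φ sR g a + cnt (qp φ sL sR) true κ a b ≤ s2n φ sR g b := by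
  classical
  have hdis : Disjoint ((Finset.range a).filter fun j => sR ≤ φ j ∧ φ j < g)
      ((Finset.Ico a b).filter fun t => qp φ sL sR t = some (true, κ)) := by
    rw [Finset.disjoint_left]
    intro j h1 h2
    simp only [Finset.mem_filter, Finset.mem_range, Finset.mem_Ico] at h1 h2
    omega
  have hsub : ((Finset.range a).filter fun j => sR ≤ φ j ∧ φ j < g) ∪
      ((Finset.Ico a b).filter fun t => qp φ sL sR t = some (true, κ)) ⊆
      (Finset.range b).filter fun j => sR ≤ φ j ∧ φ j < g := by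
    intro j hj
    rw [Finset.mem_union] at hj
    rcases hj with hj | hj
    · simp only [Finset.mem_filter, Finset.mem_range] at hj ⊢
      exact ⟨by omega, hj.2⟩
    · simp only [Finset.mem_filter, Finset.mem_range, Finset.mem_Ico] at hj ⊢
      obtain ⟨⟨h1, h2⟩, h3⟩ := hj
      obtain ⟨h4, h5⟩ := s2_left φ sL sR hg hs h1 hκ h3
      exact ⟨h2, h4.le, h5⟩
  have := Finset.card_le_card hsub
  rw [Finset.card_union_of_disjoint hdis] at this
  unfold s2n cnt
  convert this using 3

theorem s2_chain (g : M) (hs : sR ≤ g) (d : ℕ) : ∀ x : Node, Ch (qp φ sL sR) d x →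
    φ.symm g < x.2 → sel true x.1 ≤ s2n φ sR g x.2 →
    ∃ T, sel true x.1 + d ≤ s2n φ sR g T := by
  induction d with
  | zero => intro x _ _ h; exact ⟨x.2, h⟩
  | succ d ih =>
    intro x hx hg hk
    obtain ⟨_, y, ⟨hlt, hst⟩, hy⟩ := hx
    obtain ⟨h1, h2⟩ := hst true
    have h3 := s2_cnt φ sL sR hg hs hlt.le hk
    obtain ⟨T, hT⟩ := ih y hy (by omega) (by omega)
    exact ⟨T, by omega⟩

end

theorem s2_main (hk : StmtSK) : StmtS2 := by
  intro M _ φ sL sR hLR hRO hEE
  classical
  obtain ⟨b, hb, hinf, hfin⟩ := hRO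
  obtain ⟨x0, hx0⟩ := hEE
  set p := qp φ sL sR with hp
  -- late starting nodes
  have hlate : ∀ N, ∃ x, Ex p x ∧ N ≤ x.2 := by
    intro N
    induction N with
    | zero => exact ⟨x0, hx0, Nat.zero_le _⟩
    | succ N ih =>
      obtain ⟨x, hx, hN⟩ := ih
      obtain ⟨y, hy, hEy⟩ := hk p x hx
      exact ⟨y, hEy, by omega⟩
  obtain ⟨x, hx, hN⟩ := hlate (max (φ.symm sR) (φ.symm b) + 1)
  have hNR : φ.symm sR < x.2 := by
    have := le_max_left (φ.symm sR) (φ.symm b)
    omega
  have hNb : φ.symm b < x.2 := by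
    have := le_max_right (φ.symm sR) (φ.symm b)
    omega
  have hOk : Ok p x := hx 0
  -- (F)
  have hF : ∀ t, x.2 ≤ t → sel true x.1 ≤ s2n φ sR b t := by
    intro t ht
    by_contra hcon
    have hex : ∃ t', t ≤ t' ∧ sR ≤ φ t' ∧ φ t' < b := by
      by_contra hno
      push Not at hno
      apply hinf
      apply Set.Finite.subset ((Finset.range t).finite_toSet.image φ)
      rintro y ⟨h1, h2⟩
      refine ⟨φ.symm y, ?_, by simp⟩
      simp only [Finset.coe_range, Set.mem_Iio]
      by_contra hc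
      have := hno (φ.symm y) (not_lt.1 hc) (by simpa using h1)
      rw [Equiv.apply_symm_apply] at this
      exact absurd h2 (not_lt.2 this)
    obtain ⟨h1, h2, h3⟩ := Nat.find_spec hex
    have hmin : ∀ t'', t'' < Nat.find hex → t ≤ t'' → ¬ (sR ≤ φ t'' ∧ φ t'' < b) := by
      intro t'' h4 h5 h6
      exact Nat.find_min hex h4 ⟨h5, h6⟩
    set t' := Nat.find hex
    have h4 : sR < φ t' := by
      rcases h2.eq_or_lt with h5 | h5
      · exfalso
        rw [h5, Equiv.symm_apply_apply] at hNR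
        omega
      · exact h5
    have h5 := s2_qp1 φ sL sR t' h4
    have h6 := hOk true t' (by omega) _ h5
    have h7 := s2_mono_g φ sR h3.le t'
    have h8 : s2n φ sR b t' ≤ s2n φ sR b t := by
      unfold s2n
      apply Finset.card_le_card
      intro j hj
      simp only [Finset.mem_filter, Finset.mem_range] at hj ⊢
      refine ⟨?_, hj.2⟩
      by_contra hc
      exact hmin j hj.1 (not_lt.1 hc) hj.2
    omega
  -- the first insertion
  obtain ⟨_, y, ⟨hlt, hst⟩, _⟩ := hx 1
  obtain ⟨hst1, hst2⟩ := hst true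
  have hex : ∃ t, x.2 ≤ t ∧ p t = some (true, sel true x.1) := by
    have hpos : 0 < cnt p true (sel true x.1) x.2 y.2 := by omega
    unfold cnt at hpos
    obtain ⟨t, ht⟩ := Finset.card_pos.1 hpos
    simp only [Finset.mem_filter, Finset.mem_Ico] at ht
    exact ⟨t, ht.1.1, ht.2⟩
  obtain ⟨htg, hpg⟩ := Nat.find_spec hex
  have hmin : ∀ t, t < Nat.find hex → x.2 ≤ t → p t ≠ some (true, sel true x.1) :=
    fun t h1 h2 h3 => Nat.find_min hex h1 ⟨h2, h3⟩
  set tg := Nat.find hex
  obtain ⟨hg1, hg2⟩ := s2_qp2 φ sL sR tg _ hpg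
  have hgb : φ tg < b := by
    by_contra hcon
    rcases (not_lt.1 hcon).eq_or_lt with h3 | h3
    · rw [h3, Equiv.symm_apply_apply] at hNb
      omega
    · have h4 := s2_succ φ sR h3 hb.le tg (by omega)
      have h5 := hF tg htg
      omega
  -- all chains
  have hall : ∀ d, ∃ T, d ≤ s2n φ sR (φ tg) T := by
    intro d
    obtain ⟨_, y, ⟨hlt, hst⟩, hy⟩ := hx (d + 1)
    obtain ⟨hst1, hst2⟩ := hst true
    have hcnt : cnt p true (sel true x.1) x.2 y.2 ≤
        1 + cnt p true (sel true x.1) (tg + 1) y.2 := by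
      unfold cnt
      have hsub : (Finset.Ico x.2 y.2).filter (fun t => p t = some (true, sel true x.1)) ⊆
          insert tg ((Finset.Ico (tg + 1) y.2).filter
            (fun t => p t = some (true, sel true x.1))) := by
        intro j hj
        simp only [Finset.mem_filter, Finset.mem_Ico, Finset.mem_insert] at hj ⊢
        obtain ⟨⟨h1, h2⟩, h3⟩ := hj
        by_cases h4 : j < tg
        · exact absurd h3 (hmin j h4 h1)
        · rcases (not_lt.1 h4).eq_or_lt with h5 | h5
          · left; exact h5.symm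
          · right; exact ⟨⟨h5, h2⟩, h3⟩
      refine (Finset.card_le_card hsub).trans ?_
      refine (Finset.card_insert_le _ _).trans ?_
      omega
    have htgy : tg + 1 ≤ y.2 := by
      by_contra hcon
      have : cnt p true (sel true x.1) (tg + 1) y.2 = 0 := by
        unfold cnt
        rw [Finset.Ico_eq_empty (by omega)]
        rfl
      have h0 : cnt p true (sel true x.1) x.2 y.2 = 0 := by
        unfold cnt
        rw [Finset.card_eq_zero, Finset.filter_eq_empty_iff]
        intro t ht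
        rw [Finset.mem_Ico] at ht
        exact hmin t (by omega) ht.1
      omega
    have hg : φ.symm (φ tg) < tg + 1 := by simp
    have hmono : s2n φ sR (φ tg) tg ≤ s2n φ sR (φ tg) (tg + 1) :=
      s2_mono_t φ sR (φ tg) (Nat.le_succ tg)
    have h3 := s2_cnt φ sL sR (κ := sel true x.1) hg hg1.le htgy (by omega)
    rw [← hp] at h3
    obtain ⟨T, hT⟩ := s2_chain φ sL sR (φ tg) hg1.le d y hy
      (by rw [Equiv.symm_apply_apply]; omega) (by omega)
    exact ⟨T, by omega⟩
  have hfg := hfin (φ tg) hg1.le hgb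
  obtain ⟨T, hT⟩ := hall (hfg.toFinset.card + 1)
  have : s2n φ sR (φ tg) T ≤ hfg.toFinset.card := by
    unfold s2n
    apply Finset.card_le_card_of_injOn φ
    · intro j hj
      simp only [Finset.coe_filter, Set.mem_ofPred_eq, Finset.mem_range] at hj
      simp only [Set.Finite.coe_toFinset]
      exact hj.2
    · exact φ.injective.injOn
  omega

end Pool.Agent.Downey
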