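import Pool.Agent.Downey.Stmts

/-!
# Downey's question, module SK: the Koenig step for chains
-/

set_option autoImplicit false

namespace Pool.Agent.Downey

theorem sk_ok {p : ℕ → Pt} {d : ℕ} {x : Node} (h : Ch p d x) : Ok p x := by
  cases d with
  | zero => exact h
  | succ d => exact h.1

theorem sk_anti {p : ℕ → Pt} (d : ℕ) : ∀ x : Node, Ch p (d + 1) x → Ch p d x := by
  induction d with
  | zero =>
    intro x h
    exact sk_ok h
  | succ d ih =>
    intro x h
    obtain ⟨h1, y, h2, h3⟩ := h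
    exact ⟨h1, y, h2, ih y h3⟩

theorem sk_le {p : ℕ → Pt} {d d' : ℕ} (h : d ≤ d') {x : Node} (hx : Ch p d' x) : Ch p d x := by
  induction h with
  | refl => exact hx
  | step _ ih => exact ih (sk_anti _ _ hx)

theorem sk_time {p : ℕ → Pt} {v : ℕ × ℕ} {a b : ℕ} (hab : a ≤ b) (hok : Ok p (v, a)) {d : ℕ}
    (h : Ch p d (v, b)) : Ch p d (v, a) := by
  cases d with
  | zero => exact hok
  | succ d =>
    obtain ⟨_, y, h2, h3⟩ := h
    refine ⟨hok, y, ⟨lt_of_le_of_lt hab h2.1, fun c => ⟨(h2.2 c).1, ?_⟩⟩, h3⟩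
    refine lt_of_lt_of_le (h2.2 c).2 ?_
    refine Nat.add_le_add_left ?_ _
    unfold cnt
    refine Finset.card_le_card (Finset.filter_subset_filter _ ?_)
    exact Finset.Ico_subset_Ico hab le_rfl

theorem sk_main : StmtSK := by
  classical
  intro p x hx
  obtain ⟨_, y, hy1, hy2⟩ := hx 1
  have hyok : Ok p y := sk_ok hy2
  have hcnt : ∀ c b, cnt p c (sel c x.1) x.2 b ≤ y.2 := by
    intro c b
    unfold cnt
    calc _ ≤ (Finset.range y.2).card := by
          refine Finset.card_le_card ?_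
          intro t ht
          rw [Finset.mem_filter] at ht
          rw [Finset.mem_range]
          by_contra hcon
          have h1 := hyok c t (by omega) _ ht.2
          have h2 := (hy1.2 c).1
          omega
      _ = y.2 := Finset.card_range _
  have key : ∀ d, ∃ v ∈ (Finset.range (x.1.1 + y.2) ×ˢ Finset.range (x.1.2 + y.2)),
      ∃ a, x.2 < a ∧ Ch p d (v, a) := by
    intro d
    obtain ⟨_, z, hz1, hz2⟩ := hx (d + 1)
    refine ⟨z.1, ?_, z.2, hz1.1, hz2⟩
    rw [Finset.mem_product, Finset.mem_range, Finset.mem_range]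
    have h1 := (hz1.2 false).2
    have h2 := hcnt false z.2
    have h3 := (hz1.2 true).2
    have h4 := hcnt true z.2
    have h5 : sel false z.1 = z.1.1 := rfl
    have h6 : sel true z.1 = z.1.2 := rfl
    have h7 : sel false x.1 = x.1.1 := rfl
    have h8 : sel true x.1 = x.1.2 := rfl
    rw [h5, h7] at h1
    rw [h6, h8] at h3
    rw [h7] at h2
    rw [h8] at h4
    constructor
    · omega
    · omega
  obtain ⟨v, hv⟩ : ∃ v : ℕ × ℕ, ∀ d, ∃ a, x.2 < a ∧ Ch p d (v, a) := by
    by_contra hcon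
    push Not at hcon
    choose f hf using hcon
    obtain ⟨v, hvS, a, ha, hch⟩ :=
      key ((Finset.range (x.1.1 + y.2) ×ˢ Finset.range (x.1.2 + y.2)).sup f)
    exact hf v a ha (sk_le (Finset.le_sup hvS) hch)
  have hex : ∃ a, x.2 < a ∧ Ok p (v, a) := by
    obtain ⟨a, ha, hch⟩ := hv 0
    exact ⟨a, ha, hch⟩
  refine ⟨(v, Nat.find hex), (Nat.find_spec hex).1, ?_⟩
  intro d
  obtain ⟨a, ha, hch⟩ := hv d
  exact sk_time (Nat.find_min' hex ⟨ha, sk_ok hch⟩) (Nat.find_spec hex).2 hch

end Pool.Agent.Downey
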