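import Pool.Agent.Downey.Stmts
import Pool.Agent.NonLow.QdFacts
import Pool.Agent.NonLow.CovLex

/-!
# Every component has a location
-/

set_option autoImplicit false

namespace Pool.Agent.Downey

open Pool.Agent.NonLow (Qd Sg Dl Z Pr dec inL inR sg)

section conv
variable {C M : Type} [LinearOrder C] [LinearOrder M] {f : C → M}

theorem sem1_le (hlt : ∀ a b, f a < f b ↔ a < b) {a b : C} : f a ≤ f b ↔ a ≤ b := by
  rw [← not_lt, ← not_lt, hlt]

theorem sem1_cov (hlt : ∀ a b, f a < f b ↔ a < b)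
    (hcv : ∀ a b z, f a < z → z < f b → ∃ c, f c = z) {a b : C} (h : a ⋖ b) : f a ⋖ f b := by
  refine ⟨(hlt a b).2 h.1, fun z h1 h2 => ?_⟩
  obtain ⟨c, rfl⟩ := hcv a b z h1 h2
  exact h.2 ((hlt a c).1 h1) ((hlt c b).1 h2)

theorem sem1_dense (hlt : ∀ a b, f a < f b ↔ a < b)
    (hcv : ∀ a b z, f a < z → z < f b → ∃ c, f c = z) {a b : C}
    (h : ∀ y z, a ≤ y → y < z → z ≤ b → ∃ w, y < w ∧ w < z) :
    ∀ y z, f a ≤ y → y < z → z ≤ f b → ∃ w, y < w ∧ w < z := by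
  intro y z h1 h2 h3
  have hy : ∃ c, f c = y := by
    rcases h1.lt_or_eq with h4 | h4
    · exact hcv a b y h4 (h2.trans_le h3)
    · exact ⟨a, h4⟩
  have hz : ∃ c, f c = z := by
    rcases h3.lt_or_eq with h4 | h4
    · exact hcv a b z (h1.trans_lt h2) h4
    · exact ⟨b, h4.symm⟩
  obtain ⟨y, rfl⟩ := hy
  obtain ⟨z, rfl⟩ := hz
  obtain ⟨w, hw1, hw2⟩ := h y z ((sem1_le hlt).1 h1) ((hlt _ _).1 h2) ((sem1_le hlt).1 h3)
  exact ⟨f w, (hlt _ _).2 hw1, (hlt _ _).2 hw2⟩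

theorem sem1_loc_map (hlt : ∀ a b, f a < f b ↔ a < b)
    (hcv : ∀ a b z, f a < z → z < f b → ∃ c, f c = z) {e : ℕ} {x : ℕ → C} (h : Loc e x) :
    Loc e (fun j => f (x j)) where
  chain i hi := sem1_cov hlt hcv (h.chain i hi)
  ltL := (hlt _ _).2 h.ltL
  denseL := sem1_dense hlt hcv h.denseL
  covL := sem1_cov hlt hcv h.covL
  ltR := (hlt _ _).2 h.ltR
  denseR := sem1_dense hlt hcv h.denseR
  covR := sem1_cov hlt hcv h.covR

end conv

section sums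
variable {P R : Type} [LinearOrder P] [LinearOrder R]

theorem sem1_inR_cv (a b : R) (z : P ⊕ₗ R) (h1 : inR a < z) (h2 : z < inR b) :
    ∃ c, inR c = z := by
  rcases NonLow.cl_sum_cases z with ⟨c, rfl⟩ | ⟨c, rfl⟩
  · exact absurd h1 (NonLow.not_inR_lt_inL _ _)
  · exact ⟨c, rfl⟩

theorem sem1_core {p : P} {r : R} (hp : IsMax p) (hr : IsMin r) :
    ∀ y z : P ⊕ₗ (Qd ⊕ₗ R), inL p ≤ y → y < z → z ≤ inR (inR r) → ∃ w, y < w ∧ w < z := by
  obtain ⟨d1, d2, d3⟩ := NonLow.qd_main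
  intro y z h1 h2 h3
  -- `y` is `inL p` or in `Qd`
  have hy : y = inL p ∨ ∃ q : Qd, y = inR (inL q) := by
    rcases NonLow.cl_sum_cases y with ⟨c, rfl⟩ | ⟨c, rfl⟩
    · left
      have h4 : ¬ p < c := hp.not_lt
      rcases h1.lt_or_eq with h5 | h5
      · exact absurd (NonLow.inL_lt_inL.1 h5) h4
      · exact h5.symm
    · right
      rcases NonLow.cl_sum_cases c with ⟨c, rfl⟩ | ⟨c, rfl⟩
      · exact ⟨c, rfl⟩
      · exfalso
        have h4 := NonLow.inR_lt_inR.1 (NonLow.inR_lt_inR.1 (h2.trans_le h3))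
        exact hr.not_lt h4
  have hz : z = inR (inR r) ∨ ∃ q : Qd, z = inR (inL q) := by
    rcases NonLow.cl_sum_cases z with ⟨c, rfl⟩ | ⟨c, rfl⟩
    · exfalso
      exact hp.not_lt (NonLow.inL_lt_inL.1 (h1.trans_lt h2))
    · rcases NonLow.cl_sum_cases c with ⟨c, rfl⟩ | ⟨c, rfl⟩
      · exact Or.inr ⟨c, rfl⟩
      · left
        rcases h3.lt_or_eq with h5 | h5
        · exact absurd (NonLow.inR_lt_inR.1 (NonLow.inR_lt_inR.1 h5)) hr.not_lt
        · exact h5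
  rcases hy with rfl | ⟨q, rfl⟩
  · rcases hz with rfl | ⟨q', rfl⟩
    · exact ⟨inR (inL (0 : ℕ)), NonLow.inL_lt_inR _ _, NonLow.inR_lt_inR.2 (NonLow.inL_lt_inR _ _)⟩
    · obtain ⟨s, _, hs⟩ := d3 0 q'
      exact ⟨inR (inL s), NonLow.inL_lt_inR _ _, NonLow.inR_lt_inR.2 (NonLow.inL_lt_inL.2 hs)⟩
  · rcases hz with rfl | ⟨q', rfl⟩
    · obtain ⟨s, _, hs⟩ := d2 0 q
      exact ⟨inR (inL s), NonLow.inR_lt_inR.2 (NonLow.inL_lt_inL.2 hs),
        NonLow.inR_lt_inR.2 (NonLow.inL_lt_inR _ _)⟩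
    · have h4 : q < q' := NonLow.inL_lt_inL.1 (NonLow.inR_lt_inR.1 h2)
      obtain ⟨s, _, hs, hs'⟩ := d1 0 q q' h4
      exact ⟨inR (inL s), NonLow.inR_lt_inR.2 (NonLow.inL_lt_inL.2 hs),
        NonLow.inR_lt_inR.2 (NonLow.inL_lt_inL.2 hs')⟩

end sums

theorem sem1_loc_ct (e : ℕ) (A B : Type) [LinearOrder A] [LinearOrder B] {a0 a1 : A} {b0 b1 : B}
    (ha : IsMin a0) (ha' : a0 ⋖ a1) (hb : IsMin b0) (hb' : b0 ⋖ b1) :
    ∃ x : ℕ → CT e A B, Loc e x := by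
  let iA : A → CT e A B := fun a => inR (inL (OrderDual.toDual a))
  let iF : Fin (2 * e + 3) → CT e A B := fun k => inR (inR (inR (inL k)))
  let iB : B → CT e A B := fun b => inR (inR (inR (inR (inR (inL b)))))
  let x : ℕ → CT e A B := fun j => if h : j < 2 * e + 3 then iF ⟨j, h⟩ else
    if j = 2 * e + 3 then iA a0 else if j = 2 * e + 4 then iA a1 else
    if j = 2 * e + 5 then iB b0 else iB b1
  have x0 : ∀ j (h : j < 2 * e + 3), x j = iF ⟨j, h⟩ := fun j h => by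
    simp only [x, dif_pos h]
  have x3 : x (2 * e + 3) = iA a0 := by
    show (if h : 2 * e + 3 < 2 * e + 3 then iF ⟨2 * e + 3, h⟩ else
      if 2 * e + 3 = 2 * e + 3 then iA a0 else _) = _
    rw [dif_neg (by omega), if_pos rfl]
  have x4 : x (2 * e + 4) = iA a1 := by
    show (if h : 2 * e + 4 < 2 * e + 3 then iF ⟨2 * e + 4, h⟩ else
      if 2 * e + 4 = 2 * e + 3 then iA a0 else if 2 * e + 4 = 2 * e + 4 then iA a1 else _) = _
    rw [dif_neg (by omega), if_neg (by omega), if_pos rfl]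
  have x5 : x (2 * e + 5) = iB b0 := by
    show (if h : 2 * e + 5 < 2 * e + 3 then iF ⟨2 * e + 5, h⟩ else
      if 2 * e + 5 = 2 * e + 3 then iA a0 else if 2 * e + 5 = 2 * e + 4 then iA a1 else
      if 2 * e + 5 = 2 * e + 5 then iB b0 else _) = _
    rw [dif_neg (by omega), if_neg (by omega), if_neg (by omega), if_pos rfl]
  have x6 : x (2 * e + 6) = iB b1 := by
    simp only [x]
    rw [dif_neg (by omega), if_neg (by omega), if_neg (by omega), if_neg (by omega)]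
  refine ⟨x, ?_, ?_, ?_, ?_, ?_, ?_, ?_⟩
  · intro i hi
    rw [x0 i (by omega), x0 (i + 1) (by omega)]
    refine NonLow.inR_covBy_inR.2 (NonLow.inR_covBy_inR.2 (NonLow.inR_covBy_inR.2
      (NonLow.inL_covBy_inL.2 ?_)))
    rw [Fin.covBy_iff, Nat.covBy_iff_add_one_eq]
  · rw [x3, x0 0 (by omega)]
    exact NonLow.inR_lt_inR.2 (NonLow.inL_lt_inR _ _)
  · rw [x3, x0 0 (by omega)]
    refine sem1_dense (f := (inR : _ → CT e A B)) (fun a b => NonLow.inR_lt_inR) sem1_inR_cv ?_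
    refine sem1_core (p := OrderDual.toDual a0) ?_ ?_
    · exact ha.toDual
    · rw [NonLow.isMin_inL]
      exact fun b _ => Fin.zero_le b
  · rw [x3, x4]
    exact NonLow.inR_covBy_inR.2 (NonLow.inL_covBy_inL.2 (toDual_covBy_toDual_iff.2 ha'))
  · rw [x5, x0 (2 * e + 2) (by omega)]
    exact NonLow.inR_lt_inR.2 (NonLow.inR_lt_inR.2 (NonLow.inR_lt_inR.2 (NonLow.inL_lt_inR _ _)))
  · rw [x5, x0 (2 * e + 2) (by omega)]
    refine sem1_dense (f := (inR : _ → CT e A B)) (fun a b => NonLow.inR_lt_inR) sem1_inR_cv ?_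
    refine sem1_dense (f := inR) (fun a b => NonLow.inR_lt_inR) sem1_inR_cv ?_
    refine sem1_dense (f := inR) (fun a b => NonLow.inR_lt_inR) sem1_inR_cv ?_
    refine sem1_core ?_ ?_
    · intro b _
      have := b.isLt
      rw [Fin.le_def]
      show b.val ≤ 2 * e + 2
      omega
    · rw [NonLow.isMin_inL]
      exact hb
  · rw [x5, x6]
    exact NonLow.inR_covBy_inR.2 (NonLow.inR_covBy_inR.2 (NonLow.inR_covBy_inR.2
      (NonLow.inR_covBy_inR.2 (NonLow.inR_covBy_inR.2 (NonLow.inL_covBy_inL.2 hb')))))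

theorem sem1_cn (o : Option ℕ) (h : ∀ k, o = some k → 2 ≤ k) :
    ∃ a0 a1 : Cn o, IsMin a0 ∧ a0 ⋖ a1 := by
  cases o with
  | none =>
    refine ⟨(0 : ℕ), (1 : ℕ), fun b _ => Nat.zero_le b, ?_⟩
    exact (Nat.covBy_iff_add_one_eq (m := 0) (n := 1)).2 rfl
  | some k =>
    have hk := h k rfl
    let a0 : Lex (Fin k ⊕ Qd) := inL ⟨0, by omega⟩
    let a1 : Lex (Fin k ⊕ Qd) := inL ⟨1, by omega⟩
    have h0 : IsMin a0 := by
      rw [NonLow.isMin_inL]
      exact fun b _ => Fin.mk_le_of_le_val (Nat.zero_le _)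
    have h1 : a0 ⋖ a1 := by
      refine NonLow.inL_covBy_inL.2 ?_
      rw [Fin.covBy_iff, Nat.covBy_iff_add_one_eq]
    exact ⟨a0, a1, h0, h1⟩

theorem sem1_main : StmtSem1 := by
  intro t ht i
  obtain ⟨d1, d2, d3⟩ := NonLow.qd_main
  obtain ⟨q, rfl, _⟩ := d2 i (show Qd from (0 : ℕ))
  have hL : ∀ k, (t q.col).2.map Prod.fst = some k → 2 ≤ k := by
    intro k hk
    rw [Option.map_eq_some_iff] at hk
    obtain ⟨u, hu, rfl⟩ := hk
    exact (ht q.col u hu).2.1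
  have hR : ∀ k, (t q.col).2.map Prod.snd = some k → 2 ≤ k := by
    intro k hk
    rw [Option.map_eq_some_iff] at hk
    obtain ⟨u, hu, rfl⟩ := hk
    exact (ht q.col u hu).2.2.2
  obtain ⟨a0, a1, ha, ha'⟩ := sem1_cn _ hL
  obtain ⟨b0, b1, hb, hb'⟩ := sem1_cn _ hR
  obtain ⟨x, hx⟩ := sem1_loc_ct (t q.col).1 _ _ ha ha' hb hb'
  let f : CT (t q.col).1 (Cn ((t q.col).2.map Prod.fst)) (Cn ((t q.col).2.map Prod.snd)) → Lo t :=
    sg (α := fun q : Qd => CT (t q.col).1 (Cn ((t q.col).2.map Prod.fst))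
      (Cn ((t q.col).2.map Prod.snd))) q
  refine ⟨fun j => f (x j), sem1_loc_map (f := f) (fun a b => NonLow.sg_lt_sg) ?_ hx⟩
  intro a b z h1 h2
  obtain ⟨r, c, rfl⟩ := NonLow.cl_sg_cases z
  have h3 : q = r := le_antisymm (NonLow.sg_lt_imp_le h1) (NonLow.sg_lt_imp_le h2)
  subst h3
  exact ⟨c, rfl⟩

end Pool.Agent.Downey
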