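import Pool.Agent.Downey.Stmts
import Pool.Agent.NonLow.QdFacts
import Pool.Agent.NonLow.CovLex

/-!
# Locations and their contents
-/

set_option autoImplicit false

namespace Pool.Agent.Downey

open Pool.Agent.NonLow (Qd Sg Dl Z Pr dec inL inR sg inL_lt_inL inR_lt_inR inL_lt_inR
  not_inR_lt_inL inL_covBy_inL inR_covBy_inR cl_sum_covBy_iff cl_sum_cases inL_injective
  inR_injective inL_ne_inR inR_ne_inL isMin_inL not_isMin_inR sg_lt_sg sg_lt_of_lt sg_lt_imp_le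
  sg_covBy_sg cl_sg_covBy_iff cl_sg_cases sg_injective sg_fst_eq sg_covBy_fst qd_main)

/-! ### the parts of a component -/

section parts
variable {e : ℕ} {A B : Type}

/-- left end point -/
def sem2U : CT e A B := inL ()
/-- left content -/
def sem2A (a : A) : CT e A B := inR (inL (OrderDual.toDual a))
/-- first dense part -/
def sem2P (q : Qd) : CT e A B := inR (inR (inL q))
/-- label block -/
def sem2F (i : Fin (2 * e + 3)) : CT e A B := inR (inR (inR (inL i)))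
/-- second dense part -/
def sem2Q (q : Qd) : CT e A B := inR (inR (inR (inR (inL q))))
/-- right content -/
def sem2B (b : B) : CT e A B := inR (inR (inR (inR (inR (inL b)))))
/-- right end point -/
def sem2V : CT e A B := inR (inR (inR (inR (inR (inR ())))))

theorem sem2_cases (x : CT e A B) : x = sem2U ∨ (∃ a, x = sem2A a) ∨ (∃ q, x = sem2P q) ∨
    (∃ i, x = sem2F i) ∨ (∃ q, x = sem2Q q) ∨ (∃ b, x = sem2B b) ∨ x = sem2V := by
  rcases cl_sum_cases x with ⟨a, rfl⟩ | ⟨x, rfl⟩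
  · exact Or.inl rfl
  rcases cl_sum_cases x with ⟨a, rfl⟩ | ⟨x, rfl⟩
  · exact Or.inr (Or.inl ⟨OrderDual.ofDual a, rfl⟩)
  rcases cl_sum_cases x with ⟨a, rfl⟩ | ⟨x, rfl⟩
  · exact Or.inr (Or.inr (Or.inl ⟨a, rfl⟩))
  rcases cl_sum_cases x with ⟨a, rfl⟩ | ⟨x, rfl⟩
  · exact Or.inr (Or.inr (Or.inr (Or.inl ⟨a, rfl⟩)))
  rcases cl_sum_cases x with ⟨a, rfl⟩ | ⟨x, rfl⟩
  · exact Or.inr (Or.inr (Or.inr (Or.inr (Or.inl ⟨a, rfl⟩))))
  rcases cl_sum_cases x with ⟨a, rfl⟩ | ⟨x, rfl⟩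
  · exact Or.inr (Or.inr (Or.inr (Or.inr (Or.inr (Or.inl ⟨a, rfl⟩)))))
  · exact Or.inr (Or.inr (Or.inr (Or.inr (Or.inr (Or.inr rfl)))))

variable [LinearOrder A] [LinearOrder B]

theorem sem2_AA {a a' : A} : (sem2A a : CT e A B) < sem2A a' ↔ a' < a := by
  unfold sem2A
  rw [inR_lt_inR, inL_lt_inL]
  exact Iff.rfl

theorem sem2_covA {a a' : A} : (sem2A a : CT e A B) ⋖ sem2A a' ↔ a' ⋖ a := by
  unfold sem2A
  rw [inR_covBy_inR, inL_covBy_inL]
  exact toDual_covBy_toDual_iff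

theorem sem2_covF {i i' : Fin (2 * e + 3)} : (sem2F i : CT e A B) ⋖ sem2F i' ↔ i ⋖ i' := by
  unfold sem2F
  rw [inR_covBy_inR, inR_covBy_inR, inR_covBy_inR, inL_covBy_inL]

theorem sem2_BB {b b' : B} : (sem2B b : CT e A B) < sem2B b' ↔ b < b' := by
  unfold sem2B
  rw [inR_lt_inR, inR_lt_inR, inR_lt_inR, inR_lt_inR, inR_lt_inR, inL_lt_inL]

theorem sem2_covB {b b' : B} : (sem2B b : CT e A B) ⋖ sem2B b' ↔ b ⋖ b' := by
  unfold sem2B
  rw [inR_covBy_inR, inR_covBy_inR, inR_covBy_inR, inR_covBy_inR, inR_covBy_inR, inL_covBy_inL]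

theorem sem2_BV (b : B) : (sem2B b : CT e A B) < sem2V := by
  unfold sem2B sem2V
  rw [inR_lt_inR, inR_lt_inR, inR_lt_inR, inR_lt_inR, inR_lt_inR]
  exact inL_lt_inR _ _

theorem sem2_UA (a : A) : (sem2U : CT e A B) < sem2A a := inL_lt_inR _ _

theorem sem2_not_lt_U (x : CT e A B) : ¬ x < sem2U := by
  intro h
  rcases cl_sum_cases x with ⟨a, rfl⟩ | ⟨x, rfl⟩
  · exact absurd (inL_lt_inL.1 h) (lt_irrefl _)
  · exact not_inR_lt_inL _ _ h

theorem sem2_not_V_lt (x : CT e A B) : ¬ sem2V < x := by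
  intro h
  rcases sem2_cases x with rfl | ⟨a, rfl⟩ | ⟨q, rfl⟩ | ⟨i, rfl⟩ | ⟨q, rfl⟩ | ⟨b, rfl⟩ | rfl
  · exact not_inR_lt_inL _ _ h
  · exact not_inR_lt_inL _ _ (inR_lt_inR.1 h)
  · exact not_inR_lt_inL _ _ (inR_lt_inR.1 (inR_lt_inR.1 h))
  · exact not_inR_lt_inL _ _ (inR_lt_inR.1 (inR_lt_inR.1 (inR_lt_inR.1 h)))
  · exact not_inR_lt_inL _ _ (inR_lt_inR.1 (inR_lt_inR.1 (inR_lt_inR.1 (inR_lt_inR.1 h))))
  · exact not_inR_lt_inL _ _
      (inR_lt_inR.1 (inR_lt_inR.1 (inR_lt_inR.1 (inR_lt_inR.1 (inR_lt_inR.1 h)))))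
  · exact absurd h (lt_irrefl _)

/-- the elements between the label block and the right content -/
theorem sem2_FB {i : Fin (2 * e + 3)} {b : B} {x : CT e A B} (hi : ∀ j, j ≤ i)
    (hb : ∀ b', b ≤ b') (h1 : sem2F i < x) (h2 : x < sem2B b) : ∃ q, x = sem2Q q := by
  rcases sem2_cases x with rfl | ⟨a, rfl⟩ | ⟨q, rfl⟩ | ⟨j, rfl⟩ | ⟨q, rfl⟩ | ⟨b', rfl⟩ | rfl
  · exact absurd h1 (sem2_not_lt_U _)
  · exact absurd (inR_lt_inR.1 h1) (not_inR_lt_inL _ _)
  · exact absurd (inR_lt_inR.1 (inR_lt_inR.1 h1)) (not_inR_lt_inL _ _)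
  · have := inL_lt_inL.1 (inR_lt_inR.1 (inR_lt_inR.1 (inR_lt_inR.1 h1)))
    exact absurd this (not_lt.2 (hi j))
  · exact ⟨q, rfl⟩
  · exact absurd (sem2_BB.1 h2) (not_lt.2 (hb b'))
  · exact absurd h2 (sem2_not_V_lt _)

/-- the elements between the left content and the label block -/
theorem sem2_AF {i : Fin (2 * e + 3)} {a : A} {x : CT e A B} (hi : ∀ j, i ≤ j)
    (ha : ∀ a', a ≤ a') (h1 : sem2A a < x) (h2 : x < sem2F i) : ∃ q, x = sem2P q := by
  rcases sem2_cases x with rfl | ⟨a', rfl⟩ | ⟨q, rfl⟩ | ⟨j, rfl⟩ | ⟨q, rfl⟩ | ⟨b', rfl⟩ | rfl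
  · exact absurd h1 (sem2_not_lt_U _)
  · exact absurd (sem2_AA.1 h1) (not_lt.2 (ha a'))
  · exact ⟨q, rfl⟩
  · have := inL_lt_inL.1 (inR_lt_inR.1 (inR_lt_inR.1 (inR_lt_inR.1 h2)))
    exact absurd this (not_lt.2 (hi j))
  · exact absurd (inR_lt_inR.1 (inR_lt_inR.1 (inR_lt_inR.1 h2))) (not_inR_lt_inL _ _)
  · exact absurd (inR_lt_inR.1 (inR_lt_inR.1 (inR_lt_inR.1 h2))) (not_inR_lt_inL _ _)
  · exact absurd h2 (sem2_not_V_lt _)

theorem sem2_FB_lt (i : Fin (2 * e + 3)) (b : B) : (sem2F i : CT e A B) < sem2B b := by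
  unfold sem2F sem2B
  rw [inR_lt_inR, inR_lt_inR, inR_lt_inR]
  exact inL_lt_inR _ _

theorem sem2_AF_lt (a : A) (i : Fin (2 * e + 3)) : (sem2A a : CT e A B) < sem2F i := by
  unfold sem2A sem2F
  rw [inR_lt_inR]
  exact inL_lt_inR _ _

end parts

/-! ### adjacency in a component -/

theorem sem2_cov_sum {α β : Type} [LinearOrder α] [LinearOrder β]
    (h : (∀ a : α, ¬ IsMax a) ∨ ∀ b : β, ¬ IsMin b) {x y : α ⊕ₗ β} (hxy : x ⋖ y) :
    (∃ a a', x = inL a ∧ y = inL a' ∧ a ⋖ a') ∨ ∃ b b', x = inR b ∧ y = inR b' ∧ b ⋖ b' := by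
  rcases (cl_sum_covBy_iff x y).1 hxy with h1 | h1 | ⟨a, b, rfl, rfl, h2, h3⟩
  · exact Or.inl h1
  · exact Or.inr h1
  · rcases h with h | h
    · exact absurd h2 (h a)
    · exact absurd h3 (h b)

theorem sem2_noMin {α β : Type} [LinearOrder α] [LinearOrder β] [Nonempty α]
    (h : ∀ a : α, ¬ IsMin a) (x : α ⊕ₗ β) : ¬ IsMin x := by
  rcases cl_sum_cases x with ⟨a, rfl⟩ | ⟨b, rfl⟩
  · rw [isMin_inL]
    exact h a
  · exact not_isMin_inR b

theorem sem2_qd_min (q : Qd) : ¬ IsMin q := by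
  obtain ⟨c, _, hc⟩ := qd_main.2.2 0 q
  exact not_isMin_iff.2 ⟨c, hc⟩

theorem sem2_qd_max (q : Qd) : ¬ IsMax q := by
  obtain ⟨c, _, hc⟩ := qd_main.2.1 0 q
  exact not_isMax_iff.2 ⟨c, hc⟩

theorem sem2_qd_cov {q r : Qd} : ¬ q ⋖ r := by
  intro h
  obtain ⟨c, _, hc, hc'⟩ := qd_main.1 0 q r h.1
  exact h.2 hc hc'

section cov
variable {e : ℕ} {A B : Type} [LinearOrder A] [LinearOrder B]

theorem sem2_cov [Nonempty A] (hA : ∀ a : A, ¬ IsMax a) (hB : ∀ b : B, ¬ IsMax b)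
    {x y : CT e A B} (h : x ⋖ y) : (∃ a a', x = sem2A a ∧ y = sem2A a' ∧ a' ⋖ a) ∨
      (∃ i i', x = sem2F i ∧ y = sem2F i' ∧ i ⋖ i') ∨ ∃ b b', x = sem2B b ∧ y = sem2B b' ∧ b ⋖ b' := by
  have hA' : ∀ a : Aᵒᵈ, ¬ IsMin a := fun a ha => hA (OrderDual.ofDual a) fun b hb =>
    ha (b := OrderDual.toDual b) hb
  have hAne : Nonempty Aᵒᵈ := inferInstanceAs (Nonempty A)
  rcases sem2_cov_sum (Or.inr (sem2_noMin hA')) h with ⟨a, a', rfl, rfl, h1⟩ | ⟨x, y, rfl, rfl, h2⟩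
  · exact absurd h1.1 (lt_irrefl _)
  rcases sem2_cov_sum (Or.inr (sem2_noMin sem2_qd_min)) h2 with ⟨a, a', rfl, rfl, h1⟩ |
    ⟨x, y, rfl, rfl, h3⟩
  · exact Or.inl ⟨OrderDual.ofDual a, OrderDual.ofDual a', rfl, rfl,
      toDual_covBy_toDual_iff.1 h1⟩
  rcases sem2_cov_sum (Or.inl sem2_qd_max) h3 with ⟨a, a', rfl, rfl, h1⟩ | ⟨x, y, rfl, rfl, h4⟩
  · exact absurd h1 sem2_qd_cov
  rcases sem2_cov_sum (Or.inr (sem2_noMin sem2_qd_min)) h4 with ⟨a, a', rfl, rfl, h1⟩ |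
    ⟨x, y, rfl, rfl, h5⟩
  · exact Or.inr (Or.inl ⟨a, a', rfl, rfl, h1⟩)
  rcases sem2_cov_sum (Or.inl sem2_qd_max) h5 with ⟨a, a', rfl, rfl, h1⟩ | ⟨x, y, rfl, rfl, h6⟩
  · exact absurd h1 sem2_qd_cov
  rcases sem2_cov_sum (Or.inl hB) h6 with ⟨a, a', rfl, rfl, h1⟩ | ⟨x, y, rfl, rfl, h7⟩
  · exact Or.inr (Or.inr ⟨a, a', rfl, rfl, h1⟩)
  · exact absurd h7.1 (lt_irrefl _)

end cov

/-! ### contents -/

theorem sem2_fin_cov {k : ℕ} {i j : Fin k} : i ⋖ j ↔ i.val + 1 = j.val := by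
  rw [Fin.covBy_iff, Nat.covBy_iff_add_one_eq]

theorem sem2_con_cov {k : ℕ} {x y : Fin k ⊕ₗ Qd} (h : x ⋖ y) :
    ∃ i j : Fin k, x = inL i ∧ y = inL j ∧ i.val + 1 = j.val := by
  rcases sem2_cov_sum (Or.inr sem2_qd_min) h with ⟨a, a', rfl, rfl, h1⟩ | ⟨x, y, rfl, rfl, h2⟩
  · exact ⟨a, a', rfl, rfl, sem2_fin_cov.1 h1⟩
  · exact absurd h2 sem2_qd_cov

/-- the properties of contents -/
structure Sem2Con (B : Type) [LinearOrder B] (o : Option ℕ) : Prop where
  nomax : ∀ b : B, ¬ IsMax b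
  start : ∃ b0 b1 : B, (∀ b, b0 ≤ b) ∧ b0 ⋖ b1
  even : ∀ (n : ℕ) (h : ℕ → B), 1 ≤ n → (∀ i < n, h i ⋖ h (i + 1)) → (∀ b, ¬ b ⋖ h 0) →
    (∀ b, ¬ h n ⋖ b) → Even (n + 1)
  fin : ∀ k, o = some k → ∃ y : ℕ → B, (∀ b, y 0 ≤ b) ∧ (∀ i, i + 1 < k → y i ⋖ y (i + 1)) ∧
    ∀ b, ¬ y (k - 1) ⋖ b
  inf : o = none → (Infinite B) ∧ ∀ b : B, {b' | b' < b}.Finite

theorem sem2_con_none : Sem2Con ℕ none where
  nomax b hb := by
    have := hb (Nat.le_succ b)
    omega
  start := ⟨0, 1, fun b => Nat.zero_le b, Nat.covBy_iff_add_one_eq.2 rfl⟩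
  even n h _ _ _ h2 := absurd (Nat.covBy_iff_add_one_eq.2 rfl) (h2 (h n + 1))
  fin k hk := absurd hk (by simp)
  inf _ := ⟨inferInstance, fun b => Set.finite_Iio b⟩

theorem sem2_con_some {k : ℕ} (hk : Even k) (hk2 : 2 ≤ k) : Sem2Con (Fin k ⊕ₗ Qd) (some k) where
  nomax b hb := by
    rcases cl_sum_cases b with ⟨a, rfl⟩ | ⟨q, rfl⟩
    · exact hb.not_lt (inL_lt_inR a (show Qd from (0 : ℕ)))
    · obtain ⟨c, _, hc⟩ := qd_main.2.1 0 q
      exact hb.not_lt (inR_lt_inR.2 hc)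
  start := by
    refine ⟨inL ⟨0, by omega⟩, inL ⟨1, by omega⟩, fun b => ?_, ?_⟩
    · rcases cl_sum_cases b with ⟨a, rfl⟩ | ⟨q, rfl⟩
      · refine not_lt.1 fun h => ?_
        have h1 := inL_lt_inL.1 h
        have h2 : a.val < 0 := h1
        omega
      · exact (inL_lt_inR _ _).le
    · exact inL_covBy_inL.2 (sem2_fin_cov.2 rfl)
  even n h hn hc hp hs := by
    have key : ∀ i, i ≤ n → ∃ j : Fin k, h i = inL j ∧ j.val = i := by
      intro i
      induction i with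
      | zero =>
        intro _
        obtain ⟨a, a', ha, _, _⟩ := sem2_con_cov (hc 0 (by omega))
        refine ⟨a, ha, ?_⟩
        by_contra hne
        refine hp (inL ⟨a.val - 1, by omega⟩) ?_
        rw [ha]
        refine inL_covBy_inL.2 (sem2_fin_cov.2 ?_)
        show a.val - 1 + 1 = a.val
        omega
      | succ i ih =>
        intro hi
        obtain ⟨j, hj, hj2⟩ := ih (by omega)
        obtain ⟨a, a', ha, ha', haa⟩ := sem2_con_cov (hc i (by omega))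
        have : a = j := inL_injective (ha.symm.trans hj)
        exact ⟨a', ha', by rw [← haa, this, hj2]⟩
    obtain ⟨j, hj, hj2⟩ := key n le_rfl
    have h1 : n + 1 = k := by
      by_contra hne
      have hlt := j.isLt
      refine hs (inL ⟨n + 1, by omega⟩) ?_
      rw [hj]
      exact inL_covBy_inL.2 (sem2_fin_cov.2 (by simp [hj2]))
    rw [h1]
    exact hk
  fin k' hk' := by
    obtain rfl : k = k' := Option.some_injective _ hk'
    refine ⟨fun i => inL ⟨min i (k - 1), by omega⟩, fun b => ?_, fun i hi => ?_, fun b hb => ?_⟩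
    · rcases cl_sum_cases b with ⟨a, rfl⟩ | ⟨q, rfl⟩
      · refine not_lt.1 fun h => ?_
        have h1 := inL_lt_inL.1 h
        have h2 : a.val < min 0 (k - 1) := h1
        omega
      · exact (inL_lt_inR _ _).le
    · refine inL_covBy_inL.2 (sem2_fin_cov.2 ?_)
      show min i (k - 1) + 1 = min (i + 1) (k - 1)
      omega
    · obtain ⟨a, a', ha, _, haa⟩ := sem2_con_cov hb
      have h1 := inL_injective ha
      have h2 : min (k - 1) (k - 1) = a.val := congrArg Fin.val h1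
      have h3 := a'.isLt
      omega
  inf h := absurd h (by simp)

theorem sem2_con (o : Option ℕ) (ho : ∀ k, o = some k → Even k ∧ 2 ≤ k) : Sem2Con (Cn o) o := by
  cases o with
  | none => exact sem2_con_none
  | some k => exact sem2_con_some (ho k rfl).1 (ho k rfl).2

/-! ### locations -/

section loc
variable {E : ℕ → ℕ} {A B : ℕ → Type} [∀ i, LinearOrder (A i)] [∀ i, LinearOrder (B i)]
  {o o' : ℕ → Option ℕ} (hA : ∀ i, Sem2Con (A i) (o i)) (hB : ∀ i, Sem2Con (B i) (o' i))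
include hA

theorem sem2_ne (i : ℕ) : Nonempty (A i) := by
  obtain ⟨b0, _⟩ := (hA i).start
  exact ⟨b0⟩

omit hA in
/-- covers of the sum are covers in one component -/
theorem sem2_covLL {x y : LL E A B} (h : x ⋖ y) : ∃ (q : Qd) (a b : CT (E q.col) (A q.col) (B q.col)),
    x = sg q a ∧ y = sg q b ∧ a ⋖ b := by
  have h1 : ∀ q : Qd, Nonempty (CT (E q.col) (A q.col) (B q.col)) := fun q => ⟨sem2U⟩
  have h2 : DenselyOrdered Qd := ⟨fun a b hab => by
    obtain ⟨c, _, h3, h4⟩ := qd_main.1 0 a b hab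
    exact ⟨c, h3, h4⟩⟩
  exact (cl_sg_covBy_iff x y).1 h

include hB

/-- a block of at least three elements of odd length is a label block -/
theorem sem2_block {e : ℕ} {x : ℕ → LL E A B} (hc : ∀ i < 2 * e + 2, x i ⋖ x (i + 1))
    (hp : ∀ z, ¬ z ⋖ x 0) (hs : ∀ z, ¬ x (2 * e + 2) ⋖ z) :
    ∃ q : Qd, E q.col = e ∧
      (∀ i : Fin (2 * E q.col + 3), i.val = 0 → x 0 = sg q (sem2F i)) ∧
      ∀ i : Fin (2 * E q.col + 3), i.val = 2 * e + 2 → x (2 * e + 2) = sg q (sem2F i) := by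
  classical
  obtain ⟨q, a0, a1, h0, h1, h01⟩ := sem2_covLL (hc 0 (by omega))
  have hne : Nonempty (A q.col) := sem2_ne hA q.col
  -- all elements in the fibre of `q`
  have hfib : ∀ i, i ≤ 2 * e + 2 → ∃ c, x i = sg q c := by
    intro i
    induction i with
    | zero => intro _; exact ⟨a0, h0⟩
    | succ i ih =>
      intro hi
      obtain ⟨c, hc'⟩ := ih (by omega)
      obtain ⟨q', b0, b1, h2, h3, _⟩ := sem2_covLL (hc i (by omega))
      have : q = q' := sg_fst_eq (hc'.symm.trans h2)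
      subst this
      exact ⟨b1, h3⟩
  choose! y hy using hfib
  have hyc : ∀ i < 2 * e + 2, y i ⋖ y (i + 1) := by
    intro i hi
    have := hc i hi
    rw [hy i (by omega), hy (i + 1) (by omega), sg_covBy_sg] at this
    exact this
  have hyp : ∀ z, ¬ z ⋖ y 0 := by
    intro z hz
    refine hp (sg q z) ?_
    rw [hy 0 (by omega), sg_covBy_sg]
    exact hz
  have hys : ∀ z, ¬ y (2 * e + 2) ⋖ z := by
    intro z hz
    refine hs (sg q z) ?_
    rw [hy _ le_rfl, sg_covBy_sg]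
    exact hz
  have hcov : ∀ i, i < 2 * e + 2 → _ := fun i hi =>
    sem2_cov (hA q.col).nomax (hB q.col).nomax (hyc i hi)
  rcases hcov 0 (by omega) with ⟨b, b', hb, hb', hbb⟩ | ⟨b, b', hb, hb', hbb⟩ |
    ⟨b, b', hb, hb', hbb⟩
  · -- left content: impossible
    exfalso
    have hall : ∀ i, i ≤ 2 * e + 2 → ∃ c, y i = sem2A c := by
      intro i
      induction i with
      | zero => intro _; exact ⟨b, hb⟩
      | succ i ih =>
        intro hi
        obtain ⟨c, hc'⟩ := ih (by omega)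
        rcases hcov i (by omega) with ⟨d, d', hd, hd', _⟩ | ⟨d, d', hd, hd', _⟩ |
          ⟨d, d', hd, hd', _⟩
        · exact ⟨d', hd'⟩
        · exfalso
          rw [hc'] at hd
          exact inL_ne_inR _ _ (inR_injective hd)
        · exfalso
          rw [hc'] at hd
          exact inL_ne_inR _ _ (inR_injective hd)
    choose! z hz using hall
    have hzc : ∀ i < 2 * e + 2, z (i + 1) ⋖ z i := by
      intro i hi
      have := hyc i hi
      rw [hz i (by omega), hz (i + 1) (by omega), sem2_covA] at this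
      exact this
    have := (hA q.col).even (2 * e + 2) (fun i => z (2 * e + 2 - i)) (by omega)
      (fun i hi => by
        have h2 := hzc (2 * e + 2 - (i + 1)) (by omega)
        rwa [show 2 * e + 2 - (i + 1) + 1 = 2 * e + 2 - i by omega] at h2)
      (fun c hc' => by
        refine hys (sem2A c) ?_
        rw [hz _ le_rfl, sem2_covA]
        exact hc')
      (fun c hc' => by
        refine hyp (sem2A c) ?_
        rw [hz 0 (by omega), sem2_covA]
        simpa using hc')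
    obtain ⟨r, hr⟩ := this
    omega
  · -- label block
    have hall : ∀ i, i ≤ 2 * e + 2 → ∃ j : Fin (2 * E q.col + 3), y i = sem2F j ∧ j.val = i := by
      intro i
      induction i with
      | zero =>
        intro _
        refine ⟨b, hb, ?_⟩
        by_contra hne'
        refine hyp (sem2F ⟨b.val - 1, by omega⟩) ?_
        rw [hb]
        refine sem2_covF.2 (sem2_fin_cov.2 ?_)
        show b.val - 1 + 1 = b.val
        omega
      | succ i ih =>
        intro hi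
        obtain ⟨c, hc', hci⟩ := ih (by omega)
        rcases hcov i (by omega) with ⟨d, d', hd, hd', _⟩ | ⟨d, d', hd, hd', hdd⟩ |
          ⟨d, d', hd, hd', _⟩
        · exfalso
          rw [hc'] at hd
          exact inR_ne_inL _ _ (inR_injective hd)
        · refine ⟨d', hd', ?_⟩
          rw [hc'] at hd
          have h5 : c = d := inL_injective (inR_injective (inR_injective (inR_injective hd)))
          rw [← sem2_fin_cov.1 hdd, ← h5, hci]
        · exfalso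
          rw [hc'] at hd
          exact inL_ne_inR _ _ (inR_injective (inR_injective (inR_injective hd)))
    obtain ⟨j, hj, hji⟩ := hall (2 * e + 2) le_rfl
    obtain ⟨j0, hj0, hj00⟩ := hall 0 (by omega)
    have he : E q.col = e := by
      have h6 := j.isLt
      by_contra hne'
      refine hys (sem2F ⟨j.val + 1, by omega⟩) ?_
      rw [hj]
      exact sem2_covF.2 (sem2_fin_cov.2 rfl)
    refine ⟨q, he, fun i hi => ?_, fun i hi => ?_⟩
    · rw [hy 0 (by omega), hj0]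
      congr 2
      exact Fin.ext (by omega)
    · rw [hy _ le_rfl, hj]
      congr 2
      exact Fin.ext (by omega)
  · -- right content: impossible
    exfalso
    have hall : ∀ i, i ≤ 2 * e + 2 → ∃ c, y i = sem2B c := by
      intro i
      induction i with
      | zero => intro _; exact ⟨b, hb⟩
      | succ i ih =>
        intro hi
        obtain ⟨c, hc'⟩ := ih (by omega)
        rcases hcov i (by omega) with ⟨d, d', hd, hd', _⟩ | ⟨d, d', hd, hd', _⟩ |
          ⟨d, d', hd, hd', _⟩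
        · exfalso
          rw [hc'] at hd
          exact inR_ne_inL _ _ (inR_injective hd)
        · exfalso
          rw [hc'] at hd
          exact inR_ne_inL _ _ (inR_injective (inR_injective (inR_injective hd)))
        · exact ⟨d', hd'⟩
    have hneB : Nonempty (B q.col) := ⟨b⟩
    choose! z hz using hall
    have hzc : ∀ i < 2 * e + 2, z i ⋖ z (i + 1) := by
      intro i hi
      have := hyc i hi
      rw [hz i (by omega), hz (i + 1) (by omega), sem2_covB] at this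
      exact this
    have := (hB q.col).even (2 * e + 2) z (by omega) hzc
      (fun c hc' => by
        refine hyp (sem2B c) ?_
        rw [hz 0 (by omega), sem2_covB]
        exact hc')
      (fun c hc' => by
        refine hys (sem2B c) ?_
        rw [hz _ le_rfl, sem2_covB]
        exact hc')
    obtain ⟨r, hr⟩ := this
    omega

theorem sem2_right {q : Qd} {i : Fin (2 * E q.col + 3)} {s s' : LL E A B} (hi : ∀ j, j ≤ i)
    (h1 : sg q (sem2F i) < s)
    (hd : ∀ y z, sg q (sem2F i) ≤ y → y < z → z ≤ s → ∃ w, y < w ∧ w < z) (hs : s ⋖ s') :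
    ∃ b0 : B q.col, (∀ b, b0 ≤ b) ∧ s = sg q (sem2B b0) := by
  have hne : Nonempty (A q.col) := sem2_ne hA q.col
  obtain ⟨b0, b1, hb0, hb01⟩ := (hB q.col).start
  refine ⟨b0, hb0, ?_⟩
  have hcov : (sg q (sem2B b0) : LL E A B) ⋖ sg q (sem2B b1) :=
    sg_covBy_sg.2 (sem2_covB.2 hb01)
  have hFB : (sg q (sem2F i) : LL E A B) < sg q (sem2B b0) := sg_lt_sg.2 (sem2_FB_lt i b0)
  rcases lt_trichotomy s (sg q (sem2B b0)) with h2 | h2 | h2
  · exfalso
    obtain ⟨q', a, b, rfl, rfl, hab⟩ := sem2_covLL hs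
    have h3 : q = q' := le_antisymm (sg_lt_imp_le h1) (sg_lt_imp_le h2)
    subst h3
    obtain ⟨r, rfl⟩ := sem2_FB hi hb0 (sg_lt_sg.1 h1) (sg_lt_sg.1 h2)
    rcases sem2_cov (hA q.col).nomax (hB q.col).nomax hab with ⟨d, d', hd, _⟩ | ⟨d, d', hd, _⟩ |
      ⟨d, d', hd, _⟩
    · exact inR_ne_inL _ _ (inR_injective hd)
    · exact inR_ne_inL _ _ (inR_injective (inR_injective (inR_injective hd)))
    · exact inL_ne_inR _ _ (inR_injective (inR_injective (inR_injective (inR_injective hd))))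
  · exact h2
  · exfalso
    have h3 : (sg q (sem2B b1) : LL E A B) ≤ s := not_lt.1 fun h => hcov.2 h2 h
    obtain ⟨w, hw1, hw2⟩ := hd _ _ hFB.le hcov.1 h3
    exact hcov.2 hw1 hw2

theorem sem2_left {q : Qd} {i : Fin (2 * E q.col + 3)} {s s' : LL E A B} (hi : ∀ j, i ≤ j)
    (h1 : s < sg q (sem2F i))
    (hd : ∀ y z, s ≤ y → y < z → z ≤ sg q (sem2F i) → ∃ w, y < w ∧ w < z) (hs : s' ⋖ s) :
    ∃ a0 : A q.col, (∀ a, a0 ≤ a) ∧ s = sg q (sem2A a0) := by
  have hne : Nonempty (A q.col) := sem2_ne hA q.col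
  obtain ⟨a0, a1, ha0, ha01⟩ := (hA q.col).start
  refine ⟨a0, ha0, ?_⟩
  have hcov : (sg q (sem2A a1) : LL E A B) ⋖ sg q (sem2A a0) :=
    sg_covBy_sg.2 (sem2_covA.2 ha01)
  have hAF : (sg q (sem2A a0) : LL E A B) < sg q (sem2F i) := sg_lt_sg.2 (sem2_AF_lt a0 i)
  rcases lt_trichotomy s (sg q (sem2A a0)) with h2 | h2 | h2
  · exfalso
    have h3 : s ≤ (sg q (sem2A a1) : LL E A B) := not_lt.1 fun h => hcov.2 h h2
    obtain ⟨w, hw1, hw2⟩ := hd _ _ h3 hcov.1 hAF.le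
    exact hcov.2 hw1 hw2
  · exact h2
  · exfalso
    obtain ⟨q', a, b, rfl, rfl, hab⟩ := sem2_covLL hs
    have h3 : q = q' := le_antisymm (sg_lt_imp_le h2) (sg_lt_imp_le h1)
    subst h3
    obtain ⟨r, rfl⟩ := sem2_AF hi ha0 (sg_lt_sg.1 h2) (sg_lt_sg.1 h1)
    rcases sem2_cov (hA q.col).nomax (hB q.col).nomax hab with ⟨d, d', _, hd, _⟩ |
      ⟨d, d', _, hd, _⟩ | ⟨d, d', _, hd, _⟩
    · exact inR_ne_inL _ _ (inR_injective hd)
    · exact inL_ne_inR _ _ (inR_injective (inR_injective hd))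
    · exact inL_ne_inR _ _ (inR_injective (inR_injective hd))

theorem sem2_RB {q : Qd} {b0 : B q.col} (hb0 : ∀ b, b0 ≤ b) {k : ℕ} (hk : o' q.col = some k) :
    RB (sg q (sem2B b0) : LL E A B) k := by
  have hne : Nonempty (A q.col) := sem2_ne hA q.col
  obtain ⟨y, hy0, hy1, hy2⟩ := (hB q.col).fin k hk
  refine ⟨fun i => sg q (sem2B (y i)), ?_, fun i hi => ?_, fun z hz => ?_, ?_⟩
  · show (sg q (sem2B (y 0)) : LL E A B) = sg q (sem2B b0)
    rw [le_antisymm (hy0 b0) (hb0 (y 0))]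
  · exact sg_covBy_sg.2 (sem2_covB.2 (hy1 i hi))
  · obtain ⟨q', a, b, h1, rfl, hab⟩ := sem2_covLL hz
    have h3 : q = q' := sg_fst_eq h1
    subst h3
    have h4 : sem2B (y (k - 1)) = a := sg_injective q h1
    subst h4
    rcases sem2_cov (hA q.col).nomax (hB q.col).nomax hab with ⟨d, d', hd, _⟩ | ⟨d, d', hd, _⟩ |
      ⟨d, d', hd, _, hdd⟩
    · exact inR_ne_inL _ _ (inR_injective hd)
    · exact inR_ne_inL _ _ (inR_injective (inR_injective (inR_injective hd)))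
    · have h5 : y (k - 1) = d := inL_injective
        (inR_injective (inR_injective (inR_injective (inR_injective (inR_injective hd)))))
      rw [← h5] at hdd
      exact hy2 _ hdd
  · exact ⟨sg q sem2V, sg_lt_sg.2 (sem2_BV _)⟩

theorem sem2_LB {q : Qd} {a0 : A q.col} (ha0 : ∀ a, a0 ≤ a) {k : ℕ} (hk : o q.col = some k) :
    LB (sg q (sem2A a0) : LL E A B) k := by
  have hne : Nonempty (A q.col) := sem2_ne hA q.col
  obtain ⟨y, hy0, hy1, hy2⟩ := (hA q.col).fin k hk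
  refine ⟨fun i => OrderDual.toDual (sg q (sem2A (y i))), ?_, fun i hi => ?_, fun z hz => ?_, ?_⟩
  · show OrderDual.toDual (sg q (sem2A (y 0)) : LL E A B) = OrderDual.toDual (sg q (sem2A a0))
    rw [le_antisymm (hy0 a0) (ha0 (y 0))]
  · exact toDual_covBy_toDual_iff.2 (sg_covBy_sg.2 (sem2_covA.2 (hy1 i hi)))
  · have hz' : OrderDual.ofDual z ⋖ (sg q (sem2A (y (k - 1))) : LL E A B) :=
      toDual_covBy_toDual_iff.1 hz
    obtain ⟨q', a, b, h0, h1, hab⟩ := sem2_covLL hz'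
    have h3 : q = q' := sg_fst_eq h1
    subst h3
    have h4 : sem2A (y (k - 1)) = b := sg_injective q h1
    subst h4
    rcases sem2_cov (hA q.col).nomax (hB q.col).nomax hab with ⟨d, d', _, hd, hdd⟩ |
      ⟨d, d', _, hd, _⟩ | ⟨d, d', _, hd, _⟩
    · have h5 : y (k - 1) = d' := OrderDual.toDual.injective (inL_injective (inR_injective hd))
      rw [← h5] at hdd
      exact hy2 _ hdd
    · exact inL_ne_inR _ _ (inR_injective hd)
    · exact inL_ne_inR _ _ (inR_injective hd)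
  · exact ⟨OrderDual.toDual (sg q sem2U), OrderDual.toDual_lt_toDual.2 (sg_lt_sg.2 (sem2_UA _))⟩

omit hA in
theorem sem2_RO {q : Qd} {b0 : B q.col} (hb0 : ∀ b, b0 ≤ b) (ho : o' q.col = none) :
    RO (sg q (sem2B b0) : LL E A B) := by
  obtain ⟨h1, h2⟩ := (hB q.col).inf ho
  -- the elements of the interval
  have key : ∀ y : LL E A B, sg q (sem2B b0) ≤ y → y < sg q sem2V → ∃ b, y = sg q (sem2B b) := by
    intro y h3 h4
    rcases h3.eq_or_lt with h5 | h5
    · exact ⟨b0, h5.symm⟩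
    obtain ⟨q', c, rfl⟩ := cl_sg_cases y
    have h6 : q = q' := le_antisymm (sg_lt_imp_le h5) (sg_lt_imp_le h4)
    subst h6
    have h7 := sg_lt_sg.1 h5
    have h8 := sg_lt_sg.1 h4
    rcases sem2_cases c with rfl | ⟨a, rfl⟩ | ⟨p, rfl⟩ | ⟨j, rfl⟩ | ⟨p, rfl⟩ | ⟨b', rfl⟩ | rfl
    · exact absurd h7 (sem2_not_lt_U _)
    · exact absurd (inR_lt_inR.1 h7) (not_inR_lt_inL _ _)
    · exact absurd (inR_lt_inR.1 (inR_lt_inR.1 h7)) (not_inR_lt_inL _ _)
    · exact absurd (inR_lt_inR.1 (inR_lt_inR.1 (inR_lt_inR.1 h7))) (not_inR_lt_inL _ _)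
    · exact absurd (inR_lt_inR.1 (inR_lt_inR.1 (inR_lt_inR.1 (inR_lt_inR.1 h7))))
        (not_inR_lt_inL _ _)
    · exact ⟨b', rfl⟩
    · exact absurd h8 (lt_irrefl _)
  have hinj : Function.Injective (fun b : B q.col => (sg q (sem2B b) : LL E A B)) := by
    intro b b' h
    exact inL_injective (inR_injective (inR_injective (inR_injective (inR_injective
      (inR_injective (sg_injective q h))))))
  refine ⟨sg q sem2V, sg_lt_sg.2 (sem2_BV _), ?_, fun g h3 h4 => ?_⟩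
  · refine (Set.infinite_range_of_injective hinj).mono ?_
    rintro _ ⟨b, rfl⟩
    refine ⟨?_, sg_lt_sg.2 (sem2_BV _)⟩
    refine not_lt.1 fun h => ?_
    exact absurd (sem2_BB.1 (sg_lt_sg.1 h)) (not_lt.2 (hb0 b))
  · obtain ⟨c, rfl⟩ := key g h3 h4
    refine ((h2 c).image (fun b : B q.col => (sg q (sem2B b) : LL E A B))).subset ?_
    rintro y ⟨h5, h6⟩
    obtain ⟨b, rfl⟩ := key y h5 (h6.trans h4)
    exact ⟨b, sem2_BB.1 (sg_lt_sg.1 h6), rfl⟩

/-- locations in sums of components -/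
theorem sem2_LL {e : ℕ} {x : ℕ → LL E A B} (hx : Loc e x) : ∃ i, E i = e ∧
    (∀ k, o i = some k → LB (x (2 * e + 3)) k) ∧ (∀ k, o' i = some k → RB (x (2 * e + 5)) k) ∧
    (o' i = none → RO (x (2 * e + 5))) := by
  obtain ⟨q, hq, h0, h1⟩ := sem2_block hA hB hx.chain
    (fun z hz => by
      have h1 : x (2 * e + 3) ≤ z := not_lt.1 fun h => by
        exact hz.2 h hx.ltL
      obtain ⟨w, hw1, hw2⟩ := hx.denseL z (x 0) h1 hz.1 le_rfl
      exact hz.2 hw1 hw2)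
    (fun z hz => by
      have h1 : z ≤ x (2 * e + 5) := not_lt.1 fun h => by
        exact hz.2 hx.ltR h
      obtain ⟨w, hw1, hw2⟩ := hx.denseR (x (2 * e + 2)) z le_rfl hz.1 h1
      exact hz.2 hw1 hw2)
  have e0 := h0 ⟨0, by omega⟩ rfl
  have e1 := h1 ⟨2 * e + 2, by omega⟩ rfl
  obtain ⟨b0, hb0, hb1⟩ := sem2_right hA hB (q := q) (i := ⟨2 * e + 2, by omega⟩)
    (s := x (2 * e + 5)) (s' := x (2 * e + 6))
    (fun j => by
      have := j.isLt
      show j.val ≤ 2 * e + 2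
      omega)
    (by rw [← e1]; exact hx.ltR) (by rw [← e1]; exact hx.denseR) hx.covR
  obtain ⟨a0, ha0, ha1⟩ := sem2_left hA hB (q := q) (i := ⟨0, by omega⟩)
    (s := x (2 * e + 3)) (s' := x (2 * e + 4)) (fun j => Nat.zero_le j.val)
    (by rw [← e0]; exact hx.ltL) (by rw [← e0]; exact hx.denseL) hx.covL
  refine ⟨q.col, hq, fun k hk => ?_, fun k hk => ?_, fun hk => ?_⟩
  · rw [ha1]
    exact sem2_LB hA hB ha0 hk
  · rw [hb1]
    exact sem2_RB hA hB hb0 hk
  · rw [hb1]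
    exact sem2_RO hB hb0 hk

end loc

theorem sem2_main : StmtSem2 := by
  intro t ht e x hx
  have hA : ∀ i, Sem2Con (Cn ((t i).2.map Prod.fst)) ((t i).2.map Prod.fst) := fun i =>
    sem2_con _ fun k hk => by
      obtain ⟨u, hu, rfl⟩ := Option.map_eq_some_iff.1 hk
      exact ⟨(ht i u hu).1, (ht i u hu).2.1⟩
  have hB : ∀ i, Sem2Con (Cn ((t i).2.map Prod.snd)) ((t i).2.map Prod.snd) := fun i =>
    sem2_con _ fun k hk => by
      obtain ⟨u, hu, rfl⟩ := Option.map_eq_some_iff.1 hk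
      exact ⟨(ht i u hu).2.2.1, (ht i u hu).2.2.2⟩
  obtain ⟨i, hi, h1, h2, h3⟩ := sem2_LL hA hB hx
  refine ⟨i, hi, fun u hu => ⟨h1 u.1 ?_, h2 u.2 ?_⟩, fun hn => h3 ?_⟩
  · rw [hu]; rfl
  · rw [hu]; rfl
  · rw [hn]; rfl

end Pool.Agent.Downey
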