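import Pool.Agent.Downey.Stmts
import Pool.Agent.NonLow.Univ
import Pool.Agent.NonLow.Comp

/-!
# UN: universal data
-/

set_option autoImplicit false

namespace Pool.Agent.Downey

open Pool.Agent.NonLow (Qd Sg Dl Z Pr dec HH univ_HH)
open Nat.Partrec (Code)

/-- the run of the second code of `e` on `(e, l, i)` for `s` steps -/
def univRun (e l i s : ℕ) : Option ℕ :=
  Nat.Partrec.Code.evaln s (Denumerable.ofNat Nat.Partrec.Code e.unpair.2)
    (Encodable.encode ((e, l, i) : ℕ × ℕ × ℕ))

/-- the index which is processed at time `s` -/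
def univCur (e l : ℕ) : ℕ → ℕ := fun s =>
  Nat.rec 0 (fun s c => if (univRun e l c s).isSome = true then c + 1 else c) s

/-- the insertion sequence -/
def univP (e l s : ℕ) : Pt :=
  (univRun e l (univCur e l s) s).bind fun v =>
    ((Encodable.decode (α := Pt) v).getD none)

theorem univCur_succ (e l s : ℕ) : univCur e l (s + 1) =
    if (univRun e l (univCur e l s) s).isSome = true then univCur e l s + 1
      else univCur e l s := rfl

theorem univRun_prim : Primrec (fun x : (ℕ × ℕ) × ℕ × ℕ => univRun x.1.1 x.1.2 x.2.1 x.2.2) := by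
  unfold univRun
  refine Nat.Partrec.Code.primrec_evaln.comp
    (f := fun a : (ℕ × Nat.Partrec.Code) × ℕ => Nat.Partrec.Code.evaln a.1.1 a.1.2 a.2)
    (g := fun x : (ℕ × ℕ) × ℕ × ℕ =>
      ((x.2.2, Denumerable.ofNat Nat.Partrec.Code x.1.1.unpair.2),
        Encodable.encode ((x.1.1, x.1.2, x.2.1) : ℕ × ℕ × ℕ))) ?_
  refine Primrec.pair (Primrec.pair (Primrec.snd.comp Primrec.snd) ?_) ?_
  · exact (Primrec.ofNat _).comp (Primrec.snd.comp (Primrec.unpair.comp
      (Primrec.fst.comp Primrec.fst)))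
  · exact Primrec.encode.comp (Primrec.pair (Primrec.fst.comp Primrec.fst)
      (Primrec.pair (Primrec.snd.comp Primrec.fst) (Primrec.fst.comp Primrec.snd)))

theorem univCur_prim : Primrec (fun x : ℕ × ℕ × ℕ => univCur x.1 x.2.1 x.2.2) := by
  unfold univCur
  refine Primrec.nat_rec' (f := fun x : ℕ × ℕ × ℕ => x.2.2) (g := fun _ => 0)
    (h := fun (x : ℕ × ℕ × ℕ) (p : ℕ × ℕ) =>
      if (univRun x.1 x.2.1 p.2 p.1).isSome = true then p.2 + 1 else p.2)
    (Primrec.snd.comp Primrec.snd) (Primrec.const 0) ?_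
  have h1 : Primrec (fun y : (ℕ × ℕ × ℕ) × (ℕ × ℕ) =>
      (univRun y.1.1 y.1.2.1 y.2.2 y.2.1).isSome) := by
    refine Primrec.option_isSome.comp (univRun_prim.comp
      (g := fun y : (ℕ × ℕ × ℕ) × (ℕ × ℕ) => (((y.1.1, y.1.2.1) : ℕ × ℕ), (y.2.2, y.2.1))) ?_)
    exact Primrec.pair (Primrec.pair (Primrec.fst.comp Primrec.fst)
      (Primrec.fst.comp (Primrec.snd.comp Primrec.fst)))
      (Primrec.pair (Primrec.snd.comp Primrec.snd) (Primrec.fst.comp Primrec.snd))
  refine Primrec.ite (Primrec.eq.comp h1 (Primrec.const true)) ?_ ?_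
  · exact Primrec.succ.comp (Primrec.snd.comp Primrec.snd)
  · exact Primrec.snd.comp Primrec.snd

theorem univP_prim : Primrec (fun x : ℕ × ℕ × ℕ => univP x.1 x.2.1 x.2.2) := by
  unfold univP
  refine Primrec.option_bind ?_ ?_
  · refine univRun_prim.comp
      (g := fun x : ℕ × ℕ × ℕ => (((x.1, x.2.1) : ℕ × ℕ), (univCur x.1 x.2.1 x.2.2, x.2.2))) ?_
    exact Primrec.pair (Primrec.pair Primrec.fst (Primrec.fst.comp Primrec.snd))
      (Primrec.pair univCur_prim (Primrec.snd.comp Primrec.snd))
  · exact Primrec.option_getD.comp (Primrec.decode.comp Primrec.snd) (Primrec.const none)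

theorem univCur_mono (e l : ℕ) : Monotone (univCur e l) := by
  refine monotone_nat_of_le_succ fun s => ?_
  rw [univCur_succ]
  split_ifs
  · exact Nat.le_succ _
  · exact le_rfl

/-- the data -/
def univD : Data where
  Tr := fun x => ∀ a, HH x.1.unpair.1 (Encodable.encode ((x.1, x.2, a) : ℕ × ℕ × ℕ))
  p := univP

theorem univD_ok : univD.ok := by
  refine ⟨⟨fun y : (ℕ × ℕ) × ℕ =>
    ¬ HH y.1.1.unpair.1 (Encodable.encode ((y.1.1, y.1.2, y.2) : ℕ × ℕ × ℕ)), ?_, ?_⟩, ?_⟩
  · have h := univ_HH.comp (f := fun y : (ℕ × ℕ) × ℕ =>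
      ((y.1.1.unpair.1, Encodable.encode ((y.1.1, y.1.2, y.2) : ℕ × ℕ × ℕ)) : ℕ × ℕ)) (by
        refine Primrec.to_comp ?_
        refine Primrec.pair ?_ ?_
        · exact Primrec.fst.comp (Primrec.unpair.comp (Primrec.fst.comp Primrec.fst))
        · exact Primrec.encode.comp (Primrec.pair (Primrec.fst.comp Primrec.fst)
            (Primrec.pair (Primrec.snd.comp Primrec.fst) Primrec.snd)))
    simp only [not_not]
    exact h
  · intro x
    show ¬ (∀ a, HH x.1.unpair.1 (Encodable.encode ((x.1, x.2, a) : ℕ × ℕ × ℕ))) ↔ _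
    exact not_forall
  · exact univP_prim.to_comp

/-- UN: universal data. -/
theorem univ_main : StmtUniv := by
  refine ⟨univD, univD_ok, ?_⟩
  intro P q hP hq
  obtain ⟨c1, hc1⟩ := Pool.Agent.NonLow.univ_main.2.1 P hP
  -- the code of the sequence
  have hf : Computable (fun n : ℕ => Encodable.encode
      (q ((Encodable.decode (α := ℕ × ℕ × ℕ) n).getD (0, 0, 0)))) := by
    refine Computable.encode.comp (hq.comp ?_)
    exact (Primrec.option_getD.comp Primrec.decode (Primrec.const (0, 0, 0))).to_comp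
  obtain ⟨c2, hc2⟩ := Nat.Partrec.Code.exists_code.1 (Partrec.nat_iff.1 hf)
  set e := Nat.pair c1 (Encodable.encode c2) with he
  have he1 : e.unpair.1 = c1 := by rw [he, Nat.unpair_pair]
  have he2 : Denumerable.ofNat Nat.Partrec.Code e.unpair.2 = c2 := by
    rw [he, Nat.unpair_pair, Denumerable.ofNat_encode]
  refine ⟨e, ?_, ?_⟩
  · intro l
    rw [hc1 e l]
    show (∀ a, HH e.unpair.1 (Encodable.encode ((e, l, a) : ℕ × ℕ × ℕ))) ↔ _
    rw [he1]
  · intro l
    -- values of the run
    have hev : ∀ i, Encodable.encode (q (e, l, i)) ∈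
        c2.eval (Encodable.encode ((e, l, i) : ℕ × ℕ × ℕ)) := by
      intro i
      rw [hc2]
      simp
    have hrun : ∀ i s v, univRun e l i s = some v → v = Encodable.encode (q (e, l, i)) := by
      intro i s v h
      have h1 : v ∈ Nat.Partrec.Code.evaln s (Denumerable.ofNat Nat.Partrec.Code e.unpair.2)
        (Encodable.encode ((e, l, i) : ℕ × ℕ × ℕ)) := h
      rw [he2] at h1
      exact Part.mem_unique (Nat.Partrec.Code.evaln_sound h1) (hev i)
    have hhalt : ∀ i, ∃ k, ∀ s, k ≤ s → (univRun e l i s).isSome = true := by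
      intro i
      obtain ⟨k, hk⟩ := Nat.Partrec.Code.evaln_complete.1 (hev i)
      refine ⟨k, fun s hs => ?_⟩
      have h1 := Nat.Partrec.Code.evaln_mono hs hk
      rw [Option.isSome_iff_exists]
      refine ⟨Encodable.encode (q (e, l, i)), ?_⟩
      unfold univRun
      rw [he2]
      exact h1
    refine ⟨univCur e l, rfl, ?_, ?_⟩
    · intro s
      show (_ ∧ univP e l s = _) ∨ (_ ∧ univP e l s = _)
      rw [univCur_succ]
      rcases hr : univRun e l (univCur e l s) s with _ | v
      · right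
        refine ⟨by simp, ?_⟩
        unfold univP
        rw [hr]
        rfl
      · left
        refine ⟨by simp, ?_⟩
        unfold univP
        rw [hr, hrun _ _ _ hr]
        simp [Encodable.encodek]
    · intro n
      induction n with
      | zero => exact ⟨0, Nat.zero_le _⟩
      | succ n ih =>
        obtain ⟨s, hs⟩ := ih
        rcases Nat.lt_or_ge n (univCur e l s) with h1 | h1
        · exact ⟨s, h1⟩
        · obtain ⟨k, hk⟩ := hhalt n
          have h2 : n ≤ univCur e l (max s k) := hs.trans (univCur_mono e l (le_max_left s k))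
          rcases Nat.lt_or_ge n (univCur e l (max s k)) with h3 | h3
          · exact ⟨max s k, h3⟩
          · have h4 : univCur e l (max s k) = n := le_antisymm h3 h2
            refine ⟨max s k + 1, ?_⟩
            rw [univCur_succ, h4, if_pos (hk _ (le_max_right s k))]

end Pool.Agent.Downey
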