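import Pool.Agent.Downey.Stmts

/-!
# The chase stops
-/

set_option autoImplicit false

namespace Pool.Agent.Downey

open Pool.Agent.NonLow (Qd Sg Dl Z Pr dec)

theorem w1_ge (p : ℕ → Pt) (hp : Computable p) :
    Sg Z 0 (fun q : (Bool × ℕ) × ℕ => ¬ Ge p q.1.1 q.1.2 q.2) := by
  have h : Sg Z 0 (fun w : ((Bool × ℕ) × ℕ) × (ℕ × ℕ) =>
      (w.1.1.2 ≤ w.2.1 ∧ p w.2.1 = some (w.1.1.1, w.2.2)) ∧ w.2.2 < w.1.2) := by
    have h1 : Dl Z 0 (fun w : ((Bool × ℕ) × ℕ) × (ℕ × ℕ) => w.1.1.2 ≤ w.2.1) :=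
      NonLow.Dl.le (Computable.snd.comp (Computable.fst.comp Computable.fst))
        (Computable.fst.comp Computable.snd)
    have h2 : Dl Z 0 (fun w : ((Bool × ℕ) × ℕ) × (ℕ × ℕ) =>
        p w.2.1 = some (w.1.1.1, w.2.2)) :=
      NonLow.Dl.eq (hp.comp (Computable.fst.comp Computable.snd))
        (Computable.option_some.comp
          ((Computable.fst.comp (Computable.fst.comp Computable.fst)).pair
            (Computable.snd.comp Computable.snd)))
    have h3 : Dl Z 0 (fun w : ((Bool × ℕ) × ℕ) × (ℕ × ℕ) => w.2.2 < w.1.2) :=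
      NonLow.Dl.lt (Computable.snd.comp Computable.snd) (Computable.snd.comp Computable.fst)
    exact ((h1.and h2).and h3).1
  refine (NonLow.Sg.ex (P := fun (q : (Bool × ℕ) × ℕ) (w : ℕ × ℕ) =>
    (q.1.2 ≤ w.1 ∧ p w.1 = some (q.1.1, w.2)) ∧ w.2 < q.2) h).of_iff fun q => ?_
  unfold Ge
  push Not
  constructor
  · rintro ⟨t, h1, k, h2, h3⟩
    exact ⟨(t, k), ⟨h1, h2⟩, h3⟩
  · rintro ⟨⟨t, k⟩, ⟨h1, h2⟩, h3⟩
    exact ⟨t, h1, k, h2, h3⟩

theorem w1_na (p : ℕ → Pt) (hp : Computable p) :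
    Dl Z 1 (fun q : (Bool × ℕ) × ℕ => NA p q.1.1 q.1.2 q.2) := by
  have h : Sg Z 0 (fun w : ((Bool × ℕ) × ℕ) × ℕ =>
      w.1.1.2 ≤ w.2 ∧ p w.2 = some (w.1.1.1, w.1.2)) := by
    have h1 : Dl Z 0 (fun w : ((Bool × ℕ) × ℕ) × ℕ => w.1.1.2 ≤ w.2) :=
      NonLow.Dl.le (Computable.snd.comp (Computable.fst.comp Computable.fst)) Computable.snd
    have h2 : Dl Z 0 (fun w : ((Bool × ℕ) × ℕ) × ℕ => p w.2 = some (w.1.1.1, w.1.2)) :=
      NonLow.Dl.eq (hp.comp Computable.snd)
        (Computable.option_some.comp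
          ((Computable.fst.comp (Computable.fst.comp Computable.fst)).pair
            (Computable.snd.comp Computable.fst)))
    exact (h1.and h2).1
  have h2 := NonLow.Sg.ex (P := fun (q : (Bool × ℕ) × ℕ) (t : ℕ) =>
    q.1.2 ≤ t ∧ p t = some (q.1.1, q.2)) h
  exact (NonLow.Sg.dlc (P := fun q : (Bool × ℕ) × ℕ => Ge p q.1.1 q.1.2 q.2)
    (w1_ge p hp)).and h2.dl

/-- the vector `u + 2 (x, y)` is met -/
def W1Q (p : ℕ → Pt) (u : ℕ × ℕ) (q : ℕ × ℕ) : Prop :=
  ∃ a, NA p false a (u.1 + 2 * q.1) ∧ NA p true a (u.2 + 2 * q.2)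

theorem w1_q (p : ℕ → Pt) (hp : Computable p) (u : ℕ × ℕ) : Sg Z 1 (W1Q p u) := by
  have hadd : Computable₂ (fun a b : ℕ => a + b) := Primrec.nat_add.to_comp
  have hmul : Computable₂ (fun a b : ℕ => a * b) := Primrec.nat_mul.to_comp
  have h1 : Computable (fun w : (ℕ × ℕ) × ℕ => ((false, w.2), u.1 + 2 * w.1.1)) :=
    ((Computable.const false).pair Computable.snd).pair
      (hadd.comp (Computable.const _) (hmul.comp (Computable.const _)
        (Computable.fst.comp Computable.fst)))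
  have h2 : Computable (fun w : (ℕ × ℕ) × ℕ => ((true, w.2), u.2 + 2 * w.1.2)) :=
    ((Computable.const true).pair Computable.snd).pair
      (hadd.comp (Computable.const _) (hmul.comp (Computable.const _)
        (Computable.snd.comp Computable.fst)))
  have h := ((w1_na p hp).comp h1).and ((w1_na p hp).comp h2)
  exact NonLow.Sg.ex (P := fun (q : ℕ × ℕ) (a : ℕ) =>
    NA p false a (u.1 + 2 * q.1) ∧ NA p true a (u.2 + 2 * q.2)) h.1

theorem w1_mono (p : ℕ → Pt) (c : Bool) {a a' v v' : ℕ} (h : a ≤ a') (hv : NA p c a v)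
    (hv' : NA p c a' v') : v ≤ v' := by
  obtain ⟨_, t, ht, hp⟩ := hv'
  exact hv.1 t (le_trans h ht) _ hp

theorem w1_comp (p : ℕ → Pt) (u : ℕ × ℕ) {x y x' y' : ℕ} (h : W1Q p u (x, y))
    (h' : W1Q p u (x', y')) (hs : x + y = x' + y') : x = x' ∧ y = y' := by
  obtain ⟨a, h1, h2⟩ := h
  obtain ⟨a', h3, h4⟩ := h'
  rcases le_total a a' with h5 | h5
  · have h6 := w1_mono p false h5 h1 h3
    have h7 := w1_mono p true h5 h2 h4
    simp only at h6 h7
    omega
  · have h6 := w1_mono p false h5 h3 h1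
    have h7 := w1_mono p true h5 h4 h2
    simp only at h6 h7
    omega

theorem w1_main : StmtW1 := by
  classical
  intro A hA p hp u n0
  by_contra hcon
  push Not at hcon
  set d : ℕ → ℕ := fun i => ((Finset.range i).filter fun j => ¬ A j).card with hd
  set c : ℕ → ℕ := fun i => ((Finset.range i).filter fun j => A j).card with hc
  have hQ : ∀ i, W1Q p u (d i, c i) := by
    intro i
    obtain ⟨a, _, h⟩ := hcon i
    refine ⟨a, ?_, ?_⟩
    · have := h false
      simp only [sel, kap, cond] at this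
      convert this using 3
    · have := h true
      simp only [sel, kap, cond] at this
      convert this using 3
  have hsum : ∀ i, d i + c i = i := by
    intro i
    have := Finset.card_filter_add_card_filter_not (s := Finset.range i) (fun j => A j)
    rw [Finset.card_range] at this
    simp only [hd, hc]
    omega
  have hcA : ∀ i, A i → d (i + 1) = d i ∧ c (i + 1) = c i + 1 := by
    intro i hi
    have h1 : c (i + 1) = c i + 1 := by
      simp only [hc, Finset.range_add_one, Finset.filter_insert, hi, if_true]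
      rw [Finset.card_insert_of_notMem (by simp)]
    have h2 := hsum i
    have h3 := hsum (i + 1)
    exact ⟨by omega, h1⟩
  have hcN : ∀ i, ¬ A i → d (i + 1) = d i + 1 ∧ c (i + 1) = c i := by
    intro i hi
    have h1 : c (i + 1) = c i := by
      simp only [hc, Finset.range_add_one, Finset.filter_insert, hi, if_false]
    have h2 := hsum i
    have h3 := hsum (i + 1)
    exact ⟨by omega, h1⟩
  have hadd : Computable₂ (fun a b : ℕ => a + b) := Primrec.nat_add.to_comp
  have hsumD : Dl Z 1 (fun w : ℕ × (ℕ × ℕ) => w.2.1 + w.2.2 = w.1) :=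
    NonLow.Dl.eq (hadd.comp (Computable.fst.comp Computable.snd)
      (Computable.snd.comp Computable.snd)) Computable.fst
  have hq0 : Sg Z 1 (fun w : ℕ × (ℕ × ℕ) => W1Q p u w.2) :=
    (w1_q p hp u).comp Computable.snd
  have hq1 : Sg Z 1 (fun w : ℕ × (ℕ × ℕ) => W1Q p u (w.2.1, w.2.2 + 1)) :=
    (w1_q p hp u).comp (f := fun w : ℕ × (ℕ × ℕ) => (w.2.1, w.2.2 + 1))
      ((Computable.fst.comp Computable.snd).pair
        (Computable.succ.comp (Computable.snd.comp Computable.snd)))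
  have hq2 : Sg Z 1 (fun w : ℕ × (ℕ × ℕ) => W1Q p u (w.2.1 + 1, w.2.2)) :=
    (w1_q p hp u).comp (f := fun w : ℕ × (ℕ × ℕ) => (w.2.1 + 1, w.2.2))
      ((Computable.succ.comp (Computable.fst.comp Computable.snd)).pair
        (Computable.snd.comp Computable.snd))
  apply hA
  constructor
  · refine (NonLow.Sg.ex (P := fun (i : ℕ) (w : ℕ × ℕ) =>
      (w.1 + w.2 = i ∧ W1Q p u w) ∧ W1Q p u (w.1, w.2 + 1)) ((hsumD.1.and hq0).and hq1)).of_iff
      fun i => ?_
    constructor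
    · intro hi
      refine ⟨(d i, c i), ⟨hsum i, hQ i⟩, ?_⟩
      have := hQ (i + 1)
      rw [(hcA i hi).1, (hcA i hi).2] at this
      exact this
    · rintro ⟨⟨x, y⟩, ⟨h1, h2⟩, h3⟩
      simp only at h1 h3
      by_contra hi
      obtain ⟨h4, h5⟩ := w1_comp p u h2 (hQ i) (by rw [hsum i, h1])
      obtain ⟨h6, h7⟩ := w1_comp p u h3 (hQ (i + 1)) (by rw [hsum (i + 1)]; omega)
      have := hcN i hi
      omega
  · refine (NonLow.Sg.ex (P := fun (i : ℕ) (w : ℕ × ℕ) =>
      (w.1 + w.2 = i ∧ W1Q p u w) ∧ W1Q p u (w.1 + 1, w.2)) ((hsumD.1.and hq0).and hq2)).of_iff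
      fun i => ?_
    constructor
    · intro hi
      refine ⟨(d i, c i), ⟨hsum i, hQ i⟩, ?_⟩
      have := hQ (i + 1)
      rw [(hcN i hi).1, (hcN i hi).2] at this
      exact this
    · rintro ⟨⟨x, y⟩, ⟨h1, h2⟩, h3⟩ hi
      simp only at h1 h3
      obtain ⟨h4, h5⟩ := w1_comp p u h2 (hQ i) (by rw [hsum i, h1])
      obtain ⟨h6, h7⟩ := w1_comp p u h3 (hQ (i + 1)) (by rw [hsum (i + 1)]; omega)
      have := hcA i hi
      omega

end Pool.Agent.Downey
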