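import Pool.Agent.Downey.Stmts

/-!
# The final vector of the chase, and start values which are not met
-/

set_option autoImplicit false

namespace Pool.Agent.Downey

lemma w23_kap_mono (A : ℕ → Prop) (u : ℕ × ℕ) (c : Bool) {i j : ℕ} (h : i ≤ j) :
    sel c (kap A u i) ≤ sel c (kap A u j) := by
  classical
  have hs : Finset.range i ⊆ Finset.range j := Finset.range_mono h
  cases c
  · unfold sel kap
    simp only [cond_false]
    refine Nat.add_le_add_left (Nat.mul_le_mul_left 2 ?_) _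
    exact Finset.card_le_card (Finset.filter_subset_filter _ hs)
  · unfold sel kap
    simp only [cond_true]
    refine Nat.add_le_add_left (Nat.mul_le_mul_left 2 ?_) _
    exact Finset.card_le_card (Finset.filter_subset_filter _ hs)

lemma w23_kap_zero (A : ℕ → Prop) (u : ℕ × ℕ) : kap A u 0 = u := by
  classical
  unfold kap
  simp

lemma w23_ge_mono {p : ℕ → Pt} {c : Bool} {a b v : ℕ} (h : Ge p c a v) (hab : a ≤ b) :
    Ge p c b v := fun t ht k hk => h t (hab.trans ht) k hk

theorem w2_main : StmtW2 := by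
  classical
  intro A p u n0 hex
  have hi := Nat.find_spec hex
  refine ⟨Nat.find hex, fun c n => ⟨?_, fun hn => ?_⟩, fun hL => ?_⟩
  · rintro ⟨i', h1, h2⟩
    have h3 : i' ≤ Nat.find hex := by
      by_contra hcon
      exact hi (h1 _ (not_le.mp hcon))
    exact lt_of_lt_of_le h2 (w23_kap_mono A u c h3)
  · refine ⟨Nat.find hex, fun i' hi' => ?_, hn⟩
    by_contra hcon
    exact Nat.find_min hex hi' hcon
  · apply hi
    obtain ⟨⟨a1, h1⟩, h1'⟩ := hL false
    obtain ⟨⟨a2, h2⟩, h2'⟩ := hL true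
    refine ⟨max n0 (max a1 a2), le_max_left _ _, fun c => ?_⟩
    cases c
    · exact ⟨w23_ge_mono h1 (le_trans (le_max_left a1 a2) (le_max_right _ _)), h1' _⟩
    · exact ⟨w23_ge_mono h2 (le_trans (le_max_right a1 a2) (le_max_right _ _)), h2' _⟩

theorem w3_main : StmtW3 := by
  classical
  intro A p u hL
  by_contra hcon
  apply hL
  have key : ∀ a0, ∃ a, a0 ≤ a ∧ ∀ c, NA p c a (sel c u) := by
    intro a0
    by_contra h1
    apply hcon
    refine ⟨a0, fun n0 hn0 hP => h1 ?_⟩
    obtain ⟨a, ha, h2⟩ := hP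
    rw [w23_kap_zero] at h2
    exact ⟨a, hn0.trans ha, h2⟩
  intro c
  refine ⟨?_, fun a => ?_⟩
  · obtain ⟨a, -, h⟩ := key 0
    exact ⟨a, (h c).1⟩
  · obtain ⟨b, hb, h⟩ := key a
    obtain ⟨t, ht, h2⟩ := (h c).2
    exact ⟨t, hb.trans ht, h2⟩

end Pool.Agent.Downey
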