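import Pool.Agent.Downey.Stmts
import Pool.Agent.NonLow.Comp

/-!
# Complexity of the chase
-/

set_option autoImplicit false

namespace Pool.Agent.Downey

open Pool.Agent.NonLow (Qd Sg Dl Z Pr dec)
open Pool.Agent.NonLow

/-- counting the `true` entries of a list of bits -/
theorem w4_cntT (h2 : StmtC2) (X : ℕ → ℕ) :
    (open Classical in
    Sg X 0 (fun q : (List Bool × ℕ) × ℕ =>
      ((Finset.range q.1.2).filter fun j => q.1.1.getD j false = true).card = q.2)) := by
  have hP : Dl X 0 (fun q : List Bool × ℕ => q.1.getD q.2 false = true) :=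
    Dl.of_bool ((Primrec.list_getD false).to_comp.comp Computable.fst Computable.snd)
      (fun x => Iff.rfl)
  convert (h2 X (List Bool) _ hP).1

theorem w4_cntF (h2 : StmtC2) (X : ℕ → ℕ) :
    (open Classical in
    Sg X 0 (fun q : (List Bool × ℕ) × ℕ =>
      ((Finset.range q.1.2).filter fun j => ¬ q.1.1.getD j false = true).card = q.2)) := by
  have hP : Dl X 0 (fun q : List Bool × ℕ => q.1.getD q.2 false = true) :=
    Dl.of_bool ((Primrec.list_getD false).to_comp.comp Computable.fst Computable.snd)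
      (fun x => Iff.rfl)
  convert (h2 X (List Bool) _ hP.not).1

open Classical in
theorem w4_kap_iff (A : ℕ → Prop) (u : ℕ × ℕ) (i : ℕ) (v : ℕ × ℕ) :
    kap A u i = v ↔ ∃ w : List Bool, (∀ j, j < i → (w.getD j false = true ↔ A j)) ∧
      (u.1 + 2 * ((Finset.range i).filter fun j => ¬ w.getD j false = true).card = v.1 ∧
        u.2 + 2 * ((Finset.range i).filter fun j => w.getD j false = true).card = v.2) := by
  have key : ∀ w : List Bool, (∀ j, j < i → (w.getD j false = true ↔ A j)) →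
      ((Finset.range i).filter fun j => ¬ w.getD j false = true) =
        ((Finset.range i).filter fun j => ¬ A j) ∧
      ((Finset.range i).filter fun j => w.getD j false = true) =
        ((Finset.range i).filter fun j => A j) := by
    intro w hw
    constructor
    · refine Finset.filter_congr fun j hj => ?_
      rw [hw j (Finset.mem_range.1 hj)]
    · refine Finset.filter_congr fun j hj => ?_
      rw [hw j (Finset.mem_range.1 hj)]
  constructor
  · intro h
    refine ⟨(List.range i).map fun j => decide (A j), ?_, ?_⟩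
    · intro j hj
      simp [hj]
    · have hw : ∀ j, j < i → (((List.range i).map fun j => decide (A j)).getD j false = true ↔
          A j) := by
        intro j hj
        simp [hj]
      rw [(key _ hw).1, (key _ hw).2, ← h]
      exact ⟨rfl, rfl⟩
  · rintro ⟨w, hw, h1, h2⟩
    rw [(key w hw).1] at h1
    rw [(key w hw).2] at h2
    refine Prod.ext ?_ ?_
    · exact h1
    · exact h2

theorem w4_kap (h2 : StmtC2) (X : ℕ → ℕ) (A : ℕ → Prop) (hA : Sg X 0 A) :
    Sg X 1 (fun q : ((ℕ × ℕ) × ℕ) × (ℕ × ℕ) => kap A q.1.1 q.1.2 = q.2) := by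
  classical
  have hP : Dl X 0 (fun q : List Bool × ℕ => q.1.getD q.2 false = true) :=
    Dl.of_bool ((Primrec.list_getD false).to_comp.comp Computable.fst Computable.snd)
      (fun x => Iff.rfl)
  have hball : Sg X 1 (fun p : (((ℕ × ℕ) × ℕ) × (ℕ × ℕ)) × List Bool =>
      ∀ j, j < p.1.1.2 → (p.2.getD j false = true ↔ A j)) := by
    refine Sg.ball (P := fun (p : (((ℕ × ℕ) × ℕ) × (ℕ × ℕ)) × List Bool) (j : ℕ) =>
      (p.2.getD j false = true ↔ A j)) ?_
      (Computable.snd.comp (Computable.fst.comp Computable.fst))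
    have ha : Dl X 1 (fun r : ((((ℕ × ℕ) × ℕ) × (ℕ × ℕ)) × List Bool) × ℕ =>
        r.1.2.getD r.2 false = true) :=
      hP.up.comp (f := fun r : ((((ℕ × ℕ) × ℕ) × (ℕ × ℕ)) × List Bool) × ℕ => (r.1.2, r.2))
        ((Computable.snd.comp Computable.fst).pair Computable.snd)
    have hb : Dl X 1 (fun r : ((((ℕ × ℕ) × ℕ) × (ℕ × ℕ)) × List Bool) × ℕ => A r.2) :=
      hA.dl.comp Computable.snd
    exact (ha.iff hb).1
  have hF : Sg X 1 (fun p : (((ℕ × ℕ) × ℕ) × (ℕ × ℕ)) × List Bool =>
      p.1.1.1.1 + 2 * ((Finset.range p.1.1.2).filter fun j => ¬ p.2.getD j false = true).card =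
        p.1.2.1) := by
    refine Sg.fsub (P := fun (p : (((ℕ × ℕ) × ℕ) × (ℕ × ℕ)) × List Bool) (n : ℕ) =>
      p.1.1.1.1 + 2 * n = p.1.2.1) (f := fun p : (((ℕ × ℕ) × ℕ) × (ℕ × ℕ)) × List Bool =>
      ((Finset.range p.1.1.2).filter fun j => ¬ p.2.getD j false = true).card) ?_ ?_
    · exact (w4_cntF h2 X).up.comp
        (f := fun p : ((((ℕ × ℕ) × ℕ) × (ℕ × ℕ)) × List Bool) × ℕ =>
          ((p.1.2, p.1.1.1.2), p.2))
        (((Computable.snd.comp Computable.fst).pair
          (Computable.snd.comp (Computable.fst.comp (Computable.fst.comp Computable.fst)))).pair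
          Computable.snd)
    · exact (Dl.eq (Primrec.nat_add.to_comp.comp
        (Computable.fst.comp (Computable.fst.comp (Computable.fst.comp
          (Computable.fst.comp Computable.fst))))
        (Primrec.nat_mul.to_comp.comp (Computable.const 2) Computable.snd))
        (Computable.fst.comp (Computable.snd.comp (Computable.fst.comp Computable.fst)))).1
  have hT : Sg X 1 (fun p : (((ℕ × ℕ) × ℕ) × (ℕ × ℕ)) × List Bool =>
      p.1.1.1.2 + 2 * ((Finset.range p.1.1.2).filter fun j => p.2.getD j false = true).card =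
        p.1.2.2) := by
    refine Sg.fsub (P := fun (p : (((ℕ × ℕ) × ℕ) × (ℕ × ℕ)) × List Bool) (n : ℕ) =>
      p.1.1.1.2 + 2 * n = p.1.2.2) (f := fun p : (((ℕ × ℕ) × ℕ) × (ℕ × ℕ)) × List Bool =>
      ((Finset.range p.1.1.2).filter fun j => p.2.getD j false = true).card) ?_ ?_
    · exact (w4_cntT h2 X).up.comp
        (f := fun p : ((((ℕ × ℕ) × ℕ) × (ℕ × ℕ)) × List Bool) × ℕ =>
          ((p.1.2, p.1.1.1.2), p.2))
        (((Computable.snd.comp Computable.fst).pair
          (Computable.snd.comp (Computable.fst.comp (Computable.fst.comp Computable.fst)))).pair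
          Computable.snd)
    · exact (Dl.eq (Primrec.nat_add.to_comp.comp
        (Computable.snd.comp (Computable.fst.comp (Computable.fst.comp
          (Computable.fst.comp Computable.fst))))
        (Primrec.nat_mul.to_comp.comp (Computable.const 2) Computable.snd))
        (Computable.snd.comp (Computable.snd.comp (Computable.fst.comp Computable.fst)))).1
  refine (Sg.ex (P := fun (q : ((ℕ × ℕ) × ℕ) × (ℕ × ℕ)) (w : List Bool) =>
    (∀ j, j < q.1.2 → (w.getD j false = true ↔ A j)) ∧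
      (q.1.1.1 + 2 * ((Finset.range q.1.2).filter fun j => ¬ w.getD j false = true).card = q.2.1 ∧
        q.1.1.2 + 2 * ((Finset.range q.1.2).filter fun j => w.getD j false = true).card = q.2.2))
    (hball.and (hF.and hT))).of_iff fun q => ?_
  exact w4_kap_iff A q.1.1 q.1.2 q.2

/-- complexity of `NA`; arguments `((e, l), (c, (a, v)))` -/
theorem w4_NA (D : Data) (hD : D.ok) (X : ℕ → ℕ) :
    Dl X 1 (fun q : (ℕ × ℕ) × (Bool × (ℕ × ℕ)) => NA (D.p q.1.1 q.1.2) q.2.1 q.2.2.1 q.2.2.2) := by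
  have hp := hD.2
  have hp' : Computable (fun r : ((ℕ × ℕ) × (Bool × (ℕ × ℕ))) × ℕ =>
      D.p r.1.1.1 r.1.1.2 r.2) :=
    hp.comp (f := fun q : ℕ × ℕ × ℕ => D.p q.1 q.2.1 q.2.2)
      (g := fun r : ((ℕ × ℕ) × (Bool × (ℕ × ℕ))) × ℕ => (r.1.1.1, r.1.1.2, r.2))
      ((Computable.fst.comp (Computable.fst.comp Computable.fst)).pair
        ((Computable.snd.comp (Computable.fst.comp Computable.fst)).pair Computable.snd))
  -- the failure of `Ge`
  have h1 : Sg X 0 (fun q : (ℕ × ℕ) × (Bool × (ℕ × ℕ)) =>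
      ¬ Ge (D.p q.1.1 q.1.2) q.2.1 q.2.2.1 q.2.2.2) := by
    refine (Sg.exN (P := fun (q : (ℕ × ℕ) × (Bool × (ℕ × ℕ))) (t : ℕ) =>
      ∃ k, (q.2.2.1 ≤ t ∧ k < q.2.2.2) ∧ D.p q.1.1 q.1.2 t = some (q.2.1, k)) ?_).of_iff
      fun q => ?_
    · refine Sg.exN (P := fun (r : ((ℕ × ℕ) × (Bool × (ℕ × ℕ))) × ℕ) (k : ℕ) =>
        (r.1.2.2.1 ≤ r.2 ∧ k < r.1.2.2.2) ∧ D.p r.1.1.1 r.1.1.2 r.2 = some (r.1.2.1, k)) ?_
      refine Dl.sg (Dl.and (Dl.and (Dl.le ?_ ?_) (Dl.lt ?_ ?_)) (Dl.eq ?_ ?_))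
      · exact Computable.fst.comp (Computable.snd.comp (Computable.snd.comp
          (Computable.fst.comp Computable.fst)))
      · exact Computable.snd.comp Computable.fst
      · exact Computable.snd
      · exact Computable.snd.comp (Computable.snd.comp (Computable.snd.comp
          (Computable.fst.comp Computable.fst)))
      · exact hp'.comp Computable.fst
      · exact Computable.option_some.comp ((Computable.fst.comp (Computable.snd.comp
          (Computable.fst.comp Computable.fst))).pair Computable.snd)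
    · unfold Ge
      push Not
      constructor
      · rintro ⟨t, ht, k, hk, hlt⟩
        exact ⟨t, k, ⟨ht, hlt⟩, hk⟩
      · rintro ⟨t, k, ⟨ht, hlt⟩, hk⟩
        exact ⟨t, ht, k, hk, hlt⟩
  have h2 : Sg X 0 (fun q : (ℕ × ℕ) × (Bool × (ℕ × ℕ)) =>
      ∃ t, q.2.2.1 ≤ t ∧ D.p q.1.1 q.1.2 t = some (q.2.1, q.2.2.2)) := by
    refine Sg.exN (P := fun (q : (ℕ × ℕ) × (Bool × (ℕ × ℕ))) (t : ℕ) =>
      q.2.2.1 ≤ t ∧ D.p q.1.1 q.1.2 t = some (q.2.1, q.2.2.2)) ?_
    refine Dl.sg (Dl.and (Dl.le ?_ ?_) (Dl.eq ?_ ?_))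
    · exact Computable.fst.comp (Computable.snd.comp (Computable.snd.comp Computable.fst))
    · exact Computable.snd
    · exact hp'
    · exact Computable.option_some.comp ((Computable.fst.comp (Computable.snd.comp
        Computable.fst)).pair (Computable.snd.comp (Computable.snd.comp (Computable.snd.comp
        Computable.fst))))
  exact h1.dlc.and h2.dl

/-- complexity of `Pass`; arguments `((e, l), u, n0, i)` -/
theorem w4_Pass (h2 : StmtC2) (D : Data) (hD : D.ok) (X : ℕ → ℕ) (A : ℕ → Prop)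
    (hA : Sg X 0 A) :
    Sg X 1 (fun q : (ℕ × ℕ) × (ℕ × ℕ) × ℕ × ℕ =>
      Pass A (D.p q.1.1 q.1.2) q.2.1 q.2.2.1 q.2.2.2) := by
  have hNA := w4_NA D hD X
  have hk := w4_kap h2 X A hA
  refine (Sg.exN (P := fun (q : (ℕ × ℕ) × (ℕ × ℕ) × ℕ × ℕ) (a : ℕ) => q.2.2.1 ≤ a ∧
    (NA (D.p q.1.1 q.1.2) false a (kap A q.2.1 q.2.2.2).1 ∧
      NA (D.p q.1.1 q.1.2) true a (kap A q.2.1 q.2.2.2).2)) ?_).of_iff fun q => ?_
  · refine Sg.and (Dl.sg (Dl.le ?_ ?_)) ?_
    · exact Computable.fst.comp (Computable.snd.comp (Computable.snd.comp Computable.fst))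
    · exact Computable.snd
    · refine Sg.fsub (P := fun (r : ((ℕ × ℕ) × (ℕ × ℕ) × ℕ × ℕ) × ℕ) (v : ℕ × ℕ) =>
        NA (D.p r.1.1.1 r.1.1.2) false r.2 v.1 ∧ NA (D.p r.1.1.1 r.1.1.2) true r.2 v.2)
        (f := fun r : ((ℕ × ℕ) × (ℕ × ℕ) × ℕ × ℕ) × ℕ => kap A r.1.2.1 r.1.2.2.2) ?_ ?_
      · exact hk.comp (f := fun s : (((ℕ × ℕ) × (ℕ × ℕ) × ℕ × ℕ) × ℕ) × (ℕ × ℕ) =>
          ((s.1.1.2.1, s.1.1.2.2.2), s.2))
          (((Computable.fst.comp (Computable.snd.comp (Computable.fst.comp
            Computable.fst))).pair (Computable.snd.comp (Computable.snd.comp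
            (Computable.snd.comp (Computable.fst.comp Computable.fst))))).pair Computable.snd)
      · refine Sg.and ?_ ?_
        · exact hNA.1.comp (f := fun s : (((ℕ × ℕ) × (ℕ × ℕ) × ℕ × ℕ) × ℕ) × (ℕ × ℕ) =>
            (s.1.1.1, (false, (s.1.2, s.2.1))))
            ((Computable.fst.comp (Computable.fst.comp Computable.fst)).pair
              ((Computable.const false).pair ((Computable.snd.comp Computable.fst).pair
                (Computable.fst.comp Computable.snd))))
        · exact hNA.1.comp (f := fun s : (((ℕ × ℕ) × (ℕ × ℕ) × ℕ × ℕ) × ℕ) × (ℕ × ℕ) =>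
            (s.1.1.1, (true, (s.1.2, s.2.2))))
            ((Computable.fst.comp (Computable.fst.comp Computable.fst)).pair
              ((Computable.const true).pair ((Computable.snd.comp Computable.fst).pair
                (Computable.snd.comp Computable.snd))))
  · unfold Pass
    constructor
    · rintro ⟨a, ha, h⟩
      exact ⟨a, ha, h false, h true⟩
    · rintro ⟨a, ha, h, h'⟩
      refine ⟨a, ha, fun c => ?_⟩
      cases c
      · exact h
      · exact h'

theorem w4_main (h2 : StmtC2) : StmtW4 := by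
  intro D hD X A hA
  have hPass := w4_Pass h2 D hD X A hA
  have hk := w4_kap h2 X A hA
  refine Sg.exN (P := fun (q : ((ℕ × ℕ) × (ℕ × ℕ) × ℕ × Bool) × ℕ) (i : ℕ) =>
    (∀ i', i' < i → Pass A (D.p q.1.1.1 q.1.1.2) q.1.2.1 q.1.2.2.1 i') ∧
      q.2 < sel q.1.2.2.2 (kap A q.1.2.1 i)) ?_
  refine Sg.and ?_ ?_
  · refine Sg.ball (P := fun (r : (((ℕ × ℕ) × (ℕ × ℕ) × ℕ × Bool) × ℕ) × ℕ) (i' : ℕ) =>
      Pass A (D.p r.1.1.1.1 r.1.1.1.2) r.1.1.2.1 r.1.1.2.2.1 i') ?_ Computable.snd
    exact hPass.comp (f := fun s : ((((ℕ × ℕ) × (ℕ × ℕ) × ℕ × Bool) × ℕ) × ℕ) × ℕ =>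
      (s.1.1.1.1, s.1.1.1.2.1, s.1.1.1.2.2.1, s.2))
      ((Computable.fst.comp (Computable.fst.comp (Computable.fst.comp Computable.fst))).pair
        ((Computable.fst.comp (Computable.snd.comp (Computable.fst.comp (Computable.fst.comp
          Computable.fst)))).pair
        ((Computable.fst.comp (Computable.snd.comp (Computable.snd.comp (Computable.fst.comp
          (Computable.fst.comp Computable.fst))))).pair Computable.snd)))
  · refine Sg.fsub (P := fun (r : (((ℕ × ℕ) × (ℕ × ℕ) × ℕ × Bool) × ℕ) × ℕ) (v : ℕ × ℕ) =>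
      r.1.2 < sel r.1.1.2.2.2 v)
      (f := fun r : (((ℕ × ℕ) × (ℕ × ℕ) × ℕ × Bool) × ℕ) × ℕ => kap A r.1.1.2.1 r.2) ?_ ?_
    · exact hk.comp (f := fun s : ((((ℕ × ℕ) × (ℕ × ℕ) × ℕ × Bool) × ℕ) × ℕ) × (ℕ × ℕ) =>
        ((s.1.1.1.2.1, s.1.2), s.2))
        (((Computable.fst.comp (Computable.snd.comp (Computable.fst.comp (Computable.fst.comp
          Computable.fst)))).pair (Computable.snd.comp Computable.fst)).pair Computable.snd)
    · refine Dl.sg (Dl.lt ?_ ?_)
      · exact Computable.snd.comp (Computable.fst.comp Computable.fst)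
      · exact Computable.cond (Computable.snd.comp (Computable.snd.comp (Computable.snd.comp
          (Computable.fst.comp (Computable.fst.comp Computable.fst)))))
          (Computable.snd.comp Computable.snd) (Computable.fst.comp Computable.snd)

end Pool.Agent.Downey
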