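import Pool.Agent.Downey.Stmts
import Pool.Agent.NonLow.Comp

/-!
# WC: complexity of the windows
-/

set_option autoImplicit false

namespace Pool.Agent.Downey

open Pool.Agent.NonLow

theorem wc_lexlt {α : Type} [Primcodable α] {f g : α → ℕ × ℕ} (hf : Computable f)
    (hg : Computable g) : Computable (fun x => decide (lexlt (f x) (g x))) := by
  have h1 : Computable (fun x => decide ((f x).1 < (g x).1)) :=
    Primrec.nat_lt.decide.to_comp.comp (Computable.fst.comp hf) (Computable.fst.comp hg)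
  have h2 : Computable (fun x => decide ((f x).1 = (g x).1)) :=
    Primrec.eq.decide.to_comp.comp (Computable.fst.comp hf) (Computable.fst.comp hg)
  have h3 : Computable (fun x => decide ((f x).2 < (g x).2)) :=
    Primrec.nat_lt.decide.to_comp.comp (Computable.snd.comp hf) (Computable.snd.comp hg)
  have h4 : Computable (fun x => decide ((f x).1 < (g x).1) ||
      (decide ((f x).1 = (g x).1) && decide ((f x).2 < (g x).2))) :=
    Primrec.or.to_comp.comp h1 (Primrec.and.to_comp.comp h2 h3)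
  refine h4.of_eq fun x => ?_
  rw [Bool.eq_iff_iff, Bool.or_eq_true, Bool.and_eq_true, decide_eq_true_iff, decide_eq_true_iff,
    decide_eq_true_iff, decide_eq_true_iff]
  exact Iff.rfl

/-- the smaller of two pairs -/
def wc_min (u v : ℕ × ℕ) : ℕ × ℕ := bif decide (lexlt u v) then u else v

theorem wc_min_comp : Computable₂ wc_min :=
  Computable.cond (wc_lexlt Computable.fst Computable.snd) Computable.fst Computable.snd

theorem wc_wmin_eq (g : ℕ → ℕ × ℕ) (a n : ℕ) :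
    wmin g a n = Nat.rec (g a) (fun k ih => wc_min (g (a + k + 1)) ih) n := by
  induction n with
  | zero => rfl
  | succ n ih =>
    show (if lexlt (g (a + n + 1)) (wmin g a n) then g (a + n + 1) else wmin g a n) =
      wc_min (g (a + n + 1)) (Nat.rec (g a) (fun k ih => wc_min (g (a + k + 1)) ih) n)
    rw [← ih, wc_min]
    by_cases h : lexlt (g (a + n + 1)) (wmin g a n)
    · rw [if_pos h, decide_eq_true h, cond_true]
    · rw [if_neg h, decide_eq_false h, cond_false]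

theorem wc_wmin {ι : Type} [Primcodable ι] {γ : ι → ℕ → ℕ × ℕ}
    (hγ : Computable (fun q : ι × ℕ => γ q.1 q.2)) :
    Computable (fun x : ι × ℕ × ℕ => wmin (γ x.1) x.2.1 x.2.2) := by
  have hstep : Computable₂ (fun (x : ι × ℕ × ℕ) (y : ℕ × (ℕ × ℕ)) =>
      wc_min (γ x.1 (x.2.1 + y.1 + 1)) y.2) := by
    have ha : Computable (fun z : (ι × ℕ × ℕ) × (ℕ × (ℕ × ℕ)) =>
        γ z.1.1 (z.1.2.1 + z.2.1 + 1)) :=
      hγ.comp (g := fun z : (ι × ℕ × ℕ) × (ℕ × (ℕ × ℕ)) => (z.1.1, z.1.2.1 + z.2.1 + 1))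
        ((Computable.fst.comp Computable.fst).pair
          (Computable.succ.comp (Primrec.nat_add.to_comp.comp
            (Computable.fst.comp (Computable.snd.comp Computable.fst))
            (Computable.fst.comp Computable.snd))))
    exact wc_min_comp.comp ha (Computable.snd.comp Computable.snd)
  have hbase : Computable (fun x : ι × ℕ × ℕ => γ x.1 x.2.1) :=
    hγ.comp (g := fun x : ι × ℕ × ℕ => (x.1, x.2.1))
      (Computable.fst.pair (Computable.fst.comp Computable.snd))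
  exact (Computable.nat_rec (f := fun x : ι × ℕ × ℕ => x.2.2)
    (Computable.snd.comp Computable.snd) hbase hstep).of_eq fun x =>
      (wc_wmin_eq (γ x.1) x.2.1 x.2.2).symm

theorem wc_main (_h1 : StmtC1) (h2 : StmtC2) : StmtWC := by
  intro X ι _ γ F hγ _ hF
  have hW : Sg X 0 (fun q : (ι × ℕ) × (ℕ × ℕ) => win (γ q.1.1) (F q.1.1) q.1.2 = q.2) := by
    -- substitute the two values of `F`
    have hbase : Sg X 0 (fun p : (((ι × ℕ) × (ℕ × ℕ)) × ℕ) × ℕ =>
        wmin (γ p.1.1.1.1) p.1.2 (p.2 - p.1.2 - 1) = p.1.1.2) := by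
      refine (Dl.eq ?_ ?_).1
      · refine (wc_wmin hγ).comp (f := fun x : ι × ℕ × ℕ => wmin (γ x.1) x.2.1 x.2.2)
          (g := fun p : (((ι × ℕ) × (ℕ × ℕ)) × ℕ) × ℕ =>
            (p.1.1.1.1, p.1.2, p.2 - p.1.2 - 1)) ?_
        refine (Computable.fst.comp (Computable.fst.comp (Computable.fst.comp
          Computable.fst))).pair ((Computable.snd.comp Computable.fst).pair ?_)
        exact Primrec.nat_sub.to_comp.comp (Primrec.nat_sub.to_comp.comp Computable.snd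
          (Computable.snd.comp Computable.fst)) (Computable.const 1)
      · exact Computable.snd.comp (Computable.fst.comp Computable.fst)
    have hF1 : Sg X 0 (fun p : (((ι × ℕ) × (ℕ × ℕ)) × ℕ) × ℕ =>
        F p.1.1.1.1 (p.1.1.1.2 + 1) = p.2) :=
      hF.comp (f := fun p : (((ι × ℕ) × (ℕ × ℕ)) × ℕ) × ℕ =>
        ((p.1.1.1.1, p.1.1.1.2 + 1), p.2))
        (((Computable.fst.comp (Computable.fst.comp (Computable.fst.comp
          Computable.fst))).pair (Computable.succ.comp (Computable.snd.comp (Computable.fst.comp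
          (Computable.fst.comp Computable.fst))))).pair Computable.snd)
    have hstep : Sg X 0 (fun p : ((ι × ℕ) × (ℕ × ℕ)) × ℕ =>
        wmin (γ p.1.1.1) p.2 (F p.1.1.1 (p.1.1.2 + 1) - p.2 - 1) = p.1.2) :=
      Sg.fsub (P := fun (p : ((ι × ℕ) × (ℕ × ℕ)) × ℕ) (y : ℕ) =>
        wmin (γ p.1.1.1) p.2 (y - p.2 - 1) = p.1.2)
        (f := fun p : ((ι × ℕ) × (ℕ × ℕ)) × ℕ => F p.1.1.1 (p.1.1.2 + 1)) hF1 hbase
    have hF0 : Sg X 0 (fun p : ((ι × ℕ) × (ℕ × ℕ)) × ℕ => F p.1.1.1 p.1.1.2 = p.2) :=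
      hF.comp (f := fun p : ((ι × ℕ) × (ℕ × ℕ)) × ℕ => (p.1.1, p.2))
        ((Computable.fst.comp Computable.fst).pair Computable.snd)
    exact Sg.fsub (P := fun (p : (ι × ℕ) × (ℕ × ℕ)) (y : ℕ) =>
      wmin (γ p.1.1) y (F p.1.1 (p.1.2 + 1) - y - 1) = p.2)
      (f := fun p : (ι × ℕ) × (ℕ × ℕ) => F p.1.1 p.1.2) hF0 hstep
  refine ⟨hW, ?_⟩
  -- the condition in the definition of `kk`
  have hP : Dl X 0 (fun q : (ι × ℕ) × ℕ => ∀ m', m' < q.1.2 → (q.2 ≤ m' →
      ¬ lexlt (win (γ q.1.1) (F q.1.1) m') (win (γ q.1.1) (F q.1.1) q.1.2))) := by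
    refine Dl.ball (P := fun (q : (ι × ℕ) × ℕ) (m' : ℕ) => (q.2 ≤ m' →
      ¬ lexlt (win (γ q.1.1) (F q.1.1) m') (win (γ q.1.1) (F q.1.1) q.1.2))) ?_
      (f := fun q : (ι × ℕ) × ℕ => q.1.2) (Computable.snd.comp Computable.fst)
    refine Dl.imp (Dl.le (Computable.snd.comp Computable.fst) Computable.snd) (Dl.not ?_)
    -- substitute the two values of `win`
    have hbase : Dl X 0 (fun p : ((((ι × ℕ) × ℕ) × ℕ) × (ℕ × ℕ)) × (ℕ × ℕ) =>
        lexlt p.1.2 p.2) :=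
      Dl.of_bool (wc_lexlt (Computable.snd.comp Computable.fst) Computable.snd) (by simp)
    have hW1 : Sg X 0 (fun p : ((((ι × ℕ) × ℕ) × ℕ) × (ℕ × ℕ)) × (ℕ × ℕ) =>
        win (γ p.1.1.1.1.1) (F p.1.1.1.1.1) p.1.1.1.1.2 = p.2) :=
      hW.comp (f := fun p : ((((ι × ℕ) × ℕ) × ℕ) × (ℕ × ℕ)) × (ℕ × ℕ) => (p.1.1.1.1, p.2))
        ((Computable.fst.comp (Computable.fst.comp (Computable.fst.comp
          Computable.fst))).pair Computable.snd)
    have hstep : Dl X 0 (fun p : (((ι × ℕ) × ℕ) × ℕ) × (ℕ × ℕ) =>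
        lexlt p.2 (win (γ p.1.1.1.1) (F p.1.1.1.1) p.1.1.1.2)) :=
      Dl.fsub (P := fun (p : (((ι × ℕ) × ℕ) × ℕ) × (ℕ × ℕ)) (y : ℕ × ℕ) => lexlt p.2 y)
        (f := fun p : (((ι × ℕ) × ℕ) × ℕ) × (ℕ × ℕ) =>
          win (γ p.1.1.1.1) (F p.1.1.1.1) p.1.1.1.2) hW1 hbase
    have hW0 : Sg X 0 (fun p : (((ι × ℕ) × ℕ) × ℕ) × (ℕ × ℕ) =>
        win (γ p.1.1.1.1) (F p.1.1.1.1) p.1.2 = p.2) :=
      hW.comp (f := fun p : (((ι × ℕ) × ℕ) × ℕ) × (ℕ × ℕ) => ((p.1.1.1.1, p.1.2), p.2))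
        (((Computable.fst.comp (Computable.fst.comp (Computable.fst.comp
          Computable.fst))).pair (Computable.snd.comp Computable.fst)).pair Computable.snd)
    exact Dl.fsub (P := fun (p : ((ι × ℕ) × ℕ) × ℕ) (y : ℕ × ℕ) =>
      lexlt y (win (γ p.1.1.1) (F p.1.1.1) p.1.1.2))
      (f := fun p : ((ι × ℕ) × ℕ) × ℕ => win (γ p.1.1.1) (F p.1.1.1) p.2) hW0 hstep
  have h3 := (h2 X (ι × ℕ) (fun q => ∀ m', m' < q.1.2 → (q.2 ≤ m' →
      ¬ lexlt (win (γ q.1.1) (F q.1.1) m') (win (γ q.1.1) (F q.1.1) q.1.2))) hP).2.2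
    (fun x => ⟨x.2, fun m' h h' => absurd h (not_lt.mpr h')⟩)
  refine h3.of_iff fun q => ?_
  have h4 : {s : ℕ | ∀ m', s ≤ m' → m' < q.1.2 →
      ¬ lexlt (win (γ q.1.1) (F q.1.1) m') (win (γ q.1.1) (F q.1.1) q.1.2)} =
      {n : ℕ | ∀ m', m' < q.1.2 → (n ≤ m' →
      ¬ lexlt (win (γ q.1.1) (F q.1.1) m') (win (γ q.1.1) (F q.1.1) q.1.2))} := by
    ext s
    exact ⟨fun h m' ha hb => h m' hb ha, fun h m' ha hb => h m' hb ha⟩
  unfold kk
  rw [h4]

end Pool.Agent.Downey
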