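import Pool.Agent.Downey.Stmts

/-!
# WI: the windows
-/

set_option autoImplicit false

namespace Pool.Agent.Downey

private theorem wi_trans {a b c : ℕ × ℕ} (h1 : lexlt a b) (h2 : ¬ lexlt c b) : lexlt a c := by
  obtain ⟨a1, a2⟩ := a
  obtain ⟨b1, b2⟩ := b
  obtain ⟨c1, c2⟩ := c
  simp only [lexlt] at *
  omega

private theorem wi_irr (a : ℕ × ℕ) : ¬ lexlt a a := by
  obtain ⟨a1, a2⟩ := a
  simp only [lexlt]
  omega

private theorem wi_asymm {a b : ℕ × ℕ} (h : lexlt a b) : ¬ lexlt b a := by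
  obtain ⟨a1, a2⟩ := a
  obtain ⟨b1, b2⟩ := b
  simp only [lexlt] at *
  omega

private theorem wi_eq {a b : ℕ × ℕ} (h1 : ¬ lexlt a b) (h2 : ¬ lexlt b a) : a = b := by
  obtain ⟨a1, a2⟩ := a
  obtain ⟨b1, b2⟩ := b
  simp only [lexlt, Prod.mk.injEq] at *
  omega

private theorem wi_wmin (γ : ℕ → ℕ × ℕ) (a n : ℕ) :
    (∃ t, a ≤ t ∧ t ≤ a + n ∧ γ t = wmin γ a n) ∧
      ∀ t, a ≤ t → t ≤ a + n → ¬ lexlt (γ t) (wmin γ a n) := by
  induction n with
  | zero =>
    refine ⟨⟨a, le_rfl, le_rfl, rfl⟩, ?_⟩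
    intro t h1 h2
    have h3 : t = a := by omega
    rw [h3]
    exact wi_irr _
  | succ n ih =>
    obtain ⟨⟨t0, h1, h2, h3⟩, h4⟩ := ih
    by_cases h : lexlt (γ (a + n + 1)) (wmin γ a n)
    · have e : wmin γ a (n + 1) = γ (a + n + 1) := by
        show (if lexlt (γ (a + n + 1)) (wmin γ a n) then γ (a + n + 1) else wmin γ a n) = _
        rw [if_pos h]
      rw [e]
      refine ⟨⟨a + n + 1, by omega, by omega, rfl⟩, ?_⟩
      intro t h5 h6 h7
      by_cases h8 : t = a + n + 1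
      · rw [h8] at h7
        exact wi_irr _ h7
      · exact h4 t h5 (by omega) (wi_trans h7 (wi_asymm h))
    · have e : wmin γ a (n + 1) = wmin γ a n := by
        show (if lexlt (γ (a + n + 1)) (wmin γ a n) then γ (a + n + 1) else wmin γ a n) = _
        rw [if_neg h]
      rw [e]
      refine ⟨⟨t0, h1, by omega, h3⟩, ?_⟩
      intro t h5 h6
      by_cases h8 : t = a + n + 1
      · rw [h8]
        exact h
      · exact h4 t h5 (by omega)

private theorem wi_win {F : ℕ → ℕ} (hF : StrictMono F) {M t : ℕ} (h : F M ≤ t) :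
    ∃ n, M ≤ n ∧ F n ≤ t ∧ t < F (n + 1) := by
  classical
  have hw : ∃ n, t < F (n + 1) := ⟨t, by have := hF.le_apply (x := t + 1); omega⟩
  obtain ⟨n, hn⟩ : ∃ n, n = Nat.find hw := ⟨_, rfl⟩
  have hn1 : t < F (n + 1) := by rw [hn]; exact Nat.find_spec hw
  have hnM : M ≤ n := by
    by_contra h1
    have h2 := hF.monotone (by omega : n + 1 ≤ M)
    omega
  refine ⟨n, hnM, ?_, hn1⟩
  rcases Nat.eq_or_lt_of_le hnM with h1 | h1
  · rw [← h1]; exact h
  · have h2 : ¬ t < F (n - 1 + 1) := by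
      have h3 : n - 1 < Nat.find hw := by omega
      exact Nat.find_min hw h3
    rw [Nat.sub_add_cancel (by omega)] at h2
    omega

theorem wi_main : StmtWI := by
  intro γ F hF
  have key : ∀ m, (∃ t, F m ≤ t ∧ t < F (m + 1) ∧ γ t = win γ F m) ∧
      ∀ t, F m ≤ t → t < F (m + 1) → ¬ lexlt (γ t) (win γ F m) := by
    intro m
    have h1 : F m < F (m + 1) := hF (Nat.lt_succ_self m)
    obtain ⟨⟨t, h2, h3, h4⟩, h5⟩ := wi_wmin γ (F m) (F (m + 1) - F m - 1)
    exact ⟨⟨t, h2, by omega, h4⟩, fun t h6 h7 => h5 t h6 (by omega)⟩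
  refine ⟨key, ?_⟩
  intro v
  constructor
  · rintro ⟨⟨m0, h1⟩, h2⟩
    refine ⟨⟨F m0, ?_⟩, ?_⟩
    · intro t ht h3
      obtain ⟨n, h4, h5, h6⟩ := wi_win hF ht
      have h7 := (key n).2 t h5 h6
      have h8 := h1 n h4
      have h9 : lexlt (γ t) (win γ F n) := wi_trans h3 h8
      exact h7 h9
    · intro t0
      obtain ⟨m, h3, h4⟩ := h2 t0
      obtain ⟨t, h5, _, h6⟩ := (key m).1
      have h7 := hF.le_apply (x := m)
      exact ⟨t, by omega, by rw [h6, h4]⟩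
  · rintro ⟨⟨m0, h1⟩, h2⟩
    have hge : ∀ m, m0 ≤ m → ¬ lexlt (win γ F m) v := by
      intro m hm
      obtain ⟨t, h5, _, h6⟩ := (key m).1
      have h7 := hF.le_apply (x := m)
      rw [← h6]
      exact h1 t (by omega)
    refine ⟨⟨m0, hge⟩, ?_⟩
    intro m1
    obtain ⟨t, h3, h4⟩ := h2 (F (max m0 m1))
    obtain ⟨n, h5, h6, h7⟩ := wi_win hF h3
    refine ⟨n, by omega, wi_eq (hge n (by omega)) ?_⟩
    rw [← h4]
    exact (key n).2 t h6 h7

end Pool.Agent.Downey
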