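import Pool.Agent.Downey.GlueMain
import Pool.Agent.Downey.GlueRH
import Pool.Agent.Downey.RNb
import Pool.Agent.Downey.K0
import Pool.Agent.Downey.K1
import Pool.Agent.Downey.K2
import Pool.Agent.Downey.K3
import Pool.Agent.Downey.LLPr
import Pool.Agent.Downey.LLiso
import Pool.Agent.Downey.Pres
import Pool.Agent.Downey.Sem1
import Pool.Agent.Downey.Sem2
import Pool.Agent.Downey.S1
import Pool.Agent.Downey.SK
import Pool.Agent.Downey.S2
import Pool.Agent.Downey.DL
import Pool.Agent.Downey.Univ
import Pool.Agent.Downey.QL
import Pool.Agent.Downey.QP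
import Pool.Agent.Downey.C0
import Pool.Agent.Downey.C1
import Pool.Agent.Downey.C2
import Pool.Agent.Downey.LI
import Pool.Agent.Downey.CC
import Pool.Agent.Downey.OG
import Pool.Agent.Downey.WI
import Pool.Agent.Downey.BA
import Pool.Agent.Downey.H1
import Pool.Agent.Downey.H2
import Pool.Agent.Downey.H3
import Pool.Agent.Downey.HC
import Pool.Agent.Downey.WC
import Pool.Agent.Downey.W1
import Pool.Agent.Downey.W23
import Pool.Agent.Downey.W4
import Pool.Agent.Downey.DI
import Pool.Agent.Downey.DO
import Pool.Agent.NonLow.InterA
import Pool.Agent.NonLow.InterB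
import Pool.Agent.NonLow.InterC

/-!
# A linear order whose degree spectrum is the set of all nonzero degrees
-/

set_option autoImplicit false

namespace Pool.Agent.Downey

theorem main : StmtMain := by
  have c0 := c0_main
  have c1 := c1_main
  have c2 := c2_main c1
  have li := li_main c1 c2
  have cc := cc_main c2
  have og := og_main c0 c1 c2 li cc
  have wc := wc_main c1 c2
  have no : StmtNo := no_of univ_main ql_main (qp_main c0 c2) dl_main s1_main (s2_main sk_main)
    sem1_main sem2_main
  have rh : StmtRH := rh_of og wi_main ba_main (h1_main ba_main) (h2_main wi_main)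
    (h3_main wi_main ba_main) (hc_main c1 c2) wc
  have rn : StmtRN := rnb_of c1 c2 li og wi_main ba_main wc w1_main w2_main w3_main (w4_main c2)
  exact main_of no (pres_main k1_main k2_main (k3_main c1)) lo_main rh rn (di_main c1 c2 c0)
    do_main NonLow.i1_main (NonLow.i5_main NonLow.i1_main NonLow.i2_main)

end Pool.Agent.Downey
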