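import Pool.Agent.Downey.GlueNo
import Pool.Agent.NonLow.Main

/-!
# Glue: the main theorem from its parts
-/

set_option autoImplicit false

namespace Pool.Agent.Downey

open Pool.Agent.NonLow (Qd Sg Dl Z Pr dec)

theorem gm_enum (D : Data) : ∃ t : ℕ → Typ, Set.range t = Fam D := by
  obtain ⟨τ, hτ, _⟩ := fam_nonempty D 0
  obtain ⟨f, hf⟩ := (Set.to_countable (Fam D)).exists_eq_range ⟨τ, hτ⟩
  exact ⟨f, hf.symm⟩

theorem gm_cn : ∀ o, Countable (Cn o)
  | none => inferInstanceAs (Countable ℕ)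
  | some k => inferInstanceAs (Countable (Fin k ⊕ Qd))

theorem gm_countable (t : ℕ → Typ) : Countable (Lo t) := by
  have h1 : ∀ q : Qd, Countable (CT (t q.col).1 (Cn ((t q.col).2.map Prod.fst))
      (Cn ((t q.col).2.map Prod.snd))) := fun q => by
    have a1 := gm_cn ((t q.col).2.map Prod.fst)
    have a2 := gm_cn ((t q.col).2.map Prod.snd)
    have a3 : Countable (Lex (Cn ((t q.col).2.map Prod.snd) ⊕ Unit)) :=
      inferInstanceAs (Countable (Cn ((t q.col).2.map Prod.snd) ⊕ Unit))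
    have a4 : Countable (Lex (Qd ⊕ Lex (Cn ((t q.col).2.map Prod.snd) ⊕ Unit))) :=
      inferInstanceAs (Countable (Qd ⊕ Lex (Cn ((t q.col).2.map Prod.snd) ⊕ Unit)))
    have a5 : Countable (Lex (Fin (2 * (t q.col).1 + 3) ⊕
        Lex (Qd ⊕ Lex (Cn ((t q.col).2.map Prod.snd) ⊕ Unit)))) :=
      inferInstanceAs (Countable (Fin (2 * (t q.col).1 + 3) ⊕
        Lex (Qd ⊕ Lex (Cn ((t q.col).2.map Prod.snd) ⊕ Unit))))
    have a6 : Countable (Lex (Qd ⊕ Lex (Fin (2 * (t q.col).1 + 3) ⊕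
        Lex (Qd ⊕ Lex (Cn ((t q.col).2.map Prod.snd) ⊕ Unit))))) :=
      inferInstanceAs (Countable (Qd ⊕ Lex (Fin (2 * (t q.col).1 + 3) ⊕
        Lex (Qd ⊕ Lex (Cn ((t q.col).2.map Prod.snd) ⊕ Unit)))))
    have a7 : Countable (Cn ((t q.col).2.map Prod.fst))ᵒᵈ :=
      inferInstanceAs (Countable (Cn ((t q.col).2.map Prod.fst)))
    have a8 : Countable (Lex ((Cn ((t q.col).2.map Prod.fst))ᵒᵈ ⊕
        Lex (Qd ⊕ Lex (Fin (2 * (t q.col).1 + 3) ⊕
        Lex (Qd ⊕ Lex (Cn ((t q.col).2.map Prod.snd) ⊕ Unit)))))) :=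
      inferInstanceAs (Countable ((Cn ((t q.col).2.map Prod.fst))ᵒᵈ ⊕
        Lex (Qd ⊕ Lex (Fin (2 * (t q.col).1 + 3) ⊕
        Lex (Qd ⊕ Lex (Cn ((t q.col).2.map Prod.snd) ⊕ Unit))))))
    exact inferInstanceAs (Countable (Unit ⊕ Lex ((Cn ((t q.col).2.map Prod.fst))ᵒᵈ ⊕
        Lex (Qd ⊕ Lex (Fin (2 * (t q.col).1 + 3) ⊕
        Lex (Qd ⊕ Lex (Cn ((t q.col).2.map Prod.snd) ⊕ Unit)))))))
  exact inferInstanceAs (Countable (Σ q : Qd, CT (t q.col).1 (Cn ((t q.col).2.map Prod.fst))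
      (Cn ((t q.col).2.map Prod.snd))))

theorem gm_infinite (t : ℕ → Typ) : Infinite (Lo t) := by
  have hinj : Function.Injective (fun n : ℕ =>
      (toLex ⟨(show Qd from n), toLex (Sum.inl ())⟩ : Lo t)) := by
    intro a b h
    have h1 := congrArg (fun x : Lo t => (ofLex x).1) h
    exact h1
  exact Infinite.of_injective _ hinj

/-- the main theorem from its parts -/
theorem main_of (hn : StmtNo) (hp : StmtPres) (hlo : StmtLo) (rh : StmtRH) (rn : StmtRN)
    (di : StmtDI) (hdo : StmtDO) (i1 : NonLow.StmtI1) (i5 : NonLow.StmtI5) : StmtMain := by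
  classical
  obtain ⟨D, hD, hno⟩ := hn
  obtain ⟨t0, ht0⟩ := gm_enum D
  have := gm_countable t0
  have := gm_infinite t0
  obtain ⟨φ0⟩ : Nonempty (ℕ ≃ Lo t0) := by
    obtain ⟨h⟩ := nonempty_denumerable (Lo t0)
    exact ⟨(Denumerable.eqv (Lo t0)).symm⟩
  refine ⟨fun a b => decide (φ0 a ≤ φ0 b), ?_, ?_, ?_, ?_, ?_⟩
  · intro a; simp
  · intro a b c h1 h2
    simp only [decide_eq_true_eq] at h1 h2 ⊢
    exact h1.trans h2
  · intro a b h1 h2
    simp only [decide_eq_true_eq] at h1 h2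
    exact φ0.injective (le_antisymm h1 h2)
  · intro a b
    simp only [decide_eq_true_eq]
    exact le_total _ _
  intro X
  constructor
  · intro hX
    have hrz : Rz X Idx (Fam D) := by
      rcases di X hX with ⟨A, hA, hA2⟩ | ⟨f, hf, hfX⟩
      · exact rn D hD X A hA hA2
      · exact rh D hD X f hf hfX
    obtain ⟨t, ht, lt, hlt, φ, hφ⟩ := hp X Idx (Fam D) hrz
    obtain ⟨ψ⟩ := hlo t t0 (ht.trans ht0.symm)
    obtain ⟨S, ⟨e, he⟩, hS1, hS2⟩ := i5 X (fun a b => decide (φ a ≤ φ b)) (by intro a; simp)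
      (by
        intro a b c h1 h2
        simp only [decide_eq_true_eq] at h1 h2 ⊢
        exact h1.trans h2)
      (by
        intro a b h1 h2
        simp only [decide_eq_true_eq] at h1 h2
        exact φ.injective (le_antisymm h1 h2))
      (by
        intro a b
        simp only [decide_eq_true_eq]
        exact le_total _ _)
      (by
        refine (hlt.comp (f := fun p : ℕ × ℕ => (p.2, p.1))
          (Computable.snd.pair Computable.fst)).not.of_iff fun p => ?_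
        rw [hφ, decide_eq_true_iff, not_lt])
    refine ⟨S, ⟨((φ0.trans ψ.symm.toEquiv).trans φ.symm).trans e, fun a b => ?_⟩, hS1, hS2⟩
    show decide (φ0 a ≤ φ0 b) = S (e (φ.symm (ψ.symm (φ0 a)))) (e (φ.symm (ψ.symm (φ0 b))))
    rw [← he, Equiv.apply_symm_apply, Equiv.apply_symm_apply]
    simp
  · rintro ⟨S, ⟨e, he⟩, hS1, -⟩ hX
    have hg := i1 X _ hS1
    have hg2 : Dl X 0 (fun p : ℕ × ℕ => S p.1 p.2 = true) := by
      have h1 : Sg X 0 (fun p : (ℕ × ℕ) × ℕ => (S p.1.1 p.1.2).toNat = p.2) := by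
        refine (hg.comp (f := fun p : (ℕ × ℕ) × ℕ => (Nat.pair p.1.1 p.1.2, p.2)) ?_).of_iff
          fun p => ?_
        · exact (Primrec₂.natPair.to_comp.comp (Computable.fst.comp Computable.fst)
            (Computable.snd.comp Computable.fst)).pair Computable.snd
        · simp [PFun.lift, eq_comm]
      have h2 := NonLow.Dl.of_graph (f := fun p : ℕ × ℕ => (S p.1 p.2).toNat) h1
      refine (h2.comp (f := fun p : ℕ × ℕ => (p, 1)) (Computable.id.pair (Computable.const 1))).of_iff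
        fun p => ?_
      cases S p.1 p.2 <;> simp
    have hlt : Dl X 0 (fun p : ℕ × ℕ => ¬ S p.2 p.1 = true) :=
      (hg2.comp (f := fun p : ℕ × ℕ => (p.2, p.1)) (Computable.snd.pair Computable.fst)).not
    have hltZ : Dl Z 0 (fun p : ℕ × ℕ => ¬ S p.2 p.1 = true) :=
      ⟨hdo X hX _ hlt.1, hdo X hX _ hlt.2⟩
    refine hno t0 ht0 (fun p : ℕ × ℕ => ¬ S p.2 p.1 = true) hltZ (e.symm.trans φ0) ?_
    intro a b
    have := he (e.symm b) (e.symm a)
    simp only [Equiv.apply_symm_apply] at this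
    show ¬ S b a = true ↔ _
    rw [← this, decide_eq_true_iff, not_le]
    rfl

end Pool.Agent.Downey
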