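import Pool.Agent.Downey.Stmts
import Pool.Agent.NonLow.LowNo

/-!
# Glue: no computable copy
-/

set_option autoImplicit false

namespace Pool.Agent.Downey

open Pool.Agent.NonLow (Qd Sg Dl Z Pr dec)

theorem Lim.unique {p : ℕ → Pt} {c : Bool} {v v' : ℕ} (h : Lim p c v) (h' : Lim p c v') : v = v' := by
  have key : ∀ w w' : ℕ, Lim p c w → Lim p c w' → w ≤ w' := by
    rintro w w' ⟨⟨a, ha⟩, _⟩ ⟨_, h2⟩
    obtain ⟨t, ht, hp⟩ := h2 a
    exact ha t ht w' hp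
  exact le_antisymm (key _ _ h h') (key _ _ h' h)

theorem glue_exists_fst {D : Data} {e l : ℕ} (h : D.Tr (e, l)) : ∃ a, fst D e a := by
  classical
  have h' : ∃ l, D.Tr (e, l) := ⟨l, h⟩
  exact ⟨Nat.find h', Nat.find_spec h', fun l' hl' => Nat.find_min h' hl'⟩

theorem glue_fst_unique {D : Data} {e a b : ℕ} (ha : fst D e a) (hb : fst D e b) : a = b := by
  rcases Nat.lt_trichotomy a b with h | h | h
  · exact absurd ha.1 (hb.2 a h)
  · exact h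
  · exact absurd hb.1 (ha.2 b h)

theorem fam_nonempty (D : Data) (e : ℕ) : ∃ τ ∈ Fam D, τ.1 = e := by
  by_cases h : ∀ l, ¬ D.Tr (e, l)
  · exact ⟨(e, none), Or.inl ⟨h, rfl⟩, rfl⟩
  · push Not at h
    obtain ⟨l, hl⟩ := h
    obtain ⟨a, ha⟩ := glue_exists_fst hl
    by_cases h0 : ∀ c, Lim (D.p e a) c (sel c (2, 2))
    · refine ⟨(e, some (4, 2)), Or.inr ⟨a, ha, Or.inr ⟨(4, 2), rfl, ?_, ?_⟩⟩, rfl⟩
      · exact ⟨⟨2, rfl⟩, by norm_num, ⟨1, rfl⟩, le_rfl⟩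
      · intro h1
        have := (h0 false).unique (h1 false)
        simp [sel] at this
    · exact ⟨(e, some (2, 2)), Or.inr ⟨a, ha, Or.inr ⟨(2, 2), rfl,
        ⟨⟨1, rfl⟩, le_rfl, ⟨1, rfl⟩, le_rfl⟩, h0⟩⟩, rfl⟩

theorem adm_of_range {D : Data} {t : ℕ → Typ} (h : Set.range t = Fam D) : Adm t := by
  intro i u hu
  have hi : t i ∈ Fam D := by rw [← h]; exact ⟨i, rfl⟩
  rcases hi with ⟨_, h2⟩ | ⟨l, _, ⟨h2, _⟩ | ⟨u', h2, h3, _⟩⟩
  · rw [h2] at hu; cases hu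
  · rw [h2] at hu; cases hu
  · rw [h2] at hu; cases hu; exact h3

theorem Loc.congr {M : Type} [LinearOrder M] {e : ℕ} {x y : ℕ → M} (h : ∀ i < 2 * e + 7, x i = y i)
    (hx : Loc e x) : Loc e y := by
  obtain ⟨h1, h2, h3, h4, h5, h6, h7⟩ := hx
  refine ⟨?_, ?_, ?_, ?_, ?_, ?_, ?_⟩
  · intro i hi
    rw [← h i (by omega), ← h (i + 1) (by omega)]; exact h1 i hi
  · rw [← h (2 * e + 3) (by omega), ← h 0 (by omega)]; exact h2
  · rw [← h (2 * e + 3) (by omega), ← h 0 (by omega)]; exact h3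
  · rw [← h (2 * e + 4) (by omega), ← h (2 * e + 3) (by omega)]; exact h4
  · rw [← h (2 * e + 2) (by omega), ← h (2 * e + 5) (by omega)]; exact h5
  · rw [← h (2 * e + 2) (by omega), ← h (2 * e + 5) (by omega)]; exact h6
  · rw [← h (2 * e + 5) (by omega), ← h (2 * e + 6) (by omega)]; exact h7

theorem Loc.lt {M : Type} [LinearOrder M] {e : ℕ} {x : ℕ → M} (hx : Loc e x) :
    x (2 * e + 3) < x (2 * e + 5) := by
  have : ∀ i, i ≤ 2 * e + 2 → x 0 ≤ x i := by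
    intro i
    induction i with
    | zero => intro _; exact le_rfl
    | succ i ih => intro hi; exact (ih (by omega)).trans (hx.chain i (by omega)).lt.le
  exact hx.ltL.trans_le ((this _ le_rfl).trans hx.ltR.le)

theorem no_of (hun : StmtUniv) (hql : StmtQL) (hqp : StmtQP) (hdl : StmtDelay) (hs1 : StmtS1)
    (hs2 : StmtS2) (q1 : StmtSem1) (q2 : StmtSem2) : StmtNo := by
  obtain ⟨D, hD, hu⟩ := hun
  refine ⟨D, hD, ?_⟩
  intro t ht lt hlt φ hφ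
  have hadm := adm_of_range ht
  obtain ⟨e, he1, he2⟩ := hu (fun q : ℕ × ℕ => Loc q.1 (fun i => φ (dec q.2 i)))
    (fun x : ℕ × ℕ × ℕ => qp φ (φ (dec x.2.1 (2 * x.1 + 3))) (φ (dec x.2.1 (2 * x.1 + 5))) x.2.2)
    (hql (Lo t) φ lt hφ hlt) (hqp (Lo t) φ lt hφ hlt)
  -- a location exists
  obtain ⟨τ, hτ, hτe⟩ := fam_nonempty D e
  rw [← ht] at hτ
  obtain ⟨i, hi⟩ := hτ
  obtain ⟨x, hx⟩ := q1 t hadm i
  rw [hi, hτe] at hx
  obtain ⟨l, hl⟩ := NonLow.exists_dec (2 * e + 7) (fun i => φ.symm (x i))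
  have hloc : Loc e (fun i => φ (dec l i)) := by
    refine Loc.congr (fun i hi => ?_) hx
    rw [hl i hi, Equiv.apply_symm_apply]
  obtain ⟨a, ha⟩ := glue_exists_fst ((he1 l).2 hloc)
  have haL := (he1 a).1 ha.1
  obtain ⟨j, hj1, hj2, hj3⟩ := q2 t hadm e _ haL
  have hlt' : φ (dec a (2 * e + 3)) < φ (dec a (2 * e + 5)) := haL.lt
  obtain ⟨hd1, hd2⟩ := hdl _ _ (he2 a)
  have hj : t j ∈ Fam D := by rw [← ht]; exact ⟨j, rfl⟩
  rcases hj with ⟨h4, _⟩ | ⟨b, hb, h4⟩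
  · rw [hj1] at h4
    exact h4 a ha.1
  · rw [hj1] at hb h4
    have := glue_fst_unique ha hb
    subst this
    rcases h4 with ⟨h5, h6⟩ | ⟨u, h5, h6, h7⟩
    · exact hs2 (Lo t) φ _ _ hlt' (hj3 h5) (hd2 h6)
    · apply h7
      obtain ⟨h8, h9⟩ := hj2 u h5
      have g1 : 1 ≤ u.1 := le_trans (by norm_num) h6.2.1
      have g2 : 1 ≤ u.2 := le_trans (by norm_num) h6.2.2.2
      intro c
      cases c
      · exact hd1 false _ ((hs1 (Lo t) φ _ _ u.1 hlt' g1).2 h8)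
      · exact hd1 true _ ((hs1 (Lo t) φ _ _ u.2 hlt' g2).1 h9)

end Pool.Agent.Downey
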