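import Pool.Agent.Downey.GlueRH
import Pool.Agent.Downey.HC

/-!
# Glue: oracles which are not low realise the family
-/

set_option autoImplicit false

namespace Pool.Agent.Downey

open Pool.Agent.NonLow (Qd Sg Dl Z Pr dec)

open Classical in
/-- number of previous visits of the present guess in its phase -/
noncomputable def rnr (g : ℕ → ℕ × ℕ) (m : ℕ) : ℕ :=
  ((Finset.range m).filter fun j => kk g m ≤ j ∧ g j = g m).card

/-- keys of the approximations -/
abbrev RnK : Type := (ℕ × ℕ) × (ℕ × ℕ) × ℕ × Bool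

/-- the level function -/
noncomputable def rnl (w : RnK → ℕ → ℕ) (e n0 : ℕ) (u : ℕ × ℕ) (g : ℕ → ℕ × ℕ) (c : Bool)
    (m : ℕ) : ℕ :=
  max 1 (min (zz (sel c u) m) (max (zz (sel c u) (kk g m))
    (w ((e, (g m).1), (zz u.1 (kk g m), zz u.2 (kk g m)), n0, c) (rnr g m))))

theorem rn_self {w : ℕ} (h : 1 ≤ w) (m : ℕ) : m ≤ zz w m := by
  unfold zz
  have h1 : m < 2 ^ m := Nat.lt_two_pow_self
  nlinarith [Nat.one_le_two_pow (n := m)]

theorem rn_fin {g : ℕ → ℕ × ℕ} {v : ℕ × ℕ} {s : ℕ} (hv : IsLim g v)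
    (hs : ∀ m, s ≤ m → g m = v → kk g m = s)
    (hb : ∀ b, ∃ m0, ∀ m, m0 ≤ m → g m ≠ v → b ≤ kk g m)
    (w : RnK → ℕ → ℕ) (e n0 : ℕ) (u : ℕ × ℕ) (c : Bool) (hu : 1 ≤ sel c u) (W : ℕ)
    (hW1 : zz (sel c u) s ≤ W)
    (hW : ∀ n, n < W ↔ ∃ s0, ∀ s', s0 ≤ s' → n < w ((e, v.1), (zz u.1 s, zz u.2 s), n0, c) s') :
    Fin1 (rnl w e n0 u g c) W := by
  classical
  set P : ℕ → Prop := fun m => s ≤ m ∧ g m = v with hP
  have hinf : (setOf P).Infinite := by
    refine Set.infinite_of_forall_exists_gt fun a => ?_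
    obtain ⟨m, hm, hm2⟩ := hv.2 (max s (a + 1))
    exact ⟨m, ⟨(le_max_left _ _).trans hm, hm2⟩, by have := (le_max_right s (a + 1)).trans hm; omega⟩
  have hW0 : 1 ≤ W := (zz_pos hu s).trans hW1
  have hvis : ∀ m, P m → rnl w e n0 u g c m = max 1 (min (zz (sel c u) m)
      (max (zz (sel c u) s) (w ((e, v.1), (zz u.1 s, zz u.2 s), n0, c) (Nat.count P m)))) := by
    intro m hm
    have h1 : kk g m = s := hs m hm.1 hm.2
    have h2 : rnr g m = Nat.count P m := by
      rw [Nat.count_eq_card_filter_range]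
      unfold rnr
      rw [h1, hm.2]
    unfold rnl
    rw [h2, h1, hm.2]
  have hlow : ∃ m0, ∀ m, m0 ≤ m → W ≤ rnl w e n0 u g c m := by
    obtain ⟨s0, hs0⟩ := (hW (W - 1)).1 (by omega)
    obtain ⟨mb, hmb⟩ := hb W
    refine ⟨max (max (Nat.nth P s0) mb) (max W s), fun m hm => ?_⟩
    have k1 : Nat.nth P s0 ≤ m := ((le_max_left _ _).trans (le_max_left _ _)).trans hm
    have k2 : mb ≤ m := ((le_max_right _ _).trans (le_max_left _ _)).trans hm
    have k3 : W ≤ m := ((le_max_left _ _).trans (le_max_right _ _)).trans hm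
    have k4 : s ≤ m := ((le_max_right _ _).trans (le_max_right _ _)).trans hm
    have k5 : W ≤ zz (sel c u) m := k3.trans (rn_self hu m)
    by_cases hg : g m = v
    · rw [hvis m ⟨k4, hg⟩]
      have k6 : s0 ≤ Nat.count P m := by
        have := Nat.count_monotone P k1
        rwa [Nat.count_nth_of_infinite hinf] at this
      have k7 := hs0 _ k6
      refine le_max_of_le_right (le_min k5 (le_max_of_le_right ?_))
      omega
    · have k6 : W ≤ zz (sel c u) (kk g m) := (hmb m k2 hg).trans (rn_self hu _)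
      exact le_max_of_le_right (le_min k5 (le_max_of_le_left k6))
  refine ⟨hlow, fun m0 => ?_⟩
  obtain ⟨m1, hm1⟩ := hlow
  have h1 : ¬ ∃ s0, ∀ s', s0 ≤ s' → W < w ((e, v.1), (zz u.1 s, zz u.2 s), n0, c) s' :=
    fun h => lt_irrefl _ ((hW W).2 h)
  push Not at h1
  obtain ⟨r, hr, hr2⟩ := h1 (Nat.count P (max m0 m1) + 1)
  set m := Nat.nth P r with hm
  have hPm : P m := Nat.nth_mem_of_infinite hinf r
  have hc : Nat.count P m = r := Nat.count_nth_of_infinite hinf r
  have hlt : max m0 m1 < m := by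
    by_contra hcon
    push Not at hcon
    have := Nat.count_monotone P hcon
    omega
  have hm0 : m0 ≤ m := ((le_max_left _ _).trans hlt.le)
  have hm1' : m1 ≤ m := ((le_max_right _ _).trans hlt.le)
  refine ⟨m, hm0, le_antisymm ?_ (hm1 m hm1')⟩
  rw [hvis m hPm, hc]
  exact max_le hW0 ((min_le_right _ _).trans (max_le hW1 hr2))

theorem rn_inf {g : ℕ → ℕ × ℕ} (hg : InfT (kk g)) (w : RnK → ℕ → ℕ) (e n0 : ℕ)
    (u : ℕ × ℕ) (c : Bool) : Inf1 (rnl w e n0 u g c) (sel c u) := by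
  intro m0
  obtain ⟨m, hm, h⟩ := hg m0
  refine ⟨m, hm, fun m' hm' => ?_⟩
  exact le_max_of_le_right (le_min (zz_mono _ hm') (le_max_of_le_left (zz_mono _ (h m' hm'))))

theorem rn_fin_unique {l : ℕ → ℕ} {k k' : ℕ} (h : Fin1 l k) (h' : Fin1 l k') : k = k' := by
  have key : ∀ a b : ℕ, Fin1 l a → Fin1 l b → a ≤ b := by
    rintro a b ⟨⟨m0, h1⟩, _⟩ ⟨_, h2⟩
    obtain ⟨m, hm, hT⟩ := h2 m0
    rw [← hT]; exact h1 m hm
  exact le_antisymm (key _ _ h h') (key _ _ h' h)

theorem rn_fin_inf {l : ℕ → ℕ} {k n0 : ℕ} (hn : 1 ≤ n0) (h : Fin1 l k) (h' : Inf1 l n0) : False := by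
  obtain ⟨m, hm, h1⟩ := h' (k + 1)
  obtain ⟨m', hm', h2⟩ := h.2 m
  have h3 := h1 m' hm'
  have h4 := rn_self hn m
  omega

theorem rn_kap_even {A : ℕ → Prop} {u : ℕ × ℕ} (h1 : Even u.1) (h2 : Even u.2) (h3 : 2 ≤ u.1)
    (h4 : 2 ≤ u.2) (i : ℕ) : good (kap A u i) := by
  unfold good kap
  refine ⟨h1.add (even_two_mul _), ?_, h2.add (even_two_mul _), ?_⟩
  · show 2 ≤ u.1 + 2 * _
    omega
  · show 2 ≤ u.2 + 2 * _
    omega

theorem rn_kap_le {A : ℕ → Prop} {u : ℕ × ℕ} (c : Bool) (i : ℕ) : sel c u ≤ sel c (kap A u i) := by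
  unfold kap
  cases c
  · show u.1 ≤ u.1 + 2 * _
    omega
  · show u.2 ≤ u.2 + 2 * _
    omega

/-! ### complexity -/

theorem rn_zz : Computable₂ (fun w j : ℕ => zz w j) := by
  have hp2 : Primrec (fun j : ℕ => 2 ^ j) := by
    refine (Primrec.nat_rec₁ 1 (f := fun _ IH => 2 * IH)
      (Primrec.nat_mul.comp (Primrec.const 2) Primrec.snd)).of_eq fun j => ?_
    induction j with
    | zero => rfl
    | succ j ih =>
      simp only [pow_succ] at ih ⊢
      rw [ih]; ring
  have : Primrec₂ (fun w j : ℕ => zz w j) :=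
    Primrec.nat_mul.comp Primrec.fst (hp2.comp Primrec.snd)
  exact this.to_comp

theorem rn_sel {α : Type} [Primcodable α] {f : α → ℕ × ℕ} (hf : Computable f) (c : Bool) :
    Computable (fun x => sel c (f x)) := by
  cases c
  · exact Computable.fst.comp hf
  · exact Computable.snd.comp hf

section cplx
variable {X : ℕ → ℕ} {gg : Idx → ℕ → ℕ × ℕ} {w : RnK → ℕ → ℕ}

theorem rn_cdl (hg : HcF X (fun x : Idx × ℕ => gg x.1 x.2))
    (hk : HcF X (fun x : Idx × ℕ => kk (gg x.1) x.2)) : Dl X 0 (fun q : (Idx × ℕ) × ℕ =>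
      kk (gg q.1.1) q.1.2 ≤ q.2 ∧ gg q.1.1 q.2 = gg q.1.1 q.1.2) := by
  have a1 : HcF X (fun q : (Idx × ℕ) × ℕ => kk (gg q.1.1) q.1.2) :=
    hc_comp (f := fun x : Idx × ℕ => kk (gg x.1) x.2) (g := fun q : (Idx × ℕ) × ℕ => q.1) hk
      (hc_of_comp Computable.fst)
  have a2 : Dl X 0 (fun q : (Idx × ℕ) × ℕ => kk (gg q.1.1) q.1.2 ≤ q.2) :=
    hc_le a1 (hc_of_comp Computable.snd)
  have a3 : HcF X (fun q : (Idx × ℕ) × ℕ => gg q.1.1 q.2) :=
    hc_comp (f := fun x : Idx × ℕ => gg x.1 x.2) (g := fun q : (Idx × ℕ) × ℕ => (q.1.1, q.2)) hg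
      (hc_of_comp ((Computable.fst.comp Computable.fst).pair Computable.snd))
  have a3' : HcF X (fun q : (Idx × ℕ) × ℕ => gg q.1.1 q.1.2) :=
    hc_comp (f := fun x : Idx × ℕ => gg x.1 x.2) (g := fun q : (Idx × ℕ) × ℕ => q.1) hg
      (hc_of_comp Computable.fst)
  have a4 : Dl X 0 (fun q : (Idx × ℕ) × ℕ => gg q.1.1 q.2 = gg q.1.1 q.1.2) :=
    hc_eq a3 a3'
  exact a2.and a4

open Classical in
theorem rn_cr (c2 : StmtC2) (hg : HcF X (fun x : Idx × ℕ => gg x.1 x.2))
    (hk : HcF X (fun x : Idx × ℕ => kk (gg x.1) x.2)) :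
    HcF X (fun x : Idx × ℕ => rnr (gg x.1) x.2) := by
  have h := hc_card c2 (P := fun (x : Idx × ℕ) (j : ℕ) =>
    kk (gg x.1) x.2 ≤ j ∧ gg x.1 j = gg x.1 x.2) (rn_cdl hg hk) (b := fun x => x.2)
    (hc_of_comp Computable.snd)
  have e : (fun x : Idx × ℕ => rnr (gg x.1) x.2) = fun x : Idx × ℕ =>
      ((Finset.range x.2).filter fun j => kk (gg x.1) x.2 ≤ j ∧ gg x.1 j = gg x.1 x.2).card := by
    funext x
    unfold rnr
    congr
  rw [e]
  convert h

/-- the key of an index, a guess and a phase -/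
def rnkey (c : Bool) (y : Idx × (ℕ × ℕ) × ℕ) : RnK :=
  ((y.1.1.1, y.2.1.1), (zz (ux y.1).1 y.2.2, zz (ux y.1).2 y.2.2), y.1.2.2, c)

theorem rn_ckey (c : Bool) : Computable (rnkey c) := by
  have b0 : Computable (fun y : Idx × (ℕ × ℕ) × ℕ => y.1) := Computable.fst
  have b1 : Computable (fun y : Idx × (ℕ × ℕ) × ℕ => y.1.1.1) :=
    Computable.fst.comp (Computable.fst.comp b0)
  have b2 : Computable (fun y : Idx × (ℕ × ℕ) × ℕ => y.2.1.1) :=
    Computable.fst.comp (Computable.fst.comp Computable.snd)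
  have b3 : Computable (fun y : Idx × (ℕ × ℕ) × ℕ => y.2.2) :=
    Computable.snd.comp Computable.snd
  have b4 : Computable (fun y : Idx × (ℕ × ℕ) × ℕ => ux y.1) := ux_comp.comp b0
  have b5 : Computable (fun y : Idx × (ℕ × ℕ) × ℕ => y.1.2.2) :=
    Computable.snd.comp (Computable.snd.comp b0)
  have b6 : Computable (fun y : Idx × (ℕ × ℕ) × ℕ => zz (ux y.1).1 y.2.2) :=
    rn_zz.comp (Computable.fst.comp b4) b3
  have b7 : Computable (fun y : Idx × (ℕ × ℕ) × ℕ => zz (ux y.1).2 y.2.2) :=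
    rn_zz.comp (Computable.snd.comp b4) b3
  have b8 : Computable (fun y : Idx × (ℕ × ℕ) × ℕ => (y.1.1.1, y.2.1.1)) := b1.pair b2
  have b9 : Computable (fun y : Idx × (ℕ × ℕ) × ℕ =>
    (zz (ux y.1).1 y.2.2, zz (ux y.1).2 y.2.2)) := b6.pair b7
  have b10 : Computable (fun y : Idx × (ℕ × ℕ) × ℕ => (y.1.2.2, c)) :=
    b5.pair (Computable.const c)
  exact b8.pair (b9.pair b10)

/-- the value from index, stage, phase and approximation -/
def rnval (c : Bool) (y : (Idx × ℕ) × ℕ × ℕ) : ℕ :=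
  max 1 (min (zz (sel c (ux y.1.1)) y.1.2) (max (zz (sel c (ux y.1.1)) y.2.1) y.2.2))

theorem rn_cval (c : Bool) : Computable (rnval c) := by
  have b0 : Computable (fun y : (Idx × ℕ) × ℕ × ℕ => sel c (ux y.1.1)) :=
    rn_sel (ux_comp.comp (Computable.fst.comp Computable.fst)) c
  have b1 : Computable (fun y : (Idx × ℕ) × ℕ × ℕ => zz (sel c (ux y.1.1)) y.1.2) :=
    rn_zz.comp b0 (Computable.snd.comp Computable.fst)
  have b2 : Computable (fun y : (Idx × ℕ) × ℕ × ℕ => zz (sel c (ux y.1.1)) y.2.1) :=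
    rn_zz.comp b0 (Computable.fst.comp Computable.snd)
  have b3 : Computable (fun y : (Idx × ℕ) × ℕ × ℕ => y.2.2) := Computable.snd.comp Computable.snd
  have b4 : Computable (fun y : (Idx × ℕ) × ℕ × ℕ => max (zz (sel c (ux y.1.1)) y.2.1) y.2.2) :=
    Primrec.nat_max.to_comp.comp b2 b3
  have b5 : Computable (fun y : (Idx × ℕ) × ℕ × ℕ => min (zz (sel c (ux y.1.1)) y.1.2)
      (max (zz (sel c (ux y.1.1)) y.2.1) y.2.2)) :=
    Primrec.nat_min.to_comp.comp b1 b4
  have b6 : Computable (fun y : (Idx × ℕ) × ℕ × ℕ => max 1 (min (zz (sel c (ux y.1.1)) y.1.2)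
      (max (zz (sel c (ux y.1.1)) y.2.1) y.2.2))) :=
    Primrec.nat_max.to_comp.comp (Computable.const 1) b5
  exact b6

theorem rn_cplx (c2 : StmtC2)
    (hg : HcF X (fun x : Idx × ℕ => gg x.1 x.2)) (hk : HcF X (fun x : Idx × ℕ => kk (gg x.1) x.2))
    (hw : HcF X (fun x : RnK × ℕ => w x.1 x.2)) (c : Bool) :
    HcF X (fun x : Idx × ℕ => rnl w x.1.1.1 x.1.2.2 (ux x.1) (gg x.1) c x.2) := by
  have hr : HcF X (fun x : Idx × ℕ => rnr (gg x.1) x.2) := rn_cr c2 hg hk
  have h1 : HcF X (fun x : Idx × ℕ => (x.1, gg x.1 x.2, kk (gg x.1) x.2)) :=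
    hc_pair (hc_of_comp Computable.fst) (hc_pair hg hk)
  have h2 : HcF X (fun x : Idx × ℕ => rnkey c (x.1, gg x.1 x.2, kk (gg x.1) x.2)) :=
    hc_comp (f := rnkey c) (g := fun x : Idx × ℕ => (x.1, gg x.1 x.2, kk (gg x.1) x.2))
      (hc_of_comp (rn_ckey c)) h1
  have h3 : HcF X (fun x : Idx × ℕ => (rnkey c (x.1, gg x.1 x.2, kk (gg x.1) x.2),
      rnr (gg x.1) x.2)) := hc_pair h2 hr
  have h4 : HcF X (fun x : Idx × ℕ => w (rnkey c (x.1, gg x.1 x.2, kk (gg x.1) x.2))
      (rnr (gg x.1) x.2)) :=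
    hc_comp (f := fun x : RnK × ℕ => w x.1 x.2)
      (g := fun x : Idx × ℕ => (rnkey c (x.1, gg x.1 x.2, kk (gg x.1) x.2), rnr (gg x.1) x.2)) hw h3
  have h5 : HcF X (fun x : Idx × ℕ => (x, kk (gg x.1) x.2,
      w (rnkey c (x.1, gg x.1 x.2, kk (gg x.1) x.2)) (rnr (gg x.1) x.2))) :=
    hc_pair (hc_of_comp Computable.id) (hc_pair hk h4)
  have h6 : HcF X (fun x : Idx × ℕ => rnval c (x, kk (gg x.1) x.2,
      w (rnkey c (x.1, gg x.1 x.2, kk (gg x.1) x.2)) (rnr (gg x.1) x.2))) :=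
    hc_comp (f := rnval c) (g := fun x : Idx × ℕ => (x, kk (gg x.1) x.2,
      w (rnkey c (x.1, gg x.1 x.2, kk (gg x.1) x.2)) (rnr (gg x.1) x.2)))
      (hc_of_comp (rn_cval c)) h5
  exact h6

end cplx

/-! ### assembly -/

theorem rn_of (c2 : StmtC2) (li : StmtLI) (wi : StmtWI) (ba : StmtBA) (og : StmtOG)
    (wc : StmtWC) (w1 : StmtW1) (w2 : StmtW2) (w3 : StmtW3) (w4 : StmtW4) : StmtRN := by
  classical
  intro D hD X A hA hA2
  obtain ⟨γ, hγ, hog⟩ := og D hD
  obtain ⟨w, hw, hwq⟩ := li X RnK (fun q n => QW A (D.p q.1.1 q.1.2) q.2.1 q.2.2.1 q.2.2.2 n)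
    (fun i n n' hn => by
      rintro ⟨j, h1, h2⟩
      exact ⟨j, h1, by omega⟩) (w4 D hD X A hA)
  set FF : Idx → ℕ → ℕ := fun i m => i.2.2 + m with hFF
  have hFm : ∀ i, StrictMono (FF i) := fun i a b hab => by simp only [hFF]; omega
  set gg : Idx → ℕ → ℕ × ℕ := fun i => win (γ i.1) (FF i) with hgg
  have hlim : ∀ i v, IsLim (gg i) v ↔ IsLim (γ i.1) v := fun i v => (wi (γ i.1) (FF i) (hFm i)).2 v
  set L : Bool → Idx → ℕ → ℕ := fun c i m => rnl w i.1.1 i.2.2 (ux i) (gg i) c m with hL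
  have hux : ∀ i : Idx, good (ux i) := fun i =>
    ⟨⟨i.2.1.1 + 1, by simp only [ux]; ring⟩, by simp only [ux]; omega,
      ⟨i.2.1.2 + 1, by simp only [ux]; ring⟩, by simp only [ux]; omega⟩
  have hu1 : ∀ (i : Idx) c, 1 ≤ sel c (ux i) := by
    intro i c
    cases c <;> simp [sel, ux]
  -- the finite case
  have hcase : ∀ i v, IsLim (γ i.1) v → ∃ s j, (∀ m, s ≤ m → gg i m = v → kk (gg i) m = s) ∧
      (∀ c n, QW A (D.p i.1.1 v.1) (zz (ux i).1 s, zz (ux i).2 s) i.2.2 c n ↔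
        n < sel c (kap A (zz (ux i).1 s, zz (ux i).2 s) j)) ∧
      (¬ ∀ c, Lim (D.p i.1.1 v.1) c (sel c (kap A (zz (ux i).1 s, zz (ux i).2 s) j))) ∧
      ∀ c, Fin1 (L c i) (sel c (kap A (zz (ux i).1 s, zz (ux i).2 s) j)) := by
    intro i v hv
    have hv' := (hlim i v).2 hv
    obtain ⟨hb, s, _, hs⟩ := (ba (gg i)).2.1 v hv'
    have hp : Computable (D.p i.1.1 v.1) := by
      have c1 : Computable (fun t : ℕ => (i.1.1, v.1, t)) :=
        (Computable.const i.1.1).pair ((Computable.const v.1).pair Computable.id)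
      have c2 := hD.2.comp c1
      exact c2
    obtain ⟨j, hj1, hj2⟩ := w2 A (D.p i.1.1 v.1) (zz (ux i).1 s, zz (ux i).2 s) i.2.2
      (w1 A hA2 (D.p i.1.1 v.1) hp _ _)
    refine ⟨s, j, hs, hj1, hj2, fun c => ?_⟩
    refine rn_fin hv' hs hb w i.1.1 i.2.2 (ux i) c (hu1 i c) _ ?_ fun n => ?_
    · have := rn_kap_le (A := A) (u := (zz (ux i).1 s, zz (ux i).2 s)) c j
      refine le_trans (le_of_eq ?_) this
      cases c <;> rfl
    · rw [← hj1 c n]
      exact hwq ((i.1.1, v.1), (zz (ux i).1 s, zz (ux i).2 s), i.2.2, c) n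
  have hinf : ∀ i, (∀ v, ¬ IsLim (γ i.1) v) → ∀ c, Inf1 (L c i) (sel c (ux i)) := by
    intro i hi c
    exact rn_inf ((ba (gg i)).2.2 fun v hv => hi v ((hlim i v).1 hv)) w _ _ _ c
  -- the types
  have hex : ∀ i : Idx, ∃ o : Option (ℕ × ℕ), (i.1.1, o) ∈ Fam D ∧
      (∀ v, o = some v → ∀ c, Fin1 (L c i) (sel c v)) ∧
      (o = none → ∀ c, Inf1 (L c i) (sel c (ux i))) := by
    intro i
    by_cases hv : ∃ v, IsLim (γ i.1) v
    · obtain ⟨v, hv⟩ := hv
      obtain ⟨s, j, _, _, h3, h4⟩ := hcase i v hv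
      refine ⟨some (kap A (zz (ux i).1 s, zz (ux i).2 s) j), ?_, ?_, fun h => by cases h⟩
      · right
        refine ⟨v.1, (hog i.1.1 i.1.2).1 v hv, Or.inr ⟨_, rfl, ?_, h3⟩⟩
        obtain ⟨e1, e2, e3, e4⟩ := hux i
        exact rn_kap_even (zz_even e1 s) (zz_even e3 s)
          (by have := zz_mono (ux i).1 (Nat.zero_le s); rw [zz_zero] at this; exact e2.trans this)
          (by have := zz_mono (ux i).2 (Nat.zero_le s); rw [zz_zero] at this; exact e4.trans this) j
      · intro v' hv'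
        cases hv'
        exact h4
    · push Not at hv
      refine ⟨none, ?_, fun v h => (by cases h), fun _ => hinf i hv⟩
      by_cases htr : ∀ l, ¬ D.Tr (i.1.1, l)
      · exact Or.inl ⟨htr, rfl⟩
      · right
        push Not at htr
        obtain ⟨l0, hl0⟩ := htr
        obtain ⟨l, hl⟩ := glue_exists_fst hl0
        refine ⟨l, hl, Or.inl ⟨rfl, ?_⟩⟩
        by_contra hc'
        obtain ⟨d, hd, _⟩ := (hog i.1.1 i.1.2).2.2 l hl (by
          rintro ⟨x, _, hx⟩
          exact hc' ⟨x, hx⟩)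
        exact hv _ hd
  choose tt ht1 ht2 ht3 using hex
  have huniq : ∀ (i : Idx) (o : Option (ℕ × ℕ)), (∀ v, o = some v → ∀ c, Fin1 (L c i) (sel c v)) →
      (o = none → ∀ c, Inf1 (L c i) (sel c (ux i))) → tt i = o := by
    intro i o h1 h2
    cases hti : tt i with
    | none =>
      cases o with
      | none => rfl
      | some v => exact (rn_fin_inf (hu1 i true) (h1 v rfl true) (ht3 i hti true)).elim
    | some v' =>
      cases o with
      | none => exact (rn_fin_inf (hu1 i true) (ht2 i v' hti true) (h2 rfl true)).elim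
      | some v =>
        have e1 := rn_fin_unique (ht2 i v' hti false) (h1 v rfl false)
        have e2 := rn_fin_unique (ht2 i v' hti true) (h1 v rfl true)
        exact congrArg some (Prod.ext e1 e2)
  have hwin := wc X Idx (fun i => γ i.1) FF (by
      have c1 : Computable (fun q : Idx × ℕ => (q.1.1, q.2)) :=
        (Computable.fst.comp Computable.fst).pair Computable.snd
      have c2 := hγ.comp c1
      exact c2) hFm (by
      have c1 : Computable (fun q : Idx × ℕ => q.1.2.2 + q.2) :=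
        Primrec.nat_add.to_comp.comp (Computable.snd.comp (Computable.snd.comp Computable.fst))
          Computable.snd
      exact hc_of_comp c1)
  refine ⟨fun i => i.1.1, ux, L, tt, Computable.fst.comp Computable.fst, ux_comp, ?_, ?_, ?_, ?_⟩
  · intro c
    exact rn_cplx c2 (gg := gg) (w := w) hwin.1 hwin.2 hw c
  · intro c i m
    exact ⟨le_max_left _ _, max_le (zz_pos (hu1 i c) m) (min_le_left _ _)⟩
  · apply Set.Subset.antisymm
    · rintro _ ⟨i, rfl⟩
      exact ht1 i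
    · rintro ⟨e, o⟩ hτ
      rcases hτ with ⟨htr, ho⟩ | ⟨l, hl, ⟨ho, x, hx⟩ | ⟨u, ho, hu, hL'⟩⟩
      · have ho' : o = none := ho
        subst ho'
        refine ⟨((e, none), (0, 0), 0), Prod.ext rfl ?_⟩
        exact huniq _ none (fun v h => by cases h) fun _ =>
          hinf _ fun v hv => htr _ ((hog e none).1 v hv).1
      · have ho' : o = none := ho
        subst ho'
        refine ⟨((e, some x), (0, 0), 0), Prod.ext rfl ?_⟩
        exact huniq _ none (fun v h => by cases h) fun _ =>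
          hinf _ ((hog e (some x)).2.1 l hl ⟨x, rfl, hx⟩)
      · have ho' : o = some u := ho
        subst ho'
        obtain ⟨⟨a, ha⟩, ha2, ⟨b, hb⟩, hb2⟩ := hu
        have hu' : u = (2 * (a - 1) + 2, 2 * (b - 1) + 2) :=
          Prod.ext (by simp; omega) (by simp; omega)
        obtain ⟨d, hd, hd0⟩ := (hog e none).2.2 l hl (by rintro ⟨x, hx, _⟩; cases hx)
        obtain ⟨a0, ha0⟩ := w3 A (D.p e l) u hL'
        obtain ⟨⟨m1, hm1⟩, hio⟩ := hd
        set i : Idx := ((e, none), (a - 1, b - 1), max a0 m1) with hi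
        have hui : ux i = u := by rw [hu']; rfl
        obtain ⟨s, j, hs, hj1, _, hj3⟩ := hcase i (l, d) ⟨⟨m1, hm1⟩, hio⟩
        -- no stronger guess at all
        have hno : ∀ m, ¬ lexlt (gg i m) (l, d) := by
          intro m
          obtain ⟨t, ht, _, ht3⟩ := ((wi (γ i.1) (FF i) (hFm i)).1 m).1
          have h1 : gg i m = γ i.1 t := ht3.symm
          rw [h1]
          refine hm1 t ?_
          have : m1 ≤ max a0 m1 := le_max_right _ _
          have h2 : FF i m = max a0 m1 + m := rfl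
          omega
        have hs0 : s = 0 := by
          obtain ⟨m, hm, hm2⟩ := ((hlim i (l, d)).2 ⟨⟨m1, hm1⟩, hio⟩).2 s
          have h1 := hs m hm hm2
          have h2 : kk (gg i) m = 0 := by
            unfold kk
            refine Nat.sInf_eq_zero.2 (Or.inl ?_)
            intro m' _ _
            rw [hm2]
            exact hno m'
          omega
        subst hs0
        refine ⟨i, Prod.ext rfl ?_⟩
        refine huniq i (some u) (fun v hv c => ?_) (fun h => by cases h)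
        cases hv
        have h5 : sel c (kap A (zz (ux i).1 0, zz (ux i).2 0) j) = sel c u := by
          have hz : (zz (ux i).1 0, zz (ux i).2 0) = u := by
            rw [zz_zero, zz_zero, hui]
          rw [hz] at hj1 ⊢
          have hk0 : sel c (kap A u 0) = sel c u := by
            unfold kap
            cases c <;> simp [sel]
          have hnp : ¬ Pass A (D.p e l) u i.2.2 0 := ha0 _ (le_max_left _ _)
          have hq : ∀ n, QW A (D.p e l) u i.2.2 c n ↔ n < sel c u := by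
            intro n
            constructor
            · rintro ⟨j', h6, h7⟩
              have : j' = 0 := by
                by_contra hne
                exact hnp (h6 0 (by omega))
              rw [this, hk0] at h7
              exact h7
            · intro h
              exact ⟨0, fun _ h => absurd h (Nat.not_lt_zero _), by rw [hk0]; exact h⟩
          refine le_antisymm ?_ ?_
          · by_contra hcon
            push Not at hcon
            exact lt_irrefl _ ((hq _).1 ((hj1 c _).2 hcon))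
          · by_contra hcon
            push Not at hcon
            exact lt_irrefl _ ((hj1 c _).1 ((hq _).2 hcon))
        rw [← h5]
        exact hj3 c
  · intro i
    exact ⟨ht2 i, ht3 i⟩

end Pool.Agent.Downey
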