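import Pool.Agent.Downey.Stmts
import Pool.Agent.NonLow.Cplx

/-!
# QP: the insertion sequences of a computable copy are computable
-/

set_option autoImplicit false

namespace Pool.Agent.Downey

open Pool.Agent.NonLow

theorem QP_dec {c : ℕ} : Computable (fun x : ℕ × ℕ × ℕ => dec x.2.1 (2 * x.1 + c)) := by
  have h1 : Computable (fun x : ℕ × ℕ × ℕ => 2 * x.1 + c) := by
    have hm : Computable (fun x : ℕ × ℕ × ℕ => 2 * x.1) :=
      (Primrec.nat_mul.comp (Primrec.const 2) Primrec.fst).to_comp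
    exact cpx_add hm c
  exact cpx_dec.comp (f := fun p : ℕ × ℕ => dec p.1 p.2)
    (g := fun x : ℕ × ℕ × ℕ => (x.2.1, 2 * x.1 + c))
    ((Computable.fst.comp Computable.snd).pair h1)

open Classical in
theorem qp_main (h0 : StmtC0) (h2 : StmtC2) : StmtQP := by
  intro M _ φ lt hlt hl
  have hLt : ∀ {α : Type} [Primcodable α] {f g : α → ℕ}, Computable f → Computable g →
      Dl Z 0 (fun x => φ (f x) < φ (g x)) := fun hf hg =>
    (hl.comp (hf.pair hg)).of_iff fun x => (hlt _ _).symm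
  have hLe : ∀ {α : Type} [Primcodable α] {f g : α → ℕ}, Computable f → Computable g →
      Dl Z 0 (fun x => φ (f x) ≤ φ (g x)) := fun hf hg =>
    (hLt hg hf).not.of_iff fun x => not_lt.symm
  have cA : Computable (fun x : ℕ × ℕ × ℕ => dec x.2.1 (2 * x.1 + 3)) := QP_dec
  have cB : Computable (fun x : ℕ × ℕ × ℕ => dec x.2.1 (2 * x.1 + 5)) := QP_dec
  have cI : Computable (fun x : ℕ × ℕ × ℕ => x.2.2) := Computable.snd.comp Computable.snd
  have hP1 : Dl Z 0 (fun p : (ℕ × ℕ × ℕ) × ℕ =>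
      φ (dec p.1.2.1 (2 * p.1.1 + 5)) ≤ φ p.2 ∧ φ p.2 < φ p.1.2.2) :=
    (hLe (cB.comp Computable.fst) Computable.snd).and
      (hLt Computable.snd (cI.comp Computable.fst))
  have hP2 : Dl Z 0 (fun p : (ℕ × ℕ × ℕ) × ℕ =>
      φ p.2 ≤ φ (dec p.1.2.1 (2 * p.1.1 + 3)) ∧ φ p.1.2.2 < φ p.2) :=
    (hLe Computable.snd (cA.comp Computable.fst)).and
      (hLt (cI.comp Computable.fst) Computable.snd)
  have hm : Computable (fun q : ((ℕ × ℕ × ℕ) × Pt) × ℕ => ((q.1.1, q.1.1.2.2), q.2)) :=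
    (((Computable.fst.comp Computable.fst).pair (cI.comp (Computable.fst.comp Computable.fst))).pair
      Computable.snd)
  have hC1 := ((h2 Z (ℕ × ℕ × ℕ) _ hP1).1).comp hm
  have hC2 := ((h2 Z (ℕ × ℕ × ℕ) _ hP2).1).comp hm
  have hC1' : Sg Z 0 (fun q : ((ℕ × ℕ × ℕ) × Pt) × ℕ => ((Finset.range q.1.1.2.2).filter fun j =>
      φ (dec q.1.1.2.1 (2 * q.1.1.1 + 5)) ≤ φ j ∧ φ j < φ q.1.1.2.2).card = q.2) :=
    hC1.of_iff fun q => Iff.of_eq (by congr!)
  have hC2' : Sg Z 0 (fun q : ((ℕ × ℕ × ℕ) × Pt) × ℕ => ((Finset.range q.1.1.2.2).filter fun j =>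
      φ j ≤ φ (dec q.1.1.2.1 (2 * q.1.1.1 + 3)) ∧ φ q.1.1.2.2 < φ j).card = q.2) :=
    hC2.of_iff fun q => Iff.of_eq (by congr!)
  have hE : ∀ b : Bool, Sg Z 0 (fun q : ((ℕ × ℕ × ℕ) × Pt) × ℕ => q.1.2 = some (b, q.2)) := by
    intro b
    refine Sg.of_bool (f := fun q : ((ℕ × ℕ × ℕ) × Pt) × ℕ => decide (q.1.2 = some (b, q.2))) ?_
      (by simp)
    exact (Primrec.eq.decide.to_comp.comp (Computable.snd.comp Computable.fst)
      (Computable.option_some.comp ((Computable.const b).pair Computable.snd)))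
  have hN : Sg Z 0 (fun q : (ℕ × ℕ × ℕ) × Pt => q.2 = none) := by
    refine Sg.of_bool (f := fun q : (ℕ × ℕ × ℕ) × Pt => decide (q.2 = none)) ?_ (by simp)
    exact (Primrec.eq.decide.to_comp.comp Computable.snd (Computable.const none))
  have hT1 := Sg.exN (P := fun (q : (ℕ × ℕ × ℕ) × Pt) (n : ℕ) =>
    ((Finset.range q.1.2.2).filter fun j =>
      φ (dec q.1.2.1 (2 * q.1.1 + 5)) ≤ φ j ∧ φ j < φ q.1.2.2).card = n ∧ q.2 = some (true, n))
    (hC1'.and (hE true))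
  have hT2 := Sg.exN (P := fun (q : (ℕ × ℕ × ℕ) × Pt) (n : ℕ) =>
    ((Finset.range q.1.2.2).filter fun j =>
      φ j ≤ φ (dec q.1.2.1 (2 * q.1.1 + 3)) ∧ φ q.1.2.2 < φ j).card = n ∧ q.2 = some (false, n))
    (hC2'.and (hE false))
  have hA : Dl Z 0 (fun q : (ℕ × ℕ × ℕ) × Pt => φ (dec q.1.2.1 (2 * q.1.1 + 5)) < φ q.1.2.2) :=
    hLt (cB.comp Computable.fst) (cI.comp Computable.fst)
  have hB : Dl Z 0 (fun q : (ℕ × ℕ × ℕ) × Pt => φ q.1.2.2 < φ (dec q.1.2.1 (2 * q.1.1 + 3))) :=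
    hLt (cI.comp Computable.fst) (cA.comp Computable.fst)
  refine h0 _ _ _ ?_
  refine ((hA.sg.and hT1).or ((hA.sgn.and (hB.sg.and hT2)).or
    (hA.sgn.and (hB.sgn.and hN)))).of_iff fun q => ?_
  obtain ⟨⟨e, l, i⟩, v⟩ := q
  simp only [qp]
  split_ifs with hA' hB'
  · simp only [hA', true_and, not_true_eq_false, false_and, or_false, exists_eq_left']
    exact eq_comm
  · simp only [hA', hB', true_and, not_true_eq_false, false_and, or_false, exists_eq_left',
      not_false_eq_true, false_or]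
    exact eq_comm
  · simp only [hA', hB', true_and, false_and, not_false_eq_true, false_or]
    exact eq_comm

end Pool.Agent.Downey
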