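import Pool.Agent.Downey.Defs

/-!
# Frozen module statements
-/

set_option autoImplicit false

namespace Pool.Agent.Downey

open Pool.Agent.NonLow (Qd Sg Dl Z Pr dec)

/-! ### Contents -/

/-- K0: basic properties of the keys. -/
def StmtK0 : Prop := ∀ l : ℕ → ℕ, (∀ m, 1 ≤ l m) →
  (∀ m, StrictMono (key l m)) ∧ (∀ m i, key l (m + 1) (push (l m) i) = key l m i) ∧
  (∀ m r i, key l (m + r) (pos l m r i) = key l m i) ∧
  (∀ m r i, pos l m r i < 2 ^ r * (i + 1)) ∧ (∀ m r, StrictMono (pos l m r))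

/-- K1: finite limit inferior. -/
def StmtK1 : Prop := ∀ (l : ℕ → ℕ) (n0 k : ℕ), (∀ m, 1 ≤ l m ∧ l m ≤ zz n0 m) → Fin1 l k →
  Nonempty (KK l n0 ≃o Cn (some k))

/-- K2: infinitely many freezing stages. -/
def StmtK2 : Prop := ∀ (l : ℕ → ℕ) (n0 : ℕ), (∀ m, 1 ≤ l m ∧ l m ≤ zz n0 m) → Inf1 l n0 →
  Nonempty (KK l n0 ≃o Cn none)

/-- K3: the contents are uniformly computable. -/
def StmtK3 : Prop := ∀ (X : ℕ → ℕ) (ι : Type) [Primcodable ι] (l : ι → ℕ → ℕ) (n0 : ι → ℕ),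
  (∀ i m, 1 ≤ l i m ∧ l i m ≤ zz (n0 i) m) →
  Sg X 0 (fun q : (ι × ℕ) × ℕ => l q.1.1 q.1.2 = q.2) → Computable n0 →
  Pr X (fun i => KK (l i) (n0 i))

/-! ### The orders -/

/-- O1: presentation of sums of components. -/
def StmtLLPr : Prop := ∀ (X : ℕ → ℕ) (e : ℕ → ℕ) (A B : ℕ → Type) [∀ i, LinearOrder (A i)]
  [∀ i, LinearOrder (B i)], Computable e → Pr X A → Pr X B →
  ∃ lt : ℕ × ℕ → Prop, Dl X 0 lt ∧ ∃ φ : ℕ ≃ LL e A B, ∀ a b, lt (a, b) ↔ φ a < φ b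

/-- O2: the order depends only on the isomorphism types of the components. -/
def StmtLLiso : Prop := ∀ (e : ℕ → ℕ) (A B : ℕ → Type) [∀ i, LinearOrder (A i)]
  [∀ i, LinearOrder (B i)] (t : ℕ → Typ), (∀ i, e i = (t i).1) →
  (∀ i, Nonempty (A i ≃o Cn ((t i).2.map Prod.fst))) →
  (∀ i, Nonempty (B i ≃o Cn ((t i).2.map Prod.snd))) → Nonempty (LL e A B ≃o Lo t)

/-- O3: the order depends only on the set of types. -/
def StmtLo : Prop := ∀ t t' : ℕ → Typ, Set.range t = Set.range t' → Nonempty (Lo t ≃o Lo t')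

/-- P: presentations from realisations. -/
def StmtPres : Prop := ∀ (X : ℕ → ℕ) (ι : Type) [Primcodable ι] [Inhabited ι] (S : Set Typ),
  Rz X ι S → ∃ t : ℕ → Typ, Set.range t = S ∧
    ∃ lt : ℕ × ℕ → Prop, Dl X 0 lt ∧ ∃ φ : ℕ ≃ Lo t, ∀ a b, lt (a, b) ↔ φ a < φ b

/-- the admissible sequences of types -/
def Adm (t : ℕ → Typ) : Prop := ∀ i u, (t i).2 = some u → good u

/-- Q1: every component has a location. -/
def StmtSem1 : Prop := ∀ t : ℕ → Typ, Adm t → ∀ i, ∃ x : ℕ → Lo t, Loc (t i).1 x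

/-- Q2: locations and their contents. -/
def StmtSem2 : Prop := ∀ t : ℕ → Typ, Adm t → ∀ e (x : ℕ → Lo t), Loc e x →
  ∃ i, (t i).1 = e ∧
    (∀ u, (t i).2 = some u → LB (x (2 * e + 3)) u.1 ∧ RB (x (2 * e + 5)) u.2) ∧
    ((t i).2 = none → RO (x (2 * e + 5)))

/-! ### Insertion sequences -/

/-- S1: limit inferior of the insertion positions. -/
def StmtS1 : Prop := ∀ (M : Type) [LinearOrder M] (φ : ℕ ≃ M) (sL sR : M) (k : ℕ), sL < sR → 1 ≤ k →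
  (RB sR k → Lim (qp φ sL sR) true k) ∧ (LB sL k → Lim (qp φ sL sR) false k)

/-- SK: Koenig step for chains. -/
def StmtSK : Prop := ∀ (p : ℕ → Pt) (x : Node), Ex p x → ∃ y : Node, x.2 < y.2 ∧ Ex p y

/-- S2: long chains exclude a right content of type `ω`. -/
def StmtS2 : Prop := ∀ (M : Type) [LinearOrder M] (φ : ℕ ≃ M) (sL sR : M), sL < sR →
  RO sR → ¬ EE (qp φ sL sR)

/-- DL: idle times are harmless. -/
def StmtDelay : Prop := ∀ P q : ℕ → Pt, Delay P q →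
  (∀ c v, Lim q c v → Lim P c v) ∧ (EE P → EE q)

/-- UN: universal data. -/
def StmtUniv : Prop := ∃ D : Data, D.ok ∧ ∀ (P : ℕ × ℕ → Prop) (q : ℕ × ℕ × ℕ → Pt),
  Sg Z 1 (fun x : ℕ × ℕ => ¬ P x) → Computable q →
  ∃ e, (∀ l, D.Tr (e, l) ↔ P (e, l)) ∧ ∀ l, Delay (D.p e l) (fun i => q (e, l, i))

/-- QL: complexity of locations in a computable copy. -/
def StmtQL : Prop := ∀ (M : Type) [LinearOrder M] (φ : ℕ ≃ M) (lt : ℕ × ℕ → Prop),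
  (∀ a b, lt (a, b) ↔ φ a < φ b) → Dl Z 0 lt →
  Sg Z 1 (fun q : ℕ × ℕ => ¬ Loc q.1 (fun i => φ (dec q.2 i)))

/-- QP: the insertion sequences of a computable copy are computable. -/
def StmtQP : Prop := ∀ (M : Type) [LinearOrder M] (φ : ℕ ≃ M) (lt : ℕ × ℕ → Prop),
  (∀ a b, lt (a, b) ↔ φ a < φ b) → Dl Z 0 lt →
  Computable (fun x : ℕ × ℕ × ℕ =>
    qp φ (φ (dec x.2.1 (2 * x.1 + 3))) (φ (dec x.2.1 (2 * x.1 + 5))) x.2.2)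

/-- N: diagonalisation against computable copies. -/
def StmtNo : Prop := ∃ D : Data, D.ok ∧ ∀ t : ℕ → Typ, Set.range t = Fam D →
  ∀ lt : ℕ × ℕ → Prop, Dl Z 0 lt → ∀ φ : ℕ ≃ Lo t, ¬ ∀ a b, lt (a, b) ↔ φ a < φ b

/-! ### Computability tools -/

/-- C0: total functions with lightface `Σ₁` graph are computable. -/
def StmtC0 : Prop := ∀ (α β : Type) [Primcodable α] [Primcodable β] (f : α → β),
  Sg Z 0 (fun q : α × β => f q.1 = q.2) → Computable f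

/-- C1: primitive recursion for functions with `Σ₁(X)` graph. -/
def StmtC1 : Prop := ∀ (X : ℕ → ℕ) (α β : Type) [Primcodable α] [Primcodable β]
  (f : α → ℕ → β) (h : (α × ℕ) × β → β),
  Sg X 0 (fun q : α × β => f q.1 0 = q.2) → Sg X 0 (fun q : ((α × ℕ) × β) × β => h q.1 = q.2) →
  (∀ x n, f x (n + 1) = h ((x, n), f x n)) →
  Sg X 0 (fun q : (α × ℕ) × β => f q.1.1 q.1.2 = q.2)

/-- C2: counting and least elements. -/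
def StmtC2 : Prop := ∀ (X : ℕ → ℕ) (α : Type) [Primcodable α] (P : α × ℕ → Prop), Dl X 0 P →
  (open Classical in
    Sg X 0 (fun q : (α × ℕ) × ℕ => ((Finset.range q.1.2).filter fun j => P (q.1.1, j)).card = q.2)) ∧
  Dl X 0 (fun q : α × ℕ => ∀ j, j < q.2 → P (q.1, j)) ∧
  ((∀ x, ∃ n, P (x, n)) → Sg X 0 (fun q : α × ℕ => sInf {n | P (q.1, n)} = q.2))

/-- LI: a downward closed `Σ₂(X)` set of numbers as a limit inferior. -/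
def StmtLI : Prop := ∀ (X : ℕ → ℕ) (ι : Type) [Primcodable ι] (Q : ι → ℕ → Prop),
  (∀ i n n', n ≤ n' → Q i n' → Q i n) → Sg X 1 (fun q : ι × ℕ => Q q.1 q.2) →
  ∃ w : ι → ℕ → ℕ, Sg X 0 (fun q : (ι × ℕ) × ℕ => w q.1.1 q.1.2 = q.2) ∧
    ∀ i n, Q i n ↔ ∃ s0, ∀ s, s0 ≤ s → n < w i s

/-- CC: complexity of chains. -/
def StmtCC : Prop := ∀ D : Data, D.ok →
  Sg Z 1 (fun q : (ℕ × ℕ) × Node × ℕ => Ch (D.p q.1.1 q.1.2) q.2.2 q.2.1)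

/-- OG: the outer guesses. -/
def StmtOG : Prop := ∀ D : Data, D.ok → ∃ γ : ℕ × Option Node → ℕ → ℕ × ℕ,
  Computable (fun q : (ℕ × Option Node) × ℕ => γ q.1 q.2) ∧ ∀ e st,
    (∀ g, IsLim (γ (e, st)) g → fst D e g.1) ∧
    (∀ l, fst D e l → (∃ x, st = some x ∧ Ex (D.p e l) x) → ∀ g, ¬ IsLim (γ (e, st)) g) ∧
    (∀ l, fst D e l → (¬ ∃ x, st = some x ∧ Ex (D.p e l) x) →
      ∃ d, IsLim (γ (e, st)) (l, d) ∧ (st = none → d = 0))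

/-- WI: the windows. -/
def StmtWI : Prop := ∀ (γ : ℕ → ℕ × ℕ) (F : ℕ → ℕ), StrictMono F →
  (∀ m, (∃ t, F m ≤ t ∧ t < F (m + 1) ∧ γ t = win γ F m) ∧
    ∀ t, F m ≤ t → t < F (m + 1) → ¬ lexlt (γ t) (win γ F m)) ∧
  ∀ v, IsLim (win γ F) v ↔ IsLim γ v

/-- BA: the phases. -/
def StmtBA : Prop := ∀ g : ℕ → ℕ × ℕ,
  (∀ m, kk g m ≤ m ∧ ∀ m', kk g m ≤ m' → m' < m → ¬ lexlt (g m') (g m)) ∧
  (∀ v, IsLim g v → (∀ b, ∃ m0, ∀ m, m0 ≤ m → g m ≠ v → b ≤ kk g m) ∧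
    ∃ s, (∀ m, s ≤ m → ¬ lexlt (g m) v) ∧ ∀ m, s ≤ m → g m = v → kk g m = s) ∧
  ((∀ v, ¬ IsLim g v) → InfT (kk g))

/-! ### Hyperimmune oracles -/

/-- `f` is a witness of hyperimmunity -/
def Esc (f : ℕ → ℕ) : Prop :=
  StrictMono f ∧ ∀ h : ℕ → ℕ, Computable h → ∀ n0, ∃ n, n0 ≤ n ∧ h n ≤ f n

/-- H1: the true path. -/
def StmtH1 : Prop := ∀ (P : ℕ → ℕ → Pt) (u : ℕ × ℕ) (F : ℕ → ℕ) (g : ℕ → ℕ × ℕ) (v : ℕ × ℕ),
  StrictMono F → 1 ≤ u.1 → 1 ≤ u.2 → IsLim g v →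
  (∃ j, LimT (TT P u F g) j ∧
    ∀ a, F j ≤ a → (∀ t, a ≤ t → ¬ hit (P v.1) u j t) → (a = F j ∨ hit (P v.1) u j (a - 1)) →
      ∀ j', j < j' → g (j' - 1) = v → ¬ cc (P v.1) u F j a j') ∨
  (InfT (TT P u F g) ∧ EE (P v.1))

/-- H2: the escape argument. -/
def StmtH2 : Prop := ∀ (p : ℕ → Pt) (γ : ℕ → ℕ × ℕ) (f : ℕ → ℕ) (n0 : ℕ) (u v : ℕ × ℕ) (j a : ℕ),
  Computable p → Computable γ → Esc f → 1 ≤ u.1 → 1 ≤ u.2 → IsLim γ v →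
  (∀ c, Lim p c (zz (sel c u) j)) →
  ∃ j', j < j' ∧ win γ (fun m => f (n0 + m)) (j' - 1) = v ∧ cc p u (fun m => f (n0 + m)) j a j'

/-- H3: realisation of the start value. -/
def StmtH3 : Prop := ∀ (P : ℕ → ℕ → Pt) (u v : ℕ × ℕ) (γ : ℕ → ℕ × ℕ),
  IsLim γ v → (¬ ∀ c, Lim (P v.1) c (sel c u)) →
  ∃ a0, ∀ F : ℕ → ℕ, StrictMono F → a0 ≤ F 0 → LimT (TT P u F (win γ F)) 0

/-- HC: complexity of the tops. -/
def StmtHC : Prop := ∀ (X : ℕ → ℕ) (ι : Type) [Primcodable ι] (P : ι → ℕ → ℕ → Pt)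
  (u : ι → ℕ × ℕ) (F : ι → ℕ → ℕ) (g : ι → ℕ → ℕ × ℕ),
  Computable (fun q : ι × ℕ × ℕ => P q.1 q.2.1 q.2.2) → Computable u → (∀ i, StrictMono (F i)) →
  Sg X 0 (fun q : (ι × ℕ) × ℕ => F q.1.1 q.1.2 = q.2) →
  Sg X 0 (fun q : (ι × ℕ) × (ℕ × ℕ) => g q.1.1 q.1.2 = q.2) →
  Sg X 0 (fun q : (ι × ℕ) × ℕ => TT (P q.1.1) (u q.1.1) (F q.1.1) (g q.1.1) q.1.2 = q.2)

/-- WC: complexity of the windows. -/
def StmtWC : Prop := ∀ (X : ℕ → ℕ) (ι : Type) [Primcodable ι] (γ : ι → ℕ → ℕ × ℕ)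
  (F : ι → ℕ → ℕ), Computable (fun q : ι × ℕ => γ q.1 q.2) → (∀ i, StrictMono (F i)) →
  Sg X 0 (fun q : (ι × ℕ) × ℕ => F q.1.1 q.1.2 = q.2) →
  Sg X 0 (fun q : (ι × ℕ) × (ℕ × ℕ) => win (γ q.1.1) (F q.1.1) q.1.2 = q.2) ∧
  Sg X 0 (fun q : (ι × ℕ) × ℕ => kk (win (γ q.1.1) (F q.1.1)) q.1.2 = q.2)

/-- RH: hyperimmune oracles realise the family. -/
def StmtRH : Prop := ∀ D : Data, D.ok → ∀ X f : ℕ → ℕ, Esc f →
  Sg X 0 (fun q : ℕ × ℕ => f q.1 = q.2) → Rz X Idx (Fam D)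

/-! ### Oracles which are not low -/

/-- W1: the chase stops. -/
def StmtW1 : Prop := ∀ A : ℕ → Prop, ¬ Dl Z 1 A → ∀ p : ℕ → Pt, Computable p → ∀ u n0,
  ∃ i, ¬ Pass A p u n0 i

/-- W2: the final vector. -/
def StmtW2 : Prop := ∀ (A : ℕ → Prop) (p : ℕ → Pt) (u : ℕ × ℕ) (n0 : ℕ),
  (∃ i, ¬ Pass A p u n0 i) → ∃ i, (∀ c n, QW A p u n0 c n ↔ n < sel c (kap A u i)) ∧
    ¬ ∀ c, Lim p c (sel c (kap A u i))

/-- W3: start values which are not met. -/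
def StmtW3 : Prop := ∀ (A : ℕ → Prop) (p : ℕ → Pt) (u : ℕ × ℕ), (¬ ∀ c, Lim p c (sel c u)) →
  ∃ a0, ∀ n0, a0 ≤ n0 → ¬ Pass A p u n0 0

/-- W4: complexity of the chase. -/
def StmtW4 : Prop := ∀ D : Data, D.ok → ∀ (X : ℕ → ℕ) (A : ℕ → Prop), Sg X 0 A →
  Sg X 1 (fun q : ((ℕ × ℕ) × (ℕ × ℕ) × ℕ × Bool) × ℕ =>
    QW A (D.p q.1.1.1 q.1.1.2) q.1.2.1 q.1.2.2.1 q.1.2.2.2 q.2)

/-- RN: oracles which are not low realise the family. -/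
def StmtRN : Prop := ∀ D : Data, D.ok → ∀ (X : ℕ → ℕ) (A : ℕ → Prop), Sg X 0 A → ¬ Dl Z 1 A →
  Rz X Idx (Fam D)

/-! ### Interface -/

/-- DI: the dichotomy. -/
def StmtDI : Prop := ∀ X : ℕ → ℕ, ¬ Computable X →
  (∃ A : ℕ → Prop, Sg X 0 A ∧ ¬ Dl Z 1 A) ∨
  ∃ f : ℕ → ℕ, Esc f ∧ Sg X 0 (fun q : ℕ × ℕ => f q.1 = q.2)

/-- DO: computable oracles. -/
def StmtDO : Prop := ∀ X : ℕ → ℕ, Computable X → ∀ {α : Type} [Primcodable α] (P : α → Prop),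
  Sg X 0 P → Sg Z 0 P

/-- the main theorem -/
def StmtMain : Prop :=
  ∃ R : ℕ → ℕ → Bool,
    (∀ a, R a a = true) ∧
    (∀ a b c, R a b = true → R b c = true → R a c = true) ∧
    (∀ a b, R a b = true → R b a = true → a = b) ∧
    (∀ a b, R a b = true ∨ R b a = true) ∧
    ∀ X : ℕ → ℕ, ((¬ Computable X) ↔
      ∃ S : ℕ → ℕ → Bool,
        (∃ e : ℕ ≃ ℕ, ∀ a b, R a b = S (e a) (e b)) ∧
        TuringReducible
          (PFun.lift (fun p : ℕ => (S (Nat.unpair p).1 (Nat.unpair p).2).toNat))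
          (PFun.lift X) ∧
        TuringReducible (PFun.lift X)
          (PFun.lift (fun p : ℕ => (S (Nat.unpair p).1 (Nat.unpair p).2).toNat)))

end Pool.Agent.Downey
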